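import Mathlib
import Pool.Agent.R915.Stm2
import Pool.Agent.W547.LN.Defs

/-!
# Exceptional configurations of abelian varieties of CM type: definitions
-/

set_option autoImplicit false

namespace Pool.Agent.K4H29.HC

open Module Pool.Agent.Y90 Pool.Agent.R915 Pool.Agent.W547.KB Pool.Agent.W547.LN
open Pool.Agent.H204R3.CM (IsHodge)

/-- The CM type `(E, Φ)` is primitive: two embeddings `φ`, `ψ` of the CM field `E` are equal if for
all automorphisms `τ` of the field of complex numbers `τ ∘ φ` belongs to `Φ` if and only if `τ ∘ ψ`
does. This means that the abelian variety of type `(E, Φ)` is simple. -/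
def Primitive (A : CMPair) : Prop :=
  ∀ φ ψ : A.E →+* ℂ, (∀ τ : ℂ ≃+* ℂ, (τ : ℂ →+* ℂ).comp φ ∈ A.Φ ↔ (τ : ℂ →+* ℂ).comp ψ ∈ A.Φ) →
    φ = ψ

/-- The simple abelian variety of CM type `(E, Φ)`, with rational homology `E`, tangent space
`ℂ ^ Φ` and the embeddings `φ ∈ Φ` as period map, is (isogenous to) an abelian subvariety
of `X`. -/
def IsCMFactor (A : CMPair) (X : AV) : Prop :=
  Primitive A ∧ ∃ (i : A.E →ₗ[ℚ] X.H) (Ψ : (A.Φ → ℂ) →ₗ[ℂ] X.T), Function.Injective i ∧
    ∀ a, Ψ (fun φ => φ.1 a) = X.per (i a)

/-- There are no exceptional configurations in the class `T` of CM types.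

* `three`: there are no three pairwise non-isomorphic types in `T`, of dimension two or three, whose
  CM fields have the same Galois closure over `ℚ` (in the field of complex numbers), of degree at
  most twelve;
* `four`: there are no four pairwise non-isomorphic types in `T` of dimension three with isomorphic
  CM fields.

(The closures of degree at most twelve in `three` are the closures of the non-Galois quartic CM fields,
of degree eight with the dihedral group, and of the non-Galois sextic CM fields with an imaginary
quadratic subfield, of degree twelve. There are four primitive types with each of the former closures,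
and six with each of the latter.) -/
structure NoExceptional (T : CMPair → Prop) : Prop where
  three : ∀ A B C : CMPair, T A → T B → T C → ¬ SameType A B → ¬ SameType A C → ¬ SameType B C →
    2 < finrank ℚ A.E → 2 < finrank ℚ B.E → 2 < finrank ℚ C.E →
    IntermediateField.normalClosure ℚ A.E ℂ = IntermediateField.normalClosure ℚ B.E ℂ →
    IntermediateField.normalClosure ℚ A.E ℂ = IntermediateField.normalClosure ℚ C.E ℂ →
    12 < finrank ℚ (IntermediateField.normalClosure ℚ A.E ℂ)
  four : ∀ A : Fin 4 → CMPair, (∀ i, T (A i)) → (∀ i k, i ≠ k → ¬ SameType (A i) (A k)) →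
    (∀ i, finrank ℚ (A i).E = 6) → ¬ ∀ i, Nonempty ((A i).E ≃+* (A 0).E)

end Pool.Agent.K4H29.HC
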