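import Mathlib
import Pool.Agent.R915.Stm2

/-!
# Products of abelian varieties
-/

set_option autoImplicit false

namespace Pool.Agent.K4H29.HC

open Module Pool.Agent.Y90 Pool.Agent.R915
open Pool.Agent.H204R3.CM (IsHodge)

noncomputable section

/-- The product of a finite family of abelian varieties. -/
def prodAV {κ : Type} [Fintype κ] (X : κ → AV) : AV where
  H := ∀ k, (X k).H
  T := ∀ k, (X k).T
  per :=
    { toFun := fun v k => (X k).per (v k)
      map_zero' := funext fun k => map_zero (X k).per
      map_add' := fun v w => funext fun k => map_add (X k).per (v k) (w k) }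
  span := by
    classical
    rw [eq_top_iff]
    intro t _
    have h1 : t = ∑ k, Pi.single k (t k) := (Finset.univ_sum_single t).symm
    rw [h1]
    refine Submodule.sum_mem _ fun k _ => ?_
    have h2 : t k ∈ Submodule.span ℝ (Set.range (X k).per) := by
      rw [(X k).span]
      exact Submodule.mem_top
    generalize t k = s0 at h2
    induction h2 using Submodule.span_induction with
    | mem s hs =>
      obtain ⟨v, rfl⟩ := hs
      refine Submodule.subset_span ⟨Pi.single k v, ?_⟩
      funext l
      change (X l).per ((Pi.single k v : ∀ k, (X k).H) l) = _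
      by_cases h : l = k
      · subst h
        rw [Pi.single_eq_same, Pi.single_eq_same]
      · rw [Pi.single_eq_of_ne h, Pi.single_eq_of_ne h, map_zero]
    | zero =>
      rw [Pi.single_zero]
      exact Submodule.zero_mem _
    | add x y _ _ hx hy =>
      rw [Pi.single_add]
      exact Submodule.add_mem _ hx hy
    | smul r x _ hx =>
      rw [Pi.single_smul]
      exact Submodule.smul_mem _ _ hx
  rank := by
    rw [finrank_pi_fintype, finrank_pi_fintype, Finset.mul_sum]
    exact Finset.sum_congr rfl fun k _ => (X k).rank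
  pol := by
    choose E Ψ hl hc hp hE using fun k => (X k).pol
    refine ⟨fun v w => ∑ k, E k (v k) (w k), fun s t => ∑ k, Ψ k (s k) (t k), fun u' => ?_,
      fun u u' => ?_, fun u hu => ?_, fun v w => ?_⟩
    · refine ⟨fun s t => ?_, fun c s => ?_⟩
      · rw [← Finset.sum_add_distrib]
        exact Finset.sum_congr rfl fun k _ => (hl k (u' k)).map_add (s k) (t k)
      · rw [smul_eq_mul, Finset.mul_sum]
        exact Finset.sum_congr rfl fun k _ => (hl k (u' k)).map_smul c (s k)
    · rw [map_sum]
      exact Finset.sum_congr rfl fun k _ => hc k (u k) (u' k)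
    · have h0 : ∀ k, 0 ≤ (Ψ k (u k) (u k)).re := by
        intro k
        by_cases h : u k = 0
        · have h1 : Ψ k 0 0 = 0 := by
            have h2 := (hl k 0).map_smul 0 0
            rw [zero_smul, zero_smul] at h2
            exact h2
          rw [h, h1, Complex.zero_re]
        · exact (hp k (u k) h).le
      obtain ⟨k, hk⟩ : ∃ k, u k ≠ 0 := by
        by_contra hcon
        push Not at hcon
        exact hu (funext hcon)
      rw [Complex.re_sum]
      exact Finset.sum_pos' (fun k _ => h0 k) ⟨k, Finset.mem_univ k, hp k _ hk⟩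
    · rw [Complex.im_sum, Rat.cast_sum]
      exact Finset.sum_congr rfl fun k _ => hE k (v k) (w k)

/-- The power `X ^ n` of the abelian variety `X`. -/
def pow (X : AV) (n : ℕ) : AV := prodAV fun _ : Fin n => X

section

variable {κ : Type} [Fintype κ] {X : κ → AV}

theorem isHom_proj (k : κ) : IsHom (prodAV X) (X k) (LinearMap.proj k) :=
  ⟨LinearMap.proj k, fun _ => rfl⟩

theorem isHom_pi {Y : AV} (f : ∀ k, Y.H →ₗ[ℚ] (X k).H) (hf : ∀ k, IsHom Y (X k) (f k)) :
    IsHom Y (prodAV X) (LinearMap.pi f) := by
  choose Ψ hΨ using hf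
  exact ⟨LinearMap.pi Ψ, fun v => funext fun k => hΨ k v⟩

theorem isHom_single [DecidableEq κ] (k : κ) :
    IsHom (X k) (prodAV X) (LinearMap.single ℚ (fun k => (X k).H) k) := by
  refine ⟨LinearMap.single ℂ (fun k => (X k).T) k, fun v => funext fun l => ?_⟩
  change (Pi.single k ((X k).per v) : ∀ k, (X k).T) l = (X l).per ((Pi.single k v : ∀ k, (X k).H) l)
  by_cases h : l = k
  · subst h
    rw [Pi.single_eq_same, Pi.single_eq_same]
  · rw [Pi.single_eq_of_ne h, Pi.single_eq_of_ne h, map_zero]

/-- Products of homomorphisms. -/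
theorem isHom_map {Y : κ → AV} (f : ∀ k, (X k).H →ₗ[ℚ] (Y k).H) (hf : ∀ k, IsHom (X k) (Y k) (f k)) :
    IsHom (prodAV X) (prodAV Y) (LinearMap.pi fun k => (f k).comp (LinearMap.proj k)) := by
  choose Ψ hΨ using hf
  exact ⟨LinearMap.pi fun k => (Ψ k).comp (LinearMap.proj k), fun v => funext fun k => hΨ k (v k)⟩

end

end

end Pool.Agent.K4H29.HC
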