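import Mathlib
import Pool.Agent.R915.H2
import Pool.Agent.R915.G6

/-!
# Abelian varieties: real extensions and adjoints
-/

set_option linter.unusedSectionVars false
set_option linter.unusedVariables false

namespace Pool.Agent.K4H29.HC

open Module Pool.Agent.Y90 Pool.Agent.R915
open Pool.Agent.H204R3.CM (IsHodge)

noncomputable section

/-- Real linear maps which agree on the periods are equal. -/
theorem real_ext (X : AV) {V : Type*} [AddCommGroup V] [Module ℝ V] {f g : X.T →ₗ[ℝ] V}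
    (h : ∀ v, f (X.per v) = g (X.per v)) : f = g :=
  LinearMap.ext_on_range X.span h

/-- The period map is injective. -/
theorem per_inj (X : AV) : Function.Injective X.per := by
  rw [injective_iff_map_eq_zero]
  intro v hv
  let b := finBasis ℚ X.H
  obtain ⟨β, hβ⟩ := exists_realBasis X b
  have h2 := β.linearIndependent
  rw [Fintype.linearIndependent_iff] at h2
  have h3 := h2 (fun i => ((b.repr v i : ℚ) : ℝ)) (by
    rw [← hv]
    conv_rhs => rw [← b.sum_repr v, map_sum]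
    refine Finset.sum_congr rfl fun i _ => ?_
    rw [Pool.Agent.Y90.per_smul, hβ])
  rw [← b.sum_repr v]
  refine Finset.sum_eq_zero fun i _ => ?_
  have h4 : b.repr v i = 0 := by exact_mod_cast h3 i
  rw [h4, zero_smul]

/-- The real extension of an additive map. -/
theorem exists_rext (X : AV) {V : Type*} [AddCommGroup V] [Module ℝ V]
    (g : X.H →+ V) : ∃ G : X.T →ₗ[ℝ] V, ∀ v, G (X.per v) = g v := by
  let b := finBasis ℚ X.H
  obtain ⟨β, hβ⟩ := exists_realBasis X b
  refine ⟨β.constr ℝ fun i => g (b i), fun v => ?_⟩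
  conv_lhs => rw [← b.sum_repr v]
  conv_rhs => rw [← b.sum_repr v]
  rw [map_sum, map_sum, map_sum]
  refine Finset.sum_congr rfl fun i _ => ?_
  rw [Pool.Agent.Y90.per_smul, map_smul, ← hβ, Basis.constr_basis]
  have h1 := map_ratCast_smul g ℚ ℝ (b.repr v i) (b i)
  rw [Rat.cast_id] at h1
  exact h1.symm

/-- Homomorphisms are the maps whose real extension is complex linear. -/
theorem hom_of_real {X Y : AV} (h : X.H →ₗ[ℚ] Y.H) (G : X.T →ₗ[ℝ] Y.T)
    (hG : ∀ v, G (X.per v) = Y.per (h v)) (hI : ∀ t, G (Complex.I • t) = Complex.I • G t) :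
    IsHom X Y h := by
  refine ⟨{ toFun := G, map_add' := G.map_add, map_smul' := fun z t => ?_ }, hG⟩
  rw [RingHom.id_apply]
  have h1 : z • t = z.re • t + z.im • (Complex.I • t) := by
    conv_lhs => rw [← Complex.re_add_im z]
    rw [add_smul, mul_smul]
    rfl
  have h2 : z • G t = z.re • G t + z.im • (Complex.I • G t) := by
    conv_lhs => rw [← Complex.re_add_im z]
    rw [add_smul, mul_smul]
    rfl
  rw [h1, h2, map_add, G.map_smul, G.map_smul, hI]

theorem isHom_id (X : AV) : IsHom X X LinearMap.id := ⟨LinearMap.id, fun _ => rfl⟩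

theorem isHom_zero (X Y : AV) : IsHom X Y 0 := ⟨0, fun _ => by
  rw [LinearMap.zero_apply, LinearMap.zero_apply, map_zero]⟩

theorem isHom_add {X Y : AV} {f g : X.H →ₗ[ℚ] Y.H} (hf : IsHom X Y f) (hg : IsHom X Y g) :
    IsHom X Y (f + g) := by
  obtain ⟨Ψ, hΨ⟩ := hf
  obtain ⟨Φ, hΦ⟩ := hg
  refine ⟨Ψ + Φ, fun v => ?_⟩
  rw [LinearMap.add_apply, LinearMap.add_apply, hΨ, hΦ, map_add]

theorem isHom_smul {X Y : AV} {f : X.H →ₗ[ℚ] Y.H} (q : ℚ) (hf : IsHom X Y f) :
    IsHom X Y (q • f) := by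
  obtain ⟨Ψ, hΨ⟩ := hf
  refine ⟨((q : ℝ) : ℂ) • Ψ, fun v => ?_⟩
  rw [LinearMap.smul_apply, LinearMap.smul_apply, hΨ, Pool.Agent.Y90.per_smul]
  rfl

theorem isHom_neg {X Y : AV} {f : X.H →ₗ[ℚ] Y.H} (hf : IsHom X Y f) : IsHom X Y (-f) := by
  have h1 := isHom_smul (-1) hf
  rwa [neg_one_smul] at h1

theorem isHom_sub {X Y : AV} {f g : X.H →ₗ[ℚ] Y.H} (hf : IsHom X Y f) (hg : IsHom X Y g) :
    IsHom X Y (f - g) := by
  rw [sub_eq_add_neg]
  exact isHom_add hf (isHom_neg hg)

/-- A homomorphism of a simple abelian variety is zero if it kills a nonzero element. -/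
theorem simple_hom_zero {X Y : AV} (hX : IsSimple X) {f : X.H →ₗ[ℚ] Y.H} (hf : IsHom X Y f)
    {x : X.H} (hx : x ≠ 0) (h0 : f x = 0) : f = 0 := by
  rcases hX.2 _ (isSub_ker hf) with h1 | h1
  · exfalso
    apply hx
    have h2 : x ∈ LinearMap.ker f := h0
    rwa [h1, Submodule.mem_bot] at h2
  · exact LinearMap.ker_eq_top.1 h1

/-- A polarization with its rational and its real form. -/
structure PolD (Y : AV) where
  ω : Y.H →ₗ[ℚ] Y.H →ₗ[ℚ] ℚ
  B : Y.T →ₗ[ℝ] Y.T →ₗ[ℝ] ℝ
  per : ∀ v w, B (Y.per v) (Y.per w) = ω v w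
  skew : ∀ s t, B s t = -B t s
  im : ∀ s t, B (Complex.I • s) t = -B s (Complex.I • t)
  pos : ∀ t, t ≠ 0 → 0 < B (Complex.I • t) t

theorem exists_polD (Y : AV) : Nonempty (PolD Y) := by
  obtain ⟨E, hE⟩ := Y.pol
  obtain ⟨ω, hω, -, -⟩ := pol_form Y hE
  obtain ⟨Ψ, hΨl, hΨc, hΨp, hE⟩ := hE
  have hadd : ∀ u v w, Ψ (u + v) w = Ψ u w + Ψ v w := fun u v w => (hΨl w).map_add u v
  have hsmul : ∀ (c : ℂ) u w, Ψ (c • u) w = c * Ψ u w := fun c u w => (hΨl w).map_smul c u
  have hadd' : ∀ u v w, Ψ w (u + v) = Ψ w u + Ψ w v := by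
    intro u v w
    rw [hΨc (u + v) w, hadd, map_add, ← hΨc, ← hΨc]
  have hrs : ∀ (r : ℝ) u w, Ψ (r • u) w = r * Ψ u w := by
    intro r u w
    rw [show r • u = (r : ℂ) • u from rfl, hsmul]
  have hrs' : ∀ (r : ℝ) u w, Ψ w (r • u) = r * Ψ w u := by
    intro r u w
    rw [hΨc (r • u) w, hrs, map_mul, Complex.conj_ofReal, ← hΨc]
  have hanti : ∀ u w, (Ψ u w).im = -(Ψ w u).im := by
    intro u w
    rw [hΨc w u, Complex.conj_im]
  have hI : ∀ u w, Ψ u (Complex.I • w) = -Complex.I * Ψ u w := by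
    intro u w
    rw [hΨc (Complex.I • w) u, hsmul, map_mul, ← hΨc, Complex.conj_I]
  let Bf : Y.T →ₗ[ℝ] Y.T →ₗ[ℝ] ℝ := LinearMap.mk₂ ℝ (fun u v => (Ψ u v).im)
    (fun u v w => by rw [hadd, Complex.add_im]) (fun r u v => by
      rw [hrs, Complex.im_ofReal_mul, smul_eq_mul])
    (fun u v w => by rw [hadd', Complex.add_im]) (fun r u v => by
      rw [hrs', Complex.im_ofReal_mul, smul_eq_mul])
  refine ⟨{ ω := ω, B := Bf, per := ?_, skew := ?_, im := ?_, pos := ?_ }⟩
  · intro v w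
    rw [hω]
    exact hE v w
  · exact fun s t => hanti s t
  · intro s t
    change (Ψ (Complex.I • s) t).im = -(Ψ s (Complex.I • t)).im
    rw [hsmul, hI, neg_mul, Complex.neg_im, neg_neg]
  · intro t ht
    change 0 < (Ψ (Complex.I • t) t).im
    rw [hsmul, Complex.mul_im, Complex.I_re, Complex.I_im, zero_mul, one_mul, zero_add]
    exact hΨp t ht

section adj

variable {X Y Z : AV}

theorem PolD.skew' (p : PolD X) (v w : X.H) : p.ω v w = -p.ω w v := by
  have h1 := p.skew (X.per v) (X.per w)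
  rw [p.per, p.per] at h1
  exact_mod_cast h1

theorem PolD.nondeg_real (p : PolD X) {t : X.T} (h : ∀ s, p.B s t = 0) : t = 0 := by
  by_contra hne
  have h1 := p.pos t hne
  rw [h] at h1
  exact lt_irrefl _ h1

theorem PolD.nondeg (p : PolD X) {w : X.H} (h : ∀ v, p.ω v w = 0) : w = 0 := by
  apply per_inj X
  rw [map_zero]
  apply p.nondeg_real
  intro s
  have h1 : (p.B.flip (X.per w)) = 0 := real_ext X fun v => by
    rw [LinearMap.flip_apply, p.per, h, LinearMap.zero_apply, Rat.cast_zero]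
  have h2 := congrArg (fun φ => φ s) h1
  exact h2

/-- The identification with the dual space. -/
def PolD.dual (p : PolD X) : X.H ≃ₗ[ℚ] (X.H →ₗ[ℚ] ℚ) :=
  LinearEquiv.ofBijective p.ω.flip (by
    have h1 : Function.Injective p.ω.flip := by
      rw [← LinearMap.ker_eq_bot, LinearMap.ker_eq_bot']
      intro u hu
      exact p.nondeg fun v => congrArg (fun φ => φ v) hu
    exact ⟨h1, (LinearMap.injective_iff_surjective_of_finrank_eq_finrank
      (Subspace.dual_finrank_eq (K := ℚ) (V := X.H)).symm).1 h1⟩)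

theorem PolD.dual_symm (p : PolD X) (l : X.H →ₗ[ℚ] ℚ) (v : X.H) : p.ω v (p.dual.symm l) = l v := by
  have h1 : p.dual (p.dual.symm l) = l := LinearEquiv.apply_symm_apply _ _
  have h2 := congrArg (fun φ => φ v) h1
  exact h2

/-- A bilinear form which is given by a map. -/
theorem PolD.exists_map (p : PolD X) (β : Y.H →ₗ[ℚ] X.H →ₗ[ℚ] ℚ) :
    ∃ g : Y.H →ₗ[ℚ] X.H, ∀ x y, p.ω x (g y) = β y x :=
  ⟨p.dual.symm.toLinearMap.comp β, fun x y => p.dual_symm _ _⟩

/-- A bilinear form of type (1,1) is given by a homomorphism. -/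
theorem PolD.exists_hom (p : PolD X) (β : Y.H →ₗ[ℚ] X.H →ₗ[ℚ] ℚ)
    (βr : Y.T →ₗ[ℝ] X.T →ₗ[ℝ] ℝ) (hβ : ∀ y x, βr (Y.per y) (X.per x) = β y x)
    (hI : ∀ s t, βr (Complex.I • s) t = -βr s (Complex.I • t)) :
    ∃ g : Y.H →ₗ[ℚ] X.H, IsHom Y X g ∧ ∀ x y, p.ω x (g y) = β y x := by
  obtain ⟨g, hg⟩ := p.exists_map β
  obtain ⟨G, hG⟩ := exists_rext Y (X.per.comp g.toAddMonoidHom)
  have hG' : ∀ v, G (Y.per v) = X.per (g v) := hG
  have key : ∀ s t, p.B s (G t) = βr t s := by
    intro s t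
    have h1 : (p.B.compr₂ LinearMap.id).flip ∘ₗ G = βr := by
      refine real_ext Y fun y => ?_
      refine real_ext X fun x => ?_
      change p.B (X.per x) (G (Y.per y)) = _
      rw [hG', p.per, hg, hβ]
    have h2 := congrArg (fun φ => φ t s) h1
    exact h2
  refine ⟨g, hom_of_real g G hG' fun t => ?_, hg⟩
  rw [← sub_eq_zero]
  apply p.nondeg_real
  intro s
  rw [map_sub, key, hI]
  have h1 := p.im s (G t)
  have h2 := key (Complex.I • s) t
  rw [h2] at h1
  linarith

/-- Adjoints of homomorphisms. -/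
theorem exists_adj (p : PolD X) (q : PolD Y) {f : X.H →ₗ[ℚ] Y.H} (hf : IsHom X Y f) :
    ∃ g : Y.H →ₗ[ℚ] X.H, IsHom Y X g ∧ ∀ x y, p.ω x (g y) = q.ω (f x) y := by
  obtain ⟨Ψ, hΨ⟩ := hf
  exact p.exists_hom ((q.ω.comp f).flip)
    ((q.B.comp (Ψ.restrictScalars ℝ)).flip) (fun y x => by
      change q.B (Ψ (X.per x)) (Y.per y) = _
      rw [hΨ, q.per]
      rfl) (fun s t => by
      change q.B (Ψ t) (Complex.I • s) = -q.B (Ψ (Complex.I • t)) s
      rw [Ψ.map_smul, q.im, neg_neg])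

/-- The composite of a homomorphism with its adjoint. -/
theorem adj_inj (p : PolD X) (q : PolD Y) {f : X.H →ₗ[ℚ] Y.H} (hf : IsHom X Y f)
    {g : Y.H →ₗ[ℚ] X.H} (hg : IsHom Y X g) (hfg : ∀ x y, p.ω x (g y) = q.ω (f x) y) {x : X.H}
    (hx : g (f x) = 0) : f x = 0 := by
  obtain ⟨Ψ, hΨ⟩ := hf
  obtain ⟨Φ, hΦ⟩ := hg
  have key : ∀ s t, p.B s (Φ t) = q.B (Ψ s) t := by
    intro s t
    have h1 : p.B.flip ∘ₗ (Φ.restrictScalars ℝ) = (q.B.comp (Ψ.restrictScalars ℝ)).flip := by
      refine real_ext Y fun y => ?_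
      refine real_ext X fun x => ?_
      change p.B (X.per x) (Φ (Y.per y)) = q.B (Ψ (X.per x)) (Y.per y)
      rw [hΦ, hΨ, p.per, q.per, hfg]
    exact congrArg (fun φ => φ t s) h1
  by_contra hne
  have h1 : Y.per (f x) ≠ 0 := fun h => hne (per_inj Y (by rw [h, map_zero]))
  have h2 := q.pos _ h1
  have h3 := key (Complex.I • X.per x) (Y.per (f x))
  rw [hΦ, hx, map_zero, map_zero, map_smul, hΨ] at h3
  linarith

/-- Hodge classes of degree two are given by endomorphisms. -/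
theorem hodge_two (p : PolD X) {κ : Type} (hκ : Nat.card κ = 2) (f : X.H [⋀^κ]→ₗ[ℚ] ℚ)
    (hf : IsHodge X.per f) : ∃ (e : Fin 2 ≃ κ) (g : X.H →ₗ[ℚ] X.H), IsHom X X g ∧
      ∀ v : κ → X.H, f v = p.ω (v (e 0)) (g (v (e 1))) := by
  classical
  have : Finite κ := Nat.finite_of_card_ne_zero (by omega)
  have : Fintype κ := Fintype.ofFinite κ
  rw [Nat.card_eq_fintype_card] at hκ
  let e : Fin 2 ≃ κ := (Fintype.equivFinOfCardEq hκ).symm
  obtain ⟨ψ, hψ, hz⟩ := hf
  let r : Fin 2 → Fin 2 → Prop := fun _ _ => True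
  -- the two variables
  have hvv : ∀ {V : Type} (v : κ → V), (fun k => ![v (e 0), v (e 1)] (e.symm k)) = v := by
    intro V v
    funext k
    obtain ⟨i, rfl⟩ := e.surjective k
    rw [e.symm_apply_apply]
    fin_cases i <;> rfl
  have hup0 : ∀ {V : Type} (a b c : V), (fun k => ![a, b] (e.symm k)) =
      Function.update (fun k => ![c, b] (e.symm k)) (e 0) a := by
    intro V a b c
    funext k
    obtain ⟨i, rfl⟩ := e.surjective k
    rw [Function.update_apply, e.symm_apply_apply]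
    fin_cases i
    · exact (if_pos rfl).symm
    · rw [if_neg (fun h => by
        have h1 := e.injective h
        exact absurd h1 (by decide))]
      simp
  have hup1 : ∀ {V : Type} (a b c : V), (fun k => ![a, b] (e.symm k)) =
      Function.update (fun k => ![a, c] (e.symm k)) (e 1) b := by
    intro V a b c
    funext k
    obtain ⟨i, rfl⟩ := e.surjective k
    rw [Function.update_apply, e.symm_apply_apply]
    fin_cases i
    · rw [if_neg (fun h => by
        have h1 := e.injective h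
        exact absurd h1 (by decide))]
      simp
    · exact (if_pos rfl).symm
  let β : X.H →ₗ[ℚ] X.H →ₗ[ℚ] ℚ := LinearMap.mk₂ ℚ
    (fun y x => f (fun k => ![x, y] (e.symm k)))
    (fun a b c => by
      rw [hup1 c (a + b) 0, hup1 c a 0, hup1 c b 0, AlternatingMap.map_update_add])
    (fun q a b => by
      rw [hup1 b (q • a) 0, hup1 b a 0, AlternatingMap.map_update_smul])
    (fun a b c => by
      rw [hup0 (b + c) a 0, hup0 b a 0, hup0 c a 0, AlternatingMap.map_update_add])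
    (fun q a b => by
      rw [hup0 (q • b) a 0, hup0 b a 0, AlternatingMap.map_update_smul])
  let βr : X.T →ₗ[ℝ] X.T →ₗ[ℝ] ℝ := LinearMap.mk₂ ℝ
    (fun y x => ψ (fun k => ![x, y] (e.symm k)))
    (fun a b c => by
      rw [hup1 c (a + b) 0, hup1 c a 0, hup1 c b 0, MultilinearMap.map_update_add])
    (fun q a b => by
      rw [hup1 b (q • a) 0, hup1 b a 0, MultilinearMap.map_update_smul])
    (fun a b c => by
      rw [hup0 (b + c) a 0, hup0 b a 0, hup0 c a 0, MultilinearMap.map_update_add])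
    (fun q a b => by
      rw [hup0 (q • b) a 0, hup0 b a 0, MultilinearMap.map_update_smul])
  have hβr : ∀ s t, βr s t = ψ (fun k => ![t, s] (e.symm k)) := fun _ _ => rfl
  obtain ⟨g, hg, hg'⟩ := p.exists_hom (Y := X) β βr (fun y x => by
      rw [hβr]
      change _ = ((f (fun k => ![x, y] (e.symm k)) : ℚ) : ℝ)
      rw [← hψ]
      congr 1
      funext k
      obtain ⟨i, rfl⟩ := e.surjective k
      rw [e.symm_apply_apply]
      fin_cases i <;> rfl) (fun s t => by
      have h1 := hz Complex.I (by simp) (fun k => ![t, Complex.I • s] (e.symm k))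
      have h2 : (fun l => Complex.I • (![t, Complex.I • s] (e.symm l) : X.T)) =
          fun k => ![Complex.I • t, (-1 : ℝ) • s] (e.symm k) := by
        funext k
        obtain ⟨i, rfl⟩ := e.surjective k
        rw [e.symm_apply_apply]
        fin_cases i
        · rfl
        · change Complex.I • (Complex.I • s) = (-1 : ℝ) • s
          rw [smul_smul, Complex.I_mul_I, neg_one_smul, neg_one_smul]
      rw [h2] at h1
      change βr ((-1 : ℝ) • s) (Complex.I • t) = βr (Complex.I • s) t at h1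
      rw [← h1, LinearMap.map_smul, LinearMap.smul_apply, smul_eq_mul]
      ring)
  refine ⟨e, g, hg, fun v => ?_⟩
  rw [hg']
  change _ = f (fun k => ![v (e 0), v (e 1)] (e.symm k))
  rw [hvv]

end adj

end

end Pool.Agent.K4H29.HC
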