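import Mathlib
import Pool.Agent.K4H29.HC.Avt
import Pool.Agent.K4H29.HC.Defs

/-!
# The CM types of simple abelian varieties
-/

set_option linter.unusedSectionVars false
set_option linter.unusedVariables false

namespace Pool.Agent.K4H29.HC

open Module NumberField Pool.Agent.Y90 Pool.Agent.R915
open Pool.Agent.H204R3.CM (IsHodge IsCMType)
open Pool.Agent.W547.KB (CMPair)

noncomputable section

section emb

variable (K : Type) [Field K] [NumberField K]

theorem span_emb : Submodule.span ℂ (Set.range fun (a : K) (φ : K →+* ℂ) => φ a) = ⊤ := by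
  rw [eq_top_iff, ← (canonicalEmbedding.latticeBasis K).span_eq, Submodule.span_le]
  rintro _ ⟨i, rfl⟩
  rw [canonicalEmbedding.latticeBasis_apply]
  exact Submodule.subset_span ⟨_, rfl⟩

variable {K}

theorem emb_indep {ι : Type} [Fintype ι] (b : Basis ι ℚ K) :
    LinearIndependent ℂ fun (i : ι) (φ : K →+* ℂ) => φ (b i) := by
  classical
  refine linearIndependent_of_top_le_span_of_card_eq_finrank ?_ ?_
  · rw [← span_emb K, Submodule.span_le]
    rintro _ ⟨a, rfl⟩
    have h1 : (fun φ : K →+* ℂ => φ a) = ∑ i, ((b.repr a i : ℚ) : ℂ) •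
        (fun φ : K →+* ℂ => φ (b i)) := by
      funext φ
      rw [Finset.sum_apply]
      conv_lhs => rw [← b.sum_repr a, map_sum]
      refine Finset.sum_congr rfl fun i _ => ?_
      rw [Pi.smul_apply, smul_eq_mul, map_rat_smul, Rat.smul_def]
    change (fun φ : K →+* ℂ => φ a) ∈ _
    rw [h1]
    exact Submodule.sum_mem _ fun i _ => Submodule.smul_mem _ _ (Submodule.subset_span ⟨i, rfl⟩)
  · rw [finrank_fintype_fun_eq_card, Embeddings.card, finrank_eq_card_basis b]

/-- A complex combination of the elements of a basis is determined by the embeddings. -/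
theorem emb_zero {ι : Type} [Fintype ι] (b : Basis ι ℚ K) (x : ι → ℂ)
    (h : ∀ φ : K →+* ℂ, ∑ i, x i * φ (b i) = 0) : x = 0 := by
  have h1 := Fintype.linearIndependent_iff.1 (emb_indep b) x (by
    funext φ
    rw [Finset.sum_apply]
    exact h φ)
  exact funext h1

/-- The embeddings as linear maps. -/
def embL (φ : K →+* ℂ) : K →ₗ[ℚ] ℂ := φ.toRatAlgHom.toLinearMap

theorem embL_apply (φ : K →+* ℂ) (a : K) : embL φ a = φ a := rfl

theorem embL_indep : LinearIndependent ℂ (embL : (K →+* ℂ) → K →ₗ[ℚ] ℂ) := by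
  have h1 := linearIndependent_toLinearMap ℚ K ℂ
  exact h1.comp (fun φ : K →+* ℂ => φ.toRatAlgHom) fun φ ψ h => by
    ext a
    exact DFunLike.congr_fun h a

/-- The embeddings form a basis of the space of linear maps. -/
def embB : Basis (K →+* ℂ) ℂ (K →ₗ[ℚ] ℂ) :=
  basisOfLinearIndependentOfCardEqFinrank embL_indep (by
    rw [Embeddings.card, Module.finrank_linearMap_self])

theorem embB_apply (φ : K →+* ℂ) : embB φ = embL φ := by
  unfold embB
  rw [coe_basisOfLinearIndependentOfCardEqFinrank]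

theorem embB_sum (g : K →ₗ[ℚ] ℂ) (a : K) : g a = ∑ ψ, embB.repr g ψ * ψ a := by
  have h1 := congrArg (fun f => f a) (embB.sum_repr g)
  rw [← h1]
  change (∑ ψ, embB.repr g ψ • embB ψ) a = _
  rw [LinearMap.sum_apply]
  refine Finset.sum_congr rfl fun ψ _ => ?_
  rw [LinearMap.smul_apply, embB_apply, embL_apply, smul_eq_mul]

theorem embB_repr (g : K →ₗ[ℚ] ℂ) (m : (K →+* ℂ) → ℂ) (h : ∀ a, g a = ∑ ψ, m ψ * ψ a) (ψ : K →+* ℂ) :
    embB.repr g ψ = m ψ := by
  have h1 : g = ∑ ψ, m ψ • (embB : Basis (K →+* ℂ) ℂ (K →ₗ[ℚ] ℂ)) ψ := by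
    refine LinearMap.ext fun a => ?_
    rw [h, LinearMap.sum_apply]
    refine Finset.sum_congr rfl fun ψ _ => ?_
    rw [LinearMap.smul_apply, embB_apply, embL_apply, smul_eq_mul]
  rw [h1]
  exact congrFun (embB.repr_sum_self m) ψ

/-- The number of elements of a CM type. -/
theorem card_type {Φ : Set (K →+* ℂ)} (hΦ : IsCMType Φ) : finrank ℚ K = 2 * finrank ℂ (Φ → ℂ) := by
  classical
  rw [finrank_fintype_fun_eq_card, ← NumberField.Embeddings.card K ℂ]
  have h1 : Fintype.card (K →+* ℂ) = Fintype.card Φ + Fintype.card (Φᶜ : Set (K →+* ℂ)) :=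
    (Fintype.card_congr (Equiv.Set.sumCompl Φ).symm).trans Fintype.card_sum
  have h2 : Fintype.card (Φᶜ : Set (K →+* ℂ)) = Fintype.card Φ := by
    refine Fintype.card_congr ⟨fun φ => ⟨ComplexEmbedding.conjugate φ.1, ?_⟩,
      fun φ => ⟨ComplexEmbedding.conjugate φ.1, ?_⟩, fun φ => ?_, fun φ => ?_⟩
    · by_contra hcon
      exact φ.2 ((hΦ φ.1).2 hcon)
    · exact (hΦ φ.1).1 φ.2
    · exact Subtype.ext (star_star φ.1)
    · exact Subtype.ext (star_star φ.1)
  rw [h1, h2]
  ring

end emb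

/-- The CM type of an action. -/
theorem type_of_coord {Y : AV} {E : Type} [Field E] [NumberField E] (e : Y.H ≃ₗ[ℚ] E)
    (Ψ : E → Y.T →ₗ[ℂ] Y.T) (hΨ : ∀ a v, Ψ a (Y.per v) = Y.per (e.symm (a * e v))) :
    ∃ Φ : Set (E →+* ℂ), IsCMType Φ ∧ ∃ Θ : Y.T ≃ₗ[ℂ] (Φ → ℂ), ∀ v φ, Θ (Y.per v) φ = φ.1 (e v) := by
  classical
  have hL : ∀ φ : E →+* ℂ, ∃ L : Y.T →ₗ[ℝ] ℂ, ∀ v, L (Y.per v) = φ (e v) := fun φ =>
    exists_rext Y (φ.toAddMonoidHom.comp e.toLinearMap.toAddMonoidHom)
  choose L hL using hL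
  obtain ⟨y1, hy1⟩ : ∃ y1, y1 = Y.per (e.symm 1) := ⟨_, rfl⟩
  have hΨ1 : ∀ v, Y.per v = Ψ (e v) y1 := fun v => by
    rw [hy1, hΨ, LinearEquiv.apply_symm_apply, mul_one, LinearEquiv.symm_apply_apply]
  have hL1 : ∀ φ, L φ y1 = 1 := fun φ => by
    rw [hy1, hL, LinearEquiv.apply_symm_apply, map_one]
  have hLΨ : ∀ φ a t, L φ (Ψ a t) = φ a * L φ t := by
    intro φ a t
    have h1 : (L φ) ∘ₗ (Ψ a).restrictScalars ℝ = (LinearMap.mulLeft ℝ (φ a)) ∘ₗ L φ :=
      real_ext Y fun v => by
        rw [LinearMap.comp_apply, LinearMap.comp_apply, LinearMap.restrictScalars_apply, hΨ, hL, hL,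
          LinearEquiv.apply_symm_apply, map_mul]
        rfl
    exact congrArg (fun f => f t) h1
  have huniq : ∀ (φ : E →+* ℂ) (G : Y.T →ₗ[ℝ] ℂ), (∀ a t, G (Ψ a t) = φ a * G t) →
      ∀ t, G t = L φ t * G y1 := by
    intro φ G hG t
    have h1 : G = (LinearMap.mulRight ℝ (G y1)) ∘ₗ L φ := real_ext Y fun v => by
      rw [LinearMap.comp_apply, hL, hΨ1 v, hG]
      rfl
    exact congrArg (fun f => f t) h1
  let J : Y.T →ₗ[ℝ] Y.T := (Complex.I • (LinearMap.id : Y.T →ₗ[ℂ] Y.T)).restrictScalars ℝ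
  have hJ : ∀ t, J t = Complex.I • t := fun _ => rfl
  have hI : ∀ φ t, L φ (Complex.I • t) = L φ t * L φ (Complex.I • y1) := by
    intro φ t
    exact huniq φ (L φ ∘ₗ J) (fun a t => by
      rw [LinearMap.comp_apply, LinearMap.comp_apply, hJ, hJ, ← map_smul, hLΨ]) t
  have hc : ∀ φ, L φ (Complex.I • y1) = Complex.I ∨ L φ (Complex.I • y1) = -Complex.I := by
    intro φ
    have h1 := hI φ (Complex.I • y1)
    rw [smul_smul, Complex.I_mul_I, neg_one_smul, map_neg, hL1] at h1
    have h2 : (L φ (Complex.I • y1) - Complex.I) * (L φ (Complex.I • y1) + Complex.I) = 0 := by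
      linear_combination -h1 - Complex.I_mul_I
    rcases mul_eq_zero.1 h2 with h3 | h3
    · exact Or.inl (sub_eq_zero.1 h3)
    · exact Or.inr (eq_neg_of_add_eq_zero_left h3)
  have hconj : ∀ φ t, L (ComplexEmbedding.conjugate φ) t = starRingEnd ℂ (L φ t) := by
    intro φ t
    have h1 : L (ComplexEmbedding.conjugate φ) = Complex.conjAe.toLinearMap ∘ₗ L φ :=
      real_ext Y fun v => by
        rw [LinearMap.comp_apply, hL, hL]
        rfl
    exact congrArg (fun f => f t) h1
  let Φ : Set (E →+* ℂ) := {φ | L φ (Complex.I • y1) = Complex.I}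
  have hII : (-Complex.I : ℂ) ≠ Complex.I := by
    intro h
    have h1 := congrArg Complex.im h
    rw [Complex.neg_im, Complex.I_im] at h1
    norm_num at h1
  have hΦ : IsCMType Φ := by
    intro φ
    change L φ (Complex.I • y1) = Complex.I ↔ ¬ (L (ComplexEmbedding.conjugate φ) _ = Complex.I)
    rw [hconj]
    rcases hc φ with h | h
    · rw [h, Complex.conj_I]
      exact ⟨fun _ => hII, fun _ => rfl⟩
    · rw [h, map_neg, Complex.conj_I, neg_neg]
      exact ⟨fun h1 => absurd h1 hII, fun h1 => absurd rfl h1⟩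
  let Θ₀ : Y.T →ₗ[ℂ] (Φ → ℂ) :=
    { toFun := fun t φ => L φ.1 t
      map_add' := fun s t => by
        funext φ
        exact map_add _ _ _
      map_smul' := fun z t => by
        funext φ
        have h1 : z • t = z.re • t + z.im • (Complex.I • t) := by
          conv_lhs => rw [← Complex.re_add_im z]
          rw [add_smul, mul_smul]
          rfl
        change L φ.1 (z • t) = z * L φ.1 t
        have h2 : L φ.1 (Complex.I • y1) = Complex.I := φ.2
        rw [h1, map_add, map_smul, map_smul, hI, h2, Complex.real_smul, Complex.real_smul]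
        conv_rhs => rw [← Complex.re_add_im z]
        ring }
  have hsep : ∀ t, (∀ φ, L φ t = 0) → t = 0 := by
    intro t ht
    let b := finBasis ℚ E
    obtain ⟨β, hβ⟩ := exists_realBasis Y (b.map e.symm)
    have h1 := emb_zero b (fun i => ((β.repr t i : ℝ) : ℂ)) (fun φ => by
      have h2 := ht φ
      rw [← β.sum_repr t, map_sum] at h2
      rw [← h2]
      refine Finset.sum_congr rfl fun i _ => ?_
      rw [map_smul, hβ, hL, Basis.map_apply, LinearEquiv.apply_symm_apply, Complex.real_smul])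
    rw [← β.sum_repr t]
    refine Finset.sum_eq_zero fun i _ => ?_
    have h3 : ((β.repr t i : ℝ) : ℂ) = 0 := congrFun h1 i
    have h4 : β.repr t i = 0 := by exact_mod_cast h3
    rw [h4, zero_smul]
  have hinj : Function.Injective Θ₀ := by
    rw [← LinearMap.ker_eq_bot, LinearMap.ker_eq_bot']
    intro t ht
    apply hsep
    intro φ
    by_cases hφ : φ ∈ Φ
    · exact congrFun ht ⟨φ, hφ⟩
    · have h1 : ComplexEmbedding.conjugate φ ∈ Φ := by
        by_contra h2
        exact hφ ((hΦ φ).2 h2)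
      have h2 : L (ComplexEmbedding.conjugate φ) t = 0 := congrFun ht ⟨_, h1⟩
      rw [hconj] at h2
      exact (map_eq_zero _).1 h2
  have hdim : finrank ℂ Y.T = finrank ℂ (Φ → ℂ) := by
    have h1 := card_type hΦ
    have h2 := Y.rank
    rw [e.finrank_eq] at h2
    omega
  exact ⟨Φ, hΦ, LinearEquiv.ofBijective Θ₀ ⟨hinj,
    (LinearMap.injective_iff_surjective_of_finrank_eq_finrank hdim).1 hinj⟩, fun v φ => hL φ.1 v⟩

end

end Pool.Agent.K4H29.HC
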