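import Mathlib
import Pool.Agent.K4H29.HC.Typ
import Pool.Agent.W547.LD.Field

/-!
# The CM types of simple abelian varieties, part two
-/

set_option linter.unusedSectionVars false
set_option linter.unusedVariables false

namespace Pool.Agent.K4H29.HC

open Module NumberField Pool.Agent.Y90 Pool.Agent.R915
open Pool.Agent.H204R3.CM (IsHodge IsCMType)
open Pool.Agent.W547.KB (CMPair)

noncomputable section

/-- A copy of a ring. -/
def Fld (A : Type) : Type := A

/-- Commutative division algebras are fields. -/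
theorem field_of_comm (A : Type) [Ring A] [Algebra ℚ A] [FiniteDimensional ℚ A] [IsDomain A]
    (hc : ∀ a b : A, a * b = b * a) : ∃ (E : Type) (_ : Field E) (_ : NumberField E) (f : E →+* A),
      finrank ℚ A = finrank ℚ E := by
  let D : DivisionRing A := divisionRingOfFiniteDimensional ℚ A
  let F : Field (Fld A) := { D with mul_comm := hc }
  let f : Fld A →+* A :=
    { toFun := fun x => x
      map_one' := rfl
      map_mul' := fun _ _ => rfl
      map_zero' := rfl
      map_add' := fun _ _ => rfl }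
  have hchar0 : CharZero A := algebraRat.charZero A
  have hchar : CharZero (Fld A) := ⟨fun m n h => by
    have h1 := congrArg f h
    rw [map_natCast, map_natCast] at h1
    exact Nat.cast_injective h1⟩
  let f' : Fld A ≃+ A :=
    { toFun := fun x => x
      invFun := fun x => x
      left_inv := fun _ => rfl
      right_inv := fun _ => rfl
      map_add' := fun _ _ => rfl }
  let f'' : Fld A ≃ₗ[ℚ] A := { f' with
    map_smul' := fun q x => map_rat_smul f' q x }
  have hfin : FiniteDimensional ℚ (Fld A) := Module.Finite.equiv f''.symm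
  exact ⟨Fld A, F, { to_charZero := hchar, to_finiteDimensional := hfin }, f, f''.finrank_eq.symm⟩

/-- The field of endomorphisms of a simple abelian variety with complex multiplication. -/
theorem exists_field {Y : AV} (hs : IsSimple Y) (hcm : HasCMult Y) :
    ∃ (E : Type) (_ : Field E) (_ : NumberField E) (ρ : E →+* Module.End ℚ Y.H),
      (∀ a, IsHom Y Y (ρ a)) ∧ finrank ℚ Y.H = finrank ℚ E := by
  obtain ⟨A, hA1, hA2, hA3⟩ := hcm
  obtain ⟨y0, hy0⟩ := hs.1
  have : Nontrivial A := ⟨0, 1, fun h => by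
    have h1 : (0 : Module.End ℚ Y.H) = 1 := congrArg Subtype.val h
    apply hy0
    have h2 := congrArg (fun f => f y0) h1
    exact h2.symm⟩
  have : NoZeroDivisors A := ⟨fun {a b} h => by
    by_cases hb : b = 0
    · exact Or.inr hb
    · left
      obtain ⟨y, hy⟩ : ∃ y, b.1 y ≠ 0 := by
        by_contra hcon
        push Not at hcon
        exact hb (Subtype.ext (LinearMap.ext hcon))
      refine Subtype.ext (simple_hom_zero hs (hA3 a.1 a.2) hy ?_)
      have h1 : a.1 * b.1 = 0 := congrArg Subtype.val h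
      exact congrArg (fun f => f y) h1⟩
  have : IsDomain A := NoZeroDivisors.to_isDomain A
  obtain ⟨E, hE, hN, f, hf⟩ := field_of_comm A fun a b => Subtype.ext (hA1 a.1 a.2 b.1 b.2)
  exact ⟨E, hE, hN, A.val.toRingHom.comp f, fun a => hA3 _ (f a).2, by rw [← hA2, hf]⟩

/-- The coordinate on the rational homology. -/
theorem exists_coord {Y : AV} (hs : IsSimple Y) {E : Type} [Field E] [NumberField E]
    (ρ : E →+* Module.End ℚ Y.H) (hr : finrank ℚ Y.H = finrank ℚ E) :
    ∃ e : Y.H ≃ₗ[ℚ] E, ∀ a v, e (ρ a v) = a * e v := by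
  obtain ⟨y0, hy0⟩ := hs.1
  let m : E →ₗ[ℚ] Y.H := ((AddMonoidHom.mk' (fun a => ρ a y0) fun a b => by
    rw [map_add, LinearMap.add_apply]) : E →+ Y.H).toRatLinearMap
  have hm : ∀ a, m a = ρ a y0 := fun _ => rfl
  have hinj : Function.Injective m := by
    rw [← LinearMap.ker_eq_bot, LinearMap.ker_eq_bot']
    intro a ha
    by_contra hne
    apply hy0
    have h1 : ρ a⁻¹ (ρ a y0) = y0 := by
      rw [← Module.End.mul_apply, ← map_mul, inv_mul_cancel₀ hne, map_one]
      rfl
    rw [← h1, ← hm a, ha, map_zero]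
  let e : E ≃ₗ[ℚ] Y.H := LinearEquiv.ofBijective m ⟨hinj,
    (LinearMap.injective_iff_surjective_of_finrank_eq_finrank hr.symm).1 hinj⟩
  refine ⟨e.symm, fun a v => ?_⟩
  obtain ⟨b, rfl⟩ := e.surjective v
  rw [LinearEquiv.symm_apply_apply, LinearEquiv.symm_apply_eq]
  change ρ a (ρ b y0) = ρ (a * b) y0
  rw [map_mul]
  rfl

/-- The complex conjugation on the endomorphism field. -/
theorem exists_conj' {Y : AV} (hs : IsSimple Y) {E : Type} [Field E] [NumberField E]
    (ρ : E →+* Module.End ℚ Y.H) (hρ : ∀ a, IsHom Y Y (ρ a)) (e : Y.H ≃ₗ[ℚ] E)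
    (he : ∀ a v, e (ρ a v) = a * e v) {Φ : Set (E →+* ℂ)} (hΦ : IsCMType Φ)
    (Θ : Y.T ≃ₗ[ℂ] (Φ → ℂ)) (hΘ : ∀ v φ, Θ (Y.per v) φ = φ.1 (e v)) (p : PolD Y) (a : E) :
    ∃ a' : E, (∀ x y, p.ω x (ρ a' y) = p.ω (ρ a x) y) ∧
      ∀ φ : E →+* ℂ, φ a' = starRingEnd ℂ (φ a) := by
  classical
  obtain ⟨g, hg, hadj⟩ := exists_adj p p (hρ a)
  -- the adjoint belongs to the field
  obtain ⟨a', rfl⟩ : ∃ a', g = ρ a' := by
    refine ⟨e (g (e.symm 1)), ?_⟩
    have h1 : g - ρ (e (g (e.symm 1))) = 0 := by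
      refine simple_hom_zero hs (isHom_sub hg (hρ _)) (x := e.symm 1) ?_ ?_
      · intro h
        rw [LinearEquiv.map_eq_zero_iff] at h
        exact one_ne_zero h
      · rw [LinearMap.sub_apply, sub_eq_zero]
        apply e.injective
        rw [he, LinearEquiv.apply_symm_apply, mul_one]
    exact sub_eq_zero.1 h1
  obtain ⟨Ψ, hΨ⟩ := hρ a
  obtain ⟨Ψ', hΨ'⟩ := hρ a'
  have hB : ∀ s t, p.B s (Ψ' t) = p.B (Ψ s) t := by
    intro s t
    have h1 : p.B.flip ∘ₗ (Ψ'.restrictScalars ℝ) = (p.B.comp (Ψ.restrictScalars ℝ)).flip := by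
      refine real_ext Y fun y => ?_
      refine real_ext Y fun x => ?_
      change p.B (Y.per x) (Ψ' (Y.per y)) = p.B (Ψ (Y.per x)) (Y.per y)
      rw [hΨ', hΨ, p.per, p.per, hadj]
    exact congrArg (fun φ => φ t s) h1
  have hT : ∀ (c : E) (Ξ : Y.T →ₗ[ℂ] Y.T), (∀ v, Ξ (Y.per v) = Y.per (ρ c v)) →
      ∀ t φ, Θ (Ξ t) φ = φ.1 c * Θ t φ := by
    intro c Ξ hΞ t φ
    have h1 : ((LinearMap.proj φ).comp (Θ.toLinearMap.comp Ξ)).restrictScalars ℝ =
        (φ.1 c • (LinearMap.proj φ).comp Θ.toLinearMap : Y.T →ₗ[ℂ] ℂ).restrictScalars ℝ :=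
      real_ext Y fun v => by
        change Θ (Ξ (Y.per v)) φ = φ.1 c * Θ (Y.per v) φ
        rw [hΞ, hΘ, hΘ, he, map_mul]
    exact congrArg (fun f => f t) h1
  have key : ∀ φ ∈ Φ, φ a' = starRingEnd ℂ (φ a) := by
    intro φ hφ
    let t : Y.T := Θ.symm (Pi.single ⟨φ, hφ⟩ 1)
    have ht : t ≠ 0 := by
      intro h
      rw [LinearEquiv.map_eq_zero_iff] at h
      have h1 := congrFun h ⟨φ, hφ⟩
      rw [Pi.single_eq_same] at h1
      exact one_ne_zero h1
    have hev : ∀ (c : E) (Ξ : Y.T →ₗ[ℂ] Y.T), (∀ v, Ξ (Y.per v) = Y.per (ρ c v)) →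
        Ξ t = φ c • t := by
      intro c Ξ hΞ
      apply Θ.injective
      funext ψ
      rw [hT c Ξ hΞ, map_smul]
      change _ = φ c * Θ t ψ
      have h1 : Θ t = Pi.single ⟨φ, hφ⟩ 1 := Θ.apply_symm_apply _
      rw [h1]
      by_cases h : ψ = ⟨φ, hφ⟩
      · rw [h]
      · rw [Pi.single_eq_of_ne h, mul_zero, mul_zero]
    have h1 := hev a Ψ hΨ
    have h2 := hev a' Ψ' hΨ'
    have hN := p.pos t ht
    have h0 : p.B t t = 0 := by
      have := p.skew t t
      linarith
    have h0' : p.B (Complex.I • t) (Complex.I • t) = 0 := by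
      have := p.skew (Complex.I • t) (Complex.I • t)
      linarith
    have hz : ∀ z : ℂ, z • t = z.re • t + z.im • (Complex.I • t) := by
      intro z
      conv_lhs => rw [← Complex.re_add_im z]
      rw [add_smul, mul_smul]
      rfl
    have h3 := hB t t
    rw [h1, h2, hz (φ a), hz (φ a'), map_add, map_add, LinearMap.add_apply, LinearMap.map_smul,
      LinearMap.map_smul, LinearMap.map_smul, LinearMap.map_smul, LinearMap.smul_apply,
      LinearMap.smul_apply, h0, smul_zero, smul_zero, zero_add, zero_add, smul_eq_mul,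
      smul_eq_mul] at h3
    have h4 := p.skew t (Complex.I • t)
    have h5 : (φ a').im = -(φ a).im := by
      rw [h4] at h3
      have h6 : ((φ a').im + (φ a).im) * p.B (Complex.I • t) t = 0 := by linarith
      rcases mul_eq_zero.1 h6 with h7 | h7
      · linarith
      · exact absurd h7 hN.ne'
    have h6 := hB (Complex.I • t) t
    have h7 : (φ a').re = (φ a).re := by
      have e1 : p.B (Complex.I • t) ((φ a') • t) = (φ a').re * p.B (Complex.I • t) t := by
        rw [hz (φ a'), map_add, LinearMap.map_smul, LinearMap.map_smul, h0', smul_eq_mul, smul_zero,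
          add_zero]
      have e2 : p.B ((φ a) • Complex.I • t) t = (φ a).re * p.B (Complex.I • t) t := by
        rw [smul_comm, hz (φ a), smul_add, map_add, LinearMap.add_apply, smul_comm Complex.I,
          smul_comm Complex.I (φ a).im, LinearMap.map_smul, LinearMap.map_smul, LinearMap.smul_apply,
          LinearMap.smul_apply, smul_smul Complex.I Complex.I, Complex.I_mul_I, neg_one_smul, map_neg,
          LinearMap.neg_apply, h0, neg_zero, smul_zero, add_zero, smul_eq_mul]
      have e3 := hB (Complex.I • t) t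
      rw [Ψ.map_smul, h1, h2, smul_comm Complex.I, e1, e2] at e3
      exact mul_right_cancel₀ hN.ne' e3
    apply Complex.ext
    · rw [Complex.conj_re, h7]
    · rw [Complex.conj_im, h5]
  refine ⟨a', hadj, fun φ => ?_⟩
  by_cases hφ : φ ∈ Φ
  · exact key φ hφ
  · have h1 : ComplexEmbedding.conjugate φ ∈ Φ := by
      by_contra h2
      exact hφ ((hΦ φ).2 h2)
    have h2 := key _ h1
    rw [ComplexEmbedding.conjugate_coe_eq, ComplexEmbedding.conjugate_coe_eq] at h2
    exact star_injective h2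

theorem exists_conj {Y : AV} (hs : IsSimple Y) {E : Type} [Field E] [NumberField E]
    (ρ : E →+* Module.End ℚ Y.H) (hρ : ∀ a, IsHom Y Y (ρ a)) (e : Y.H ≃ₗ[ℚ] E)
    (he : ∀ a v, e (ρ a v) = a * e v) {Φ : Set (E →+* ℂ)} (hΦ : IsCMType Φ)
    (Θ : Y.T ≃ₗ[ℂ] (Φ → ℂ)) (hΘ : ∀ v φ, Θ (Y.per v) φ = φ.1 (e v)) (a : E) :
    ∃ a' : E, ∀ φ : E →+* ℂ, φ a' = starRingEnd ℂ (φ a) := by
  obtain ⟨p⟩ := exists_polD Y
  obtain ⟨a', -, h⟩ := exists_conj' hs ρ hρ e he hΦ Θ hΘ p a
  exact ⟨a', h⟩

/-- The field is a CM field. -/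
theorem isCM_of_type {E : Type} [Field E] [NumberField E] {Φ : Set (E →+* ℂ)} (hΦ : IsCMType Φ)
    (hc : ∀ a : E, ∃ a' : E, ∀ φ : E →+* ℂ, φ a' = starRingEnd ℂ (φ a)) : IsCMField E := by
  choose σ hσ using hc
  obtain ⟨φ0⟩ : Nonempty (E →+* ℂ) := inferInstance
  let s : E →+* E :=
    { toFun := σ
      map_one' := φ0.injective (by rw [hσ, map_one, map_one])
      map_mul' := fun a b => φ0.injective (by rw [hσ, map_mul, map_mul, map_mul, hσ, hσ])
      map_zero' := φ0.injective (by rw [hσ, map_zero, map_zero])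
      map_add' := fun a b => φ0.injective (by rw [hσ, map_add, map_add, map_add, hσ, hσ]) }
  have hss : ∀ a, s (s a) = a := fun a => φ0.injective (by
    change φ0 (σ (σ a)) = _
    rw [hσ, hσ, Complex.conj_conj])
  let S : E ≃ₐ[ℚ] E := AlgEquiv.ofRingEquiv (f := RingEquiv.ofRingHom s s (RingHom.ext hss)
    (RingHom.ext hss)) (fun q => map_ratCast _ q)
  have hS : ∀ φ : E →+* ℂ, ComplexEmbedding.IsConj φ S := by
    intro φ
    ext a
    exact (hσ a φ).symm
  have : IsTotallyComplex E := ⟨fun w => by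
    rw [← InfinitePlace.mk_embedding w, InfinitePlace.isComplex_mk_iff]
    intro hreal
    have h1 := hΦ w.embedding
    rw [ComplexEmbedding.isReal_iff.1 hreal] at h1
    tauto⟩
  exact Pool.Agent.W547.LD.isCM_of_conj E hS

/-- **Simple abelian varieties with complex multiplication have a CM type.** -/
theorem exists_type {Y : AV} (hs : IsSimple Y) (hcm : HasCMult Y) : ∃ P : CMPair, IsOfType Y P := by
  obtain ⟨E, _, _, ρ, hρ, hr⟩ := exists_field hs hcm
  obtain ⟨e, he⟩ := exists_coord hs ρ hr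
  choose Ψ hΨ using hρ
  obtain ⟨Φ, hΦ, Θ, hΘ⟩ := type_of_coord e Ψ fun a v => by
    rw [hΨ, ← he, LinearEquiv.symm_apply_apply]
  have hc := exists_conj hs ρ (fun a => ⟨Ψ a, hΨ a⟩) e he hΦ Θ hΘ
  have : IsCMField E := isCM_of_type hΦ hc
  exact ⟨⟨E, Φ, hΦ⟩, e, Θ, hΘ⟩

end

end Pool.Agent.K4H29.HC
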