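import Mathlib
import Pool.Agent.K4H29.HC.Typ2
import Pool.Agent.W547.LN.Defs

/-!
# Primitive types and simple abelian varieties
-/

set_option linter.unusedSectionVars false
set_option linter.unusedVariables false

namespace Pool.Agent.K4H29.HC

open Module NumberField Pool.Agent.Y90 Pool.Agent.R915
open Pool.Agent.H204R3.CM (IsHodge IsCMType)
open Pool.Agent.W547.KB (CMPair)
open Pool.Agent.W547.LN (SameType)

noncomputable section

section proj

variable {Y : AV}

/-- The real span of the periods of a subspace. -/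
def rsp (Y : AV) (U : Submodule ℚ Y.H) : Submodule ℝ Y.T :=
  Submodule.span ℝ (Y.per '' (U : Set Y.H))

theorem per_mem_rsp {U : Submodule ℚ Y.H} {v : Y.H} (hv : v ∈ U) : Y.per v ∈ rsp Y U :=
  Submodule.subset_span ⟨v, hv, rfl⟩

/-- The orthogonal complement. -/
def orth (p : PolD Y) (U : Submodule ℚ Y.H) : Submodule ℚ Y.H where
  carrier := {v | ∀ u ∈ U, p.ω u v = 0}
  zero_mem' := fun u _ => map_zero _
  add_mem' := fun {a b} ha hb u hu => by rw [map_add, ha u hu, hb u hu, add_zero]
  smul_mem' := fun c a ha u hu => by rw [map_smul, ha u hu, smul_zero]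

theorem B_orth (p : PolD Y) (U : Submodule ℚ Y.H) {s t : Y.T} (hs : s ∈ rsp Y U)
    (ht : t ∈ rsp Y (orth p U)) : p.B s t = 0 := by
  have h1 : ∀ v ∈ orth p U, ∀ s ∈ rsp Y U, p.B s (Y.per v) = 0 := by
    intro v hv s hs
    have h2 : rsp Y U ≤ LinearMap.ker (p.B.flip (Y.per v)) := by
      refine Submodule.span_le.2 ?_
      rintro _ ⟨u, hu, rfl⟩
      change p.B (Y.per u) (Y.per v) = 0
      rw [p.per, hv u hu, Rat.cast_zero]
    exact h2 hs
  have h2 : rsp Y (orth p U) ≤ LinearMap.ker (p.B s) := by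
    refine Submodule.span_le.2 ?_
    rintro _ ⟨v, hv, rfl⟩
    exact h1 v hv s hs
  exact h2 ht

theorem finrank_orth (p : PolD Y) (U : Submodule ℚ Y.H) :
    finrank ℚ Y.H ≤ finrank ℚ U + finrank ℚ (orth p U) := by
  let f : Y.H →ₗ[ℚ] (U →ₗ[ℚ] ℚ) := (LinearMap.lcomp ℚ ℚ U.subtype).comp p.ω.flip
  have hf : ∀ v (u : U), f v u = p.ω u v := fun _ _ => rfl
  have h1 : LinearMap.ker f = orth p U := by
    ext v
    constructor
    · intro hv u hu
      have h2 : f v = 0 := hv
      have h3 := hf v ⟨u, hu⟩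
      rw [h2] at h3
      exact h3.symm
    · intro hv
      exact LinearMap.ext fun u => hv u.1 u.2
  have h2 := f.finrank_range_add_finrank_ker
  have h3 : finrank ℚ (LinearMap.range f) ≤ finrank ℚ (U →ₗ[ℚ] ℚ) := Submodule.finrank_le _
  have h4 : finrank ℚ (U →ₗ[ℚ] ℚ) = finrank ℚ U := Subspace.dual_finrank_eq
  rw [h1] at h2
  omega

theorem isCompl_of_disj (p : PolD Y) {U W : Submodule ℚ Y.H} (hW : orth p U ≤ W)
    (h : ∀ v ∈ U, v ∈ W → v = 0) : IsCompl U W := by
  have h0 : U ⊓ W = ⊥ := by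
    rw [eq_bot_iff]
    rintro v ⟨h1, h2⟩
    exact h v h1 h2
  refine ⟨disjoint_iff.2 h0, codisjoint_iff.2 ?_⟩
  apply Submodule.eq_top_of_finrank_eq
  have h1 := Submodule.finrank_sup_add_finrank_inf_eq U W
  rw [h0, finrank_bot, add_zero] at h1
  have h2 := finrank_orth p U
  have h3 : finrank ℚ (orth p U) ≤ finrank ℚ W := Submodule.finrank_mono hW
  have h4 : finrank ℚ (U ⊔ W : Submodule ℚ Y.H) ≤ finrank ℚ Y.H := Submodule.finrank_le _
  omega

theorem isCompl_orth (p : PolD Y) {U : Submodule ℚ Y.H} (hU : IsSub Y U) : IsCompl U (orth p U) := by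
  refine isCompl_of_disj p le_rfl fun v hv hv' => ?_
  apply per_inj Y
  rw [map_zero]
  by_contra hne
  have h1 := p.pos _ hne
  rw [B_orth p U (hU _ (per_mem_rsp hv)) (per_mem_rsp hv')] at h1
  exact lt_irrefl _ h1

/-- The projection to an abelian subvariety. -/
theorem exists_projector {U : Submodule ℚ Y.H} (hU : IsSub Y U) :
    ∃ π : Y.H →ₗ[ℚ] Y.H, IsHom Y Y π ∧ (∀ v, π v ∈ U) ∧ ∀ v ∈ U, π v = v := by
  obtain ⟨p⟩ := exists_polD Y
  have hc := isCompl_orth p hU
  let π : Y.H →ₗ[ℚ] Y.H := U.subtype.comp (U.projectionOnto (orth p U) hc)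
  have h1 : ∀ v ∈ U, π v = v := fun v hv => by
    change ((U.projectionOnto (orth p U) hc v : U) : Y.H) = v
    have := Submodule.projectionOnto_apply_left hc ⟨v, hv⟩
    exact congrArg Subtype.val this
  have h2 : ∀ v ∈ orth p U, π v = 0 := fun v hv => by
    change ((U.projectionOnto (orth p U) hc v : U) : Y.H) = 0
    have := (Submodule.projectionOnto_apply_eq_zero_iff hc).2 hv
    rw [this]
    rfl
  obtain ⟨G, hG⟩ := exists_rext Y (Y.per.comp π.toAddMonoidHom)
  have hG' : ∀ v, G (Y.per v) = Y.per (π v) := hG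
  have hG1 : ∀ s ∈ rsp Y U, G s = s := by
    intro s hs
    have h3 : rsp Y U ≤ LinearMap.ker (G - LinearMap.id) := by
      refine Submodule.span_le.2 ?_
      rintro _ ⟨u, hu, rfl⟩
      change G (Y.per u) - Y.per u = 0
      rw [hG', h1 u hu, sub_self]
    have h4 : G s - s = 0 := h3 hs
    exact sub_eq_zero.1 h4
  have hG2 : ∀ s ∈ rsp Y (orth p U), G s = 0 := by
    intro s hs
    have h3 : rsp Y (orth p U) ≤ LinearMap.ker G := by
      refine Submodule.span_le.2 ?_
      rintro _ ⟨u, hu, rfl⟩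
      change G (Y.per u) = 0
      rw [hG', h2 u hu, map_zero]
    exact h3 hs
  have hdec : ∀ t : Y.T, ∃ s ∈ rsp Y U, ∃ s' ∈ rsp Y (orth p U), t = s + s' := by
    intro t
    have h3 : (⊤ : Submodule ℝ Y.T) ≤ rsp Y U ⊔ rsp Y (orth p U) := by
      rw [← Y.span, Submodule.span_le]
      rintro _ ⟨v, rfl⟩
      have h4 : v ∈ U ⊔ orth p U := by
        rw [hc.sup_eq_top]
        exact Submodule.mem_top
      obtain ⟨u, hu, w, hw, rfl⟩ := Submodule.mem_sup.1 h4
      rw [map_add]
      exact Submodule.add_mem_sup (per_mem_rsp hu) (per_mem_rsp hw)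
    obtain ⟨s, hs, s', hs', h5⟩ := Submodule.mem_sup.1 (h3 (Submodule.mem_top (x := t)))
    exact ⟨s, hs, s', hs', h5.symm⟩
  refine ⟨π, hom_of_real π G hG' fun t => ?_, fun v => (U.projectionOnto (orth p U) hc v).2, h1⟩
  obtain ⟨s, hs, s', hs', rfl⟩ := hdec t
  obtain ⟨r, hr, r', hr', h3⟩ := hdec (Complex.I • s')
  have h4 : r = 0 := by
    by_contra hne
    have h5 := p.pos r hne
    have h6 : p.B (Complex.I • r) (Complex.I • s') = 0 := by
      have h7 := p.im r (Complex.I • s')
      rw [h7, smul_smul, Complex.I_mul_I, neg_one_smul, map_neg, neg_neg]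
      exact B_orth p U hr hs'
    rw [h3, map_add, B_orth p U (hU r hr) hr', add_zero] at h6
    exact h5.ne' h6
  rw [h4, zero_add] at h3
  rw [smul_add, map_add, map_add, hG1 s hs, hG1 _ (hU s hs), hG2 s' hs', h3, hG2 r' hr']
  simp

end proj

section cm

/-- The period map of a CM type. -/
def perC (P : CMPair) : P.E →+ (P.Φ → ℂ) where
  toFun a := fun φ => φ.1 a
  map_zero' := funext fun φ => map_zero φ.1
  map_add' a b := funext fun φ => map_add φ.1 a b

theorem span_perC (P : CMPair) : Submodule.span ℝ (Set.range (perC P)) = ⊤ := by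
  classical
  let b := finBasis ℚ P.E
  have h1 : LinearIndependent ℝ fun i => perC P (b i) := by
    rw [Fintype.linearIndependent_iff]
    intro x hx i
    have h2 := emb_zero b (fun i => ((x i : ℝ) : ℂ)) (fun φ => by
      have key : ∀ φ ∈ P.Φ, ∑ i, ((x i : ℝ) : ℂ) * φ (b i) = 0 := by
        intro φ hφ
        have h3 := congrFun hx ⟨φ, hφ⟩
        rw [Finset.sum_apply] at h3
        exact h3
      by_cases hφ : φ ∈ P.Φ
      · exact key φ hφ
      · have h4 : ComplexEmbedding.conjugate φ ∈ P.Φ := by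
          by_contra h5
          exact hφ ((P.isCMType φ).2 h5)
        have h5 := congrArg (starRingEnd ℂ) (key _ h4)
        rw [map_sum, map_zero] at h5
        rw [← h5]
        refine Finset.sum_congr rfl fun i _ => ?_
        rw [map_mul, Complex.conj_ofReal, ComplexEmbedding.conjugate_coe_eq, Complex.conj_conj])
    have h3 : ((x i : ℝ) : ℂ) = 0 := congrFun h2 i
    exact_mod_cast h3
  have h2 : Fintype.card (Fin (finrank ℚ P.E)) = finrank ℝ (P.Φ → ℂ) := by
    rw [Fintype.card_fin, card_type P.isCMType, finrank_real_of_complex]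
  have h3 := h1.span_eq_top_of_card_eq_finrank' h2
  rw [eq_top_iff, ← h3, Submodule.span_le]
  rintro _ ⟨i, rfl⟩
  exact Submodule.subset_span ⟨b i, rfl⟩

/-- The abelian variety of a CM type. -/
def avP (P : CMPair) (hp : ∃ E, IsPolarization (perC P) E) : AV where
  H := P.E
  T := P.Φ → ℂ
  per := perC P
  span := span_perC P
  rank := card_type P.isCMType
  pol := hp

/-- An embedding induces a polarization. -/
theorem pol_of_factor {P : CMPair} {X : AV} (i : P.E →ₗ[ℚ] X.H) (Ψ : (P.Φ → ℂ) →ₗ[ℂ] X.T)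
    (hi : Function.Injective i) (hΨ : ∀ a, Ψ (perC P a) = X.per (i a)) :
    ∃ E, IsPolarization (perC P) E := by
  classical
  have hinj : ∀ t, Ψ t = 0 → t = 0 := by
    intro t ht
    let b := finBasis ℚ P.E
    have hlin : LinearIndependent ℚ fun k => i (b k) :=
      b.linearIndependent.map' i (LinearMap.ker_eq_bot.2 hi)
    let bY := Basis.extend hlin.linearIndepOn_id
    obtain ⟨β, hβ⟩ := exists_realBasis X bY
    have hreal : LinearIndependent ℝ fun k => X.per (i (b k)) := by
      have hmem : ∀ k, i (b k) ∈ hlin.linearIndepOn_id.extend (Set.subset_univ _) := fun k =>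
        hlin.linearIndepOn_id.subset_extend _ ⟨k, rfl⟩
      have h1 : (fun k => X.per (i (b k))) = fun k => β ⟨i (b k), hmem k⟩ := by
        funext k
        rw [hβ]
        congr 1
        exact (Basis.extend_apply_self hlin.linearIndepOn_id ⟨i (b k), hmem k⟩).symm
      rw [h1]
      refine β.linearIndependent.comp (fun k => ⟨i (b k), hmem k⟩) fun k l hkl => ?_
      exact hlin.injective (congrArg Subtype.val hkl)
    have h1 : t ∈ Submodule.span ℝ (Set.range fun k => perC P (b k)) := by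
      have h2 : (⊤ : Submodule ℝ (P.Φ → ℂ)) ≤ Submodule.span ℝ (Set.range fun k => perC P (b k)) := by
        rw [← span_perC P, Submodule.span_le]
        rintro _ ⟨a, rfl⟩
        rw [← b.sum_repr a, map_sum]
        refine Submodule.sum_mem _ fun k _ => ?_
        have h3 : perC P (b.repr a k • b k) = ((b.repr a k : ℚ) : ℝ) • perC P (b k) := by
          have h4 := map_ratCast_smul (perC P) ℚ ℝ (b.repr a k) (b k)
          rwa [Rat.cast_id] at h4
        rw [h3]
        exact Submodule.smul_mem _ _ (Submodule.subset_span ⟨k, rfl⟩)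
      exact h2 Submodule.mem_top
    obtain ⟨c, rfl⟩ := (Submodule.mem_span_range_iff_exists_fun ℝ).1 h1
    have h2 : ∑ k, c k • X.per (i (b k)) = 0 := by
      rw [← ht, map_sum]
      refine Finset.sum_congr rfl fun k _ => ?_
      rw [← hΨ]
      exact ((Ψ.restrictScalars ℝ).map_smul (c k) (perC P (b k))).symm
    have h3 := Fintype.linearIndependent_iff.1 hreal c h2
    refine Finset.sum_eq_zero fun k _ => ?_
    rw [h3 k, zero_smul]
  obtain ⟨E, S, hl, hc, hp, hE⟩ := X.pol
  refine ⟨fun v w => E (i v) (i w), fun s t => S (Ψ s) (Ψ t), fun u' => ?_, fun u u' => hc _ _,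
    fun u hu => hp _ fun h => hu (hinj u h), fun v w => ?_⟩
  · refine ⟨fun s t => ?_, fun c s => ?_⟩
    · change S (Ψ (s + t)) (Ψ u') = S (Ψ s) (Ψ u') + S (Ψ t) (Ψ u')
      rw [map_add]
      exact (hl (Ψ u')).map_add _ _
    · change S (Ψ (c • s)) (Ψ u') = c • S (Ψ s) (Ψ u')
      rw [map_smul]
      exact (hl (Ψ u')).map_smul _ _
  · change (S (Ψ (perC P v)) (Ψ (perC P w))).im = _
    rw [hΨ, hΨ]
    exact hE _ _

end cm

end

end Pool.Agent.K4H29.HC
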