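import Mathlib
import Pool.Agent.K4H29.HC.Typ3

/-!
# Homomorphisms between abelian varieties of primitive CM type
-/

set_option linter.unusedSectionVars false
set_option linter.unusedVariables false

namespace Pool.Agent.K4H29.HC

open Module NumberField Pool.Agent.Y90 Pool.Agent.R915
open Pool.Agent.H204R3.CM (IsHodge IsCMType)
open Pool.Agent.W547.KB (CMPair)
open Pool.Agent.W547.LN (SameType)

noncomputable section

section coef

variable {P Q : CMPair}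

/-- The coefficients of a map in terms of the embeddings. -/
def coef (f : P.E →ₗ[ℚ] Q.E) (φ : Q.E →+* ℂ) (ψ : P.E →+* ℂ) : ℂ :=
  embB.repr ((embL φ).comp f) ψ

theorem coef_sum (f : P.E →ₗ[ℚ] Q.E) (φ : Q.E →+* ℂ) (a : P.E) :
    φ (f a) = ∑ ψ, coef f φ ψ * ψ a := embB_sum ((embL φ).comp f) a

theorem coef_unique (f : P.E →ₗ[ℚ] Q.E) (φ : Q.E →+* ℂ) (m : (P.E →+* ℂ) → ℂ)
    (h : ∀ a, φ (f a) = ∑ ψ, m ψ * ψ a) (ψ : P.E →+* ℂ) : coef f φ ψ = m ψ :=
  embB_repr ((embL φ).comp f) m h ψ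

theorem coef_aut (f : P.E →ₗ[ℚ] Q.E) (τ : ℂ ≃+* ℂ) (φ : Q.E →+* ℂ) (ψ : P.E →+* ℂ) :
    coef f ((τ : ℂ →+* ℂ).comp φ) ((τ : ℂ →+* ℂ).comp ψ) = τ (coef f φ ψ) := by
  let e : (P.E →+* ℂ) ≃ (P.E →+* ℂ) :=
    { toFun := fun ψ => (τ : ℂ →+* ℂ).comp ψ
      invFun := fun ψ => (τ.symm : ℂ →+* ℂ).comp ψ
      left_inv := fun ψ => RingHom.ext fun a => τ.symm_apply_apply (ψ a)
      right_inv := fun ψ => RingHom.ext fun a => τ.apply_symm_apply (ψ a) }
  have h1 := coef_unique f ((τ : ℂ →+* ℂ).comp φ) (fun ψ => τ (coef f φ (e.symm ψ))) (fun a => by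
    change τ (φ (f a)) = _
    rw [coef_sum, map_sum, ← e.sum_comp (fun ψ => τ (coef f φ (e.symm ψ)) * ψ a)]
    refine Finset.sum_congr rfl fun ψ _ => ?_
    rw [map_mul, e.symm_apply_apply]
    rfl) (e ψ)
  rw [e.symm_apply_apply] at h1
  exact h1

/-- The coefficients of a homomorphism. -/
theorem coef_type {hP : ∃ E, IsPolarization (perC P) E} {hQ : ∃ E, IsPolarization (perC Q) E}
    {f : P.E →ₗ[ℚ] Q.E} (hf : IsHom (avP P hP) (avP Q hQ) f) {φ : Q.E →+* ℂ} (hφ : φ ∈ Q.Φ)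
    {ψ : P.E →+* ℂ} (h : coef f φ ψ ≠ 0) : ψ ∈ P.Φ := by
  classical
  obtain ⟨Ψ, hΨ⟩ := hf
  let Ψ' : (P.Φ → ℂ) →ₗ[ℂ] (Q.Φ → ℂ) := Ψ
  let l : (P.Φ → ℂ) →ₗ[ℂ] ℂ := (LinearMap.proj ⟨φ, hφ⟩).comp Ψ'
  have hl : ∀ a, l (perC P a) = φ (f a) := fun a => congrFun (hΨ a) ⟨φ, hφ⟩
  by_contra hψ
  apply h
  let m : (P.E →+* ℂ) → ℂ := fun ψ => if h : ψ ∈ P.Φ then
    l (fun j => if (⟨ψ, h⟩ : P.Φ) = j then 1 else 0) else 0
  have h1 := coef_unique f φ m (fun a => by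
    rw [← hl, LinearMap.pi_apply_eq_sum_univ l,
      ← Fintype.sum_subtype_add_sum_subtype (fun ψ => ψ ∈ P.Φ) (fun ψ => m ψ * ψ a)]
    have h3 : ∑ i : {x // ¬ x ∈ P.Φ}, m i * i.1 a = 0 := by
      refine Finset.sum_eq_zero fun i _ => ?_
      change (dite _ _ _) * _ = _
      rw [dif_neg i.2, zero_mul]
    rw [h3, add_zero]
    refine Finset.sum_congr rfl fun i _ => ?_
    change _ = (dite _ _ _) * _
    rw [dif_pos i.2, smul_eq_mul, mul_comm]
    rfl) ψ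
  rw [h1]
  exact dif_neg hψ

/-- The conjugate embeddings. -/
theorem conj_comp (K : Type) [Field K] (φ : K →+* ℂ) :
    ((starRingAut : ℂ ≃+* ℂ) : ℂ →+* ℂ).comp φ = ComplexEmbedding.conjugate φ := rfl

theorem coef_type_iff {hP : ∃ E, IsPolarization (perC P) E} {hQ : ∃ E, IsPolarization (perC Q) E}
    {f : P.E →ₗ[ℚ] Q.E} (hf : IsHom (avP P hP) (avP Q hQ) f) {φ : Q.E →+* ℂ}
    {ψ : P.E →+* ℂ} (h : coef f φ ψ ≠ 0) : φ ∈ Q.Φ ↔ ψ ∈ P.Φ := by
  refine ⟨fun hφ => coef_type hf hφ h, fun hψ => ?_⟩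
  rw [Q.isCMType]
  intro h1
  rw [P.isCMType] at hψ
  apply hψ
  refine coef_type hf h1 ?_
  rw [← conj_comp, ← conj_comp, coef_aut]
  exact fun h2 => h ((map_eq_zero_iff _ (RingEquiv.injective _)).1 h2)

/-- The relation between the types of the embeddings. -/
theorem coef_all {hP : ∃ E, IsPolarization (perC P) E} {hQ : ∃ E, IsPolarization (perC Q) E}
    {f : P.E →ₗ[ℚ] Q.E} (hf : IsHom (avP P hP) (avP Q hQ) f) {φ : Q.E →+* ℂ}
    {ψ : P.E →+* ℂ} (h : coef f φ ψ ≠ 0) (τ : ℂ ≃+* ℂ) :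
    (τ : ℂ →+* ℂ).comp φ ∈ Q.Φ ↔ (τ : ℂ →+* ℂ).comp ψ ∈ P.Φ := by
  refine coef_type_iff hf ?_
  rw [coef_aut]
  exact fun h2 => h ((map_eq_zero_iff _ τ.injective).1 h2)

end coef

section prim

variable {P Q : CMPair} {hP : ∃ E, IsPolarization (perC P) E}
  {hQ : ∃ E, IsPolarization (perC Q) E}

/-- The endomorphisms of an abelian variety of primitive type. -/
theorem end_prim (hprim : Primitive P) {f : P.E →ₗ[ℚ] P.E} (hf : IsHom (avP P hP) (avP P hP) f)
    (x : P.E) : f x = f 1 * x := by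
  classical
  obtain ⟨φ⟩ : Nonempty (P.E →+* ℂ) := inferInstance
  have h1 : ∀ ψ, ψ ≠ φ → coef f φ ψ = 0 := by
    intro ψ hψ
    by_contra h
    exact hψ (hprim ψ φ fun τ => (coef_all hf h τ).symm)
  have h2 : ∀ a, φ (f a) = coef f φ φ * φ a := by
    intro a
    rw [coef_sum, Finset.sum_eq_single φ]
    · intro ψ _ hψ
      rw [h1 ψ hψ, zero_mul]
    · intro h
      exact absurd (Finset.mem_univ _) h
  apply φ.injective
  rw [map_mul, h2, h2 1, map_one, mul_one]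

/-- Multiplication by an element of the field. -/
def mulE (P : CMPair) (a : P.E) : P.E →ₗ[ℚ] P.E := LinearMap.mulLeft ℚ a

theorem mulE_apply (a x : P.E) : mulE P a x = a * x := rfl

theorem isHom_mulE (a : P.E) : IsHom (avP P hP) (avP P hP) (mulE P a) := by
  refine ⟨(LinearMap.pi fun φ : P.Φ => (φ.1 a) • LinearMap.proj φ : (P.Φ → ℂ) →ₗ[ℂ] (P.Φ → ℂ)),
    fun v => funext fun φ => ?_⟩
  exact (map_mul φ.1 a v).symm

/-- Abelian varieties of primitive type are simple. -/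
theorem simple_prim (hprim : Primitive P) : IsSimple (avP P hP) := by
  refine ⟨⟨(1 : P.E), (one_ne_zero : (1 : P.E) ≠ 0)⟩, fun U hU => ?_⟩
  obtain ⟨π₀, hπ, h1, h2⟩ := exists_projector hU
  let π : P.E →ₗ[ℚ] P.E := π₀
  let U' : Submodule ℚ P.E := U
  have h1' : ∀ v, π v ∈ U' := h1
  have h2' : ∀ v ∈ U', π v = v := h2
  have h3 : ∀ x : P.E, π x = π 1 * x := fun x => end_prim hprim hπ x
  have h4 : π 1 * π 1 = π 1 := by
    rw [← h3]
    exact h2' _ (h1' _)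
  change U' = ⊥ ∨ U' = ⊤
  rcases eq_or_ne (π 1) 0 with h5 | h5
  · left
    rw [eq_bot_iff]
    intro v hv
    rw [Submodule.mem_bot, ← h2' v hv, h3 v, h5, zero_mul]
  · right
    have h6 : π 1 = 1 := mul_left_cancel₀ h5 (by rw [h4, mul_one])
    rw [eq_top_iff]
    intro v _
    have h7 := h3 v
    rw [h6, one_mul] at h7
    rw [← h7]
    exact h1' v

/-- There are no homomorphisms between abelian varieties of different primitive types. -/
theorem hom_zero (hPp : Primitive P) (hQp : Primitive Q) (hne : ¬ SameType P Q) {f : P.E →ₗ[ℚ] Q.E}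
    (hf : IsHom (avP P hP) (avP Q hQ) f) : f = 0 := by
  classical
  by_contra h0
  apply hne
  obtain ⟨e, he, hes⟩ := iso_of_simple (simple_prim (hP := hP) hPp) (simple_prim (hP := hQ) hQp) hf h0
  let g : P.E ≃ₗ[ℚ] Q.E := e
  have hg : ∀ (a : P.E), ∃ b : Q.E, ∀ x, g (a * x) = b * g x := by
    intro a
    have h1 : IsHom (avP Q hQ) (avP Q hQ) (g.toLinearMap.comp ((mulE P a).comp g.symm.toLinearMap)) :=
      IsHom.comp' he (IsHom.comp' (isHom_mulE a) hes)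
    refine ⟨g (a * g.symm 1), fun x => ?_⟩
    have h2 := end_prim hQp h1 (g x)
    change g (a * g.symm (g x)) = g (a * g.symm 1) * g x at h2
    rwa [LinearEquiv.symm_apply_apply] at h2
  choose θ hθ using hg
  have hg1 : g 1 ≠ 0 := fun h => one_ne_zero ((LinearEquiv.map_eq_zero_iff g).1 h)
  have hθg : ∀ a, g a = θ a * g 1 := fun a => by
    rw [← hθ, mul_one]
  let T : P.E →+* Q.E :=
    { toFun := θ
      map_one' := mul_right_cancel₀ hg1 (by rw [← hθg, one_mul])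
      map_mul' := fun a b => mul_right_cancel₀ hg1 (by rw [← hθg, hθ, hθg b, mul_assoc])
      map_zero' := mul_right_cancel₀ hg1 (by rw [← hθg, map_zero, zero_mul])
      map_add' := fun a b => mul_right_cancel₀ hg1 (by rw [← hθg, map_add, hθg a, hθg b, add_mul]) }
  have hT : ∀ a, T a = θ a := fun _ => rfl
  have hTs : Function.Surjective T := by
    intro b
    refine ⟨g.symm (b * g 1), mul_right_cancel₀ hg1 ?_⟩
    rw [hT, ← hθg, LinearEquiv.apply_symm_apply]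
  refine ⟨RingEquiv.ofBijective T ⟨T.injective, hTs⟩, fun ψ => ?_⟩
  have h1 : coef (g.toLinearMap) ψ (ψ.comp T) ≠ 0 := by
    rw [coef_unique g.toLinearMap ψ (fun χ => if χ = ψ.comp T then ψ (g 1) else 0) (fun a => by
      rw [Finset.sum_congr rfl fun χ _ => ite_mul _ _ _ _, Finset.sum_congr rfl fun χ _ => by
        rw [zero_mul], Finset.sum_ite_eq' Finset.univ (ψ.comp T), if_pos (Finset.mem_univ _)]
      change ψ (g a) = _
      rw [hθg, map_mul, mul_comm]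
      rfl), if_pos rfl]
    exact fun h => hg1 ((map_eq_zero ψ).1 h)
  exact coef_type_iff he h1

end prim

end

end Pool.Agent.K4H29.HC
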