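import Mathlib

/-!
# Traces
-/

set_option linter.unusedSectionVars false
set_option linter.unusedVariables false

namespace Pool.Agent.K4H29.HC

open Module

noncomputable section

/-- The trace over a subfield. -/
theorem trace_restrict (F K V : Type) [Field F] [Field K] [Algebra F K] [FiniteDimensional F K]
    [AddCommGroup V] [Module F V] [Module K V] [IsScalarTower F K V] [FiniteDimensional K V]
    (f : V →ₗ[K] V) :
    LinearMap.trace F V (f.restrictScalars F) = Algebra.trace F K (LinearMap.trace K V f) := by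
  classical
  let b := finBasis F K
  let c := finBasis K V
  rw [LinearMap.trace_eq_matrix_trace F (b.smulTower c), LinearMap.trace_eq_matrix_trace K c,
    Matrix.trace, Matrix.trace, Fintype.sum_prod_type_right, map_sum]
  refine Finset.sum_congr rfl fun k _ => ?_
  rw [Algebra.trace_eq_matrix_trace b, Matrix.trace]
  refine Finset.sum_congr rfl fun i _ => ?_
  rw [Matrix.diag_apply, Matrix.diag_apply, Matrix.diag_apply, LinearMap.toMatrix_apply,
    Basis.smulTower_repr, Basis.smulTower_apply, LinearMap.restrictScalars_apply, map_smul,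
    map_smul, Finsupp.smul_apply, Algebra.leftMulMatrix_eq_repr_mul, LinearMap.toMatrix_apply,
    smul_eq_mul, mul_comm]

/-- The trace of a square root of a negative number. -/
theorem trace_sqrt {K : Type} [Field K] [CharZero K] {n : ℕ} (B : Matrix (Fin n) (Fin n) K) {d : ℚ}
    (hd : 0 < d) (hB : B * B = -((d : K) • (1 : Matrix (Fin n) (Fin n) K))) :
    ∃ k : ℤ, B.trace ^ 2 = -((d * k ^ 2 : ℚ) : K) := by
  classical
  let L := AlgebraicClosure K
  obtain ⟨s, hs⟩ : ∃ s : L, s ^ 2 = -(d : L) := IsAlgClosed.exists_pow_nat_eq _ (by norm_num)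
  have hchar : CharZero L := charZero_of_injective_algebraMap (algebraMap K L).injective
  have hd0 : (d : L) ≠ 0 := by
    rw [Ne, Rat.cast_eq_zero]
    exact hd.ne'
  have hs0 : s ≠ 0 := by
    rintro rfl
    rw [zero_pow two_ne_zero] at hs
    exact hd0 (neg_eq_zero.1 hs.symm)
  let C : Matrix (Fin n) (Fin n) L := B.map (algebraMap K L)
  have hC : C * C = -((d : L) • (1 : Matrix (Fin n) (Fin n) L)) := by
    change B.map (algebraMap K L) * B.map (algebraMap K L) = _
    rw [← Matrix.map_mul, hB]
    ext i j
    simp [Matrix.one_apply]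
    split_ifs <;> simp
  let E : Matrix (Fin n) (Fin n) L := (2 * s)⁻¹ • (C + s • 1)
  have h2s : (2 : L) * s ≠ 0 := mul_ne_zero two_ne_zero hs0
  have hE : E * E = E := by
    have h1 : (C + s • (1 : Matrix (Fin n) (Fin n) L)) * (C + s • 1) = (2 * s) • (C + s • 1) := by
      rw [add_mul, mul_add, mul_add, hC, mul_smul_comm, smul_mul_assoc, smul_mul_assoc, mul_smul_comm,
        mul_one, one_mul, mul_one, smul_smul, ← sq, hs]
      rw [mul_smul, smul_add, smul_smul, ← sq, hs, two_smul]
      module
    change ((2 * s)⁻¹ • (C + s • 1)) * ((2 * s)⁻¹ • (C + s • 1)) = _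
    rw [smul_mul_smul_comm, h1, smul_smul, mul_assoc, inv_mul_cancel₀ h2s, mul_one]
  let p : (Fin n → L) →ₗ[L] (Fin n → L) := Matrix.toLin' E
  have hp : p ∘ₗ p = p := by
    change Matrix.toLin' E ∘ₗ Matrix.toLin' E = _
    rw [← Matrix.toLin'_mul, hE]
  have hproj : LinearMap.IsProj (LinearMap.range p) p := by
    refine ⟨fun x => ⟨x, rfl⟩, ?_⟩
    rintro _ ⟨x, rfl⟩
    exact congrArg (fun f => f x) hp
  have h1 : LinearMap.trace L _ p = (finrank L (LinearMap.range p) : L) := hproj.trace
  have h2 : LinearMap.trace L _ p = E.trace := Matrix.trace_toLin'_eq E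
  have h3 : E.trace = (2 * s)⁻¹ * (C.trace + s * n) := by
    change ((2 * s)⁻¹ • (C + s • (1 : Matrix (Fin n) (Fin n) L))).trace = _
    rw [Matrix.trace_smul, Matrix.trace_add, Matrix.trace_smul, Matrix.trace_one, Fintype.card_fin,
      smul_eq_mul, smul_eq_mul]
  set r := finrank L (LinearMap.range p)
  have h4 : C.trace = s * (2 * r - n) := by
    have h5 : (2 * s)⁻¹ * (C.trace + s * n) = r := by rw [← h3, ← h2, h1]
    have h6 : C.trace + s * n = 2 * s * r := by
      rw [← h5, mul_inv_cancel_left₀ h2s]
    linear_combination h6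
  refine ⟨2 * r - n, ?_⟩
  apply (algebraMap K L).injective
  have h5 : algebraMap K L B.trace = C.trace := by
    change _ = (B.map (algebraMap K L)).trace
    rw [Matrix.trace, Matrix.trace, map_sum]
    rfl
  rw [map_pow, h5, h4, map_neg, map_ratCast]
  push_cast
  linear_combination (2 * (r : L) - n) ^ 2 * hs

end

end Pool.Agent.K4H29.HC
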