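import Mathlib
import Pool.Agent.K4H29.HC.Typ4
import Pool.Agent.K4H29.HC.Trc

/-!
# The operators which belong to an abelian variety of primitive CM type
-/

set_option linter.unusedSectionVars false
set_option linter.unusedVariables false

namespace Pool.Agent.K4H29.HC

open Module NumberField Pool.Agent.Y90 Pool.Agent.R915
open Pool.Agent.H204R3.CM (IsHodge IsCMType)
open Pool.Agent.W547.KB (CMPair)
open Pool.Agent.W547.LN (SameType)

noncomputable section

variable (P : CMPair) (hP : ∃ E, IsPolarization (perC P) E)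

/-- The homomorphisms from the abelian variety of type `P`. -/
def HMs (Y : AV) : Submodule ℚ (P.E →ₗ[ℚ] Y.H) where
  carrier := {i | IsHom (avP P hP) Y i}
  zero_mem' := isHom_zero _ _
  add_mem' := fun ha hb => isHom_add ha hb
  smul_mem' := fun c _ ha => isHom_smul c ha

/-- The same as a type. -/
def HM (Y : AV) : Type := HMs P hP Y

instance (Y : AV) : AddCommGroup (HM P hP Y) := inferInstanceAs (AddCommGroup (HMs P hP Y))

instance (Y : AV) : Module ℚ (HM P hP Y) := inferInstanceAs (Module ℚ (HMs P hP Y))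

instance (Y : AV) : FiniteDimensional ℚ (HM P hP Y) :=
  inferInstanceAs (FiniteDimensional ℚ (HMs P hP Y))

variable {P hP} {Y Z : AV}

/-- The map of the element. -/
def HM.f (i : HM P hP Y) : P.E →ₗ[ℚ] Y.H := i.1

theorem HM.isHom (i : HM P hP Y) : IsHom (avP P hP) Y i.f := i.2

/-- Construction of elements. -/
def HM.mk (f : P.E →ₗ[ℚ] Y.H) (hf : IsHom (avP P hP) Y f) : HM P hP Y := ⟨f, hf⟩

theorem HM.mk_f (f : P.E →ₗ[ℚ] Y.H) (hf : IsHom (avP P hP) Y f) : (HM.mk f hf).f = f := rfl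

theorem HM.ext' {i k : HM P hP Y} (h : ∀ x, i.f x = k.f x) : i = k :=
  Subtype.ext (LinearMap.ext h)

theorem HM.add_f (i k : HM P hP Y) (x : P.E) : (i + k).f x = i.f x + k.f x := rfl

theorem HM.smulQ_f (c : ℚ) (i : HM P hP Y) (x : P.E) : (c • i).f x = c • i.f x := rfl

instance : SMul P.E (HM P hP Y) :=
  ⟨fun a i => HM.mk (i.f.comp (mulE P a)) (IsHom.comp' (X := avP P hP) (Y := avP P hP) i.isHom
    (isHom_mulE a))⟩

theorem HM.smul_f (a : P.E) (i : HM P hP Y) (x : P.E) : (a • i).f x = i.f (a * x) := rfl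

instance : Module P.E (HM P hP Y) where
  one_smul i := HM.ext' fun x => by rw [HM.smul_f, one_mul]
  mul_smul a b i := HM.ext' fun x => by rw [HM.smul_f, HM.smul_f, HM.smul_f, mul_comm a b, mul_assoc]
  smul_zero a := HM.ext' fun x => rfl
  smul_add a i k := HM.ext' fun x => rfl
  add_smul a b i := HM.ext' fun x => by
    rw [HM.smul_f, HM.add_f, HM.smul_f, HM.smul_f, add_mul, map_add]
  zero_smul i := HM.ext' fun x => by
    rw [HM.smul_f, zero_mul, map_zero]
    rfl

instance : IsScalarTower ℚ P.E (HM P hP Y) := ⟨fun q a i => HM.ext' fun x => by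
  rw [HM.smul_f, HM.smulQ_f, HM.smul_f, smul_mul_assoc, map_smul]⟩

instance : FiniteDimensional P.E (HM P hP Y) :=
  Module.Finite.of_restrictScalars_finite ℚ P.E (HM P hP Y)

/-- The evaluation at one. -/
def ev (P : CMPair) (hP : ∃ E, IsPolarization (perC P) E) (Y : AV) : HM P hP Y →ₗ[ℚ] Y.H where
  toFun i := i.f 1
  map_add' i k := rfl
  map_smul' c i := rfl

theorem ev_apply (i : HM P hP Y) : ev P hP Y i = i.f 1 := rfl

theorem ev_smul (a : P.E) (i : HM P hP Y) : ev P hP Y (a • i) = i.f a := by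
  rw [ev_apply, HM.smul_f, mul_one]

/-- Composition with a homomorphism. -/
def push {h : Y.H →ₗ[ℚ] Z.H} (hh : IsHom Y Z h) : HM P hP Y →ₗ[P.E] HM P hP Z where
  toFun i := HM.mk (h.comp i.f) (IsHom.comp' hh i.isHom)
  map_add' i k := HM.ext' fun x => map_add h _ _
  map_smul' c i := rfl

theorem push_f {h : Y.H →ₗ[ℚ] Z.H} (hh : IsHom Y Z h) (i : HM P hP Y) (x : P.E) :
    (push hh i).f x = h (i.f x) := rfl

/-- The common kernel of the homomorphisms to the abelian variety. -/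
def cok (P : CMPair) (hP : ∃ E, IsPolarization (perC P) E) (Y : AV) : Submodule ℚ Y.H where
  carrier := {v | ∀ j : Y.H →ₗ[ℚ] P.E, IsHom Y (avP P hP) j → j v = 0}
  zero_mem' := fun j _ => map_zero j
  add_mem' := fun {a b} ha hb j hj => by rw [map_add, ha j hj, hb j hj, add_zero]
  smul_mem' := fun c a ha j hj => by rw [map_smul, ha j hj, smul_zero]

theorem cok_map {h : Y.H →ₗ[ℚ] Z.H} (hh : IsHom Y Z h) {v : Y.H} (hv : v ∈ cok P hP Y) :
    h v ∈ cok P hP Z := fun j hj => hv (j.comp h) (IsHom.comp' hj hh)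

variable (hprim : Primitive P)
include hprim

theorem ev_inj : Function.Injective (ev P hP Y) := by
  rw [← LinearMap.ker_eq_bot, LinearMap.ker_eq_bot']
  intro i hi
  have h1 := simple_hom_zero (simple_prim (hP := hP) hprim) i.isHom
    (x := (1 : P.E)) (one_ne_zero : (1 : P.E) ≠ 0) hi
  exact HM.ext' fun x => congrArg (fun f => f x) h1

theorem compl_ev : IsCompl (LinearMap.range (ev P hP Y)) (cok P hP Y) := by
  obtain ⟨p⟩ := exists_polD Y
  obtain ⟨p0⟩ := exists_polD (avP P hP)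
  refine isCompl_of_disj p ?_ ?_
  · intro v hv j hj
    obtain ⟨g, hg, hadj⟩ := exists_adj p p0 hj
    have hadj' : ∀ (x : Y.H) (y : P.E), p.ω x (g y) = p0.ω (j x) y := hadj
    have hsk : ∀ (x y : P.E), p0.ω x y = -p0.ω y x := p0.skew'
    have h1 : ∀ x : P.E, p0.ω x (j v) = 0 := by
      intro x
      rw [hsk, ← hadj']
      have h2 : g x ∈ LinearMap.range (ev P hP Y) := by
        refine ⟨x • HM.mk g hg, ?_⟩
        rw [ev_smul]
        rfl
      have h3 := hv _ h2
      rw [p.skew', h3, neg_zero, neg_zero]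
    exact p0.nondeg h1
  · rintro _ ⟨i, rfl⟩ hv
    obtain ⟨g, hg, hadj⟩ := exists_adj p0 p i.isHom
    exact adj_inj p0 p i.isHom hg hadj (x := (1 : P.E)) (hv g hg)

/-- The coordinate in the isotypic part. -/
def prM (Y : AV) : Y.H →ₗ[ℚ] HM P hP Y :=
  (LinearEquiv.ofInjective (ev P hP Y) (ev_inj hprim)).symm.toLinearMap.comp
    (Submodule.projectionOnto _ _ (compl_ev (Y := Y) hprim))

theorem prM_ev (i : HM P hP Y) : prM hprim Y (ev P hP Y i) = i := by
  unfold prM
  rw [LinearMap.comp_apply]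
  have h1 := Submodule.projectionOnto_apply_left (compl_ev (Y := Y) (hP := hP) hprim)
    ⟨ev P hP Y i, i, rfl⟩
  rw [h1]
  exact (LinearEquiv.ofInjective (ev P hP Y) (ev_inj hprim)).symm_apply_apply i

theorem prM_cok {v : Y.H} (hv : v ∈ cok P hP Y) : prM hprim (hP := hP) Y v = 0 := by
  unfold prM
  rw [LinearMap.comp_apply, (Submodule.projectionOnto_apply_eq_zero_iff _).2 hv, map_zero]

theorem dec (v : Y.H) : ∃ (i : HM P hP Y) (w : Y.H), w ∈ cok P hP Y ∧ v = ev P hP Y i + w := by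
  have h1 : v ∈ LinearMap.range (ev P hP Y) ⊔ cok P hP Y := by
    rw [(compl_ev hprim).sup_eq_top]
    exact Submodule.mem_top
  obtain ⟨_, ⟨i, rfl⟩, w, hw, h2⟩ := Submodule.mem_sup.1 h1
  exact ⟨i, w, hw, h2.symm⟩

/-- The operator. -/
def opA (hP : ∃ E, IsPolarization (perC P) E) (hprim : Primitive P) (θ : P.E) (Y : AV) :
    Y.H →ₗ[ℚ] Y.H :=
  (ev P hP Y).comp (((LinearMap.lsmul P.E (HM P hP Y) θ).restrictScalars ℚ).comp (prM hprim Y))

theorem opA_apply (θ : P.E) (v : Y.H) :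
    opA hP hprim θ Y v = ev P hP Y (θ • prM hprim Y v) := rfl

theorem opA_ev (θ : P.E) (i : HM P hP Y) : opA hP hprim θ Y (ev P hP Y i) = i.f θ := by
  rw [opA_apply, prM_ev, ev_smul]

theorem opA_f (θ : P.E) (i : HM P hP Y) (x : P.E) : opA hP hprim θ Y (i.f x) = i.f (θ * x) := by
  rw [← ev_smul, opA_ev, HM.smul_f, mul_comm]

theorem opA_cok (θ : P.E) {v : Y.H} (hv : v ∈ cok P hP Y) : opA hP hprim θ Y v = 0 := by
  rw [opA_apply, prM_cok hprim hv, smul_zero, map_zero]

/-- Naturality. -/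
theorem opA_nat (θ : P.E) {h : Y.H →ₗ[ℚ] Z.H} (hh : IsHom Y Z h) (v : Y.H) :
    h (opA hP hprim θ Y v) = opA hP hprim θ Z (h v) := by
  obtain ⟨i, w, hw, rfl⟩ := dec (hP := hP) hprim v
  rw [map_add, map_add, map_add, map_add, opA_cok hprim θ hw, opA_cok hprim θ (cok_map hh hw),
    map_zero, add_zero, add_zero, opA_ev]
  have h1 : h (ev P hP Y i) = ev P hP Z (push hh i) := rfl
  rw [h1, opA_ev]
  rfl

/-- The operator on the abelian variety itself. -/
theorem opA_self (θ : P.E) (x : P.E) : opA hP hprim θ (avP P hP) x = θ * x := by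
  have h1 : IsHom (avP P hP) (avP P hP) (LinearMap.id : P.E →ₗ[ℚ] P.E) := isHom_id _
  exact opA_f hprim θ (HM.mk (Y := avP P hP) (LinearMap.id : P.E →ₗ[ℚ] P.E) h1) x

/-- The operator on another abelian variety. -/
theorem opA_other (θ : P.E) (h : ∀ i : P.E →ₗ[ℚ] Y.H, IsHom (avP P hP) Y i → i = 0) (v : Y.H) :
    opA hP hprim θ Y v = 0 := by
  rw [opA_apply]
  have h1 : θ • prM (hP := hP) hprim Y v = 0 := HM.ext' fun x => by
    have h2 := h _ (θ • prM (hP := hP) hprim Y v).isHom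
    rw [h2]
    rfl
  rw [h1, map_zero]

/-- The trace. -/
theorem opA_trace (θ : P.E) {g : Y.H →ₗ[ℚ] Y.H} (hg : IsHom Y Y g) :
    LinearMap.trace ℚ Y.H (g ∘ₗ opA hP hprim θ Y) =
      Algebra.trace ℚ P.E (θ * LinearMap.trace P.E (HM P hP Y) (push hg)) := by
  let X : HM P hP Y →ₗ[P.E] HM P hP Y := θ • push hg
  have h1 : g ∘ₗ opA hP hprim θ Y =
      (ev P hP Y) ∘ₗ ((X.restrictScalars ℚ) ∘ₗ (prM hprim Y)) := by
    refine LinearMap.ext fun v => ?_
    change g (ev P hP Y (θ • prM hprim Y v)) = ev P hP Y (X (prM hprim Y v))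
    rw [ev_smul]
    change _ = ev P hP Y (θ • push hg (prM hprim Y v))
    rw [ev_smul]
    rfl
  have h2 : ((X.restrictScalars ℚ) ∘ₗ (prM hprim Y)) ∘ₗ (ev P hP Y) = X.restrictScalars ℚ := by
    refine LinearMap.ext fun i => ?_
    change X (prM hprim Y (ev P hP Y i)) = X i
    rw [prM_ev]
  rw [h1, LinearMap.trace_comp_comm', h2, trace_restrict, map_smul, smul_eq_mul]

/-- Operators of purely imaginary elements are skew for polarizations. -/
theorem opA_skew {θ : P.E} (hθ : ∀ φ : P.E →+* ℂ, starRingEnd ℂ (φ θ) = -φ θ) (p : PolD Y)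
    (u v : Y.H) : p.ω (opA hP hprim θ Y u) v + p.ω u (opA hP hprim θ Y v) = 0 := by
  obtain ⟨p0⟩ := exists_polD (avP P hP)
  -- the form on the abelian variety itself
  have h0 : ∀ x y : P.E, p0.ω (θ * x : P.E) y = -p0.ω x (θ * y : P.E) := by
    let ρ : P.E →+* Module.End ℚ (avP P hP).H :=
      { toFun := fun a => mulE P a
        map_one' := LinearMap.ext fun x => one_mul x
        map_mul' := fun a b => LinearMap.ext fun x => mul_assoc a b x
        map_zero' := LinearMap.ext fun x => zero_mul x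
        map_add' := fun a b => LinearMap.ext fun x => add_mul a b x }
    obtain ⟨a', h1, h2⟩ := exists_conj' (Y := avP P hP) (simple_prim (hP := hP) hprim) ρ
      (fun a => isHom_mulE a) (LinearEquiv.refl ℚ P.E) (fun a v => rfl) P.isCMType
      (LinearEquiv.refl ℂ (P.Φ → ℂ)) (fun v φ => rfl) p0 θ
    have h3 : a' = -θ := by
      obtain ⟨φ⟩ : Nonempty (P.E →+* ℂ) := inferInstance
      apply φ.injective
      rw [h2, hθ, map_neg]
    intro x y
    have h4 := h1 x y
    have h5 : ρ a' y = -(θ * y : P.E) := by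
      rw [h3]
      exact neg_mul θ y
    have h6 : ∀ z : P.E, p0.ω x (-z : P.E) = -p0.ω x z := fun z => map_neg _ _
    rw [h5, h6] at h4
    exact h4.symm
  have h0' : ∀ y : P.E, p0.ω (1 : P.E) (opA hP hprim θ (avP P hP) y) = -p0.ω θ y := by
    intro y
    have e1 := h0 1 y
    rw [mul_one] at e1
    have e2 : p0.ω (1 : P.E) (opA hP hprim θ (avP P hP) y) = p0.ω (1 : P.E) (θ * y : P.E) :=
      congrArg (fun z : P.E => p0.ω (1 : P.E) z) (opA_self hprim θ y)
    rw [e2]
    linarith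
  have key : ∀ (i : HM P hP Y) (v : Y.H),
      p.ω (opA hP hprim θ Y (ev P hP Y i)) v +
        p.ω (ev P hP Y i) (opA hP hprim θ Y v) = 0 := by
    intro i v
    obtain ⟨g, hg, hadj⟩ := exists_adj p0 p i.isHom
    have hadj' : ∀ (x : P.E) (y : Y.H), p0.ω x (g y) = p.ω (i.f x) y := hadj
    rw [opA_ev, ev_apply, ← hadj', ← hadj', opA_nat hprim θ hg]
    have h1 := h0' (g v)
    linarith
  obtain ⟨i, w, hw, rfl⟩ := dec (hP := hP) hprim u
  obtain ⟨k, w', hw', rfl⟩ := dec (hP := hP) hprim v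
  have h1 : p.ω w (opA hP hprim θ Y (ev P hP Y k)) = 0 := by
    obtain ⟨g, hg, hadj⟩ := exists_adj p0 p k.isHom
    have hadj' : ∀ (x : P.E) (y : Y.H), p0.ω x (g y) = p.ω (k.f x) y := hadj
    rw [opA_ev, p.skew', ← hadj']
    have h2 : g w = 0 := hw g hg
    rw [h2]
    have h3 : p0.ω (θ : P.E) 0 = 0 := map_zero _
    exact neg_eq_zero.2 h3
  have h2 := key i (ev P hP Y k + w')
  rw [map_add (opA hP hprim θ Y) (ev P hP Y i) w, opA_cok hprim θ hw, add_zero, map_add p.ω,
    LinearMap.add_apply, map_add (opA hP hprim θ Y) (ev P hP Y k) w', opA_cok hprim θ hw',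
    add_zero, h1, add_zero]
  rw [map_add (opA hP hprim θ Y) (ev P hP Y k) w', opA_cok hprim θ hw', add_zero] at h2
  exact h2

end

end Pool.Agent.K4H29.HC
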