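import Mathlib
import Pool.Agent.R915.Stm2

/-!
# The system generated by all Weil classes of imaginary quadratic fields
-/

set_option autoImplicit false

namespace Pool.Agent.K4H29.HC

open Module Pool.Agent.Y90 Pool.Agent.R915
open Pool.Agent.H204R3.CM (IsHodge)

/-- `f ∈ H^n(Y, ℚ)` is a Weil class of an imaginary quadratic field on the abelian variety `Y` of
dimension `n`: `f` is a Hodge class, and there are a positive rational number `d` and an
endomorphism `h = √-d` of `Y` such that `h` may be moved in `f` from each variable to each other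
variable (so `f` lies in the line `Λ^n_K H¹(Y, ℚ)` over the field `K = ℚ(√-d)`). There is no condition
on the dimension and on the discriminant. -/
def IsAnyWeilClass (Y : AV) (n : ℕ) (f : Y.H [⋀^Fin n]→ₗ[ℚ] ℚ) : Prop :=
  Module.finrank ℚ Y.H = 2 * n ∧ IsHodge Y.per f ∧
    ∃ (d : ℚ) (h : Y.H →ₗ[ℚ] Y.H), 0 < d ∧ IsHom Y Y h ∧ (∀ w, h (h w) = -(d • w)) ∧
      ∀ (v : Fin n → Y.H) (k l : Fin n),
        f (Function.update v k (h (v k))) = f (Function.update v l (h (v l)))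

/-- The smallest system of classes `f ∈ H^κ(X, ℚ)`, for all complex abelian varieties `X`, which
contains the classes of degree zero, the Hodge classes of degree two and the Weil classes of
imaginary quadratic fields on abelian varieties of arbitrary dimension and discriminant, and which
is stable under linear combinations, cup products, pull-backs along homomorphisms and push-forwards
along the projections of products. -/
inductive AlgW : (X : AV) → (κ : Type) → (X.H [⋀^κ]→ₗ[ℚ] ℚ) → Prop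
  /-- classes of degree zero -/
  | unit {X : AV} {κ : Type} [IsEmpty κ] (f : X.H [⋀^κ]→ₗ[ℚ] ℚ) : AlgW X κ f
  /-- Hodge classes of degree two -/
  | divisor {X : AV} {κ : Type} (hκ : Nat.card κ = 2) (f : X.H [⋀^κ]→ₗ[ℚ] ℚ)
      (hf : IsHodge X.per f) : AlgW X κ f
  /-- Weil classes on abelian varieties of arbitrary dimension -/
  | weil {X : AV} {n : ℕ} (f : X.H [⋀^Fin n]→ₗ[ℚ] ℚ) (hf : IsAnyWeilClass X n f) :
      AlgW X (Fin n) f
  | zero (X : AV) (κ : Type) : AlgW X κ 0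
  | add {X : AV} {κ : Type} (f g : X.H [⋀^κ]→ₗ[ℚ] ℚ) (hf : AlgW X κ f) (hg : AlgW X κ g) :
      AlgW X κ (f + g)
  | smul {X : AV} {κ : Type} (a : ℚ) (f : X.H [⋀^κ]→ₗ[ℚ] ℚ) (hf : AlgW X κ f) : AlgW X κ (a • f)
  /-- renaming of the variables -/
  | reindex {X : AV} {κ κ' : Type} (e : κ ≃ κ') (f : X.H [⋀^κ]→ₗ[ℚ] ℚ) (hf : AlgW X κ f) :
      AlgW X κ' (f.domDomCongr e)
  /-- cup products (up to a factor) -/
  | cup {X : AV} {κ κ' : Type} [Fintype κ] [DecidableEq κ] [Fintype κ'] [DecidableEq κ']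
      (f : X.H [⋀^κ]→ₗ[ℚ] ℚ) (g : X.H [⋀^κ']→ₗ[ℚ] ℚ) (hf : AlgW X κ f) (hg : AlgW X κ' g)
      (h : X.H [⋀^κ ⊕ κ']→ₗ[ℚ] ℚ)
      (hh : ∀ v : κ ⊕ κ' → X.H, h v = ∑ σ : Equiv.Perm (κ ⊕ κ'), ((Equiv.Perm.sign σ : ℤ) : ℚ) *
        (f (fun k => v (σ (Sum.inl k))) * g (fun k => v (σ (Sum.inr k))))) :
      AlgW X (κ ⊕ κ') h
  /-- pull-backs along homomorphisms `X → Y` -/
  | pull {X Y : AV} (h : X.H →ₗ[ℚ] Y.H) (hh : IsHom X Y h) {κ : Type} (f : Y.H [⋀^κ]→ₗ[ℚ] ℚ)
      (hf : AlgW Y κ f) : AlgW X κ (f.compLinearMap h)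
  /-- push-forwards along the projection `P = X × Y → X`: the form is evaluated at a basis of
  `H_1(Y, ℚ)` -/
  | push {X Y P : AV} (i : X.H →ₗ[ℚ] P.H) (hi : IsHom X P i) (j : Y.H →ₗ[ℚ] P.H)
      (hj : IsHom Y P j) (hij : Function.Bijective fun w : X.H × Y.H => i w.1 + j w.2)
      {κ κ' : Type} (b : Basis κ' ℚ Y.H) (f : P.H [⋀^κ ⊕ κ']→ₗ[ℚ] ℚ) (hf : AlgW P (κ ⊕ κ') f)
      (g : X.H [⋀^κ]→ₗ[ℚ] ℚ)
      (hg : ∀ v : κ → X.H, g v = f (Sum.elim (fun k => i (v k)) fun k => j (b k))) : AlgW X κ g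

/-- The larger system contains the smaller one. -/
theorem AlgW.of_alg {X : AV} {κ : Type} {f : X.H [⋀^κ]→ₗ[ℚ] ℚ} (hf : Alg X κ f) : AlgW X κ f := by
  induction hf with
  | unit f => exact AlgW.unit f
  | divisor hκ f hf => exact AlgW.divisor hκ f hf
  | weil hn f hf =>
    obtain ⟨h1, h2, d, h, h3, h4, h5, h6, -⟩ := hf
    exact AlgW.weil f ⟨h1, h2, d, h, h3, h4, h5, h6⟩
  | zero X κ => exact AlgW.zero X κ
  | add f g _ _ hf hg => exact AlgW.add f g hf hg
  | smul a f _ hf => exact AlgW.smul a f hf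
  | reindex e f _ hf => exact AlgW.reindex e f hf
  | cup f g _ _ h hh hf hg => exact AlgW.cup f g hf hg h hh
  | pull h hh f _ hf => exact AlgW.pull h hh f hf
  | push i hi j hj hij b f _ g hg hf => exact AlgW.push i hi j hj hij b f hf g hg

end Pool.Agent.K4H29.HC
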