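import Mathlib

/-!
# Derivations of alternating forms
-/

set_option linter.unusedSectionVars false
set_option linter.unusedVariables false

namespace Pool.Agent.K4H29.HC

open Module

noncomputable section

section basic

variable {V V' : Type*} [AddCommGroup V] [Module ℚ V] [AddCommGroup V'] [Module ℚ V']
  {W : Type*} [AddCommGroup W] [Module ℚ W]
  {κ κ' : Type} [Fintype κ] [dk : DecidableEq κ] [Fintype κ'] [DecidableEq κ']

/-- The value of the derivation. -/
def dv (A : V →ₗ[ℚ] V) (f : V [⋀^κ]→ₗ[ℚ] W) (v : κ → V) : W :=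
  ∑ k, f (Function.update v k (A (v k)))

/-- The derivation of alternating forms which belongs to an endomorphism. -/
def dalt (A : V →ₗ[ℚ] V) (f : V [⋀^κ]→ₗ[ℚ] W) : V [⋀^κ]→ₗ[ℚ] W where
  toFun := dv A f
  map_update_add' := by
    intro inst v i x y
    obtain rfl : inst = dk := Subsingleton.elim _ _
    unfold dv
    rw [← Finset.sum_add_distrib]
    refine Finset.sum_congr rfl fun k _ => ?_
    by_cases h : k = i
    · subst h
      simp only [Function.update_self, Function.update_idem, map_add, f.map_update_add]
    · rw [Function.update_of_ne h, Function.update_of_ne h, Function.update_of_ne h,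
        Function.update_comm (Ne.symm h), Function.update_comm (Ne.symm h),
        Function.update_comm (Ne.symm h), f.map_update_add]
  map_update_smul' := by
    intro inst v i c x
    obtain rfl : inst = dk := Subsingleton.elim _ _
    unfold dv
    rw [Finset.smul_sum]
    refine Finset.sum_congr rfl fun k _ => ?_
    by_cases h : k = i
    · subst h
      simp only [Function.update_self, Function.update_idem, map_smul, f.map_update_smul]
    · rw [Function.update_of_ne h, Function.update_of_ne h,
        Function.update_comm (Ne.symm h), Function.update_comm (Ne.symm h), f.map_update_smul]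
  map_eq_zero_of_eq' := by
    intro v i j hv hij
    unfold dv
    rw [← Finset.add_sum_erase _ _ (Finset.mem_univ i), ← Finset.add_sum_erase _ _
      (Finset.mem_erase.2 ⟨hij.symm, Finset.mem_univ j⟩), Finset.sum_eq_zero, add_zero]
    · have h1 : Function.update v j (A (v j)) =
          (Function.update v i (A (v i))) ∘ Equiv.swap i j := by
        funext k
        rw [Function.comp_apply]
        by_cases h : k = i
        · subst h
          rw [Equiv.swap_apply_left, Function.update_of_ne hij, Function.update_of_ne hij.symm, hv]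
        · by_cases h' : k = j
          · subst h'
            rw [Equiv.swap_apply_right, Function.update_self, Function.update_self, hv]
          · rw [Equiv.swap_apply_of_ne_of_ne h h', Function.update_of_ne h, Function.update_of_ne h']
      rw [h1, f.map_swap _ hij, add_neg_cancel]
    · intro k hk
      rw [Finset.mem_erase, Finset.mem_erase] at hk
      refine f.map_eq_zero_of_eq _ ?_ hij
      rw [Function.update_of_ne hk.2.1.symm, Function.update_of_ne hk.1.symm, hv]

theorem dalt_apply (A : V →ₗ[ℚ] V) (f : V [⋀^κ]→ₗ[ℚ] W) (v : κ → V) :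
    dalt A f v = ∑ k, f (Function.update v k (A (v k))) := rfl

theorem dalt_add (A : V →ₗ[ℚ] V) (f g : V [⋀^κ]→ₗ[ℚ] W) : dalt A (f + g) = dalt A f + dalt A g := by
  ext v
  simp only [dalt_apply, AlternatingMap.add_apply, Finset.sum_add_distrib]

theorem dalt_smul (A : V →ₗ[ℚ] V) (c : ℚ) (f : V [⋀^κ]→ₗ[ℚ] W) : dalt A (c • f) = c • dalt A f := by
  ext v
  simp only [dalt_apply, AlternatingMap.smul_apply, Finset.smul_sum]

theorem dalt_zero (A : V →ₗ[ℚ] V) : dalt A (0 : V [⋀^κ]→ₗ[ℚ] W) = 0 := by
  ext v
  simp only [dalt_apply, AlternatingMap.zero_apply, Finset.sum_const_zero]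

theorem dalt_reindex (A : V →ₗ[ℚ] V) (e : κ ≃ κ') (f : V [⋀^κ]→ₗ[ℚ] W) :
    dalt A (f.domDomCongr e) = (dalt A f).domDomCongr e := by
  ext v
  rw [AlternatingMap.domDomCongr_apply, dalt_apply, dalt_apply, ← e.sum_comp]
  refine Finset.sum_congr rfl fun k _ => ?_
  rw [AlternatingMap.domDomCongr_apply]
  congr 1
  funext l
  change Function.update v (e k) (A (v (e k))) (e l) = Function.update (v ∘ e) k (A (v (e k))) l
  by_cases h : l = k
  · subst h
    rw [Function.update_self, Function.update_self]
  · rw [Function.update_of_ne h, Function.update_of_ne (fun h' => h (e.injective h'))]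
    rfl

theorem dalt_comp (A : V →ₗ[ℚ] V) (A' : V' →ₗ[ℚ] V') (h : V' →ₗ[ℚ] V) (hh : ∀ v, h (A' v) = A (h v))
    (f : V [⋀^κ]→ₗ[ℚ] W) : dalt A' (f.compLinearMap h) = (dalt A f).compLinearMap h := by
  ext v
  rw [AlternatingMap.compLinearMap_apply, dalt_apply, dalt_apply]
  refine Finset.sum_congr rfl fun k _ => ?_
  rw [AlternatingMap.compLinearMap_apply]
  congr 1
  funext l
  by_cases hl : l = k
  · subst hl
    rw [Function.update_self, Function.update_self, hh]
  · rw [Function.update_of_ne hl, Function.update_of_ne hl]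

/-- The derivation of a product. -/
theorem dalt_cup (A : V →ₗ[ℚ] V) (f : V [⋀^κ]→ₗ[ℚ] ℚ) (g : V [⋀^κ']→ₗ[ℚ] ℚ)
    (h : V [⋀^κ ⊕ κ']→ₗ[ℚ] ℚ)
    (hh : ∀ v : κ ⊕ κ' → V, h v = ∑ σ : Equiv.Perm (κ ⊕ κ'), ((Equiv.Perm.sign σ : ℤ) : ℚ) *
      (f (fun k => v (σ (Sum.inl k))) * g (fun k => v (σ (Sum.inr k)))))
    (hf : dalt A f = 0) (hg : dalt A g = 0) : dalt A h = 0 := by
  ext v
  rw [dalt_apply, AlternatingMap.zero_apply]
  have h1 : ∀ x, h (Function.update v x (A (v x))) = ∑ σ : Equiv.Perm (κ ⊕ κ'),
      ((Equiv.Perm.sign σ : ℤ) : ℚ) * (f (fun k => Function.update v x (A (v x)) (σ (Sum.inl k))) *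
        g (fun k => Function.update v x (A (v x)) (σ (Sum.inr k)))) := fun x => hh _
  rw [Finset.sum_congr rfl fun x _ => h1 x, Finset.sum_comm]
  refine Finset.sum_eq_zero fun σ _ => ?_
  rw [← Finset.mul_sum, ← Equiv.sum_comp σ, Fintype.sum_sum_type]
  have e1 : ∀ k : κ, f (fun l => Function.update v (σ (Sum.inl k)) (A (v (σ (Sum.inl k))))
      (σ (Sum.inl l))) * g (fun l => Function.update v (σ (Sum.inl k)) (A (v (σ (Sum.inl k))))
        (σ (Sum.inr l))) =
      f (Function.update (fun l => v (σ (Sum.inl l))) k (A (v (σ (Sum.inl k))))) *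
        g (fun l => v (σ (Sum.inr l))) := by
    intro k
    congr 2
    · funext l
      by_cases hl : l = k
      · subst hl
        rw [Function.update_self, Function.update_self]
      · rw [Function.update_of_ne hl, Function.update_of_ne (fun h' => hl
          (Sum.inl_injective (σ.injective h')))]
    · funext l
      rw [Function.update_of_ne (fun h' => by
        have := σ.injective h'
        cases this)]
  have e2 : ∀ k : κ', f (fun l => Function.update v (σ (Sum.inr k)) (A (v (σ (Sum.inr k))))
      (σ (Sum.inl l))) * g (fun l => Function.update v (σ (Sum.inr k)) (A (v (σ (Sum.inr k))))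
        (σ (Sum.inr l))) =
      f (fun l => v (σ (Sum.inl l))) *
        g (Function.update (fun l => v (σ (Sum.inr l))) k (A (v (σ (Sum.inr k))))) := by
    intro k
    congr 2
    · funext l
      rw [Function.update_of_ne (fun h' => by
        have := σ.injective h'
        cases this)]
    · funext l
      by_cases hl : l = k
      · subst hl
        rw [Function.update_self, Function.update_self]
      · rw [Function.update_of_ne hl, Function.update_of_ne (fun h' => hl
          (Sum.inr_injective (σ.injective h')))]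
  rw [Finset.sum_congr rfl fun k _ => e1 k, Finset.sum_congr rfl fun k _ => e2 k,
    ← Finset.sum_mul, ← Finset.mul_sum]
  have h2 : ∑ k, f (Function.update (fun l => v (σ (Sum.inl l))) k (A (v (σ (Sum.inl k))))) = 0 := by
    have := dalt_apply A f (fun l => v (σ (Sum.inl l)))
    rw [hf, AlternatingMap.zero_apply] at this
    exact this.symm
  have h3 : ∑ k, g (Function.update (fun l => v (σ (Sum.inr l))) k (A (v (σ (Sum.inr k))))) = 0 := by
    have := dalt_apply A g (fun l => v (σ (Sum.inr l)))
    rw [hg, AlternatingMap.zero_apply] at this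
    exact this.symm
  rw [h2, h3, zero_mul, mul_zero, add_zero, mul_zero]

/-- The derivation of a push-forward. -/
theorem dalt_push {X Y P : Type} [AddCommGroup X] [Module ℚ X] [AddCommGroup Y] [Module ℚ Y]
    [AddCommGroup P] [Module ℚ P] (AX : X →ₗ[ℚ] X) (AY : Y →ₗ[ℚ] Y) (AP : P →ₗ[ℚ] P)
    (i : X →ₗ[ℚ] P) (hi : ∀ v, i (AX v) = AP (i v)) (j : Y →ₗ[ℚ] P) (hj : ∀ v, j (AY v) = AP (j v))
    (b : Basis κ' ℚ Y) (htr : LinearMap.trace ℚ Y AY = 0) (f : P [⋀^κ ⊕ κ']→ₗ[ℚ] ℚ)
    (g : X [⋀^κ]→ₗ[ℚ] ℚ)
    (hg : ∀ v : κ → X, g v = f (Sum.elim (fun k => i (v k)) fun k => j (b k)))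
    (hf : dalt AP f = 0) : dalt AX g = 0 := by
  ext v
  rw [dalt_apply, AlternatingMap.zero_apply]
  obtain ⟨w, hw⟩ : ∃ w : κ ⊕ κ' → P, w = Sum.elim (fun k => i (v k)) fun k => j (b k) := ⟨_, rfl⟩
  have h1 : ∀ k, g (Function.update v k (AX (v k))) = f (Function.update w (Sum.inl k)
      (AP (w (Sum.inl k)))) := by
    intro k
    rw [hg]
    congr 1
    funext x
    rcases x with l | l
    · by_cases hl : l = k
      · subst hl
        rw [Sum.elim_inl, Function.update_self, Function.update_self, hi, hw]
        rfl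
      · rw [Sum.elim_inl, Function.update_of_ne hl, Function.update_of_ne (fun h => hl
          (Sum.inl_injective h)), hw]
        rfl
    · rw [Sum.elim_inr, Function.update_of_ne (by simp), hw]
      rfl
  have h2 := dalt_apply AP f w
  rw [hf, AlternatingMap.zero_apply, Fintype.sum_sum_type] at h2
  rw [Finset.sum_congr rfl fun k _ => h1 k]
  have h3 : ∀ l, f (Function.update w (Sum.inr l) (AP (w (Sum.inr l)))) =
      b.repr (AY (b l)) l * f w := by
    intro l
    have e1 : AP (w (Sum.inr l)) = ∑ m, b.repr (AY (b l)) m • j (b m) := by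
      rw [hw, Sum.elim_inr, ← hj]
      conv_lhs => rw [← b.sum_repr (AY (b l)), map_sum]
      exact Finset.sum_congr rfl fun m _ => map_smul _ _ _
    rw [e1, AlternatingMap.map_update_sum, Finset.sum_eq_single l]
    · rw [AlternatingMap.map_update_smul, smul_eq_mul]
      congr 2
      have e2 : j (b l) = w (Sum.inr l) := by
        rw [hw]
        rfl
      rw [e2, Function.update_eq_self]
    · intro m _ hm
      rw [AlternatingMap.map_update_smul]
      rw [f.map_eq_zero_of_eq (i := Sum.inr l) (j := Sum.inr m) _ ?_ (fun h => hm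
        (Sum.inr_injective h).symm), smul_zero]
      rw [Function.update_self, Function.update_of_ne (fun h => hm (Sum.inr_injective h)), hw]
      rfl
    · intro h
      exact absurd (Finset.mem_univ _) h
  rw [Finset.sum_congr rfl fun l _ => h3 l, ← Finset.sum_mul] at h2
  have h4 : ∑ l, b.repr (AY (b l)) l = 0 := by
    rw [← htr, LinearMap.trace_eq_matrix_trace ℚ b]
    exact Finset.sum_congr rfl fun l _ => (LinearMap.toMatrix_apply b b AY l l).symm
  rw [h4, zero_mul, add_zero] at h2
  exact h2.symm

end basic

end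

end Pool.Agent.K4H29.HC
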