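import Mathlib
import Pool.Agent.K4H29.HC.Der
import Pool.Agent.R915.H1

/-!
# Derivations kill Weil classes
-/

set_option linter.unusedSectionVars false
set_option linter.unusedVariables false

namespace Pool.Agent.K4H29.HC

open Module

noncomputable section

section weil

variable {V : Type} [AddCommGroup V] [Module ℚ V] {n : ℕ}

/-- An alternating map on which `h` acts as `s` in each variable is determined by its values on half
a basis. -/
theorem ext_s (h : V →ₗ[ℚ] V) (s : ℂ) (b : Basis (Fin n ⊕ Fin n) ℚ V)
    (hb : ∀ i, b (Sum.inr i) = h (b (Sum.inl i))) (Φ : V [⋀^Fin n]→ₗ[ℚ] ℂ)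
    (hΦ : ∀ v k, Φ (Function.update v k (h (v k))) = s * Φ v)
    (h0 : ∀ σ : Fin n → Fin n, Function.Injective σ → Φ (fun k => b (Sum.inl (σ k))) = 0) :
    Φ = 0 := by
  classical
  have key : ∀ (N : ℕ) (x : Fin n → Fin n ⊕ Fin n),
      (Finset.univ.filter fun k => (x k).isRight).card = N → Φ (fun k => b (x k)) = 0 := by
    intro N
    induction N with
    | zero =>
      intro x hx
      rw [Finset.card_eq_zero] at hx
      have h1 : ∀ k, ∃ i, x k = Sum.inl i := by
        intro k
        rcases h2 : x k with i | i
        · exact ⟨i, rfl⟩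
        · exfalso
          have h3 : k ∈ Finset.univ.filter fun k => (x k).isRight :=
            Finset.mem_filter.2 ⟨Finset.mem_univ _, by rw [h2]; rfl⟩
          rw [hx] at h3
          exact absurd h3 (Finset.notMem_empty _)
      choose σ hσ using h1
      have h2 : (fun k => b (x k)) = fun k => b (Sum.inl (σ k)) := by
        funext k
        rw [hσ]
      rw [h2]
      by_cases hinj : Function.Injective σ
      · exact h0 σ hinj
      · rw [Function.Injective] at hinj
        push Not at hinj
        obtain ⟨i, j, hij, hne⟩ := hinj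
        exact Φ.map_eq_zero_of_eq _ (by rw [hij]) hne
    | succ N ih =>
      intro x hx
      obtain ⟨k, hk⟩ : ∃ k, k ∈ Finset.univ.filter fun k => (x k).isRight := by
        rw [← Finset.Nonempty, ← Finset.card_pos]
        omega
      have hk' := (Finset.mem_filter.1 hk).2
      obtain ⟨i, hi⟩ := Sum.isRight_iff.1 hk'
      have h1 : (Finset.univ.filter fun l => (Function.update x k (Sum.inl i) l).isRight) =
          (Finset.univ.filter fun k => (x k).isRight).erase k := by
        ext l
        rw [Finset.mem_erase, Finset.mem_filter, Finset.mem_filter]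
        by_cases hl : l = k
        · subst hl
          rw [Function.update_self]
          simp
        · rw [Function.update_of_ne hl]
          simp [hl]
      have h2 := ih (Function.update x k (Sum.inl i)) (by
        rw [h1, Finset.card_erase_of_mem hk, hx]
        rfl)
      have h3 := hΦ (fun l => b (Function.update x k (Sum.inl i) l)) k
      rw [h2, mul_zero, Function.update_self, ← hb] at h3
      rw [← h3]
      congr 1
      funext l
      by_cases hl : l = k
      · subst hl
        rw [Function.update_self, hi]
      · rw [Function.update_of_ne hl, Function.update_of_ne hl]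
  have h1 : Φ.toMultilinearMap = 0 := by
    refine Basis.ext_multilinear (fun _ => b) fun x => ?_
    exact key _ x rfl
  ext v
  exact congrArg (fun f => f v) h1

variable [FiniteDimensional ℚ V]

/-- Derivations kill Weil classes. -/
theorem dalt_weil (A h : V →ₗ[ℚ] V) {d : ℚ} (hd : 0 < d) (hsq : ∀ w, h (h w) = -(d • w))
    (hcomm : ∀ v, h (A v) = A (h v)) (hn : finrank ℚ V = 2 * n)
    (ht1 : LinearMap.trace ℚ V A = 0) (ht2 : LinearMap.trace ℚ V (h ∘ₗ A) = 0)
    (f : V [⋀^Fin n]→ₗ[ℚ] ℚ)
    (hmv : ∀ (v : Fin n → V) (k l : Fin n),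
      f (Function.update v k (h (v k))) = f (Function.update v l (h (v l)))) : dalt A f = 0 := by
  classical
  obtain ⟨b, hb⟩ := Pool.Agent.R915.exists_pair_basis h hd hsq hn
  rcases Nat.eq_zero_or_pos n with rfl | hn0
  · ext v
    rw [dalt_apply, AlternatingMap.zero_apply, Finset.univ_eq_empty, Finset.sum_empty]
  let z0 : Fin n := ⟨0, hn0⟩
  let t : ℝ := Real.sqrt (d : ℝ)
  have ht : t * t = d := Real.mul_self_sqrt (by exact_mod_cast hd.le)
  have ht0 : t ≠ 0 := by
    intro h0
    rw [h0, zero_mul] at ht
    have : (0 : ℚ) = d := by exact_mod_cast ht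
    exact hd.ne this
  let s : ℂ := (t : ℂ) * Complex.I
  have hs : s * s = -((d : ℚ) : ℂ) := by
    have h1 : ((t * t : ℝ) : ℂ) = ((d : ℝ) : ℂ) := by rw [ht]
    rw [Complex.ofReal_mul, Complex.ofReal_ratCast] at h1
    change ((t : ℂ) * Complex.I) * ((t : ℂ) * Complex.I) = _
    linear_combination (t : ℂ) * t * Complex.I_mul_I - h1
  -- the complex form
  let c : ℚ →ₗ[ℚ] ℂ := (Algebra.linearMap ℚ ℂ)
  have hc : ∀ q, c q = (q : ℂ) := fun q => rfl
  let g : V [⋀^Fin n]→ₗ[ℚ] ℚ :=
    { toFun := fun v => f (Function.update v z0 (h (v z0)))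
      map_update_add' := by
        intro inst v i x y
        obtain rfl : inst = (instDecidableEqFin n) := Subsingleton.elim _ _
        rw [hmv _ z0 i, hmv _ z0 i, hmv _ z0 i]
        simp only [Function.update_self, Function.update_idem, map_add, f.map_update_add]
      map_update_smul' := by
        intro inst v i q x
        obtain rfl : inst = (instDecidableEqFin n) := Subsingleton.elim _ _
        rw [hmv _ z0 i, hmv _ z0 i]
        simp only [Function.update_self, Function.update_idem, map_smul, f.map_update_smul]
      map_eq_zero_of_eq' := by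
        intro v i j hv hij
        have h1 := hmv v z0 i
        have h2 := hmv v z0 j
        have h3 : Function.update v j (h (v j)) =
            (Function.update v i (h (v i))) ∘ Equiv.swap i j := by
          funext k
          rw [Function.comp_apply]
          by_cases h : k = i
          · subst h
            rw [Equiv.swap_apply_left, Function.update_of_ne hij, Function.update_of_ne hij.symm, hv]
          · by_cases h' : k = j
            · subst h'
              rw [Equiv.swap_apply_right, Function.update_self, Function.update_self, hv]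
            · rw [Equiv.swap_apply_of_ne_of_ne h h', Function.update_of_ne h,
                Function.update_of_ne h']
        rw [h3, f.map_swap _ hij, ← h1] at h2
        linarith }
  have hg : ∀ v, g v = f (Function.update v z0 (h (v z0))) := fun _ => rfl
  let Φ : V [⋀^Fin n]→ₗ[ℚ] ℂ := s • c.compAlternatingMap f + c.compAlternatingMap g
  have hΦv : ∀ v, Φ v = s * (f v : ℂ) + (g v : ℂ) := fun v => rfl
  have hgk : ∀ v k, g v = f (Function.update v k (h (v k))) := fun v k => by rw [hg, hmv v z0 k]
  have hΦ : ∀ v k, Φ (Function.update v k (h (v k))) = s * Φ v := by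
    intro v k
    rw [hΦv, hΦv, hgk (Function.update v k (h (v k))) k, ← hgk v k, Function.update_self, hsq,
      Function.update_idem, f.map_update_neg, f.map_update_smul, Function.update_eq_self,
      smul_eq_mul]
    push_cast
    linear_combination -(f v : ℂ) * hs
  have hD : ∀ v k, dalt A Φ (Function.update v k (h (v k))) = s * dalt A Φ v := by
    intro v k
    rw [dalt_apply, dalt_apply, Finset.mul_sum]
    refine Finset.sum_congr rfl fun l _ => ?_
    by_cases hl : l = k
    · subst hl
      rw [Function.update_self, Function.update_idem, ← hcomm]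
      have h1 := hΦ (Function.update v l (A (v l))) l
      rw [Function.update_self, Function.update_idem] at h1
      exact h1
    · rw [Function.update_of_ne hl, Function.update_comm (Ne.symm hl)]
      have h1 := hΦ (Function.update v l (A (v l))) k
      rw [Function.update_of_ne (Ne.symm hl)] at h1
      exact h1
  -- the coefficients
  let p : Fin n → Fin n → ℚ := fun l j => b.repr (A (b (Sum.inl j))) (Sum.inl l)
  let q : Fin n → Fin n → ℚ := fun l j => b.repr (A (b (Sum.inl j))) (Sum.inr l)
  have hA : ∀ j, A (b (Sum.inl j)) = ∑ l, p l j • b (Sum.inl l) + ∑ l, q l j • b (Sum.inr l) := by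
    intro j
    conv_lhs => rw [← b.sum_repr (A (b (Sum.inl j))), Fintype.sum_sum_type]
  have hhb : ∀ i, h (b (Sum.inr i)) = -(d • b (Sum.inl i)) := fun i => by rw [hb, hsq]
  have hhA : ∀ j, h (A (b (Sum.inl j))) =
      ∑ l, p l j • b (Sum.inr l) - ∑ l, (d * q l j) • b (Sum.inl l) := by
    intro j
    rw [hA, map_add, map_sum, map_sum, sub_eq_add_neg, ← Finset.sum_neg_distrib]
    congr 1
    · refine Finset.sum_congr rfl fun l _ => ?_
      rw [map_smul, hb]
    · refine Finset.sum_congr rfl fun l _ => ?_
      rw [map_smul, hhb, smul_neg, smul_smul, mul_comm]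
  have hrl : ∀ (u w : Fin n → ℚ) (j : Fin n),
      b.repr (∑ l, u l • b (Sum.inl l) + ∑ l, w l • b (Sum.inr l)) (Sum.inl j) = u j := by
    intro u w j
    rw [map_add, map_sum, map_sum, Finsupp.add_apply, Finsupp.finsetSum_apply,
      Finsupp.finsetSum_apply, Finset.sum_eq_single j, Finset.sum_eq_zero, add_zero]
    · rw [map_smul, b.repr_self, Finsupp.smul_apply, Finsupp.single_eq_same, smul_eq_mul, mul_one]
    · intro l _
      rw [map_smul, b.repr_self, Finsupp.smul_apply, Finsupp.single_apply, if_neg (by simp),
        smul_zero]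
    · intro l _ hl
      rw [map_smul, b.repr_self, Finsupp.smul_apply, Finsupp.single_apply, if_neg (by simpa using hl),
        smul_zero]
    · intro h
      exact absurd (Finset.mem_univ _) h
  have hrr : ∀ (u w : Fin n → ℚ) (j : Fin n),
      b.repr (∑ l, u l • b (Sum.inl l) + ∑ l, w l • b (Sum.inr l)) (Sum.inr j) = w j := by
    intro u w j
    rw [map_add, map_sum, map_sum, Finsupp.add_apply, Finsupp.finsetSum_apply,
      Finsupp.finsetSum_apply, Finset.sum_eq_zero, Finset.sum_eq_single j, zero_add]
    · rw [map_smul, b.repr_self, Finsupp.smul_apply, Finsupp.single_eq_same, smul_eq_mul, mul_one]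
    · intro l _ hl
      rw [map_smul, b.repr_self, Finsupp.smul_apply, Finsupp.single_apply, if_neg (by simpa using hl),
        smul_zero]
    · intro h
      exact absurd (Finset.mem_univ _) h
    · intro l _
      rw [map_smul, b.repr_self, Finsupp.smul_apply, Finsupp.single_apply, if_neg (by simp),
        smul_zero]
  have hhA' : ∀ j, h (A (b (Sum.inl j))) =
      ∑ l, (-(d * q l j)) • b (Sum.inl l) + ∑ l, p l j • b (Sum.inr l) := by
    intro j
    rw [hhA, sub_eq_add_neg, ← Finset.sum_neg_distrib, add_comm]
    congr 1
    exact Finset.sum_congr rfl fun l _ => (neg_smul _ _).symm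
  have hp0 : ∑ j, p j j = 0 := by
    rw [LinearMap.trace_eq_matrix_trace ℚ b, Matrix.trace, Fintype.sum_sum_type] at ht1
    have e1 : ∀ j, (LinearMap.toMatrix b b A).diag (Sum.inl j) = p j j := fun j => by
      rw [Matrix.diag_apply, LinearMap.toMatrix_apply]
    have e2 : ∀ j, (LinearMap.toMatrix b b A).diag (Sum.inr j) = p j j := fun j => by
      rw [Matrix.diag_apply, LinearMap.toMatrix_apply, hb, ← hcomm, hhA', hrr]
    rw [Finset.sum_congr rfl fun j _ => e1 j, Finset.sum_congr rfl fun j _ => e2 j] at ht1
    linarith
  have hq0 : ∑ j, q j j = 0 := by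
    rw [LinearMap.trace_eq_matrix_trace ℚ b, Matrix.trace, Fintype.sum_sum_type] at ht2
    have e1 : ∀ j, (LinearMap.toMatrix b b (h ∘ₗ A)).diag (Sum.inl j) = -(d * q j j) := fun j => by
      rw [Matrix.diag_apply, LinearMap.toMatrix_apply, LinearMap.comp_apply, hhA', hrl]
    have e2 : ∀ j, (LinearMap.toMatrix b b (h ∘ₗ A)).diag (Sum.inr j) = -(d * q j j) := fun j => by
      rw [Matrix.diag_apply, LinearMap.toMatrix_apply, LinearMap.comp_apply, hb, ← hcomm, hsq,
        map_neg, map_smul, Finsupp.neg_apply, Finsupp.smul_apply, smul_eq_mul]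
    rw [Finset.sum_congr rfl fun j _ => e1 j, Finset.sum_congr rfl fun j _ => e2 j,
      Finset.sum_neg_distrib, ← Finset.mul_sum] at ht2
    have h1 : d * ∑ j, q j j = 0 := by linarith
    exact (mul_eq_zero.1 h1).resolve_left hd.ne'
  have hD0 : dalt A Φ = 0 := by
    refine ext_s h s b hb _ hD fun σ hσ => ?_
    rw [dalt_apply]
    have hbij : Function.Bijective σ := Finite.injective_iff_bijective.1 hσ
    have e1 : ∀ k, Φ (Function.update (fun k => b (Sum.inl (σ k))) k (A (b (Sum.inl (σ k))))) =
        ((p (σ k) (σ k) : ℂ) + s * (q (σ k) (σ k) : ℂ)) * Φ (fun k => b (Sum.inl (σ k))) := by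
      intro k
      have e2 : ∀ l, l ≠ σ k → Φ (Function.update (fun k => b (Sum.inl (σ k))) k
          (b (Sum.inl l))) = 0 := by
        intro l hl
        obtain ⟨k', rfl⟩ := hbij.2 l
        have hkk : k ≠ k' := fun h => hl (by rw [h])
        refine Φ.map_eq_zero_of_eq _ (i := k) (j := k') ?_ hkk
        rw [Function.update_self, Function.update_of_ne hkk.symm]
      have e3 : ∀ x, Φ (Function.update (fun k => b (Sum.inl (σ k))) k (h x)) =
          s * Φ (Function.update (fun k => b (Sum.inl (σ k))) k x) := by
        intro x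
        have h1 := hΦ (Function.update (fun k => b (Sum.inl (σ k))) k x) k
        rw [Function.update_self, Function.update_idem] at h1
        exact h1
      rw [hA, Φ.map_update_add, Φ.map_update_sum, Φ.map_update_sum, Finset.sum_eq_single (σ k),
        Finset.sum_eq_single (σ k), Φ.map_update_smul, Φ.map_update_smul, hb, e3, add_mul]
      · have h4 : Function.update (fun k => b (Sum.inl (σ k))) k (b (Sum.inl (σ k))) =
            fun k => b (Sum.inl (σ k)) := Function.update_eq_self k _
        rw [h4, Rat.smul_def, Rat.smul_def]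
        ring
      · intro l _ hl
        rw [Φ.map_update_smul, hb, e3, e2 l hl, mul_zero, smul_zero]
      · intro h
        exact absurd (Finset.mem_univ _) h
      · intro l _ hl
        rw [Φ.map_update_smul, e2 l hl, smul_zero]
      · intro h
        exact absurd (Finset.mem_univ _) h
    rw [Finset.sum_congr rfl fun k _ => e1 k, ← Finset.sum_mul, Finset.sum_add_distrib,
      ← Finset.mul_sum]
    have e4 : ∑ k, (p (σ k) (σ k) : ℂ) = 0 := by
      rw [hbij.sum_comp (fun j => (p j j : ℂ)), ← Rat.cast_sum, hp0, Rat.cast_zero]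
    have e5 : ∑ k, (q (σ k) (σ k) : ℂ) = 0 := by
      rw [hbij.sum_comp (fun j => (q j j : ℂ)), ← Rat.cast_sum, hq0, Rat.cast_zero]
    rw [e4, e5, mul_zero, add_zero, zero_mul]
  ext v
  have h1 : dalt A Φ v = s * ((dalt A f v : ℚ) : ℂ) + ((dalt A g v : ℚ) : ℂ) := by
    rw [dalt_apply, dalt_apply, dalt_apply, Rat.cast_sum, Rat.cast_sum, Finset.mul_sum,
      ← Finset.sum_add_distrib]
    exact Finset.sum_congr rfl fun k _ => hΦv _
  rw [hD0, AlternatingMap.zero_apply] at h1
  have h2 := congrArg Complex.im h1
  rw [Complex.zero_im, Complex.add_im, Complex.ratCast_im, add_zero] at h2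
  have h3 : (s * ((dalt A f v : ℚ) : ℂ)).im = t * ((dalt A f v : ℚ) : ℝ) := by
    change (((t : ℂ) * Complex.I) * ((dalt A f v : ℚ) : ℂ)).im = _
    simp
  rw [h3] at h2
  have h4 : ((dalt A f v : ℚ) : ℝ) = 0 := (mul_eq_zero.1 h2.symm).resolve_left ht0
  rw [AlternatingMap.zero_apply]
  exact_mod_cast h4

end weil

end

end Pool.Agent.K4H29.HC
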