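import Mathlib
import Pool.Agent.K4H29.HC.Obs
import Pool.Agent.K4H29.HC.Wcl
import Pool.Agent.K4H29.HC.Stm

/-!
# The derivations kill the classes of the system
-/

set_option linter.unusedSectionVars false
set_option linter.unusedVariables false

namespace Pool.Agent.K4H29.HC

open Module NumberField Pool.Agent.Y90 Pool.Agent.R915
open Pool.Agent.H204R3.CM (IsHodge IsCMType)
open Pool.Agent.W547.KB (CMPair)

noncomputable section

/-- The conditions on the element of the CM field. -/
structure Good (P : CMPair) (θ : P.E) : Prop where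
  imag : ∀ φ : P.E →+* ℂ, starRingEnd ℂ (φ θ) = -φ θ
  orth : ∀ (δ : P.E) (d : ℚ), 0 < d → δ * δ = -(d : P.E) → Algebra.trace ℚ P.E (θ * δ) = 0

variable {P : CMPair} (hP : ∃ E, IsPolarization (perC P) E) (hprim : Primitive P) {θ : P.E}
  (hθ : Good P θ)

include hθ in
theorem Good.trace : Algebra.trace ℚ P.E θ = 0 := by
  have h1 := trace_eq_sum_embeddings ℂ (K := ℚ) (L := P.E) (x := θ)
  have h2 := congrArg (starRingEnd ℂ) h1
  rw [map_sum] at h2
  have h3 : ∀ σ : P.E →ₐ[ℚ] ℂ, starRingEnd ℂ (σ θ) = -σ θ := fun σ => hθ.imag (σ : P.E →+* ℂ)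
  rw [Finset.sum_congr rfl fun σ _ => h3 σ, Finset.sum_neg_distrib, ← h1, eq_ratCast,
    map_ratCast] at h2
  have h4 : ((Algebra.trace ℚ P.E θ : ℚ) : ℂ) = 0 := by linear_combination (1 / 2 : ℂ) * h2
  exact_mod_cast h4

include hθ in
theorem opA_tr (Y : AV) : LinearMap.trace ℚ Y.H (opA hP hprim θ Y) = 0 := by
  have h1 := opA_trace (hP := hP) hprim θ (isHom_id Y)
  have h2 : (LinearMap.id : Y.H →ₗ[ℚ] Y.H) ∘ₗ opA hP hprim θ Y = opA hP hprim θ Y :=
    LinearMap.id_comp _
  have h3 : push (P := P) (hP := hP) (isHom_id Y) = LinearMap.id := LinearMap.ext fun i => rfl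
  rw [h2, h3, LinearMap.trace_id] at h1
  rw [h1, mul_comm, ← nsmul_eq_mul, map_nsmul, Good.trace hθ, smul_zero]

include hθ in
theorem opA_trh (Y : AV) {h : Y.H →ₗ[ℚ] Y.H} (hh : IsHom Y Y h) {d : ℚ} (hd : 0 < d)
    (hsq : ∀ w, h (h w) = -(d • w)) : LinearMap.trace ℚ Y.H (h ∘ₗ opA hP hprim θ Y) = 0 := by
  rw [opA_trace (hP := hP) hprim θ hh]
  let c := finBasis P.E (HM P hP Y)
  obtain ⟨k, hk⟩ := trace_sqrt (LinearMap.toMatrix c c (push hh)) hd (by
    rw [← LinearMap.toMatrix_mul, ← LinearMap.toMatrix_one c, ← map_smul, ← map_neg]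
    congr 1
    refine LinearMap.ext fun i => HM.ext' fun x => ?_
    change h (h (i.f x)) = (-(((d : P.E)) • i)).f x
    have h1 : (-(((d : P.E)) • i)).f x = -(((d : P.E)) • i).f x := rfl
    rw [h1, HM.smul_f, hsq, ← map_smul, Rat.smul_def])
  rw [← LinearMap.trace_eq_matrix_trace P.E c] at hk
  set τ := LinearMap.trace P.E (HM P hP Y) (push hh)
  by_cases h0 : τ = 0
  · rw [h0, mul_zero, map_zero]
  · have hk0 : k ≠ 0 := by
      rintro rfl
      rw [Int.cast_zero, zero_pow two_ne_zero, mul_zero, Rat.cast_zero, neg_zero] at hk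
      exact h0 (pow_eq_zero_iff two_ne_zero |>.1 hk)
    refine hθ.orth τ (d * k ^ 2) ?_ (by rw [← sq, hk])
    have : (0 : ℚ) < (k : ℚ) ^ 2 := by positivity
    positivity

include hθ in
/-- The derivation kills the Hodge classes of degree two. -/
theorem kill_two (Y : AV) {κ : Type} [Fintype κ] [DecidableEq κ] (hκ : Nat.card κ = 2)
    (f : Y.H [⋀^κ]→ₗ[ℚ] ℚ) (hf : IsHodge Y.per f) : dalt (opA hP hprim θ Y) f = 0 := by
  obtain ⟨p⟩ := exists_polD Y
  obtain ⟨e, g, hg, hfg⟩ := hodge_two p hκ f hf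
  ext v
  rw [dalt_apply, AlternatingMap.zero_apply, ← e.sum_comp, Fin.sum_univ_two, hfg, hfg,
    Function.update_self, Function.update_self, Function.update_of_ne, Function.update_of_ne,
    opA_nat hprim θ hg]
  · exact opA_skew hprim hθ.imag p _ _
  · exact fun h => absurd (e.injective h) (by decide)
  · exact fun h => absurd (e.injective h) (by decide)

include hθ in
/-- The derivation kills the classes of the system. -/
theorem kill {Y : AV} {κ : Type} {f : Y.H [⋀^κ]→ₗ[ℚ] ℚ} (hf : AlgW Y κ f) :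
    ∀ [Fintype κ] [DecidableEq κ], dalt (opA hP hprim θ Y) f = 0 := by
  induction hf with
  | unit f =>
    intro _ _
    ext v
    rw [dalt_apply, AlternatingMap.zero_apply, Finset.univ_eq_empty, Finset.sum_empty]
  | divisor hκ f hf =>
    intro _ _
    exact kill_two hP hprim hθ _ hκ f hf
  | @weil X n f hf =>
    intro i1 i2
    obtain ⟨h1, h2, d, h, h3, h4, h5, h6⟩ := hf
    obtain rfl : i1 = Fin.fintype n := Subsingleton.elim _ _
    obtain rfl : i2 = instDecidableEqFin n := Subsingleton.elim _ _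
    exact dalt_weil (opA hP hprim θ X) h h3 h5 (fun v => opA_nat hprim θ h4 v) h1
      (opA_tr hP hprim hθ X) (opA_trh hP hprim hθ X h4 h3 h5) f h6
  | zero X κ =>
    intro _ _
    exact dalt_zero _
  | add f g _ _ hf hg =>
    intro _ _
    rw [dalt_add, hf, hg, add_zero]
  | smul a f _ hf =>
    intro _ _
    rw [dalt_smul, hf, smul_zero]
  | @reindex X κ κ' e f _ hf =>
    intro _ _
    classical
    let _ : Fintype κ := Fintype.ofEquiv κ' e.symm
    rw [dalt_reindex, hf]
    rfl
  | @cup X κ κ' a1 a2 a3 a4 f g _ _ h hh hf hg =>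
    intro i1 i2
    obtain rfl : i1 = instFintypeSum κ κ' := Subsingleton.elim _ _
    obtain rfl : i2 = instDecidableEqSum := Subsingleton.elim _ _
    exact dalt_cup _ f g h hh hf hg
  | pull h hh f _ hf =>
    intro _ _
    rw [dalt_comp (opA hP hprim θ _) (opA hP hprim θ _) h (fun v => opA_nat hprim θ hh v) f, hf]
    rfl
  | @push X Y P' i hi j hj hij κ κ' b f _ g hg hf =>
    intro _ _
    classical
    have : Finite κ' := Module.Finite.finite_basis b
    let _ : Fintype κ' := Fintype.ofFinite κ'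
    exact dalt_push (opA hP hprim θ X) (opA hP hprim θ Y) (opA hP hprim θ P') i
      (fun v => opA_nat hprim θ hi v) j (fun v => opA_nat hprim θ hj v) b (opA_tr hP hprim hθ Y) f g
      hg hf

end

end Pool.Agent.K4H29.HC
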