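import Mathlib
import Pool.Agent.K4H29.HC.Kill
import Pool.Agent.W547.KB.Canon

/-!
# The existence of elements
-/

set_option linter.unusedSectionVars false
set_option linter.unusedVariables false

namespace Pool.Agent.K4H29.HC

open Module NumberField Pool.Agent.Y90 Pool.Agent.R915
open Pool.Agent.H204R3.CM (IsHodge IsCMType)
open Pool.Agent.W547.KB (CMPair)

noncomputable section

variable {P : CMPair}

/-- Purely imaginary elements. -/
def imagE (P : CMPair) : Submodule ℚ P.E where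
  carrier := {x | ∀ φ : P.E →+* ℂ, starRingEnd ℂ (φ x) = -φ x}
  zero_mem' := fun φ => by rw [map_zero, map_zero, neg_zero]
  add_mem' := fun {x y} hx hy φ => by rw [map_add, map_add, hx, hy, neg_add]
  smul_mem' := fun c x hx φ => by
    rw [map_rat_smul, Rat.smul_def, map_mul, map_ratCast, hx, mul_neg]

theorem trace_emb (x : P.E) : ((Algebra.trace ℚ P.E x : ℚ) : ℂ) = ∑ φ : P.E →+* ℂ, φ x := by
  have h1 := trace_eq_sum_embeddings ℂ (K := ℚ) (L := P.E) (x := x)
  rw [eq_ratCast] at h1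
  rw [h1]
  exact Fintype.sum_equiv (RingHom.equivRatAlgHom P.E ℂ).symm _ _ fun σ => rfl

/-- The trace form is definite on purely imaginary elements. -/
theorem trace_def {x : P.E} (hx : x ∈ imagE P) (h : Algebra.trace ℚ P.E (x * x) = 0) : x = 0 := by
  have h1 := trace_emb (P := P) (x * x)
  rw [h, Rat.cast_zero] at h1
  have h2 : ∀ φ : P.E →+* ℂ, φ (x * x) = -((Complex.normSq (φ x) : ℝ) : ℂ) := by
    intro φ
    have h3 := Complex.mul_conj (φ x)
    rw [hx φ] at h3
    rw [map_mul]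
    linear_combination -h3
  rw [Finset.sum_congr rfl fun φ _ => h2 φ, Finset.sum_neg_distrib, ← Complex.ofReal_sum] at h1
  have h3 : ∑ φ : P.E →+* ℂ, Complex.normSq (φ x) = 0 := by
    have h4 := neg_eq_zero.1 h1.symm
    exact_mod_cast h4
  obtain ⟨φ⟩ : Nonempty (P.E →+* ℂ) := inferInstance
  have h4 := (Finset.sum_eq_zero_iff_of_nonneg (fun φ _ => Complex.normSq_nonneg _)).1 h3 φ
    (Finset.mem_univ _)
  exact (map_eq_zero φ).1 (Complex.normSq_eq_zero.1 h4)

/-- The span of the square roots of negative rational numbers. -/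
def sqrtE (P : CMPair) : Submodule ℚ P.E :=
  Submodule.span ℚ {δ | ∃ d : ℚ, 0 < d ∧ δ * δ = -(d : P.E)}

theorem sqrt_imag {δ : P.E} {d : ℚ} (hd : 0 < d) (h : δ * δ = -(d : P.E)) (φ : P.E →+* ℂ) :
    starRingEnd ℂ (φ δ) = -φ δ := by
  have h1 : φ δ * φ δ = -((d : ℝ) : ℂ) := by
    rw [← map_mul, h, map_neg, map_ratCast, Complex.ofReal_ratCast]
  have hd' : (0 : ℝ) < (d : ℝ) := by exact_mod_cast hd
  have h2 := congrArg Complex.re h1
  have h3 := congrArg Complex.im h1
  rw [Complex.mul_re, Complex.neg_re, Complex.ofReal_re] at h2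
  rw [Complex.mul_im, Complex.neg_im, Complex.ofReal_im, neg_zero] at h3
  have h4 : (φ δ).re = 0 := by
    have h5 : (φ δ).re * (φ δ).im = 0 := by linarith
    rcases mul_eq_zero.1 h5 with h6 | h6
    · exact h6
    · exfalso
      rw [h6, mul_zero, sub_zero] at h2
      have := mul_self_nonneg (φ δ).re
      linarith
  apply Complex.ext
  · rw [Complex.conj_re, Complex.neg_re, h4, neg_zero]
  · rw [Complex.conj_im, Complex.neg_im]

theorem sqrtE_le : sqrtE P ≤ imagE P := by
  refine Submodule.span_le.2 ?_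
  rintro δ ⟨d, hd, h⟩
  exact fun φ => sqrt_imag hd h φ

/-- **The existence of good elements.** -/
theorem exists_theta (a : (P.E →+* ℂ) → ℚ) (hodd : ∀ φ, a (ComplexEmbedding.conjugate φ) = -a φ)
    (h0 : a ≠ 0) (hδ : ∀ (δ : P.E) (d : ℚ), 0 < d → δ * δ = -(d : P.E) →
      ∑ φ, (a φ : ℂ) * φ δ = 0) : ∃ θ, Good P θ ∧ ∑ φ, (a φ : ℂ) * φ θ ≠ 0 := by
  classical
  by_contra hcon
  push Not at hcon
  let l : P.E →ₗ[ℚ] ℂ := ∑ φ, (a φ : ℂ) • embL φ
  have hl : ∀ x, l x = ∑ φ, (a φ : ℂ) * φ x := by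
    intro x
    change (∑ φ, (a φ : ℂ) • embL φ) x = _
    rw [LinearMap.sum_apply]
    rfl
  -- the projection to the span of the square roots
  have hproj : ∀ x : P.E, ∃ y ∈ sqrtE P, ∀ z ∈ sqrtE P,
      Algebra.trace ℚ P.E ((x - y) * z) = 0 := by
    intro x
    let β : sqrtE P →ₗ[ℚ] (sqrtE P →ₗ[ℚ] ℚ) :=
      (LinearMap.lcomp ℚ ℚ (sqrtE P).subtype).comp
        (LinearMap.comp (Algebra.traceForm ℚ P.E : P.E →ₗ[ℚ] P.E →ₗ[ℚ] ℚ) (sqrtE P).subtype)
    have hβ : ∀ y z : sqrtE P, β y z = Algebra.trace ℚ P.E (y * z) := fun y z => rfl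
    have hinj : Function.Injective β := by
      rw [← LinearMap.ker_eq_bot, LinearMap.ker_eq_bot']
      intro y hy
      have h1 := hβ y y
      rw [hy, LinearMap.zero_apply] at h1
      exact Subtype.ext (trace_def (sqrtE_le y.2) h1.symm)
    have hsurj : Function.Surjective β :=
      (LinearMap.injective_iff_surjective_of_finrank_eq_finrank
        (Subspace.dual_finrank_eq (K := ℚ) (V := sqrtE P)).symm).1 hinj
    obtain ⟨y, hy⟩ := hsurj ((Algebra.traceForm ℚ P.E x).comp (sqrtE P).subtype)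
    refine ⟨y, y.2, fun z hz => ?_⟩
    have h1 := congrArg (fun f => f ⟨z, hz⟩) hy
    have h2 : Algebra.trace ℚ P.E ((y : P.E) * z) = Algebra.trace ℚ P.E (x * z) := h1
    rw [sub_mul, map_sub, h2, sub_self]
  have hlD : ∀ y ∈ sqrtE P, l y = 0 := by
    intro y hy
    have h1 : sqrtE P ≤ LinearMap.ker l := by
      refine Submodule.span_le.2 ?_
      rintro δ ⟨d, hd, h⟩
      change l δ = 0
      rw [hl, hδ δ d hd h]
    exact h1 hy
  have hlI : ∀ x ∈ imagE P, l x = 0 := by
    intro x hx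
    obtain ⟨y, hy, hyz⟩ := hproj x
    have hxy : x - y ∈ imagE P := Submodule.sub_mem _ hx (sqrtE_le hy)
    have h1 : l (x - y) = 0 := by
      rw [hl]
      exact hcon _ ⟨hxy, fun δ d hd h => hyz δ (Submodule.subset_span ⟨d, hd, h⟩)⟩
    rw [map_sub, hlD y hy, sub_zero] at h1
    exact h1
  have hl0 : ∀ x, l x = 0 := by
    intro x
    have h1 := hlI (x - IsCMField.complexConj P.E x) (fun φ => by
      rw [map_sub, map_sub, IsCMField.complexEmbedding_complexConj, Complex.conj_conj]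
      ring)
    have h2 : l (IsCMField.complexConj P.E x) = -l x := by
      rw [hl, hl, ← Finset.sum_neg_distrib]
      let e : (P.E →+* ℂ) ≃ (P.E →+* ℂ) :=
        ⟨ComplexEmbedding.conjugate, ComplexEmbedding.conjugate, star_star, star_star⟩
      rw [← e.sum_comp]
      refine Finset.sum_congr rfl fun φ _ => ?_
      change ((a (ComplexEmbedding.conjugate φ) : ℚ) : ℂ) * (ComplexEmbedding.conjugate φ) _ = _
      rw [hodd, ComplexEmbedding.conjugate_coe_eq, IsCMField.complexEmbedding_complexConj,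
        Complex.conj_conj]
      push_cast
      ring
    rw [map_sub, h2] at h1
    have h3 : (2 : ℂ) * l x = 0 := by linear_combination h1
    exact (mul_eq_zero.1 h3).resolve_left two_ne_zero
  apply h0
  have h1 : l = 0 := LinearMap.ext hl0
  have h2 := Fintype.linearIndependent_iff.1 (embL_indep (K := P.E)) (fun φ => (a φ : ℂ)) h1
  funext φ
  have h3 := h2 φ
  exact_mod_cast h3

end

end Pool.Agent.K4H29.HC
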