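import Mathlib
import Pool.Agent.K4H29.HC.Theta
import Pool.Agent.K4H29.HC.Prod
import Pool.Agent.W547.LD.Final

/-!
# The obstruction
-/

set_option linter.unusedSectionVars false
set_option linter.unusedVariables false

namespace Pool.Agent.K4H29.HC

open Module NumberField Pool.Agent.Y90 Pool.Agent.R915 Equiv
open Pool.Agent.TH504.CB (isHodge_comp)
open Pool.Agent.H204R3.CM (IsHodge IsCMType)
open Pool.Agent.W547.KB (CMPair CMAV Wt mono monoAlt mono_apply trForm trForm_apply St Balanced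
  isHodge_trForm)
open Pool.Agent.W547.LN (SameType)
open Pool.Agent.W547.LD (hs)

noncomputable section

section mono

variable {X : CMAV} {L : Type} [Field L] [NumberField L] {κ : Type} [Fintype κ] [DecidableEq κ]

/-- The derivation of a monomial. -/
theorem mono_der (I : κ → Wt X L) (A : X.H1 →ₗ[ℚ] X.H1) (m : κ → L)
    (hA : ∀ w k, (I k).2 (A w (I k).1) = m k * (I k).2 (w (I k).1)) (v : κ → X.H1) :
    ∑ l, mono I (Function.update v l (A (v l))) = (∑ k, m k) * mono I v := by
  rw [Finset.sum_congr rfl fun l _ => mono_apply I _, Finset.sum_comm, mono_apply, Finset.mul_sum]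
  refine Finset.sum_congr rfl fun τ _ => ?_
  rw [← Finset.mul_sum, mul_left_comm]
  congr 1
  rw [Finset.sum_mul, ← Equiv.sum_comp τ]
  refine Finset.sum_congr rfl fun k _ => ?_
  rw [← Finset.mul_prod_erase _ _ (Finset.mem_univ k), ← Finset.mul_prod_erase Finset.univ
    (fun k => Pool.Agent.W547.KB.ev (v (τ k)) (I k)) (Finset.mem_univ k), ← mul_assoc,
    Function.update_self]
  congr 1
  · exact hA (v (τ k)) k
  · refine Finset.prod_congr rfl fun l hl => ?_
    rw [Function.update_of_ne (fun h => (Finset.mem_erase.1 hl).1 (τ.injective h))]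

theorem trForm_der (I : κ → Wt X L) (A : X.H1 →ₗ[ℚ] X.H1) (m : κ → L)
    (hA : ∀ w k, (I k).2 (A w (I k).1) = m k * (I k).2 (w (I k).1)) (α : L) (v : κ → X.H1) :
    dalt A (trForm α I) v = Algebra.trace ℚ L (α * ((∑ k, m k) * mono I v)) := by
  rw [dalt_apply, Finset.sum_congr rfl fun l _ => trForm_apply α I _, ← map_sum, ← Finset.mul_sum,
    mono_der I A m hA]

/-- The monomials of different factors do not vanish. -/
theorem mono_ne (I : κ → Wt X L) (hI : Function.Injective fun k => (I k).1) :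
    ∃ v, mono I v = 1 := by
  classical
  refine ⟨fun l => Pi.single (I l).1 1, ?_⟩
  rw [mono_apply, Finset.sum_eq_single 1]
  · rw [Perm.sign_one, Units.val_one, Int.cast_one, one_mul]
    refine Finset.prod_eq_one fun k _ => ?_
    change (I k).2 ((Pi.single (I k).1 1 : X.H1) (I k).1) = 1
    rw [Pi.single_eq_same, map_one]
  · intro τ _ hτ
    obtain ⟨k, hk⟩ : ∃ k, τ k ≠ k := by
      by_contra hcon
      push Not at hcon
      exact hτ (Equiv.ext hcon)
    rw [Finset.prod_eq_zero (Finset.mem_univ k), mul_zero]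
    change (I k).2 ((Pi.single (I (τ k)).1 1 : X.H1) (I k).1) = 0
    rw [Pi.single_eq_of_ne (fun h => hk (hI h).symm), map_zero]
  · intro h
    exact absurd (Finset.mem_univ _) h

end mono

section retract

/-- Retractions. -/
theorem exists_retract {P : CMPair} (hP : ∃ E, IsPolarization (perC P) E) (hprim : Primitive P)
    {X : AV} {i : P.E →ₗ[ℚ] X.H} (hi : IsHom (avP P hP) X i) (hinj : Function.Injective i) :
    ∃ r : X.H →ₗ[ℚ] P.E, IsHom X (avP P hP) r ∧ ∀ a, r (i a) = a := by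
  obtain ⟨p⟩ := exists_polD X
  obtain ⟨p0⟩ := exists_polD (avP P hP)
  obtain ⟨g, hg, hadj⟩ := exists_adj p0 p hi
  let g' : X.H →ₗ[ℚ] P.E := g
  have h1 : ∀ x, g' (i x) = g' (i 1) * x := fun x =>
    end_prim hprim (f := g'.comp i) (IsHom.comp' hg hi) x
  have h2 : g' (i 1) ≠ 0 := by
    intro h
    have h3 := adj_inj p0 p hi hg hadj (x := (1 : P.E)) h
    exact one_ne_zero (hinj (h3.trans (map_zero i).symm))
  refine ⟨(mulE P (g' (i 1))⁻¹).comp g', IsHom.comp' (isHom_mulE _) hg, fun a => ?_⟩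
  rw [LinearMap.comp_apply, mulE_apply, h1 a, inv_mul_cancel_left₀ h2]

end retract

section half

variable {L : Type} [Field L] [NumberField L] [IsCMField L] {K : Type} [Field K] [NumberField K]

/-- The conjugate embedding. -/
def cj (φ : K →+* L) : K →+* L := (IsCMField.complexConj L : L →+* L).comp φ

theorem cj_apply (φ : K →+* L) (x : K) : cj φ x = IsCMField.complexConj L (φ x) := rfl

theorem cj_cj (φ : K →+* L) : cj (cj φ) = φ :=
  RingHom.ext fun x => IsCMField.complexConj_apply_apply L (φ x)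

/-- The involution. -/
def cjE : (K →+* L) ≃ (K →+* L) := ⟨cj, cj, cj_cj, cj_cj⟩

theorem comp_cj (j : L →+* ℂ) (φ : K →+* L) :
    j.comp (cj φ) = ComplexEmbedding.conjugate (j.comp φ) := by
  ext x
  change j (IsCMField.complexConj L (φ x)) = _
  rw [IsCMField.complexEmbedding_complexConj, ComplexEmbedding.conjugate_coe_eq]
  rfl

theorem half_sum {R : Type} [CommRing R] (a : (K →+* L) → ℤ) (hodd : ∀ φ, a (cj φ) = -a φ)
    (g : (K →+* L) → R) (hg : ∀ φ, g (cj φ) = -g φ) :
    2 * ∑ φ, ((a φ).toNat : R) * g φ = ∑ φ, (a φ : R) * g φ := by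
  have h1 : ∑ φ, ((a φ).toNat : R) * g φ = ∑ φ, ((-a φ).toNat : R) * -g φ := by
    rw [← Equiv.sum_comp (cjE (K := K) (L := L))]
    refine Finset.sum_congr rfl fun φ _ => ?_
    change ((a (cj φ)).toNat : R) * g (cj φ) = _
    rw [hodd, hg]
  rw [two_mul]
  nth_rewrite 2 [h1]
  rw [← Finset.sum_add_distrib]
  refine Finset.sum_congr rfl fun φ _ => ?_
  have h2 : (((a φ).toNat : ℤ) : R) - (((-a φ).toNat : ℤ) : R) = (a φ : R) := by
    rw [← Int.cast_sub, Int.toNat_sub_toNat_neg]
  rw [Int.cast_natCast, Int.cast_natCast] at h2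
  rw [← h2]
  ring

end half

section main

variable {L : Type} [Field L] [NumberField L] [IsCMField L] [IsGalois ℚ L]

/-- **The obstruction.** -/
theorem obstruct (j : L →+* ℂ) (X : AV) {ι : Type} [Fintype ι] [DecidableEq ι] (P : ι → CMPair)
    (hfac : ∀ i, IsCMFactor (P i) X) (i0 : ι) (hne : ∀ i, i ≠ i0 → ¬ SameType (P i0) (P i))
    (a : ∀ i, ((P i).E →+* L) → ℤ) (hodd : ∀ i φ, a i (cj φ) = -a i φ)
    (hrel : ∀ σ : L ≃ₐ[ℚ] L, ∑ i, ∑ φ : (P i).E →+* L,
      (a i φ : ℚ) * Pool.Agent.W547.LD.Comb.eps (hs (P i) j φ) σ = 0)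
    (hj : ∀ ψ : (P i0).E →+* ℂ, ∃ φ : (P i0).E →+* L, j.comp φ = ψ)
    (h0 : a i0 ≠ 0) (hδ : ∀ (δ : (P i0).E) (d : ℚ), 0 < d → δ * δ = -(d : (P i0).E) →
      ∑ φ : (P i0).E →+* L, (a i0 φ : L) * φ δ = 0) :
    ∃ (κ : Type) (_ : Fintype κ) (f : (prodAV fun _ : κ => X).H [⋀^κ]→ₗ[ℚ] ℚ),
      IsHodge (prodAV fun _ : κ => X).per f ∧ ¬ AlgW (prodAV fun _ : κ => X) κ f := by
  classical
  choose hprim emb Ψ hinj hΨ using hfac
  have hpol : ∀ i, ∃ E, IsPolarization (perC (P i)) E := fun i =>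
    pol_of_factor (emb i) (Ψ i) (hinj i) (hΨ i)
  have hemb : ∀ i, IsHom (avP (P i) (hpol i)) X (emb i) := fun i => ⟨Ψ i, hΨ i⟩
  choose r hr hri using fun i => exists_retract (hpol i) (hprim i) (hemb i) (hinj i)
  -- the element
  obtain ⟨θ, hθ, hlam⟩ : ∃ θ, Good (P i0) θ ∧ ∑ φ : (P i0).E →+* L, (a i0 φ : L) * φ θ ≠ 0 := by
    have hbij : Function.Bijective fun φ : (P i0).E →+* L => j.comp φ :=
      ⟨fun φ ψ h => RingHom.ext fun x => j.injective (RingHom.congr_fun h x), hj⟩
    let ee := Equiv.ofBijective _ hbij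
    have hee : ∀ φ, ee φ = j.comp φ := fun _ => rfl
    have key : ∀ x, ∑ ψ : (P i0).E →+* ℂ, (((a i0 (ee.symm ψ) : ℤ) : ℚ) : ℂ) * ψ x =
        j (∑ φ : (P i0).E →+* L, (a i0 φ : L) * φ x) := by
      intro x
      rw [← ee.sum_comp, map_sum]
      refine Finset.sum_congr rfl fun φ _ => ?_
      rw [ee.symm_apply_apply, map_mul, map_intCast, hee]
      push_cast
      rfl
    obtain ⟨θ, hθ, h1⟩ := exists_theta (P := P i0) (fun ψ => ((a i0 (ee.symm ψ) : ℤ) : ℚ))
      (fun ψ => by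
        obtain ⟨φ, rfl⟩ := ee.surjective ψ
        rw [hee, ← comp_cj, ← hee, ← hee, ee.symm_apply_apply, ee.symm_apply_apply, hodd]
        push_cast
        rfl)
      (fun h => by
        apply h0
        funext φ
        have h2 := congrFun h (ee φ)
        beta_reduce at h2
        rw [ee.symm_apply_apply] at h2
        change a i0 φ = 0
        have h3 : ((a i0 φ : ℤ) : ℚ) = 0 := h2
        exact_mod_cast h3)
      (fun δ d hd h => by rw [key, hδ δ d hd h, map_zero])
    refine ⟨θ, hθ, fun h => h1 ?_⟩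
    rw [key, h, map_zero]
  -- the family
  let κ : Type := Σ i : ι, Σ φ : (P i).E →+* L, Fin (a i φ).toNat
  let XC : CMAV := ⟨κ, fun k => P k.1⟩
  let I : κ → Wt XC L := fun k => ⟨k, k.2.1⟩
  have hI1 : Function.Injective fun k => (I k).1 := fun k l h => h
  have hsum : ∀ {R : Type} [CommRing R] (g : ∀ i, ((P i).E →+* L) → R),
      ∑ k : κ, g k.1 k.2.1 = ∑ i, ∑ φ, ((a i φ).toNat : R) * g i φ := by
    intro R _ g
    rw [Fintype.sum_sigma]
    refine Finset.sum_congr rfl fun i _ => ?_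
    rw [Fintype.sum_sigma]
    refine Finset.sum_congr rfl fun φ _ => ?_
    change ∑ y : Fin (a i φ).toNat, g i φ = _
    rw [Finset.sum_const, Finset.card_univ, Fintype.card_fin, nsmul_eq_mul]
  have hbal : Balanced fun k => St j (I k) := by
    intro σ
    have h1 : ((∑ k : κ, (if σ ∈ St j (I k) then (1 : ℤ) else -1) : ℤ) : ℚ) =
        ∑ k : κ, Pool.Agent.W547.LD.Comb.eps (hs (P k.1) j k.2.1) σ := by
      rw [Int.cast_sum]
      refine Finset.sum_congr rfl fun k _ => ?_
      unfold Pool.Agent.W547.LD.Comb.eps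
      change ((if σ ∈ hs (P k.1) j k.2.1 then (1 : ℤ) else -1 : ℤ) : ℚ) = _
      split_ifs <;> simp
    have h2 : ∑ k : κ, Pool.Agent.W547.LD.Comb.eps (hs (P k.1) j k.2.1) σ = 0 := by
      rw [hsum (fun i φ => Pool.Agent.W547.LD.Comb.eps (hs (P i) j φ) σ)]
      have h3 : (2 : ℚ) * ∑ i, ∑ φ : (P i).E →+* L, ((a i φ).toNat : ℚ) *
          Pool.Agent.W547.LD.Comb.eps (hs (P i) j φ) σ = 0 := by
        rw [← hrel σ, Finset.mul_sum]
        refine Finset.sum_congr rfl fun i _ => ?_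
        refine half_sum (a i) (hodd i) _ fun φ => ?_
        have h4 : hs (P i) j (cj φ) = (hs (P i) j φ)ᶜ := by
          have h5 := Pool.Agent.W547.LD.tr_hs (P i) j (Pool.Agent.W547.KB.cc L) φ
          rw [Pool.Agent.W547.LD.Comb.tr_c (fun g => Pool.Agent.W547.KB.cc_comm j g)
            (Pool.Agent.W547.LD.isHalf_hs (P i) j φ)] at h5
          rw [h5]
          rfl
        rw [h4, Pool.Agent.W547.LD.Comb.eps_compl]
      linarith
    have h3 := h1.trans h2
    exact_mod_cast h3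
  by_contra hcon
  push Not at hcon
  let Y : AV := prodAV fun k : κ => avP (P k.1) (hpol k.1)
  let F : L → (Y.H [⋀^κ]→ₗ[ℚ] ℚ) := fun α => (trForm α I : XC.H1 [⋀^κ]→ₗ[ℚ] ℚ)
  have hF : ∀ α, IsHodge Y.per (F α) := fun α => isHodge_trForm j I hbal α
  let R : (prodAV fun _ : κ => X).H →ₗ[ℚ] Y.H :=
    LinearMap.pi fun k => (r k.1).comp (LinearMap.proj k)
  have hR : IsHom (prodAV fun _ : κ => X) Y R :=
    isHom_map (X := fun _ : κ => X) (Y := fun k : κ => avP (P k.1) (hpol k.1)) (fun k => r k.1)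
      fun k => hr k.1
  let S : Y.H →ₗ[ℚ] (prodAV fun _ : κ => X).H :=
    LinearMap.pi fun k => (emb k.1).comp (LinearMap.proj k)
  have hS : IsHom Y (prodAV fun _ : κ => X) S :=
    isHom_map (X := fun k : κ => avP (P k.1) (hpol k.1)) (Y := fun _ : κ => X) (fun k => emb k.1)
      fun k => hemb k.1
  have hRS : ∀ v, R (S v) = v := fun v => funext fun k => hri k.1 (v k)
  have hAlg : ∀ α, AlgW Y κ (F α) := by
    intro α
    obtain ⟨Ψ', hΨ'⟩ := hR
    have h1 := hcon κ inferInstance ((F α).compLinearMap R) (isHodge_comp R Ψ' hΨ' (hF α))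
    have h2 := AlgW.pull S hS _ h1
    have h3 : ((F α).compLinearMap R).compLinearMap S = F α := by
      ext v
      rw [AlternatingMap.compLinearMap_apply, AlternatingMap.compLinearMap_apply]
      congr 1
      funext k
      exact hRS (v k)
    rwa [h3] at h2
  -- the operator
  let A : Y.H →ₗ[ℚ] Y.H := opA (hpol i0) (hprim i0) θ Y
  have hkill : ∀ α, dalt A (F α) = 0 := fun α => kill (hpol i0) (hprim i0) hθ (hAlg α)
  let c : ∀ i, (P i).E := fun i => opA (hpol i0) (hprim i0) θ (avP (P i) (hpol i)) (1 : (P i).E)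
  have hc : ∀ i (x : (P i).E), (opA (hpol i0) (hprim i0) θ (avP (P i) (hpol i)) x : (P i).E) =
      c i * x := by
    intro i x
    have h1 := opA_nat (hP := hpol i0) (hprim i0) θ (isHom_mulE (P := P i) (hP := hpol i) x)
      (1 : (P i).E)
    have h2 : mulE (P i) x (1 : (P i).E) = x := mul_one x
    have h3 := (congrArg (fun y : (P i).E =>
      (opA (hpol i0) (hprim i0) θ (avP (P i) (hpol i)) y : (P i).E)) h2).symm.trans h1.symm
    exact h3.trans (show mulE (P i) x (c i) = c i * x from mul_comm x (c i))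
  have hci : c i0 = θ := by
    change opA (hpol i0) (hprim i0) θ (avP (P i0) (hpol i0)) (1 : (P i0).E) = _
    rw [opA_self, mul_one]
  have hcn : ∀ i, i ≠ i0 → c i = 0 := fun i hi =>
    opA_other (hprim i0) θ (fun g hg => hom_zero (hprim i0) (hprim i) (hne i hi) hg) _
  let m : κ → L := fun k => k.2.1 (c k.1)
  have hA : ∀ (w : XC.H1) (k : κ), (I k).2 ((A w : XC.H1) (I k).1) = m k * (I k).2 (w (I k).1) := by
    intro w k
    have h1 := opA_nat (hP := hpol i0) (hprim i0) θ
      (isHom_proj (X := fun k : κ => avP (P k.1) (hpol k.1)) k) w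
    change k.2.1 ((A w : XC.H1) k) = k.2.1 (c k.1) * k.2.1 (w k)
    rw [← map_mul, ← hc]
    exact congrArg k.2.1 h1
  obtain ⟨v, hv⟩ := mono_ne I hI1
  have hm : ∑ k, m k = 0 := by
    apply (traceForm_nondegenerate ℚ L).1
    intro α
    have h1 := trForm_der I (A : XC.H1 →ₗ[ℚ] XC.H1) m hA α v
    have h2 : dalt (A : XC.H1 →ₗ[ℚ] XC.H1) (trForm α I) v = 0 := by
      have h3 := hkill α
      have h4 := congrArg (fun f => f v) h3
      exact h4
    have h5 := h1.symm.trans h2
    rw [hv, mul_one] at h5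
    rw [Algebra.traceForm_apply, mul_comm]
    exact h5
  have hm2 : ∑ k, m k = ∑ i, ∑ φ : (P i).E →+* L, ((a i φ).toNat : L) * φ (c i) :=
    hsum fun i φ => φ (c i)
  rw [hm, Finset.sum_eq_single i0] at hm2
  · apply hlam
    rw [← half_sum (a i0) (hodd i0) (fun φ => φ θ), ← hci, ← hm2, mul_zero]
    intro φ
    apply j.injective
    rw [cj_apply, IsCMField.complexEmbedding_complexConj, map_neg]
    exact hθ.imag (j.comp φ)
  · intro i _ hi
    refine Finset.sum_eq_zero fun φ _ => ?_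
    rw [hcn i hi, map_zero, mul_zero]
  · intro h
    exact absurd (Finset.mem_univ _) h

end main

end

end Pool.Agent.K4H29.HC
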