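import Mathlib
import Pool.Agent.K4H29.HC.Obt

/-!
# The obstruction, rational coefficients
-/

set_option linter.unusedSectionVars false
set_option linter.unusedVariables false

namespace Pool.Agent.K4H29.HC

open Module NumberField Pool.Agent.Y90 Pool.Agent.R915 Equiv
open Pool.Agent.H204R3.CM (IsHodge IsCMType)
open Pool.Agent.W547.KB (CMPair)
open Pool.Agent.W547.LN (SameType)
open Pool.Agent.W547.LD (hs)

noncomputable section

theorem exists_den {T : Type} [Fintype T] (c : T → ℚ) :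
    ∃ (N : ℤ) (n : T → ℤ), N ≠ 0 ∧ ∀ t, (n t : ℚ) = N * c t := by
  classical
  refine ⟨∏ t, ((c t).den : ℤ), fun t => (∏ s ∈ Finset.univ.erase t, ((c s).den : ℤ)) * (c t).num,
    Finset.prod_ne_zero_iff.2 fun t _ => by exact_mod_cast (c t).den_nz, fun t => ?_⟩
  rw [← Finset.mul_prod_erase Finset.univ _ (Finset.mem_univ t)]
  push_cast
  have h1 : ((c t).den : ℚ) * c t = (c t).num := by
    rw [mul_comm]
    exact Rat.mul_den_eq_num (c t)
  rw [← h1]
  ring

section coefs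

variable {L : Type} [Field L] [NumberField L] [IsCMField L] {K : Type} [Field K] [NumberField K]
  {M : Type} [Fintype M]

open Classical in
/-- The coefficients. -/
def cf (φ : M → (K →+* L)) (n : M → ℤ) (ψ : K →+* L) : ℤ :=
  ∑ x, n x * ((if ψ = φ x then 1 else 0) - if ψ = cj (φ x) then 1 else 0)

theorem cf_odd (φ : M → (K →+* L)) (n : M → ℤ) (ψ : K →+* L) : cf φ n (cj ψ) = -cf φ n ψ := by
  classical
  unfold cf
  rw [← Finset.sum_neg_distrib]
  refine Finset.sum_congr rfl fun x _ => ?_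
  have e1 : (cj ψ = φ x) ↔ (ψ = cj (φ x)) := by
    constructor
    · intro h
      rw [← h, cj_cj]
    · intro h
      rw [h, cj_cj]
  have e2 : (cj ψ = cj (φ x)) ↔ (ψ = φ x) := by
    constructor
    · intro h
      rw [← cj_cj ψ, h, cj_cj]
    · intro h
      rw [h]
  simp only [e1, e2]
  ring

theorem cf_sum {R : Type} [CommRing R] (φ : M → (K →+* L)) (n : M → ℤ) (g : (K →+* L) → R)
    (hg : ∀ ψ, g (cj ψ) = -g ψ) : ∑ ψ, (cf φ n ψ : R) * g ψ = 2 * ∑ x, (n x : R) * g (φ x) := by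
  classical
  unfold cf
  have h1 : ∀ ψ : K →+* L, ((∑ x, n x * ((if ψ = φ x then 1 else 0) -
      if ψ = cj (φ x) then 1 else 0) : ℤ) : R) * g ψ =
      ∑ x, (n x : R) * ((if ψ = φ x then g ψ else 0) - if ψ = cj (φ x) then g ψ else 0) := by
    intro ψ
    push_cast
    rw [Finset.sum_mul]
    refine Finset.sum_congr rfl fun x _ => ?_
    split_ifs <;> simp
  rw [Finset.sum_congr rfl fun ψ _ => h1 ψ, Finset.sum_comm, Finset.mul_sum]
  refine Finset.sum_congr rfl fun x _ => ?_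
  rw [← Finset.mul_sum, Finset.sum_sub_distrib, Finset.sum_ite_eq' Finset.univ (φ x),
    Finset.sum_ite_eq' Finset.univ (cj (φ x)), if_pos (Finset.mem_univ _),
    if_pos (Finset.mem_univ _), hg]
  ring

theorem cf_self (φ : M → (K →+* L)) (n : M → ℤ) (hinj : Function.Injective φ)
    (hncj : ∀ x y, φ x ≠ cj (φ y)) (x : M) : cf φ n (φ x) = n x := by
  classical
  unfold cf
  rw [Finset.sum_eq_single x]
  · rw [if_pos rfl, if_neg (hncj x x), sub_zero, mul_one]
  · intro y _ hy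
    rw [if_neg (fun h => hy (hinj h).symm), if_neg (hncj x y), sub_zero, mul_zero]
  · intro h
    exact absurd (Finset.mem_univ _) h

end coefs

section main

variable {L : Type} [Field L] [NumberField L] [IsCMField L] [IsGalois ℚ L]

theorem hs_cj (A : CMPair) (j : L →+* ℂ) (φ : A.E →+* L) : hs A j (cj φ) = (hs A j φ)ᶜ := by
  have h5 := Pool.Agent.W547.LD.tr_hs A j (Pool.Agent.W547.KB.cc L) φ
  rw [Pool.Agent.W547.LD.Comb.tr_c (fun g => Pool.Agent.W547.KB.cc_comm j g)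
    (Pool.Agent.W547.LD.isHalf_hs A j φ)] at h5
  rw [h5]
  rfl

/-- **The obstruction.** -/
theorem obstruct2 (j : L →+* ℂ) (X : AV) {ι : Type} [Fintype ι] [DecidableEq ι] (P : ι → CMPair)
    (hfac : ∀ i, IsCMFactor (P i) X) (i0 : ι) (hne : ∀ i, i ≠ i0 → ¬ SameType (P i0) (P i))
    {M : Type} [Fintype M] (φ : ∀ i, M → ((P i).E →+* L)) (c : ι → M → ℚ)
    (hrel : ∀ σ : L ≃ₐ[ℚ] L, ∑ i, ∑ x,
      c i x * Pool.Agent.W547.LD.Comb.eps (hs (P i) j (φ i x)) σ = 0)
    (hj : ∀ ψ : (P i0).E →+* ℂ, ∃ φ : (P i0).E →+* L, j.comp φ = ψ)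
    (hinj : Function.Injective (φ i0)) (hncj : ∀ x y, φ i0 x ≠ cj (φ i0 y))
    (h0 : c i0 ≠ 0) (hδ : ∀ (δ : (P i0).E) (d : ℚ), 0 < d → δ * δ = -(d : (P i0).E) →
      ∑ x, (c i0 x : L) * φ i0 x δ = 0) :
    ∃ (κ : Type) (_ : Fintype κ) (f : (prodAV fun _ : κ => X).H [⋀^κ]→ₗ[ℚ] ℚ),
      IsHodge (prodAV fun _ : κ => X).per f ∧ ¬ AlgW (prodAV fun _ : κ => X) κ f := by
  classical
  obtain ⟨N, n, hN, hn⟩ := exists_den fun t : ι × M => c t.1 t.2
  have hn' : ∀ i x, (n (i, x) : ℚ) = N * c i x := fun i x => hn (i, x)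
  refine obstruct j X P hfac i0 hne (fun i => cf (φ i) fun x => n (i, x))
    (fun i ψ => cf_odd _ _ ψ) (fun σ => ?_) hj (fun h => ?_) fun δ d hd h => ?_
  · have h1 : ∀ i, ∑ ψ : (P i).E →+* L, ((cf (φ i) (fun x => n (i, x)) ψ : ℤ) : ℚ) *
        Pool.Agent.W547.LD.Comb.eps (hs (P i) j ψ) σ =
        2 * (N * ∑ x, c i x * Pool.Agent.W547.LD.Comb.eps (hs (P i) j (φ i x)) σ) := by
      intro i
      rw [cf_sum (φ i) (fun x => n (i, x)) (fun ψ => Pool.Agent.W547.LD.Comb.eps (hs (P i) j ψ) σ)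
        (fun ψ => by rw [hs_cj, Pool.Agent.W547.LD.Comb.eps_compl]), Finset.mul_sum _ _ (N : ℚ)]
      congr 1
      refine Finset.sum_congr rfl fun x _ => ?_
      rw [hn', mul_assoc]
    rw [Finset.sum_congr rfl fun i _ => h1 i, ← Finset.mul_sum, ← Finset.mul_sum, hrel, mul_zero,
      mul_zero]
  · apply h0
    funext x
    have h1 := congrFun h (φ i0 x)
    rw [cf_self (φ i0) _ hinj hncj x] at h1
    have h2 := hn' i0 x
    have h3 : n (i0, x) = 0 := h1
    rw [h3, Int.cast_zero] at h2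
    exact (mul_eq_zero.1 h2.symm).resolve_left (Int.cast_ne_zero.2 hN)
  · rw [cf_sum (φ i0) (fun x => n (i0, x)) (fun ψ => ψ δ) (fun ψ => by
      apply j.injective
      rw [cj_apply, IsCMField.complexEmbedding_complexConj, map_neg]
      exact sqrt_imag hd h (j.comp ψ))]
    have h1 : ∑ x, ((n (i0, x) : ℤ) : L) * (φ i0 x) δ = (N : L) * ∑ x, (c i0 x : L) * φ i0 x δ := by
      rw [Finset.mul_sum]
      refine Finset.sum_congr rfl fun x _ => ?_
      have h2 : ((n (i0, x) : ℤ) : L) = (N : L) * (c i0 x : L) := by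
        have h3 := congrArg (fun q : ℚ => (q : L)) (hn' i0 x)
        beta_reduce at h3
        push_cast at h3
        exact h3
      rw [h2, mul_assoc]
    rw [h1, hδ δ d hd h, mul_zero, mul_zero]

end main

end

end Pool.Agent.K4H29.HC
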