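import Pool.Agent.K4H29.HC.Part
import Pool.Agent.W547.LN.Block

/-!
# Decomposition of balanced families of half systems in several orbits
-/

set_option linter.unusedSectionVars false
set_option linter.unusedVariables false

namespace Pool.Agent.W547.LD.Comb

open Finset

noncomputable section

variable {G : Type} [Group G] [Fintype G]

variable {c : G} (hc : ∀ g, c * g = g * c) (O : Finset (Set (Set G)))
  (hO : ∀ Q ∈ O, IsOrbit c Q)
  (hdisj : ∀ Q ∈ O, ∀ Q' ∈ O, Q ≠ Q' → Disjoint Q Q')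
  {P : Set (Set G)} (hPO : ∀ S, S ∈ P ↔ ∃ Q ∈ O, S ∈ Q) {a : Set G → ℚ} (ha : IsRel P a)
  (hpart : ∀ Q ∈ O, FF (aQ a Q) ∈ QQ c)

include hc hO hdisj hPO ha hpart in
/-- **The block of a relation.** -/
theorem exists_two_part (h0 : a ≠ 0) : ∃ (N : Subgroup G) (x y : Set G),
    (∀ τ ∈ N, a (tr τ x) = a x) ∧ (∀ τ ∈ N, a (tr τ y) = a y) ∧ 0 < a x ∧ 0 < a y ∧
    Imag c N ∧ Half c x ∧ Half c y ∧ stb x ≤ N ∧ stb y ≤ N ∧
    (∀ (S : OrbT N x) (T : OrbT N y), S.1 ≠ T.1) ∧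
    (Nat.card (OrbT N x) + Nat.card (OrbT N y) = 4 ∨
      Nat.card (OrbT N x) + Nat.card (OrbT N y) = 6) ∧
    by classical exact (psum N x 1 = -psum N y 1) := by
  classical
  have hsuppQ : ∀ Q, ∀ S, S ∉ Q → aQ a Q S = 0 := fun Q S hS => if_neg hS
  have hoddQ : ∀ Q ∈ O, ∀ S, aQ a Q Sᶜ = -aQ a Q S := by
    intro Q hQ S
    unfold aQ
    by_cases h : S ∈ Q
    · rw [if_pos h, if_pos ((hO Q hQ).compl S h), ha.odd]
    · rw [if_neg h, if_neg (fun h1 => h (((hO Q hQ).compl_mem_iff S).1 h1)), neg_zero]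
  -- a positive element in each non-zero orbit
  have hgood : ∀ Q ∈ O, (∃ S ∈ Q, a S ≠ 0) → ∃ x ∈ Q, 0 < a x ∧ ∃ N, Good c (aQ a Q) x N := by
    rintro Q hQ ⟨S, hS, hne⟩
    have hx : ∃ x ∈ Q, 0 < a x := by
      rcases lt_or_gt_of_ne hne with h | h
      · exact ⟨Sᶜ, (hO Q hQ).compl S hS, by rw [ha.odd]; linarith⟩
      · exact ⟨S, hS, h⟩
    obtain ⟨x, hx, hpos⟩ := hx
    have hQO := hO Q hQ
    obtain ⟨N, hN⟩ := exists_good hc hQO.stable hQO.trans hQO.compl hQO.half hQO.card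
      (hsuppQ Q) (hoddQ Q hQ) (hpart Q hQ) (x := x) (by
        unfold aQ
        rw [if_pos hx]
        exact hpos.ne')
    exact ⟨x, hx, hpos, N, hN⟩
  have haQ : ∀ Q ∈ O, ∀ x ∈ Q, aQ a Q x = a x := fun Q _ x hx => if_pos hx
  -- the first orbit
  obtain ⟨S0, hS0⟩ := Function.ne_iff.1 h0
  have hS0P : S0 ∈ P := by
    by_contra h
    exact hS0 (ha.supp S0 h)
  obtain ⟨Q0, hQ0, hS0Q⟩ := (hPO S0).1 hS0P
  obtain ⟨x, hx, hxpos, N, hN⟩ := hgood Q0 hQ0 ⟨S0, hS0Q, hS0⟩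
  -- the scalar products with the character
  let t : Set (Set G) → ℚ := fun Q => dot (FF (aQ a Q)) (chi N)
  have hsum : ∑ Q ∈ O, t Q = 0 := by
    have h1 := dot_sum O (fun Q => FF (aQ a Q)) (chi N)
    rw [sum_FF O hdisj hPO ha, dot_zero] at h1
    exact h1.symm
  have hG : (0 : ℚ) < Fintype.card G := Nat.cast_pos.2 Fintype.card_pos
  have hval : ∀ Q ∈ O, ∀ z ∈ Q, Good c (aQ a Q) z N →
      t Q = 2 * a z * psum N z 1 * Fintype.card G := by
    intro Q hQ z hz hg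
    change dot (FF (aQ a Q)) (chi N) = _
    have h1 := hg.FF_eq
    rw [h1, dot_smul, dot_chi_self, haQ Q hQ z hz]
  have ht0 : t Q0 ≠ 0 := by
    rw [hval Q0 hQ0 x hx hN]
    have h1 : psum N x 1 ≠ 0 := by
      intro h
      have h2 := hN.abs
      rw [h] at h2
      norm_num at h2
    exact mul_ne_zero (mul_ne_zero (mul_ne_zero two_ne_zero hxpos.ne') h1) hG.ne'
  obtain ⟨Q1, hQ1, ht1⟩ : ∃ Q1 ∈ O, t Q1 * t Q0 < 0 := by
    by_contra hcon
    push Not at hcon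
    have h1 : ∑ Q ∈ O, t Q * t Q0 = 0 := by
      rw [← Finset.sum_mul, hsum, zero_mul]
    have h2 := (Finset.sum_eq_zero_iff_of_nonneg hcon).1 h1 Q0 hQ0
    exact ht0 (mul_self_eq_zero.1 h2)
  have hne : Q1 ≠ Q0 := by
    rintro rfl
    nlinarith [mul_self_nonneg (t Q1)]
  have hQ1ne : ∃ S ∈ Q1, a S ≠ 0 := by
    by_contra hcon
    push Not at hcon
    have h1 : t Q1 = 0 := by
      change dot (FF (aQ a Q1)) (chi N) = 0
      have h2 : FF (aQ a Q1) = 0 := by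
        funext σ
        change ∑ S : Set G, aQ a Q1 S * eps S σ = 0
        refine Finset.sum_eq_zero fun S _ => ?_
        unfold aQ
        by_cases h : S ∈ Q1
        · rw [if_pos h, hcon S h, zero_mul]
        · rw [if_neg h, zero_mul]
      rw [h2, dot_zero]
    rw [h1, zero_mul] at ht1
    exact lt_irrefl _ ht1
  obtain ⟨y, hy, hypos, N', hN'⟩ := hgood Q1 hQ1 hQ1ne
  have hNN : N = N' := by
    by_contra h
    have h1 : t Q1 = 0 := by
      change dot (FF (aQ a Q1)) (chi N) = 0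
      have h2 := hN'.FF_eq
      rw [h2, dot_smul, dot_comm, dot_chi hc hN.imag hN'.imag h, mul_zero]
    rw [h1, zero_mul] at ht1
    exact lt_irrefl _ ht1
  subst hNN
  have hpx : ∀ τ ∈ N, a (tr τ x) = a x := by
    intro τ hτ
    have h1 := hN.pos τ hτ x
    rwa [haQ Q0 hQ0 _ ((hO Q0 hQ0).stable τ x hx), haQ Q0 hQ0 x hx] at h1
  have hpy : ∀ τ ∈ N, a (tr τ y) = a y := by
    intro τ hτ
    have h1 := hN'.pos τ hτ y
    rwa [haQ Q1 hQ1 _ ((hO Q1 hQ1).stable τ y hy), haQ Q1 hQ1 y hy] at h1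
  have hdist : ∀ (S : OrbT N x) (T : OrbT N y), S.1 ≠ T.1 := by
    rintro ⟨S, τ, hτ, rfl⟩ ⟨T, τ', hτ', rfl⟩ h
    have h1 : tr τ x ∈ Q0 := (hO Q0 hQ0).stable τ x hx
    have h2 : tr τ' y ∈ Q1 := (hO Q1 hQ1).stable τ' y hy
    change tr τ x = tr τ' y at h
    rw [← h] at h2
    exact Set.disjoint_left.1 (hdisj Q1 hQ1 Q0 hQ0 hne) h2 h1
  refine ⟨N, x, y, hpx, hpy, hxpos, hypos, hN.imag, hN.half, hN'.half, hN.stb_le, hN'.stb_le,
    hdist, ?_, ?_⟩
  · rcases hN.card with ⟨h1, h2⟩ | h1 <;> rcases hN'.card with ⟨h3, h4⟩ | h3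
    · exfalso
      have key : ∀ Q ∈ O, ∀ z ∈ Q, (z = {σ | σ ∈ N} ∨ z = {σ | σ ∈ N}ᶜ) → {σ | σ ∈ N} ∈ Q := by
        intro Q hQ z hz h
        rcases h with h | h
        · rw [← h]
          exact hz
        · rw [← (hO Q hQ).compl_mem_iff, ← h]
          exact hz
      exact Set.disjoint_left.1 (hdisj Q1 hQ1 Q0 hQ0 hne) (key Q1 hQ1 y hy h4) (key Q0 hQ0 x hx h2)
    · left
      omega
    · left
      omega
    · right
      omega
  · rw [hval Q0 hQ0 x hx hN, hval Q1 hQ1 y hy hN'] at ht1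
    have h1 := hN.abs
    have h2 := hN'.abs
    have h3 : (a x * a y * (Fintype.card G : ℚ) ^ 2) * (psum N x 1 * psum N y 1) < 0 := by
      nlinarith
    have h4 : 0 < a x * a y * (Fintype.card G : ℚ) ^ 2 := by positivity
    have h5 : psum N x 1 * psum N y 1 < 0 := by
      by_contra h
      push Not at h
      have := mul_nonneg h4.le h
      linarith
    rcases (abs_eq (by norm_num : (0 : ℚ) ≤ 1)).1 h1 with h6 | h6 <;>
      rcases (abs_eq (by norm_num : (0 : ℚ) ≤ 1)).1 h2 with h7 | h7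
    · exfalso
      rw [h6, h7] at h5
      norm_num at h5
    · rw [h6, h7]
      norm_num
    · rw [h6, h7]
    · exfalso
      rw [h6, h7] at h5
      norm_num at h5

end

end Pool.Agent.W547.LD.Comb

namespace Pool.Agent.W547.LD

open NumberField Pool.Agent.H204R3.CM Pool.Agent.W547.KB Equiv Module

noncomputable section

variable {L : Type} [Field L] [NumberField L] [IsCMField L] [IsGalois ℚ L]

open Classical in
theorem block_family_ne (j : L →+* ℂ) (O : Finset (Set (Set (L ≃ₐ[ℚ] L))))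
    (hO : ∀ Q ∈ O, Comb.IsOrbit (cc L) Q)
    (hdisj : ∀ Q ∈ O, ∀ Q' ∈ O, Q ≠ Q' → Disjoint Q Q')
    (hNE : Pool.Agent.K4H29.HC.NEO {Q | Q ∈ O})
    (X : CMAV) (κ : Type) [Fintype κ] [DecidableEq κ] [Nonempty κ] (s : κ → Set (L ≃ₐ[ℚ] L))
    (hs : ∀ k, ∃ Q ∈ O, s k ∈ Q) (hbal : Balanced s) (hpair : ∀ k l, s l ≠ (s k)ᶜ) :
      ∃ (κ' : Type) (_ : Fintype κ') (_ : DecidableEq κ') (t : κ' → Set (L ≃ₐ[ℚ] L)),
        Nonempty κ' ∧ Balanced t ∧ AlgX X j t ∧ ∀ k', cnt t (t k') ≤ cnt s (t k') := by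
  obtain ⟨k0⟩ : Nonempty κ := inferInstance
  let P : Set (Set (L ≃ₐ[ℚ] L)) := {S | ∃ Q ∈ O, S ∈ Q}
  have hcompl : ∀ S ∈ P, Sᶜ ∈ P := by
    rintro S ⟨Q, hQ, hS⟩
    exact ⟨Q, hQ, (hO Q hQ).compl S hS⟩
  have ha := isRel_cnt hcompl s hs hbal
  set a : Set (L ≃ₐ[ℚ] L) → ℚ := fun S => cnt s S - cnt s Sᶜ with hadef
  have hone : ∀ S, 0 < a S → 1 ≤ cnt s S := by
    intro S hS
    have h1 := cnt_nonneg s Sᶜ
    have h2 : 0 < cnt s S := by
      change 0 < cnt s S - cnt s Sᶜ at hS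
      linarith
    rw [cnt_eq] at h2 ⊢
    have h3 : 0 < Nat.card {k // s k = S} := by exact_mod_cast h2
    exact_mod_cast h3
  have ha0 : a ≠ 0 := by
    intro h
    have h1 : a (s k0) = cnt s (s k0) := by
      change cnt s (s k0) - cnt s (s k0)ᶜ = _
      rw [cnt_eq_zero s _ (hpair k0), sub_zero]
    rw [h] at h1
    have h2 : 0 < cnt s (s k0) := (cnt_pos_iff s _).2 ⟨k0, rfl⟩
    rw [← h1] at h2
    exact lt_irrefl _ h2
  have hc : ∀ g, cc L * g = g * cc L := fun g => cc_comm j g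
  obtain ⟨N, x, y, hpx, hpy, hxpos, hypos, hN, hxH, hyH, hstx, hsty, hdist, hcard, hps⟩ :=
    Comb.exists_two_part hc O hO hdisj (P := P) (fun S => Iff.rfl) ha
      (Pool.Agent.K4H29.HC.part_mem hc O hO hdisj hNE (P := P) (fun S => Iff.rfl) ha) ha0
  let x' : Bool → Set (L ≃ₐ[ℚ] L) := fun b => Bool.rec y x b
  have hinj : Function.Injective (fun k : Orb N x' => k.2.1) := by
    rintro ⟨b, S⟩ ⟨b', S'⟩ h
    have h' : S.1 = S'.1 := h
    cases b <;> cases b'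
    · congr 1
      exact Subtype.ext h'
    · exact absurd h'.symm (hdist S' S)
    · exact absurd h' (hdist S S')
    · congr 1
      exact Subtype.ext h'
  have hbt : Balanced (fun k : Orb N x' => k.2.1) := by
    rw [balanced_iff]
    intro σ
    rw [Fintype.sum_sigma, Fintype.sum_bool]
    change Comb.psum N x σ + Comb.psum N y σ = 0
    by_cases h : σ ∈ N
    · rw [Comb.psum_mem h, Comb.psum_mem h, hps]
      ring
    · have h1 := Comb.psum_mem (x := x) (hN.2 σ h)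
      have h2 := Comb.psum_mem (x := y) (hN.2 σ h)
      rw [Comb.psum_c hxH] at h1
      rw [Comb.psum_c hyH] at h2
      linarith
  have hAt : AlgX X j (fun k : Orb N x' => k.2.1) := by
    refine algX_orb j N x' ?_ hN ?_ ?_ hbt X
    · rintro (_ | _)
      · exact hyH
      · exact hxH
    · rintro (_ | _)
      · exact hsty
      · exact hstx
    · rw [Fintype.card_sigma, Fintype.sum_bool]
      change Fintype.card (Comb.OrbT N x) + Fintype.card (Comb.OrbT N y) = 4 ∨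
        Fintype.card (Comb.OrbT N x) + Fintype.card (Comb.OrbT N y) = 6
      rwa [← Nat.card_eq_fintype_card, ← Nat.card_eq_fintype_card]
  refine ⟨Orb N x', inferInstance, inferInstance, fun k => k.2.1,
    ⟨⟨true, ⟨x, Comb.self_mem N x⟩⟩⟩, hbt, hAt, fun k' => ?_⟩
  have h1 : cnt (fun k : Orb N x' => k.2.1) k'.2.1 ≤ 1 := by
    rw [cnt_eq]
    have h3 : Nat.card {k : Orb N x' // k.2.1 = k'.2.1} ≤ 1 := by
      rw [Finite.card_le_one_iff_subsingleton]
      exact ⟨fun a b => Subtype.ext (hinj (a.2.trans b.2.symm))⟩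
    exact_mod_cast h3
  refine h1.trans (hone _ ?_)
  obtain ⟨b, S, τ, hτ, rfl⟩ := k'
  cases b
  · change 0 < a (Comb.tr τ y)
    rw [hpy τ hτ]
    exact hypos
  · change 0 < a (Comb.tr τ x)
    rw [hpx τ hτ]
    exact hxpos

/-- All balanced families are decomposed. -/
theorem algX_family_ne (j : L →+* ℂ) (O : Finset (Set (Set (L ≃ₐ[ℚ] L))))
    (hO : ∀ Q ∈ O, Comb.IsOrbit (cc L) Q)
    (hdisj : ∀ Q ∈ O, ∀ Q' ∈ O, Q ≠ Q' → Disjoint Q Q')
    (hNE : Pool.Agent.K4H29.HC.NEO {Q | Q ∈ O})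
    (X : CMAV) {κ : Type} [Fintype κ] [DecidableEq κ] (s : κ → Set (L ≃ₐ[ℚ] L))
    (hs : ∀ k, ∃ Q ∈ O, s k ∈ Q) (hbal : Balanced s) : AlgX X j s :=
  algX_of_blocks j X (fun S => ∃ Q ∈ O, S ∈ Q)
    (fun κ _ _ _ s hs hbal hpair => block_family_ne j O hO hdisj hNE X κ s hs hbal hpair)
    _ κ rfl s hs hbal

end

end Pool.Agent.W547.LD
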