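import Pool.Agent.K4H29.HC.Defs
import Pool.Agent.K4H29.HC.Fam
import Pool.Agent.W547.LN.Main
import Pool.Agent.H977R3.CM.Aut

/-!
# Orbits of half systems and CM fields
-/

set_option linter.unusedSectionVars false
set_option linter.unusedVariables false

namespace Pool.Agent.K4H29.HC

open NumberField Pool.Agent.H204R3.CM Pool.Agent.W547.KB Pool.Agent.W547.LD Equiv Module
open Pool.Agent.W547.LN IntermediateField

noncomputable section

variable {L : Type} [Field L] [NumberField L] [IsCMField L] [IsGalois ℚ L]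

/-- Primitive types. -/
theorem primitive_of_inj (A : CMPair) (j : L →+* ℂ)
    (hj : ∀ ψ : A.E →+* ℂ, ∃ φ : A.E →+* L, j.comp φ = ψ)
    (hinj : Function.Injective (hs A j)) : Primitive A := by
  intro φ ψ h
  obtain ⟨φ', rfl⟩ := hj φ
  obtain ⟨ψ', rfl⟩ := hj ψ
  congr 1
  apply hinj
  ext σ
  obtain ⟨τ, hτ⟩ := Pool.Agent.H977R3.CM.exists_aut j (σ : L ≃+* L)
  have h1 := h τ
  have h2 : ∀ χ : A.E →+* L, (τ : ℂ →+* ℂ).comp (j.comp χ) = j.comp (σ • χ) := by
    intro χ
    ext x
    exact hτ (χ x)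
  rw [h2, h2] at h1
  exact h1

theorem inj_of_primitive (A : CMPair) (j : L →+* ℂ) (hA : Primitive A) :
    Function.Injective (hs A j) := by
  intro φ' ψ' h
  have h1 : j.comp φ' = j.comp ψ' := by
    apply hA
    intro τ
    obtain ⟨g, hg⟩ := Pool.Agent.H977R3.CM.exists_gal j τ
    have h2 : ∀ χ : A.E →+* L, (τ : ℂ →+* ℂ).comp (j.comp χ) = j.comp (g • χ) := by
      intro χ
      ext x
      exact hg (χ x)
    rw [h2, h2]
    have h3 : g ∈ hs A j φ' ↔ g ∈ hs A j ψ' := by rw [h]
    exact h3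
  ext x
  exact j.injective (RingHom.congr_fun h1 x)

/-- The kernel of an orbit is the fixing subgroup of the closure. -/
theorem kerP_eq (A : CMPair) (j : L →+* ℂ) (hinj : Function.Injective (hs A j)) :
    Comb.kerP (Set.range (hs A j)) = (IntermediateField.normalClosure ℚ A.E L).fixingSubgroup := by
  ext τ
  constructor
  · intro hτ
    rw [IntermediateField.mem_fixingSubgroup_iff]
    have h1 : IntermediateField.normalClosure ℚ A.E L ≤
        IntermediateField.fixedField (Subgroup.zpowers τ) := by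
      rw [normalClosure_le_iff]
      rintro φ _ ⟨a, rfl⟩
      rw [IntermediateField.mem_fixedField_iff]
      rintro g ⟨n, rfl⟩
      have h2 : ∀ χ : A.E →+* L, τ • χ = χ := by
        intro χ
        apply hinj
        have h3 := hτ _ ⟨χ, rfl⟩
        rwa [tr_hs] at h3
      have h4 : ∀ (n : ℤ) (χ : A.E →+* L), (τ ^ n) • χ = χ := by
        intro n χ
        have h5 : τ ∈ MulAction.stabilizer (L ≃ₐ[ℚ] L) χ := h2 χ
        exact (MulAction.stabilizer (L ≃ₐ[ℚ] L) χ).zpow_mem h5 n
      exact RingHom.congr_fun (h4 n (φ : A.E →+* L)) a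
    intro x hx
    have h2 := (IntermediateField.mem_fixedField_iff _ _).1 (h1 hx) τ (Subgroup.mem_zpowers τ)
    exact h2
  · intro hτ
    refine mem_kerP_of_fix A j τ fun φ' => ?_
    ext b
    change τ (φ' b) = φ' b
    refine (IntermediateField.mem_fixingSubgroup_iff _ τ).1 hτ _ ?_
    exact (RingHom.equivRatAlgHom A.E L φ').fieldRange_le_normalClosure ⟨b, rfl⟩

theorem finrank_closure (A : CMPair) (j : L →+* ℂ)
    (hj : ∀ ψ : A.E →+* ℂ, ∃ φ : A.E →+* L, j.comp φ = ψ) :
    finrank ℚ (IntermediateField.normalClosure ℚ A.E ℂ) =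
      finrank ℚ (IntermediateField.normalClosure ℚ A.E L) := by
  let jj : L →ₐ[ℚ] ℂ := RingHom.equivRatAlgHom L ℂ j
  have h1 : (IntermediateField.normalClosure ℚ A.E L).map jj =
      IntermediateField.normalClosure ℚ A.E ℂ := by
    apply le_antisymm
    · rw [IntermediateField.map_le_iff_le_comap, normalClosure_le_iff]
      rintro φ' _ ⟨b, rfl⟩
      change jj (φ' b) ∈ normalClosure ℚ A.E ℂ
      exact (jj.comp φ').fieldRange_le_normalClosure ⟨b, rfl⟩
    · rw [normalClosure_le_iff]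
      rintro ψ _ ⟨a, rfl⟩
      obtain ⟨φ, hφ⟩ := hj (ψ : A.E →+* ℂ)
      refine ⟨φ a, ?_, RingHom.congr_fun hφ a⟩
      exact (RingHom.equivRatAlgHom A.E L φ).fieldRange_le_normalClosure ⟨a, rfl⟩
  rw [← h1]
  exact (IntermediateField.equivMap _ jj).toLinearEquiv.finrank_eq.symm

theorem index_kerP (A : CMPair) (j : L →+* ℂ)
    (hj : ∀ ψ : A.E →+* ℂ, ∃ φ : A.E →+* L, j.comp φ = ψ) (hinj : Function.Injective (hs A j)) :
    (Comb.kerP (Set.range (hs A j))).index = finrank ℚ (IntermediateField.normalClosure ℚ A.E ℂ) := by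
  rw [kerP_eq A j hinj, finrank_closure A j hj, IntermediateField.finrank_eq_fixingSubgroup_index]

/-- Isomorphic fields from equal stabilizers. -/
theorem equiv_of_stb (A B : CMPair) (j : L →+* ℂ) (hA : Function.Injective (hs A j))
    (hB : Function.Injective (hs B j)) (φ : A.E →+* L) (ψ : B.E →+* L)
    (h : Comb.stb (hs A j φ) = Comb.stb (hs B j ψ)) : Nonempty (A.E ≃+* B.E) := by
  have key : ∀ (A : CMPair), Function.Injective (hs A j) → ∀ φ : A.E →+* L,
      Comb.stb (hs A j φ) = (RingHom.equivRatAlgHom A.E L φ).fieldRange.fixingSubgroup := by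
    intro A hA φ
    ext τ
    rw [IntermediateField.mem_fixingSubgroup_iff, Comb.mem_stb, tr_hs]
    constructor
    · rintro h _ ⟨a, rfl⟩
      exact RingHom.congr_fun (hA h) a
    · intro h
      congr 1
      ext a
      exact h _ ⟨a, rfl⟩
  rw [key A hA, key B hB] at h
  have h1 : (RingHom.equivRatAlgHom A.E L φ).fieldRange =
      (RingHom.equivRatAlgHom B.E L ψ).fieldRange := by
    rw [← IsGalois.fixedField_fixingSubgroup (RingHom.equivRatAlgHom A.E L φ).fieldRange, h,
      IsGalois.fixedField_fixingSubgroup]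
  have e1 : A.E ≃ₐ[ℚ] (RingHom.equivRatAlgHom A.E L φ).fieldRange :=
    AlgEquiv.ofInjectiveField _
  have e2 : B.E ≃ₐ[ℚ] (RingHom.equivRatAlgHom B.E L ψ).fieldRange :=
    AlgEquiv.ofInjectiveField _
  exact ⟨((e1.trans (IntermediateField.equivOfEq h1)).trans e2.symm).toRingEquiv⟩

theorem ne_of_not_same {A B : CMPair} (j : L →+* ℂ)
    (h : Set.range (hs A j) ≠ Set.range (hs B j)) : ¬ SameType A B :=
  fun h1 => h (range_eq_of_sameType A B j h1)

/-- **Hodge classes on products without exceptional configurations.** -/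
theorem ring_ne (X : CMAV) (hdeg : ∀ i, finrank ℚ (X.factor i).E ≤ 6) (T : CMPair → Prop)
    (hT : ∀ i, 2 < finrank ℚ (X.factor i).E → Primitive (X.factor i) → T (X.factor i))
    (hNE : NoExceptional T) {κ : Type} [Finite κ] (f : X.H1 [⋀^κ]→ₗ[ℚ] ℚ)
    (hf : IsHodge X.per f) : DWRing X κ f := by
  classical
  refine ring_of_mono X ?_ f hf
  intro L _ _ _ _ j hj _ _ I hb
  let O : Finset (Set (Set (L ≃ₐ[ℚ] L))) :=
    Finset.univ.image fun i : X.I => Set.range (hs (X.factor i) j)
  have hmem : ∀ Q ∈ O, ∃ i, Q = Set.range (hs (X.factor i) j) := by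
    intro Q hQ
    obtain ⟨i, -, h⟩ := Finset.mem_image.1 hQ
    exact ⟨i, h.symm⟩
  have hO : ∀ Q ∈ O, Comb.IsOrbit (cc L) Q := by
    intro Q hQ
    obtain ⟨i, rfl⟩ := hmem Q hQ
    refine ⟨stable_hs (X.factor i) j, trans_hs (X.factor i) j, compl_hs (X.factor i) j, ?_,
      (ncard_hs (X.factor i) j (hj i)).trans (hdeg i)⟩
    rintro _ ⟨φ, rfl⟩
    exact isHalf_hs (X.factor i) j φ
  have hinj : ∀ i, 2 < (Set.range (hs (X.factor i) j)).ncard →
      Function.Injective (hs (X.factor i) j) := fun i h => hs_injective _ j (hj i) (hdeg i) h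
  have hlt : ∀ i, 2 < (Set.range (hs (X.factor i) j)).ncard → 2 < finrank ℚ (X.factor i).E :=
    fun i h => lt_of_lt_of_le h (ncard_hs (X.factor i) j (hj i))
  have hTi : ∀ i, 2 < (Set.range (hs (X.factor i) j)).ncard → T (X.factor i) := fun i h =>
    hT i (hlt i h) (primitive_of_inj _ j (hj i) (hinj i h))
  have hcl : ∀ i k, 2 < (Set.range (hs (X.factor i) j)).ncard →
      2 < (Set.range (hs (X.factor k) j)).ncard →
      Comb.kerP (Set.range (hs (X.factor i) j)) = Comb.kerP (Set.range (hs (X.factor k) j)) →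
      normalClosure ℚ (X.factor i).E ℂ = normalClosure ℚ (X.factor k).E ℂ := by
    intro i k h2 h2' hker
    exact le_antisymm
      (normalClosure_le (X.factor i) (X.factor k) j (hj i) (hinj i h2) hker.ge)
      (normalClosure_le (X.factor k) (X.factor i) j (hj k) (hinj k h2') hker.le)
  refine algX_family_ne j O hO ?_ ⟨?_, ?_⟩ X (fun k => St j (I k)) ?_ hb I (fun k => rfl)
  · intro Q hQ Q' hQ' hne
    rw [Set.disjoint_left]
    intro S hS hS'
    exact hne (orbit_eq (hO Q hQ) (hO Q' hQ') hS hS')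
  · intro Q₁ hQ₁ Q₂ hQ₂ Q₃ hQ₃ l1 l2 l3 k12 k13 n12 n13 n23
    obtain ⟨i1, rfl⟩ := hmem Q₁ hQ₁
    obtain ⟨i2, rfl⟩ := hmem Q₂ hQ₂
    obtain ⟨i3, rfl⟩ := hmem Q₃ hQ₃
    rw [index_kerP _ j (hj i1) (hinj i1 l1)]
    exact hNE.three _ _ _ (hTi i1 l1) (hTi i2 l2) (hTi i3 l3) (ne_of_not_same j n12)
      (ne_of_not_same j n13) (ne_of_not_same j n23) (hlt i1 l1) (hlt i2 l2) (hlt i3 l3)
      (hcl i1 i2 l1 l2 k12) (hcl i1 i3 l1 l3 k13)
  · intro Q hQ hQinj h6 S hS hst
    have hi : ∀ a, ∃ i, Q a = Set.range (hs (X.factor i) j) := fun a => hmem _ (hQ a)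
    choose i hi using hi
    have h2 : ∀ a, 2 < (Set.range (hs (X.factor (i a)) j)).ncard := fun a => by
      rw [← hi a, h6 a]
      norm_num
    have hS' : ∀ a, ∃ φ, hs (X.factor (i a)) j φ = S a := by
      intro a
      have h := hS a
      rw [hi a] at h
      exact h
    choose φ hφ using hS'
    refine hNE.four (fun a => X.factor (i a)) (fun a => hTi _ (h2 a)) ?_ ?_ fun a => ?_
    · intro a b hab h
      apply hab
      apply hQinj
      rw [hi a, hi b]
      exact range_eq_of_sameType _ _ j h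
    · intro a
      refine le_antisymm (hdeg _) ?_
      have h3 := ncard_hs (X.factor (i a)) j (hj _)
      rw [← hi a, h6 a] at h3
      exact h3
    · refine equiv_of_stb _ _ j (hinj _ (h2 a)) (hinj _ (h2 0)) (φ a) (φ 0) ?_
      rw [hφ, hφ]
      exact hst a
  · intro k
    exact ⟨_, Finset.mem_image.2 ⟨(I k).1, Finset.mem_univ _, rfl⟩, (I k).2, rfl⟩

end

end Pool.Agent.K4H29.HC
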