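import Mathlib
import Pool.Agent.K4H29.HC.Typ2
import Pool.Agent.K4H29.HC.Field
import Pool.Agent.K4H29.HC.Prod

/-!
# Products without exceptional configurations
-/

set_option linter.unusedSectionVars false
set_option linter.unusedVariables false

namespace Pool.Agent.K4H29.HC

open Matrix Module Pool.Agent.Y90 NumberField Pool.Agent.W437.HC Pool.Agent.R915
open Pool.Agent.TH504.CB (isHodge_comp)
open Pool.Agent.H204R3.CM (IsHodge IsCMType)
open Pool.Agent.W547.KB (CMPair CMAV)

noncomputable section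

/-- The simple factors of a power. -/
theorem isFactor_of_pow {κ : Type} [Fintype κ] {X : AV} {Y : AV}
    (hY : IsFactor Y (prodAV fun _ : κ => X)) : IsFactor Y X := by
  obtain ⟨hs, i, hi, hinj⟩ := hY
  obtain ⟨y, hy⟩ := hs.1
  obtain ⟨k, hk⟩ : ∃ k, i y k ≠ 0 := by
    by_contra hcon
    push Not at hcon
    exact hy (hinj (by rw [map_zero]; exact funext hcon))
  have h1 : IsHom Y X ((LinearMap.proj k).comp i) := IsHom.comp' (isHom_proj k) hi
  refine ⟨hs, _, h1, ?_⟩
  rw [← LinearMap.ker_eq_bot, LinearMap.ker_eq_bot']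
  intro x hx
  by_contra hne
  have h2 := simple_hom_zero hs h1 hne hx
  exact hk (congrArg (fun f => f y) h2)

/-- Hodge classes on products without exceptional configurations. -/
theorem prod_ne (𝒜 : Sys) (X : AV) (T : CMPair → Prop) (hNE : NoExceptional T)
    {Q : Type} [Fintype Q] [DecidableEq Q]
    {a : Q → ℕ} {Z' : ∀ q, Matrix (Fin (a q)) (Fin (a q)) ℂ} (h' : ∀ q, PM (Z' q))
    (hs : ∀ q, IsSimple (AVZ (h' q)) ∧ HasCMult (AVZ (h' q)))
    (hdeg : ∀ q, finrank ℚ (AVZ (h' q)).H ≤ 6)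
    (hT : ∀ (q : Q) (P : CMPair), IsOfType (AVZ (h' q)) P → 2 < finrank ℚ P.E → Primitive P → T P) :
    𝒜.AllHodge (AVQ h') := by
  choose P e Ψ hΨ using fun q => exists_type (hs q).1 (hs q).2
  intro κ _ f hf
  let X : CMAV := ⟨Q, P⟩
  -- the isomorphism of the homology
  let ε : (BQ a → ℚ) ≃ₗ[ℚ] X.H1 :=
    { toFun := fun w q => e q (cQ q w)
      invFun := fun x y => (e y.1).symm (x y.1) y.2
      left_inv := fun w => by
        funext y
        change (e y.1).symm (e y.1 (cQ y.1 w)) y.2 = w y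
        rw [LinearEquiv.symm_apply_apply]
        rfl
      right_inv := fun x => by
        funext q
        change e q (fun i => (e q).symm (x q) i) = x q
        exact (e q).apply_symm_apply (x q)
      map_add' := fun v w => by
        funext q
        exact map_add (e q) (cQ q v) (cQ q w)
      map_smul' := fun c v => by
        funext q
        exact map_smul (e q) c (cQ q v) }
  let Θ : (AVQ h').T ≃ₗ[ℂ] X.Tan := LinearEquiv.piCongrRight Ψ
  have hΘ : ∀ v, Θ ((AVQ h').per v) = X.per (ε v) := by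
    intro v
    funext q φ
    exact hΨ q (cQ q v) φ
  have hΘs : ∀ x, Θ.symm (X.per x) = (AVQ h').per (ε.symm x) := by
    intro x
    rw [LinearEquiv.symm_apply_eq, hΘ, ε.apply_symm_apply]
  have h1 : IsHodge X.per (f.compLinearMap ε.symm.toLinearMap) :=
    isHodge_comp ε.symm.toLinearMap Θ.symm.toLinearMap hΘs hf
  have h2 := ring_ne X (fun q => by
      change finrank ℚ (P q).E ≤ 6
      rw [← (e q).finrank_eq]
      exact hdeg q) T (fun q h3 h4 => hT q (P q) ⟨e q, Ψ q, hΨ q⟩ h3 h4) hNE _ h1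
  have h3 := ring_alg 𝒜 h2 (AVQ h') ε.toLinearMap Θ.toLinearMap hΘ
  have h4 : (f.compLinearMap ε.symm.toLinearMap).compLinearMap ε.toLinearMap = f := by
    ext v
    rw [AlternatingMap.compLinearMap_apply, AlternatingMap.compLinearMap_apply]
    congr 1
    funext k
    exact ε.symm_apply_apply (v k)
  rwa [h4] at h3

/-- The positive half. -/
theorem pos_main (𝒜 : Sys) (X : AV)
    (hX : ∀ Y, IsFactor Y X → finrank ℚ Y.H ≤ 6 ∨ (¬ HasCMult Y ∧ (QuadMult Y ∨ RealMult Y ∨
      FiveDim Y ∨ FullHodge Y)))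
    (hNE : NoExceptional fun A => IsCMFactor A X) {ι : Type} [Fintype ι] :
    𝒜.AllHodge (prodAV fun _ : ι => X) := by
  refine main_cm 𝒜 _ (fun a Z' h' i hi hinj hsim ha => ?_) fun Q _ _ a Z' h' hc => ?_
  · by_cases hcm : HasCMult (AVZ h')
    · exact Or.inr hcm
    refine Or.inl ⟨hcm, fun U hU => ?_⟩
    rcases hX (AVZ h') (isFactor_of_pow ⟨hsim, i, hi, hinj⟩) with k | ⟨-, k | k | k | k⟩
    · exact SmallDim.lc h' hsim ha ⟨k, fun h1 => absurd h1 hcm⟩ hU
    · exact k.lc h' hU
    · exact k.lc h' hsim ha hU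
    · exact k.lc h' hsim ha hU
    · exact k.lc h' hsim ha hU
  · refine prod_ne 𝒜 X _ hNE h' (fun q => ⟨(hc q).1, (hc q).2.1⟩) (fun q => ?_) fun q P hP h2 hprim => ?_
    · rcases (hc q).2.2 with h1 | ⟨h1, -⟩
      · rcases hX _ (isFactor_of_pow h1) with k | ⟨k, -⟩
        · exact k
        · exact absurd (hc q).2.1 k
      · rw [h1]
        norm_num
    · obtain ⟨e, Ψ, hΨ⟩ := hP
      rcases (hc q).2.2 with h1 | ⟨h1, -⟩
      · obtain ⟨-, i, ⟨Φ, hΦ⟩, hinj⟩ := isFactor_of_pow h1
        refine ⟨hprim, i.comp e.symm.toLinearMap, Φ.comp Ψ.symm.toLinearMap,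
          hinj.comp e.symm.injective, fun a => ?_⟩
        have h3 : (fun φ : P.Φ => φ.1 a) = Ψ ((AVZ (h' q)).per (e.symm a)) := by
          funext φ
          rw [hΨ, LinearEquiv.apply_symm_apply]
        rw [h3]
        change Φ (Ψ.symm (Ψ _)) = _
        rw [LinearEquiv.symm_apply_apply, hΦ]
        rfl
      · rw [← e.finrank_eq] at h2
        omega

end

end Pool.Agent.K4H29.HC
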