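import Pool.Agent.K4H29.HC.Mix

/-!
# The parts of a relation
-/

set_option linter.unusedSectionVars false
set_option linter.unusedVariables false

namespace Pool.Agent.K4H29.HC

open Finset Pool.Agent.W547.LD.Comb

noncomputable section

variable {G : Type} [Group G] [Fintype G]

/-! ### The index of the kernel -/

theorem index_le_of_inj {c : G} {Q : Set (Set G)} (hQ : IsOrbit c Q) (f : G → Set G × Bool)
    (hf1 : ∀ τ, (f τ).1 ∈ Q) (hf : ∀ τ τ', f τ = f τ' → τ⁻¹ * τ' ∈ kerP Q) :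
    (kerP Q).index ≤ Q.ncard * 2 := by
  have h1 : (kerP Q).index = Nat.card (G ⧸ kerP Q) := rfl
  have h2 : Q.ncard * 2 = Nat.card (Q × Bool) := by
    rw [Nat.card_prod, Nat.card_coe_set_eq, Nat.card_eq_fintype_card (α := Bool), Fintype.card_bool]
  rw [h1, h2]
  refine Nat.card_le_card_of_injective
    (fun x => ((⟨(f x.out).1, hf1 _⟩, (f x.out).2) : Q × Bool)) fun x y h => ?_
  have h3 : f x.out = f y.out := by
    have h4 := Prod.mk.inj h
    exact Prod.ext (congrArg Subtype.val h4.1) h4.2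
  have h4 := hf _ _ h3
  rw [← QuotientGroup.eq] at h4
  rwa [QuotientGroup.out_eq', QuotientGroup.out_eq'] at h4

theorem index_four {c : G} (hc : ∀ g, c * g = g * c) {Q : Set (Set G)} (hQ : IsOrbit c Q)
    (h4 : Q.ncard = 4) : (kerP Q).index ≤ 8 := by
  classical
  obtain ⟨g, hg⟩ := exists_sq hQ h4
  obtain ⟨S, hS⟩ : Q.Nonempty := by
    rw [Set.nonempty_iff_ne_empty]
    intro h
    rw [h, Set.ncard_empty] at h4
    omega
  have hgS : ∀ U ∈ Q, tr g U ≠ U ∧ tr g U ≠ Uᶜ := by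
    intro U hU
    constructor
    · intro h
      have h1 := hg U hU
      rw [h, h] at h1
      exact ne_compl U h1
    · intro h
      have h1 := hg U hU
      rw [h, tr_compl, h, compl_compl] at h1
      exact ne_compl U h1
  have key : ∀ τ, tr τ (tr g S) = tr g (tr τ S) ∨ tr τ (tr g S) = (tr g (tr τ S))ᶜ := by
    intro τ
    have h1 := hQ.stable τ S hS
    have h2 := hQ.stable τ _ (hQ.stable g S hS)
    have h3 := hQ.stable g _ h1
    have h5 := hgS _ h1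
    have h6 : tr τ (tr g S) ≠ tr τ S ∧ tr τ (tr g S) ≠ (tr τ S)ᶜ := by
      have h7 := hgS S hS
      refine ⟨fun h => h7.1 (tr_injective τ h), fun h => h7.2 ?_⟩
      rw [← tr_compl] at h
      exact tr_injective τ h
    rcases two_cover hQ h4 h1 h3 h5.1 h5.2 h2 with h | h | h | h
    · exact absurd h h6.1
    · exact absurd h h6.2
    · exact Or.inl h
    · exact Or.inr h
  have h8 := index_le_of_inj hQ (fun τ => (tr τ S, decide (tr τ (tr g S) = tr g (tr τ S))))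
    (fun τ => hQ.stable τ S hS) ?_
  · rw [h4] at h8
    omega
  · intro τ τ' h
    obtain ⟨e1, e2⟩ := Prod.mk.inj h
    have e3 : tr τ (tr g S) = tr τ' (tr g S) := by
      rw [decide_eq_decide, ← e1] at e2
      rcases key τ with a | a <;> rcases key τ' with b | b <;> rw [← e1] at b
      · rw [a, b]
      · exact absurd ((e2.1 a).symm.trans b) (ne_compl _)
      · exact absurd ((e2.2 b).symm.trans a) (ne_compl _)
      · rw [a, b]
    have f1 : tr (τ⁻¹ * τ') S = S := by rw [← tr_tr, ← e1, tr_inv_tr]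
    have f2 : tr (τ⁻¹ * τ') (tr g S) = tr g S := by rw [← tr_tr, ← e3, tr_inv_tr]
    intro U hU
    rcases two_cover hQ h4 hS (hQ.stable g S hS) (hgS S hS).1 (hgS S hS).2 hU with h | h | h | h
    · rw [h, f1]
    · rw [h, tr_compl, f1]
    · rw [h, f2]
    · rw [h, tr_compl, f2]

theorem index_notMixed {c : G} {Q : Set (Set G)} (hQ : IsOrbit c Q) (h6 : Q.ncard = 6)
    (hnm : NotMixed Q) : (kerP Q).index ≤ 12 := by
  classical
  obtain ⟨z, hz⟩ := exists_cyc hQ h6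
  obtain ⟨S, hS⟩ := nonempty_of_six h6
  have hcomm := comm_all hQ hnm hz ⟨S, hS⟩
  have hzS := hQ.stable z S hS
  have h8 := index_le_of_inj hQ (fun τ => (tr τ S, decide (∀ U ∈ Q, tr τ (tr z U) = tr z (tr τ U))))
    (fun τ => hQ.stable τ S hS) ?_
  · rw [h6] at h8
    omega
  · intro τ τ' h
    obtain ⟨e1, e2⟩ := Prod.mk.inj h
    rw [decide_eq_decide] at e2
    have e3 : tr τ (tr z S) = tr τ' (tr z S) ∧ tr τ (tr z (tr z S)) = tr τ' (tr z (tr z S)) := by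
      by_cases h1 : ∀ U ∈ Q, tr τ (tr z U) = tr z (tr τ U)
      · have h2 := e2.1 h1
        rw [h1 S hS, h2 S hS, h1 _ hzS, h2 _ hzS, h1 S hS, h2 S hS, e1]
        exact ⟨rfl, rfl⟩
      · have h2 := (hcomm τ).resolve_left h1
        have h3 := (hcomm τ').resolve_left (fun h => h1 (e2.2 h))
        rw [h2 S hS, h3 S hS, h2 _ hzS, h3 _ hzS, h2 S hS, h3 S hS, e1]
        exact ⟨rfl, rfl⟩
    have f1 : tr (τ⁻¹ * τ') S = S := by rw [← tr_tr, ← e1, tr_inv_tr]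
    have f2 : tr (τ⁻¹ * τ') (tr z S) = tr z S := by rw [← tr_tr, ← e3.1, tr_inv_tr]
    have f3 : tr (τ⁻¹ * τ') (tr z (tr z S)) = tr z (tr z S) := by
      rw [← tr_tr, ← e3.2, tr_inv_tr]
    intro U hU
    rcases hz.cover hQ hS hU with (h | h) | (h | h) | (h | h)
    · rw [h, f1]
    · rw [h, tr_compl, f1]
    · rw [h, f2]
    · rw [h, tr_compl, f2]
    · rw [h, f3]
    · rw [h, tr_compl, f3]

/-! ### Separation -/

section sep

variable {c : G} (hc : ∀ g, c * g = g * c)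

include hc in
theorem absorb_fam {P : Set (Set G)} (M : Subgroup G) [hMn : M.Normal]
    (hP : ∀ S ∈ P, ∃ Q, IsOrbit c Q ∧ S ∈ Q ∧ ¬ ∀ h ∈ M, ∀ T ∈ Q, tr h T = T)
    {F : G → ℚ} (hF : F ∈ VV P) (h : ∀ h ∈ M, F - rtr h F ∈ QQ c) : F ∈ QQ c := by
  classical
  have h1 : ∑ h : M, rtr h.1 F ∈ QQ c := by
    refine Submodule.span_induction (p := fun F _ => ∑ h : M, rtr h.1 F ∈ QQ c) ?_ ?_ ?_ ?_ hF
    · rintro _ ⟨S, hS, rfl⟩
      obtain ⟨Q, hQ, hSQ, hM⟩ := hP S hS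
      exact sum_mem_QQ hc hQ.stable hQ.trans hQ.compl hQ.half hQ.card M hM hSQ
    · simp only [map_zero, Finset.sum_const_zero]
      exact Submodule.zero_mem _
    · intro x y _ _ hx hy
      simp only [map_add, Finset.sum_add_distrib]
      exact Submodule.add_mem _ hx hy
    · intro a x _ hx
      simp only [map_smul, ← Finset.smul_sum]
      exact Submodule.smul_mem _ _ hx
  have h2 : ∑ h : M, (F - rtr h.1 F) ∈ QQ c := Submodule.sum_mem _ fun k _ => h k.1 k.2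
  rw [Finset.sum_sub_distrib, Finset.sum_const, Finset.card_univ] at h2
  have h3 := Submodule.add_mem _ h2 h1
  rw [sub_add_cancel, ← Nat.cast_smul_eq_nsmul ℚ] at h3
  have h4 := Submodule.smul_mem _ ((Fintype.card M : ℚ)⁻¹) h3
  rwa [smul_smul, inv_mul_cancel₀ (Nat.cast_ne_zero.2 Fintype.card_ne_zero), one_smul] at h4

include hc in
theorem sep_fam {P : Set (Set G)} (hP : Stable P) {ι : Type} [DecidableEq ι] (s : Finset ι)
    (M : ι → Subgroup G) (hN : ∀ i ∈ s, (M i).Normal)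
    (hM : ∀ i ∈ s, ∀ S ∈ P, ∃ Q, IsOrbit c Q ∧ S ∈ Q ∧ ¬ ∀ h ∈ M i, ∀ T ∈ Q, tr h T = T) :
    ∀ (F : G → ℚ) (f : ι → G → ℚ), F ∈ VV P → (∀ i ∈ s, ∀ h ∈ M i, rtr h (f i) = f i) →
      F + ∑ i ∈ s, f i ∈ QQ c → F ∈ QQ c := by
  induction s using Finset.induction_on with
  | empty =>
    intro F f hF _ h
    rwa [Finset.sum_empty, add_zero] at h
  | insert i0 s hi0 ih =>
    intro F f hF hf h
    have := hN i0 (Finset.mem_insert_self _ _)
    refine absorb_fam hc (M i0) (hM i0 (Finset.mem_insert_self _ _)) hF ?_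
    intro h1 hh1
    refine ih (fun i hi => hN i (Finset.mem_insert_of_mem hi))
      (fun i hi => hM i (Finset.mem_insert_of_mem hi)) (F - rtr h1 F)
      (fun i => f i - rtr h1 (f i)) (Submodule.sub_mem _ hF (rtr_mem_VV hP h1 hF)) ?_ ?_
    · intro i hi k hk
      have hni := hN i (Finset.mem_insert_of_mem hi)
      rw [map_sub, hf i (Finset.mem_insert_of_mem hi) k hk, rtr_rtr,
        show k * h1 = h1 * (h1⁻¹ * k * h1) by group, ← rtr_rtr]
      have h2 := hni.conj_mem k hk h1⁻¹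
      rw [inv_inv] at h2
      rw [hf i (Finset.mem_insert_of_mem hi) _ h2]
    · have h2 : F - rtr h1 F + ∑ i ∈ s, (f i - rtr h1 (f i)) =
          (F + ∑ i ∈ insert i0 s, f i) - rtr h1 (F + ∑ i ∈ insert i0 s, f i) := by
        rw [Finset.sum_insert hi0, map_add, map_add, map_sum,
          hf i0 (Finset.mem_insert_self _ _) h1 hh1, Finset.sum_sub_distrib]
        abel
      rw [h2]
      exact Submodule.sub_mem _ h (rtr_mem_QQ hc h1 h)

end sep

/-! ### The condition -/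

/-- The condition on a family of orbits. -/
structure NEO (O : Set (Set (Set G))) : Prop where
  three : ∀ Q₁ ∈ O, ∀ Q₂ ∈ O, ∀ Q₃ ∈ O, 2 < Q₁.ncard → 2 < Q₂.ncard → 2 < Q₃.ncard →
    kerP Q₁ = kerP Q₂ → kerP Q₁ = kerP Q₃ → Q₁ ≠ Q₂ → Q₁ ≠ Q₃ → Q₂ ≠ Q₃ → 12 < (kerP Q₁).index
  four : ∀ Q : Fin 4 → Set (Set G), (∀ i, Q i ∈ O) → Function.Injective Q →
    (∀ i, (Q i).ncard = 6) → ∀ S : Fin 4 → Set G, (∀ i, S i ∈ Q i) → ¬ ∀ i, stb (S i) = stb (S 0)

section loc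

variable {c : G} (hc : ∀ g, c * g = g * c)

include hc in
/-- The functions of orbits with the same kernel. -/
theorem loc_indep {O : Set (Set (Set G))} (hNE : NEO O) (O₀ : Finset (Set (Set G)))
    (hsub : ∀ Q ∈ O₀, Q ∈ O) (hO : ∀ Q ∈ O₀, IsOrbit c Q) (hlarge : ∀ Q ∈ O₀, 2 < Q.ncard)
    (hker : ∀ Q ∈ O₀, ∀ Q' ∈ O₀, kerP Q = kerP Q') (F : Set (Set G) → G → ℚ)
    (hF : ∀ Q ∈ O₀, F Q ∈ VV Q) (hq : ∑ Q ∈ O₀, F Q ∈ QQ c) : ∀ Q ∈ O₀, F Q ∈ QQ c := by
  classical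
  have hcard : ∀ Q ∈ O₀, Q.ncard = 4 ∨ Q.ncard = 6 := by
    intro Q hQ
    obtain ⟨m, hm⟩ := even_orbit (hO Q hQ)
    have h1 := hlarge Q hQ
    have h2 := (hO Q hQ).card
    omega
  -- at most two orbits
  have two : (∀ Q ∈ O₀, ∀ Q' ∈ O₀, Q ≠ Q' → F Q + F Q' ∈ QQ c → F Q ∈ QQ c) →
      (∃ Q ∈ O₀, (kerP Q).index ≤ 12) → ∀ Q ∈ O₀, F Q ∈ QQ c := by
    rintro hpair ⟨Q1, hQ1, hidx⟩ Q hQ
    by_cases h : ∃ Q' ∈ O₀, Q' ≠ Q
    · obtain ⟨Q', hQ', hne⟩ := h
      refine hpair Q hQ Q' hQ' hne.symm ?_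
      have h1 : O₀ = {Q, Q'} := by
        ext R
        rw [Finset.mem_insert, Finset.mem_singleton]
        constructor
        · intro hR
          by_contra hcon
          push Not at hcon
          have h2 := hNE.three Q (hsub Q hQ) Q' (hsub Q' hQ') R (hsub R hR) (hlarge Q hQ)
            (hlarge Q' hQ') (hlarge R hR) (hker _ hQ _ hQ') (hker _ hQ _ hR) hne.symm
            (Ne.symm hcon.1) (Ne.symm hcon.2)
          rw [hker _ hQ _ hQ1] at h2
          omega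
        · rintro (rfl | rfl)
          · exact hQ
          · exact hQ'
      rw [h1, Finset.sum_pair hne.symm] at hq
      exact hq
    · push Not at h
      have h1 : O₀ = {Q} := by
        ext R
        rw [Finset.mem_singleton]
        exact ⟨fun hR => h R hR, fun hR => hR ▸ hQ⟩
      rw [h1, Finset.sum_singleton] at hq
      exact hq
  by_cases h6 : ∃ Q ∈ O₀, Q.ncard = 6
  · obtain ⟨Q1, hQ1, h61⟩ := h6
    obtain ⟨z, hz1⟩ := exists_cyc (hO Q1 hQ1) h61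
    have hall : ∀ Q ∈ O₀, Q.ncard = 6 := by
      intro Q hQ
      have h1 : Cyc Q z :=
        hz1.transfer (hO Q1 hQ1) (hO Q hQ) (nonempty_of_six h61) (hker _ hQ1 _ hQ)
      refine h1.card (hO Q hQ) ?_
      rw [Set.nonempty_iff_ne_empty]
      rintro rfl
      have h2 := hlarge _ hQ
      rw [Set.ncard_empty] at h2
      omega
    by_cases hmix : ∃ Q ∈ O₀, ¬ NotMixed Q
    · obtain ⟨Q2, hQ2, hm2⟩ := hmix
      intro Q hQ
      have h1 := mixed_indep (J := O₀) (Q := fun j => j.1) hc (fun j => hO j.1 j.2)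
        (fun j => hall j.1 j.2) (fun j k => hker _ j.2 _ k.2) Subtype.val_injective ⟨Q2, hQ2⟩ hm2
        (fun f hf S hS => hNE.four (fun i => (f i).1) (fun i => hsub _ (f i).2)
          (fun i k h => hf (Subtype.ext h)) (fun i => hall _ (f i).2) S hS)
        (fun j => F j.1) (fun j => hF j.1 j.2) (by
          rw [Finset.sum_coe_sort O₀ F]
          exact hq) ⟨Q, hQ⟩
      rw [show F Q = 0 from h1]
      exact Submodule.zero_mem _
    · push Not at hmix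
      refine two ?_ ⟨Q1, hQ1, index_notMixed (hO Q1 hQ1) h61 (hmix Q1 hQ1)⟩
      intro Q hQ Q' hQ' hne h
      exact pair6 hc (hO Q hQ) (hO Q' hQ') (hall Q hQ) (hall Q' hQ') (hker _ hQ _ hQ')
        (hmix Q hQ) hne (hF Q hQ) (hF Q' hQ') h
  · push Not at h6
    have hall : ∀ Q ∈ O₀, Q.ncard = 4 := fun Q hQ => (hcard Q hQ).resolve_right (h6 Q hQ)
    intro Q hQ
    refine two ?_ ⟨Q, hQ, (index_four hc (hO Q hQ) (hall Q hQ)).trans (by norm_num)⟩ Q hQ
    intro Q hQ Q' hQ' hne h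
    rw [pair4 hc (hO Q hQ) (hO Q' hQ') (hall Q hQ) (hall Q' hQ') (hker _ hQ _ hQ') hne (hF Q hQ)
      (hF Q' hQ') h]
    exact Submodule.zero_mem _

end loc

section part

variable {c : G} (hc : ∀ g, c * g = g * c) (O : Finset (Set (Set G)))
  (hO : ∀ Q ∈ O, IsOrbit c Q)
  (hdisj : ∀ Q ∈ O, ∀ Q' ∈ O, Q ≠ Q' → Disjoint Q Q')
  (hNE : NEO {Q | Q ∈ O})
  {P : Set (Set G)} (hPO : ∀ S, S ∈ P ↔ ∃ Q ∈ O, S ∈ Q) {a : Set G → ℚ} (ha : IsRel P a)

include hc hO hdisj hNE hPO ha in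
/-- The parts of a relation are combinations of quadratic characters. -/
theorem part_mem : ∀ Q ∈ O, FF (aQ a Q) ∈ QQ c := by
  classical
  by_contra hcon
  push Not at hcon
  let B : Finset (Set (Set G)) := O.filter fun Q => FF (aQ a Q) ∉ QQ c
  have hB : B.Nonempty := by
    obtain ⟨Q, hQ, h⟩ := hcon
    exact ⟨Q, Finset.mem_filter.2 ⟨hQ, h⟩⟩
  obtain ⟨K, hKB, hmin⟩ := Finset.exists_min_image B (fun Q => Nat.card (kerP Q)) hB
  obtain ⟨hK, hKn⟩ := Finset.mem_filter.1 hKB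
  have hsuppQ : ∀ Q, ∀ S, S ∉ Q → aQ a Q S = 0 := fun Q S hS => if_neg hS
  have hlarge : ∀ Q ∈ B, 2 < Q.ncard := by
    intro Q hQ
    obtain ⟨hQO, hQn⟩ := Finset.mem_filter.1 hQ
    by_contra h
    push Not at h
    have h1 := hO Q hQO
    exact hQn (VV_le_QQ hc h1.stable h1.compl h1.half h (FF_mem_VV (hsuppQ Q)))
  have hBO : ∀ Q ∈ B, Q ∈ O := fun Q hQ => (Finset.mem_filter.1 hQ).1
  let O₀ : Finset (Set (Set G)) := B.filter fun Q => kerP Q = kerP K
  let B' : Finset (Set (Set G)) := B.filter fun Q => ¬ kerP Q = kerP K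
  have hO₀B : ∀ Q ∈ O₀, Q ∈ B := fun Q hQ => (Finset.mem_filter.1 hQ).1
  have hO₀k : ∀ Q ∈ O₀, kerP Q = kerP K := fun Q hQ => (Finset.mem_filter.1 hQ).2
  have hKO : K ∈ O₀ := Finset.mem_filter.2 ⟨hKB, rfl⟩
  apply hKn
  refine loc_indep hc hNE O₀ (fun Q hQ => hBO Q (hO₀B Q hQ)) (fun Q hQ => hO Q (hBO Q (hO₀B Q hQ)))
    (fun Q hQ => hlarge Q (hO₀B Q hQ)) (fun Q hQ Q' hQ' => (hO₀k Q hQ).trans (hO₀k Q' hQ').symm)
    (fun Q => FF (aQ a Q)) (fun Q _ => FF_mem_VV (hsuppQ Q)) ?_ K hKO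
  let P₀ : Set (Set G) := {S | ∃ Q ∈ O₀, S ∈ Q}
  have hP₀ : Stable P₀ := by
    rintro τ S ⟨Q, hQ, hS⟩
    exact ⟨Q, hQ, (hO Q (hBO Q (hO₀B Q hQ))).stable τ S hS⟩
  have hVV : ∀ Q ∈ O₀, VV Q ≤ VV P₀ := by
    intro Q hQ
    refine Submodule.span_le.2 ?_
    rintro _ ⟨S, hS, rfl⟩
    exact eps_mem_VV ⟨Q, hQ, hS⟩
  refine sep_fam hc hP₀ B' kerP ?_ ?_ _ (fun Q => FF (aQ a Q))
    (Submodule.sum_mem _ fun Q hQ => hVV Q hQ (FF_mem_VV (hsuppQ Q))) ?_ ?_
  · intro Q hQ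
    exact kerP_normal (hO Q (hBO Q (Finset.mem_filter.1 hQ).1)).stable
  · rintro Q hQ S ⟨Q', hQ', hS⟩
    refine ⟨Q', hO Q' (hBO Q' (hO₀B Q' hQ')), hS, fun h => ?_⟩
    obtain ⟨hQB, hQk⟩ := Finset.mem_filter.1 hQ
    have h1 : kerP Q ≤ kerP K := by
      rw [← hO₀k Q' hQ']
      exact fun τ hτ S hS => h τ hτ S hS
    exact hQk (Subgroup.eq_of_le_of_card_ge h1 (hmin Q hQB))
  · intro Q hQ τ hτ
    rw [rtr_FF]
    congr 1
    funext S
    unfold aQ
    by_cases hS : S ∈ Q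
    · have h1 : tr τ⁻¹ S = S := (kerP Q).inv_mem hτ S hS
      rw [h1]
    · rw [if_neg hS, if_neg]
      intro h
      apply hS
      have h1 := hτ _ h
      rw [tr_tr_inv] at h1
      rwa [← h1] at h
  · have h1 := sum_FF O hdisj hPO ha
    rw [← Finset.sum_filter_add_sum_filter_not O (fun Q => FF (aQ a Q) ∉ QQ c)] at h1
    have h2 : ∑ Q ∈ O.filter (fun Q => ¬ FF (aQ a Q) ∉ QQ c), FF (aQ a Q) ∈ QQ c := by
      refine Submodule.sum_mem _ fun Q hQ => ?_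
      exact not_not.1 (Finset.mem_filter.1 hQ).2
    have h3 : ∑ Q ∈ O₀, FF (aQ a Q) + ∑ Q ∈ B', FF (aQ a Q) = ∑ Q ∈ B, FF (aQ a Q) :=
      Finset.sum_filter_add_sum_filter_not B (fun Q => kerP Q = kerP K) _
    have h4 : ∑ Q ∈ B, FF (aQ a Q) = -∑ Q ∈ O.filter (fun Q => ¬ FF (aQ a Q) ∉ QQ c),
        FF (aQ a Q) := eq_neg_of_add_eq_zero_left h1
    rw [h3, h4]
    exact Submodule.neg_mem _ h2

end part

end

end Pool.Agent.K4H29.HC
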