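import Mathlib
import Pool.Agent.K4H29.HC.Part

/-!
# Relations between few orbits
-/

set_option linter.unusedSectionVars false
set_option linter.unusedVariables false

namespace Pool.Agent.K4H29.HC

open Finset Module Pool.Agent.W547.LD.Comb

noncomputable section

variable {G : Type} [Group G] [Fintype G]

/-- Functions which are invariant under right translations by elements of `N`. -/
def invN (N : Subgroup G) : Submodule ℚ (G → ℚ) where
  carrier := {F | ∀ n ∈ N, ∀ σ, F (σ * n) = F σ}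
  zero_mem' := fun n _ σ => rfl
  add_mem' := fun {F F'} h h' n hn σ => by
    rw [Pi.add_apply, Pi.add_apply, h n hn, h' n hn]
  smul_mem' := fun c F h n hn σ => by
    rw [Pi.smul_apply, Pi.smul_apply, h n hn]

/-- The part with a given sign. -/
def sgnN (c : G) (N : Subgroup G) (s : ℚ) : Submodule ℚ (G → ℚ) where
  carrier := {F | (∀ n ∈ N, ∀ σ, F (σ * n) = F σ) ∧ ∀ σ, F (c * σ) = s * F σ}
  zero_mem' := ⟨fun n _ σ => rfl, fun σ => by
    rw [Pi.zero_apply, Pi.zero_apply, mul_zero]⟩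
  add_mem' := fun {F F'} h h' => ⟨fun n hn σ => by
    rw [Pi.add_apply, Pi.add_apply, h.1 n hn, h'.1 n hn], fun σ => by
    rw [Pi.add_apply, Pi.add_apply, h.2, h'.2, mul_add]⟩
  smul_mem' := fun q F h => ⟨fun n hn σ => by
    rw [Pi.smul_apply, Pi.smul_apply, h.1 n hn], fun σ => by
    rw [Pi.smul_apply, Pi.smul_apply, h.2, smul_eq_mul, smul_eq_mul]
    ring⟩

theorem finrank_invN (N : Subgroup G) : finrank ℚ (invN N) ≤ N.index := by
  classical
  let f : invN N →ₗ[ℚ] (G ⧸ N → ℚ) :=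
    { toFun := fun F q => F.1 q.out
      map_add' := fun F F' => rfl
      map_smul' := fun c F => rfl }
  have hf : Function.Injective f := by
    rw [← LinearMap.ker_eq_bot, LinearMap.ker_eq_bot']
    intro F hF
    apply Subtype.ext
    funext σ
    have h1 : F.1 ((QuotientGroup.mk σ : G ⧸ N).out) = 0 := congrFun hF (QuotientGroup.mk σ)
    have h2 : σ⁻¹ * (QuotientGroup.mk σ : G ⧸ N).out ∈ N := by
      rw [← QuotientGroup.eq, QuotientGroup.out_eq']
    have h3 := F.2 _ h2 σ
    rw [mul_inv_cancel_left, h1] at h3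
    exact h3.symm
  have h1 := LinearMap.finrank_le_finrank_of_injective hf
  rw [finrank_fintype_fun_eq_card, ← Nat.card_eq_fintype_card] at h1
  exact h1

theorem finrank_odd {c : G} {N : Subgroup G} {S : Set G} (hS : Half c S)
    (hN : ∀ n ∈ N, tr n S = S) : 2 * finrank ℚ (sgnN c N (-1)) ≤ N.index := by
  have hc : ∀ σ, eps S (c * σ) = -eps S σ := by
    intro σ
    have h1 := hS σ
    unfold eps
    by_cases h : σ ∈ S
    · rw [if_pos h, if_neg (h1.1 h)]
    · rw [if_neg h, if_pos (by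
        by_contra h2
        exact h (h1.2 h2)), neg_neg]
  have hn : ∀ n ∈ N, ∀ σ, eps S (σ * n) = eps S σ := by
    intro n hn σ
    rw [← eps_tr, hN n hn]
  have hsq : ∀ σ, eps S σ * eps S σ = 1 := by
    intro σ
    rcases eps_cases S σ with h | h <;> rw [h] <;> norm_num
  let f : sgnN c N (-1) →ₗ[ℚ] sgnN c N 1 :=
    { toFun := fun F => ⟨fun σ => eps S σ * F.1 σ, fun n hn' σ => by
        beta_reduce
        rw [hn n hn', F.2.1 n hn'], fun σ => by
        beta_reduce
        rw [hc, F.2.2]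
        ring⟩
      map_add' := fun F F' => Subtype.ext (funext fun σ => mul_add _ _ _)
      map_smul' := fun q F => Subtype.ext (funext fun σ => by
        change eps S σ * (q * F.1 σ) = q * (eps S σ * F.1 σ)
        ring) }
  have hf : Function.Injective f := by
    rw [← LinearMap.ker_eq_bot, LinearMap.ker_eq_bot']
    intro F hF
    apply Subtype.ext
    funext σ
    have h1 : eps S σ * F.1 σ = 0 := congrFun (congrArg Subtype.val hF) σ
    have h2 : F.1 σ = 0 := by
      have h3 := hsq σ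
      calc F.1 σ = (eps S σ * eps S σ) * F.1 σ := by rw [h3, one_mul]
        _ = 0 := by rw [mul_assoc, h1, mul_zero]
    exact h2
  have h1 := LinearMap.finrank_le_finrank_of_injective hf
  have h2 : sgnN c N (-1) ⊓ sgnN c N 1 = ⊥ := by
    rw [eq_bot_iff]
    rintro F ⟨h3, h4⟩
    rw [Submodule.mem_bot]
    funext σ
    have h5 := h3.2 σ
    have h6 := h4.2 σ
    rw [Pi.zero_apply]
    linarith
  have h3 := Submodule.finrank_sup_add_finrank_inf_eq (sgnN c N (-1)) (sgnN c N 1)
  rw [h2, finrank_bot, add_zero] at h3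
  have h4 : sgnN c N (-1) ⊔ sgnN c N 1 ≤ invN N :=
    sup_le (fun F h => h.1) (fun F h => h.1)
  have h5 := Submodule.finrank_mono h4
  have h6 := finrank_invN N
  omega

theorem eps_mem {c : G} {N : Subgroup G} {S : Set G} (hS : Half c S)
    (hN : ∀ n ∈ N, tr n S = S) : eps S ∈ sgnN c N (-1) := by
  refine ⟨fun n hn σ => ?_, fun σ => ?_⟩
  · rw [← eps_tr, hN n hn]
  · have h1 := hS σ
    unfold eps
    by_cases h : σ ∈ S
    · rw [if_pos h, if_neg (h1.1 h), mul_one]
    · rw [if_neg h, if_pos (by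
        by_contra h2
        exact h (h1.2 h2))]
      norm_num

/-- Linear dependence. -/
theorem exists_dep {ι : Type} [Fintype ι] {V : Submodule ℚ (G → ℚ)} (e : ι → G → ℚ)
    (he : ∀ i, e i ∈ V) (hV : finrank ℚ V < Fintype.card ι) :
    ∃ a : ι → ℚ, a ≠ 0 ∧ ∀ σ, ∑ i, a i * e i σ = 0 := by
  have h1 : ¬ LinearIndependent ℚ fun i => (⟨e i, he i⟩ : V) := by
    intro h
    have h2 := h.fintype_card_le_finrank
    omega
  rw [Fintype.linearIndependent_iff] at h1
  push Not at h1
  obtain ⟨a, ha, i, hi⟩ := h1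
  refine ⟨a, fun h => hi (congrFun h i), fun σ => ?_⟩
  have h2 := congrFun (congrArg Subtype.val ha) σ
  rw [Submodule.coe_sum] at h2
  rw [Finset.sum_apply] at h2
  exact h2

/-- Linear dependence with two side conditions. -/
theorem exists_dep2 {ι : Type} [Fintype ι] {V : Submodule ℚ (G → ℚ)} (e : ι → G → ℚ)
    (he : ∀ i, e i ∈ V) (w : ι → Fin 2 → ℚ) (hV : finrank ℚ V + 2 < Fintype.card ι) :
    ∃ a : ι → ℚ, a ≠ 0 ∧ (∀ σ, ∑ i, a i * e i σ = 0) ∧ ∀ k, ∑ i, a i * w i k = 0 := by
  have h1 : ¬ LinearIndependent ℚ fun i => ((⟨e i, he i⟩, w i) : V × (Fin 2 → ℚ)) := by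
    intro h
    have h2 := h.fintype_card_le_finrank
    rw [finrank_prod, finrank_fintype_fun_eq_card, Fintype.card_fin] at h2
    omega
  rw [Fintype.linearIndependent_iff] at h1
  push Not at h1
  obtain ⟨a, ha, i, hi⟩ := h1
  refine ⟨a, fun h => hi (congrFun h i), fun σ => ?_, fun k => ?_⟩
  · have h2 := congrArg Prod.fst ha
    rw [Prod.fst_sum] at h2
    have h3 := congrFun (congrArg Subtype.val h2) σ
    rw [Submodule.coe_sum, Finset.sum_apply] at h3
    exact h3
  · have h2 := congrArg Prod.snd ha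
    rw [Prod.snd_sum] at h2
    have h3 := congrFun h2 k
    rw [Finset.sum_apply] at h3
    exact h3

/-- Relations between three orbits with six elements. -/
theorem rel_six {c : G} {Q : Fin 3 → Set (Set G)} (hQ : ∀ i, IsOrbit c (Q i))
    (hker : ∀ i, kerP (Q i) = kerP (Q 0)) (hidx : (kerP (Q 0)).index ≤ 12) {z : G}
    (hz : ∀ i, Cyc (Q i) z) (S : Fin 3 → Set G) (hS : ∀ i, S i ∈ Q i) :
    ∃ a : Fin 3 → Fin 3 → ℚ, a ≠ 0 ∧ (∀ σ, ∑ i, ∑ x, a i x * eps (cyc3 z (S i) x) σ = 0) ∧
      ∀ i, ∑ x, a i x = 0 := by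
  classical
  let e : Fin 3 × Fin 3 → G → ℚ := fun p => eps (cyc3 z (S p.1) p.2)
  have hmem : ∀ i x, cyc3 z (S i) x ∈ Q i := fun i x => cyc3_mem (hQ i) (hS i) x
  have he : ∀ p, e p ∈ sgnN c (kerP (Q 0)) (-1) := by
    intro p
    refine eps_mem ((hQ p.1).half _ (hmem p.1 p.2)) fun n hn => ?_
    rw [← hker p.1] at hn
    exact hn _ (hmem p.1 p.2)
  have hfin := finrank_odd ((hQ 0).half _ (hS 0)) (N := kerP (Q 0)) fun n hn => hn _ (hS 0)
  let w : Fin 3 × Fin 3 → Fin 2 → ℚ := fun p k => if p.1 = k.succ then 1 else 0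
  obtain ⟨a, ha, h1, h2⟩ := exists_dep2 e he w (by
    rw [Fintype.card_prod, Fintype.card_fin]
    omega)
  refine ⟨fun i x => a (i, x), fun h => ha ?_, fun σ => ?_, ?_⟩
  · funext p
    exact congrFun (congrFun h p.1) p.2
  · have h3 := h1 σ
    rw [Fintype.sum_prod_type] at h3
    exact h3
  have hs : ∀ k : Fin 2, ∑ x, a (k.succ, x) = 0 := by
    intro k
    have h3 := h2 k
    rw [Fintype.sum_prod_type, Finset.sum_eq_single k.succ] at h3
    · rw [← h3]
      refine Finset.sum_congr rfl fun x _ => ?_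
      change _ = a (k.succ, x) * (if k.succ = k.succ then 1 else 0)
      rw [if_pos rfl, mul_one]
    · intro i _ hi
      refine Finset.sum_eq_zero fun x _ => ?_
      change a (i, x) * (if i = k.succ then 1 else 0) = 0
      rw [if_neg hi, mul_zero]
    · intro h
      exact absurd (Finset.mem_univ _) h
  -- the sum over the cycle
  have hu : ∀ i x σ, eps (cyc3 z (S i) x) σ + eps (cyc3 z (S i) x) (σ * z) +
      eps (cyc3 z (S i) x) (σ * z * z) = usum z (S i) σ := by
    intro i x σ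
    have h4 : usum z (cyc3 z (S i) x) = usum z (S i) := by
      fin_cases x
      · rfl
      · exact usum_tr (hz i) (hS i)
      · change usum z (tr z (tr z (S i))) = _
        rw [usum_tr (hz i) ((hQ i).stable z _ (hS i)), usum_tr (hz i) (hS i)]
    rw [← h4]
    unfold usum
    rw [Pi.add_apply, Pi.add_apply, ← eps_tr, ← eps_tr, ← eps_tr]
  have hsum : ∀ σ, ∑ i, (∑ x, a (i, x)) * usum z (S i) σ = 0 := by
    intro σ
    have e1 := h1 σ
    have e2 := h1 (σ * z)
    have e3 := h1 (σ * z * z)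
    rw [Fintype.sum_prod_type] at e1 e2 e3
    have e4 : ∑ i, (∑ x, a (i, x)) * usum z (S i) σ =
        (∑ i, ∑ x, a (i, x) * e (i, x) σ) + (∑ i, ∑ x, a (i, x) * e (i, x) (σ * z)) +
          ∑ i, ∑ x, a (i, x) * e (i, x) (σ * z * z) := by
      rw [← Finset.sum_add_distrib, ← Finset.sum_add_distrib]
      refine Finset.sum_congr rfl fun i _ => ?_
      rw [← Finset.sum_add_distrib, ← Finset.sum_add_distrib, Finset.sum_mul]
      refine Finset.sum_congr rfl fun x _ => ?_
      rw [← hu i x σ]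
      change a (i, x) * (eps (cyc3 z (S i) x) σ + eps (cyc3 z (S i) x) (σ * z) +
        eps (cyc3 z (S i) x) (σ * z * z)) = a (i, x) * eps (cyc3 z (S i) x) σ +
          a (i, x) * eps (cyc3 z (S i) x) (σ * z) + a (i, x) * eps (cyc3 z (S i) x) (σ * z * z)
      ring
    rw [e4, e1, e2, e3, add_zero, add_zero]
  have h0 : ∑ x, a (0, x) = 0 := by
    have e1 := hsum 1
    rw [Fin.sum_univ_three] at e1
    have e2 := hs 0
    have e3 := hs 1
    change ∑ x, a (1, x) = 0 at e2
    change ∑ x, a (2, x) = 0 at e3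
    rw [e2, e3, zero_mul, zero_mul, add_zero, add_zero] at e1
    refine (mul_eq_zero.1 e1).resolve_right ?_
    unfold usum
    rw [Pi.add_apply, Pi.add_apply]
    rcases eps_cases (S 0) 1 with a1 | a1 <;> rcases eps_cases (tr z (S 0)) 1 with a2 | a2 <;>
      rcases eps_cases (tr z (tr z (S 0))) 1 with a3 | a3 <;> rw [a1, a2, a3] <;> norm_num
  intro i
  fin_cases i
  · exact h0
  · exact hs 0
  · exact hs 1

/-- Relations between three orbits with four elements. -/
theorem rel_four {c : G} {Q : Fin 3 → Set (Set G)} (hQ : ∀ i, IsOrbit c (Q i))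
    (hker : ∀ i, kerP (Q i) = kerP (Q 0)) (hidx : (kerP (Q 0)).index ≤ 8)
    (S : Fin 3 → Fin 2 → Set G) (hS : ∀ i x, S i x ∈ Q i) :
    ∃ a : Fin 3 → Fin 2 → ℚ, a ≠ 0 ∧ (∀ σ, ∑ i, ∑ x, a i x * eps (S i x) σ = 0) := by
  classical
  let e : Fin 3 × Fin 2 → G → ℚ := fun p => eps (S p.1 p.2)
  have he : ∀ p, e p ∈ sgnN c (kerP (Q 0)) (-1) := by
    intro p
    refine eps_mem ((hQ p.1).half _ (hS p.1 p.2)) fun n hn => ?_
    rw [← hker p.1] at hn
    exact hn _ (hS p.1 p.2)
  have hfin := finrank_odd ((hQ 0).half _ (hS 0 0)) (N := kerP (Q 0)) fun n hn => hn _ (hS 0 0)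
  obtain ⟨a, ha, h1⟩ := exists_dep e he (by
    rw [Fintype.card_prod, Fintype.card_fin, Fintype.card_fin]
    omega)
  refine ⟨fun i x => a (i, x), fun h => ha ?_, fun σ => ?_⟩
  · funext p
    exact congrFun (congrFun h p.1) p.2
  · have h3 := h1 σ
    rw [Fintype.sum_prod_type] at h3
    exact h3

/-- Relations between four sets with the same stabilizer. -/
theorem rel_stb {c : G} {S : Fin 4 → Set G} (hS : ∀ i, Half c (S i))
    (hst : ∀ i, stb (S i) = stb (S 0)) (hidx : (stb (S 0)).index ≤ 6) :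
    ∃ a : Fin 4 → ℚ, a ≠ 0 ∧ ∀ σ, ∑ i, a i * eps (S i) σ = 0 := by
  have he : ∀ i, eps (S i) ∈ sgnN c (stb (S 0)) (-1) := by
    intro i
    refine eps_mem (hS i) fun n hn => ?_
    rw [← hst i] at hn
    exact hn
  have hfin := finrank_odd (hS 0) (N := stb (S 0)) fun n hn => hn
  exact exists_dep (fun i => eps (S i)) he (by
    rw [Fintype.card_fin]
    omega)

end

end Pool.Agent.K4H29.HC
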