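import Mathlib
import Pool.Agent.K4H29.HC.Obt2
import Pool.Agent.K4H29.HC.Rel
import Pool.Agent.K4H29.HC.Field
import Pool.Agent.K4H29.HC.Typ4

/-!
# Exceptional configurations are obstructions
-/

set_option linter.unusedSectionVars false
set_option linter.unusedVariables false

namespace Pool.Agent.K4H29.HC

open Module NumberField Pool.Agent.Y90 Pool.Agent.R915 Equiv
open Pool.Agent.H204R3.CM (IsHodge IsCMType)
open Pool.Agent.W547.KB Pool.Agent.W547.LN
open Pool.Agent.W547.LD (hs tr_hs stable_hs compl_hs trans_hs isHalf_hs ncard_hs)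
open Pool.Agent.W547.LD

noncomputable section

theorem sameType_symm {A B : CMPair} (h : SameType A B) : SameType B A := by
  obtain ⟨e, he⟩ := h
  refine ⟨e.symm, fun ψ => ?_⟩
  rw [he]
  have h1 : (ψ.comp (e.symm : B.E →+* A.E)).comp (e : A.E →+* B.E) = ψ := by
    ext x
    simp
  rw [h1]

section fields

variable {L : Type} [Field L] [NumberField L] [IsCMField L] [IsGalois ℚ L]

theorem closure_map (A : CMPair) (j : L →+* ℂ)
    (hj : ∀ ψ : A.E →+* ℂ, ∃ φ : A.E →+* L, j.comp φ = ψ) :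
    (IntermediateField.normalClosure ℚ A.E L).map (RingHom.equivRatAlgHom L ℂ j) =
      IntermediateField.normalClosure ℚ A.E ℂ := by
  let jj : L →ₐ[ℚ] ℂ := RingHom.equivRatAlgHom L ℂ j
  apply le_antisymm
  · rw [IntermediateField.map_le_iff_le_comap, normalClosure_le_iff]
    rintro φ' _ ⟨b, rfl⟩
    change jj (φ' b) ∈ IntermediateField.normalClosure ℚ A.E ℂ
    exact (jj.comp φ').fieldRange_le_normalClosure ⟨b, rfl⟩
  · rw [normalClosure_le_iff]
    rintro ψ _ ⟨a, rfl⟩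
    obtain ⟨φ, hφ⟩ := hj (ψ : A.E →+* ℂ)
    refine ⟨φ a, ?_, RingHom.congr_fun hφ a⟩
    exact (RingHom.equivRatAlgHom A.E L φ).fieldRange_le_normalClosure ⟨a, rfl⟩

theorem kerP_of_closure (A B : CMPair) (j : L →+* ℂ)
    (hjA : ∀ ψ : A.E →+* ℂ, ∃ φ : A.E →+* L, j.comp φ = ψ)
    (hjB : ∀ ψ : B.E →+* ℂ, ∃ φ : B.E →+* L, j.comp φ = ψ)
    (hA : Function.Injective (hs A j)) (hB : Function.Injective (hs B j))
    (h : IntermediateField.normalClosure ℚ A.E ℂ = IntermediateField.normalClosure ℚ B.E ℂ) :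
    Comb.kerP (Set.range (hs A j)) = Comb.kerP (Set.range (hs B j)) := by
  rw [kerP_eq A j hA, kerP_eq B j hB]
  congr 1
  rw [← closure_map A j hjA, ← closure_map B j hjB] at h
  exact IntermediateField.map_injective _ h

theorem isOrbit_hs (A : CMPair) (j : L →+* ℂ)
    (hj : ∀ ψ : A.E →+* ℂ, ∃ φ : A.E →+* L, j.comp φ = ψ) (hdeg : finrank ℚ A.E ≤ 6) :
    Comb.IsOrbit (cc L) (Set.range (hs A j)) := by
  refine ⟨stable_hs A j, trans_hs A j, compl_hs A j, ?_, (ncard_hs A j hj).trans hdeg⟩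
  rintro _ ⟨φ, rfl⟩
  exact isHalf_hs A j φ

theorem ncard_range (A : CMPair) (j : L →+* ℂ)
    (hj : ∀ ψ : A.E →+* ℂ, ∃ φ : A.E →+* L, j.comp φ = ψ) (hinj : Function.Injective (hs A j)) :
    (Set.range (hs A j)).ncard = finrank ℚ A.E := by
  rw [← Set.image_univ, Set.ncard_image_of_injective _ hinj, Set.ncard_univ, card_hom A j hj]

theorem exists_hom (A : CMPair) (j : L →+* ℂ)
    (hj : ∀ ψ : A.E →+* ℂ, ∃ φ : A.E →+* L, j.comp φ = ψ) : Nonempty (A.E →+* L) := by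
  obtain ⟨ψ⟩ : Nonempty (A.E →+* ℂ) := inferInstance
  obtain ⟨φ, -⟩ := hj ψ
  exact ⟨φ⟩

theorem cj_neg (A : CMPair) (j : L →+* ℂ) (φ : A.E →+* L) {δ : A.E} {d : ℚ}
    (hd : 0 < d) (h : δ * δ = -(d : A.E)) : cj φ δ = -φ δ := by
  apply j.injective
  rw [cj_apply, IsCMField.complexEmbedding_complexConj, map_neg]
  exact sqrt_imag hd h (j.comp φ)

theorem val_ne {K : Type} [Field K] [NumberField K] (φ : K →+* L) {δ : K} {d : ℚ}
    (hd : 0 < d) (h : δ * δ = -(d : K)) : φ δ ≠ 0 := by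
  intro h1
  have h2 : δ = 0 := (map_eq_zero φ).1 h1
  rw [h2, mul_zero] at h
  have h3 : (d : K) = 0 := neg_eq_zero.1 h.symm
  exact hd.ne' (Rat.cast_eq_zero.1 h3)

theorem sq_pm {K : Type} [Field K] [NumberField K] (φ ψ : K →+* L) {δ : K} {d : ℚ}
    (h : δ * δ = -(d : K)) : ψ δ = φ δ ∨ ψ δ = -φ δ := by
  apply mul_self_eq_mul_self_iff.1
  rw [← map_mul, ← map_mul, h, map_neg, map_neg, map_ratCast, map_ratCast]

/-- The three embeddings of a cycle. -/
def cyE {K : Type} [Field K] (z : L ≃ₐ[ℚ] L) (φ : K →+* L) : Fin 3 → (K →+* L) :=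
  ![φ, z • φ, z • z • φ]

theorem hs_cyE (A : CMPair) (j : L →+* ℂ) (z : L ≃ₐ[ℚ] L) (φ : A.E →+* L) (x : Fin 3) :
    hs A j (cyE z φ x) = cyc3 z (hs A j φ) x := by
  fin_cases x
  · rfl
  · exact (tr_hs A j z φ).symm
  · change hs A j (z • z • φ) = Comb.tr z (Comb.tr z (hs A j φ))
    rw [tr_hs, tr_hs]

theorem cyE_val (A : CMPair) (j : L →+* ℂ) (hinj : Function.Injective (hs A j)) {z : L ≃ₐ[ℚ] L}
    (hz : Cyc (Set.range (hs A j)) z) (φ : A.E →+* L) {δ : A.E} {d : ℚ} (hd : 0 < d)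
    (h : δ * δ = -(d : A.E)) (x : Fin 3) : cyE z φ x δ = φ δ := by
  have h1 : z • z • z • φ = φ := by
    apply hinj
    have h2 := hz.cube _ ⟨φ, rfl⟩
    rwa [tr_hs, tr_hs, tr_hs] at h2
  have h2 : z (z (z (φ δ))) = φ δ := RingHom.congr_fun h1 δ
  have h3 : z (φ δ) = φ δ := by
    rcases sq_pm φ (z • φ) h with h4 | h4
    · exact h4
    · exfalso
      have h5 : z (φ δ) = -φ δ := h4
      rw [h5, map_neg, h5, neg_neg, h5] at h2
      exact val_ne φ hd h (self_eq_neg.1 h2.symm)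
  fin_cases x
  · rfl
  · exact h3
  · change z (z (φ δ)) = φ δ
    rw [h3, h3]

theorem ne_cj (A : CMPair) (j : L →+* ℂ) {φ ψ : A.E →+* L} (h : hs A j φ ≠ (hs A j ψ)ᶜ) :
    φ ≠ cj ψ := by
  rintro rfl
  exact h (hs_cj A j ψ)

/-- **Three types with the same closure of small degree.** -/
theorem three_neg (j : L →+* ℂ) (X : AV) (A : Fin 3 → CMPair) (hfac : ∀ i, IsCMFactor (A i) X)
    (hne : ∀ i k, i ≠ k → ¬ SameType (A i) (A k)) (hdeg : ∀ i, 2 < finrank ℚ (A i).E)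
    (hdeg' : ∀ i, finrank ℚ (A i).E ≤ 6)
    (hj : ∀ i, ∀ ψ : (A i).E →+* ℂ, ∃ φ : (A i).E →+* L, j.comp φ = ψ)
    (hcl : ∀ i, IntermediateField.normalClosure ℚ (A i).E ℂ =
      IntermediateField.normalClosure ℚ (A 0).E ℂ)
    (h12 : finrank ℚ (IntermediateField.normalClosure ℚ (A 0).E ℂ) ≤ 12) :
    ∃ (κ : Type) (_ : Fintype κ) (f : (prodAV fun _ : κ => X).H [⋀^κ]→ₗ[ℚ] ℚ),
      IsHodge (prodAV fun _ : κ => X).per f ∧ ¬ AlgW (prodAV fun _ : κ => X) κ f := by
  classical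
  let Q : Fin 3 → Set (Set (L ≃ₐ[ℚ] L)) := fun i => Set.range (hs (A i) j)
  have hinj : ∀ i, Function.Injective (hs (A i) j) := fun i => inj_of_primitive _ j (hfac i).1
  have hQ : ∀ i, Comb.IsOrbit (cc L) (Q i) := fun i => isOrbit_hs (A i) j (hj i) (hdeg' i)
  have hcard : ∀ i, (Q i).ncard = finrank ℚ (A i).E := fun i => ncard_range (A i) j (hj i) (hinj i)
  have hker' : ∀ i k, Comb.kerP (Q i) = Comb.kerP (Q k) := fun i k =>
    kerP_of_closure (A i) (A k) j (hj i) (hj k) (hinj i) (hinj k) ((hcl i).trans (hcl k).symm)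
  have hker : ∀ i, Comb.kerP (Q i) = Comb.kerP (Q 0) := fun i => hker' i 0
  have hφ : ∀ i, Nonempty ((A i).E →+* L) := fun i => exists_hom (A i) j (hj i)
  let φ : ∀ i, (A i).E →+* L := fun i => (hφ i).some
  have hmem : ∀ i, hs (A i) j (φ i) ∈ Q i := fun i => ⟨φ i, rfl⟩
  have hcoef : ∀ {M : Type} [Fintype M] (a : Fin 3 → M → ℚ), a ≠ 0 → ∃ i, a i ≠ 0 := by
    intro M _ a ha
    by_contra hcon
    push Not at hcon
    exact ha (funext hcon)
  by_cases h6 : ∃ i, (Q i).ncard = 6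
  · obtain ⟨k, hk⟩ := h6
    obtain ⟨z, hz⟩ := exists_cyc (hQ k) hk
    have hz' : ∀ i, Cyc (Q i) z := fun i => hz.transfer (hQ k) (hQ i) ⟨_, hmem k⟩ (hker' k i)
    obtain ⟨a, ha, hrel, hsum⟩ := rel_six hQ hker (by
      rw [index_kerP (A 0) j (hj 0) (hinj 0)]
      exact h12) hz' (fun i => hs (A i) j (φ i)) hmem
    obtain ⟨i0, hi0⟩ := hcoef a ha
    refine obstruct2 j X A hfac i0 (fun i hi => hne i0 i hi.symm) (fun i => cyE z (φ i)) a
      (fun σ => ?_) (hj i0) ?_ ?_ hi0 ?_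
    · rw [← hrel σ]
      refine Finset.sum_congr rfl fun i _ => Finset.sum_congr rfl fun x _ => ?_
      rw [hs_cyE]
    · intro x y hxy
      apply (hz' i0).inj (hmem i0)
      rw [← hs_cyE, ← hs_cyE]
      exact congrArg _ hxy
    · intro x y
      apply ne_cj (A i0) j
      rw [hs_cyE, hs_cyE]
      exact (hz' i0).ne' (hmem i0) x y
    · intro δ d hd h
      have h1 : ∀ x, (a i0 x : L) * cyE z (φ i0) x δ = (a i0 x : L) * φ i0 δ := fun x => by
        rw [cyE_val (A i0) j (hinj i0) (hz' i0) (φ i0) hd h]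
      rw [Finset.sum_congr rfl fun x _ => h1 x, ← Finset.sum_mul, ← Rat.cast_sum, hsum i0,
        Rat.cast_zero, zero_mul]
  · push Not at h6
    have h4 : ∀ i, (Q i).ncard = 4 := by
      intro i
      have e1 := even_orbit (hQ i)
      have e2 := h6 i
      have e3 := hcard i
      have e4 := hdeg i
      have e5 := hdeg' i
      obtain ⟨m, hm⟩ := e1
      omega
    have hoth : ∀ i, ∃ ψ : (A i).E →+* L, hs (A i) j ψ ≠ hs (A i) j (φ i) ∧
        hs (A i) j ψ ≠ (hs (A i) j (φ i))ᶜ := by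
      intro i
      obtain ⟨T, ⟨ψ, rfl⟩, h1, h2⟩ := exists_other (Q := Q i) (by
        rw [h4]
        norm_num) (hs (A i) j (φ i))
      exact ⟨ψ, h1, h2⟩
    choose ψ hψ1 hψ2 using hoth
    let Φ : ∀ i, Fin 2 → ((A i).E →+* L) := fun i => ![φ i, ψ i]
    have hΦ : ∀ i x, hs (A i) j (Φ i x) = two (hs (A i) j (φ i)) (hs (A i) j (ψ i)) x := by
      intro i x
      fin_cases x
      · rfl
      · rfl
    obtain ⟨a, ha, hrel⟩ := rel_four hQ hker
      (index_four (fun g => cc_comm j g) (hQ 0) (h4 0)) (fun i x => hs (A i) j (Φ i x))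
      fun i x => ⟨Φ i x, rfl⟩
    obtain ⟨i0, hi0⟩ := hcoef a ha
    refine obstruct2 j X A hfac i0 (fun i hi => hne i0 i hi.symm) Φ a hrel (hj i0) ?_ ?_ hi0 ?_
    · intro x y hxy
      apply two_inj (hψ1 i0)
      rw [← hΦ, ← hΦ]
      exact congrArg _ hxy
    · intro x y
      apply ne_cj (A i0) j
      rw [hΦ, hΦ]
      exact two_ne (hψ2 i0) x y
    · intro δ d hd h
      exfalso
      obtain ⟨g, hg⟩ := exists_sq (hQ i0) (h4 i0)
      have h1 : g • g • φ i0 = cj (φ i0) := by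
        apply hinj i0
        rw [← tr_hs, ← tr_hs, hg _ (hmem i0), hs_cj]
      have h2 : g (g (φ i0 δ)) = -φ i0 δ := (RingHom.congr_fun h1 δ).trans (cj_neg _ j _ hd h)
      have h3 : g (g (φ i0 δ)) = φ i0 δ := by
        rcases sq_pm (φ i0) (g • φ i0) h with h4 | h4
        · have h5 : g (φ i0 δ) = φ i0 δ := h4
          rw [h5, h5]
        · have h5 : g (φ i0 δ) = -φ i0 δ := h4
          rw [h5, map_neg, h5, neg_neg]
      rw [h3] at h2
      exact val_ne (φ i0) hd h (self_eq_neg.1 h2)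

theorem closure_iso (A B : CMPair) (h : Nonempty (A.E ≃+* B.E)) :
    IntermediateField.normalClosure ℚ A.E ℂ = IntermediateField.normalClosure ℚ B.E ℂ := by
  have key : ∀ A B : CMPair, Nonempty (A.E ≃+* B.E) →
      IntermediateField.normalClosure ℚ A.E ℂ ≤ IntermediateField.normalClosure ℚ B.E ℂ := by
    rintro A B ⟨e⟩
    rw [normalClosure_le_iff]
    rintro ψ _ ⟨a, rfl⟩
    have h1 : ψ a = ((ψ : A.E →+* ℂ).comp (e.symm : B.E →+* A.E)) (e a) := by simp
    change ψ a ∈ _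
    rw [h1]
    exact (RingHom.equivRatAlgHom B.E ℂ
      ((ψ : A.E →+* ℂ).comp (e.symm : B.E →+* A.E))).fieldRange_le_normalClosure ⟨e a, rfl⟩
  obtain ⟨e⟩ := h
  exact le_antisymm (key A B ⟨e⟩) (key B A ⟨e.symm⟩)

/-- **Four types of dimension three with isomorphic fields.** -/
theorem four_neg (j : L →+* ℂ) (X : AV) (A : Fin 4 → CMPair) (hfac : ∀ i, IsCMFactor (A i) X)
    (hne : ∀ i k, i ≠ k → ¬ SameType (A i) (A k)) (hdeg : ∀ i, finrank ℚ (A i).E = 6)
    (hj : ∀ i, ∀ ψ : (A i).E →+* ℂ, ∃ φ : (A i).E →+* L, j.comp φ = ψ)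
    (he : ∀ i, Nonempty ((A i).E ≃+* (A 0).E)) :
    ∃ (κ : Type) (_ : Fintype κ) (f : (prodAV fun _ : κ => X).H [⋀^κ]→ₗ[ℚ] ℚ),
      IsHodge (prodAV fun _ : κ => X).per f ∧ ¬ AlgW (prodAV fun _ : κ => X) κ f := by
  classical
  by_cases h12 : finrank ℚ (IntermediateField.normalClosure ℚ (A 0).E ℂ) ≤ 12
  · exact three_neg j X (fun i => A i.castSucc) (fun i => hfac _)
      (fun i k hik => hne _ _ fun h => hik (Fin.castSucc_injective _ h))
      (fun i => by rw [hdeg]; norm_num) (fun i => (hdeg _).le) (fun i => hj _)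
      (fun i => closure_iso _ _ (he _)) h12
  let Q : Fin 4 → Set (Set (L ≃ₐ[ℚ] L)) := fun i => Set.range (hs (A i) j)
  have hinj : ∀ i, Function.Injective (hs (A i) j) := fun i => inj_of_primitive _ j (hfac i).1
  have hQ : ∀ i, Comb.IsOrbit (cc L) (Q i) := fun i => isOrbit_hs (A i) j (hj i) (hdeg i).le
  have hcard : ∀ i, (Q i).ncard = 6 := fun i => (ncard_range (A i) j (hj i) (hinj i)).trans (hdeg i)
  choose e _ using fun i => (he i).elim fun e => (⟨e, trivial⟩ : ∃ _ : (A i).E ≃+* (A 0).E, True)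
  let φ₀ : (A 0).E →+* L := (exists_hom (A 0) j (hj 0)).some
  let φ : ∀ i, (A i).E →+* L := fun i => φ₀.comp (e i : (A i).E →+* (A 0).E)
  have hmem : ∀ i, hs (A i) j (φ i) ∈ Q i := fun i => ⟨φ i, rfl⟩
  have hst : ∀ i (τ : L ≃ₐ[ℚ] L), τ ∈ Comb.stb (hs (A i) j (φ i)) ↔ ∀ y, τ (φ₀ y) = φ₀ y := by
    intro i τ
    rw [Comb.mem_stb, tr_hs]
    constructor
    · intro h y
      have h1 := RingHom.congr_fun (hinj i h) ((e i).symm y)
      have h2 : τ (φ₀ (e i ((e i).symm y))) = φ₀ (e i ((e i).symm y)) := h1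
      rwa [RingEquiv.apply_symm_apply] at h2
    · intro h
      congr 1
      ext a
      exact h (e i a)
  obtain ⟨a, ha, hrel⟩ := rel_stb (c := cc L) (S := fun i => hs (A i) j (φ i))
    (fun i => (hQ i).half _ (hmem i)) (fun i => by
      ext τ
      rw [hst, hst]) (by
      rw [stb_index (hQ 0) (hmem 0), hcard])
  obtain ⟨i0, hi0⟩ : ∃ i, a i ≠ 0 := by
    by_contra hcon
    push Not at hcon
    exact ha (funext hcon)
  refine obstruct2 j X A hfac i0 (fun i hi => hne i0 i hi.symm) (M := Unit) (fun i _ => φ i)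
    (fun i _ => a i) (fun σ => ?_) (hj i0) ?_ ?_ ?_ ?_
  · rw [← hrel σ]
    refine Finset.sum_congr rfl fun i _ => ?_
    rw [Fintype.sum_unique]
  · intro x y _
    rfl
  · intro x y
    exact ne_cj (A i0) j (Comb.ne_compl _)
  · intro h
    exact hi0 (congrFun h ())
  · intro δ d hd h
    exfalso
    have hnm : ¬ NotMixed (Q i0) := by
      intro hnm
      apply h12
      have h1 := index_notMixed (hQ i0) (hcard i0) hnm
      rw [index_kerP (A i0) j (hj i0) (hinj i0), closure_iso _ _ (he i0)] at h1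
      exact h1
    unfold NotMixed at hnm
    push Not at hnm
    obtain ⟨τ, h1, ⟨_, ⟨φ1, rfl⟩, h2⟩, _, ⟨φ2, rfl⟩, h3⟩ := hnm
    have e1 : τ • φ1 = cj φ1 := by
      apply hinj i0
      rw [← tr_hs, hs_cj]
      exact (h1 _ ⟨φ1, rfl⟩).resolve_left h2
    have e2 : τ • φ2 = φ2 := by
      apply hinj i0
      rw [← tr_hs]
      exact (h1 _ ⟨φ2, rfl⟩).resolve_right h3
    have e3 : τ (φ1 δ) = -φ1 δ := (RingHom.congr_fun e1 δ).trans (cj_neg _ j _ hd h)
    have e4 : τ (φ2 δ) = φ2 δ := RingHom.congr_fun e2 δ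
    have e5 : τ (φ1 δ) = φ1 δ := by
      rcases sq_pm φ2 φ1 h with h5 | h5
      · rw [h5, e4]
      · rw [h5, map_neg, e4]
    rw [e5] at e3
    exact val_ne φ1 hd h (self_eq_neg.1 e3)

end fields

section main

theorem hasCMult_avP (A : CMPair) (hp : ∃ E, IsPolarization (perC A) E) : HasCMult (avP A hp) := by
  have hinj : Function.Injective (Algebra.lmul ℚ A.E) := by
    intro a b h
    have h1 := LinearMap.congr_fun h 1
    change a * 1 = b * 1 at h1
    rwa [mul_one, mul_one] at h1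
  refine ⟨(Algebra.lmul ℚ A.E).range, ?_, ?_, ?_⟩
  · rintro _ ⟨a, rfl⟩ _ ⟨b, rfl⟩
    change Algebra.lmul ℚ A.E a * Algebra.lmul ℚ A.E b = Algebra.lmul ℚ A.E b * Algebra.lmul ℚ A.E a
    rw [← map_mul, ← map_mul, mul_comm]
  · exact (AlgEquiv.ofInjective (Algebra.lmul ℚ A.E) hinj).toLinearEquiv.finrank_eq.symm
  · rintro _ ⟨a, rfl⟩
    exact isHom_mulE (hP := hp) a

theorem factor_of_cm {A : CMPair} {X : AV} (h : IsCMFactor A X) :
    ∃ hp : ∃ E, IsPolarization (perC A) E, IsFactor (avP A hp) X := by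
  obtain ⟨hprim, i, Ψ, hi, hΨ⟩ := h
  exact ⟨pol_of_factor i Ψ hi hΨ, simple_prim hprim, i, ⟨Ψ, hΨ⟩, hi⟩

theorem deg_le {X : AV} {R : AV → Prop}
    (hX : ∀ Y, IsFactor Y X → finrank ℚ Y.H ≤ 6 ∨ (¬ HasCMult Y ∧ R Y)) {A : CMPair}
    (hA : IsCMFactor A X) : finrank ℚ A.E ≤ 6 := by
  obtain ⟨hp, hf⟩ := factor_of_cm hA
  rcases hX _ hf with h | ⟨h, -⟩
  · exact h
  · exact absurd (hasCMult_avP A hp) h

/-- **Exceptional configurations produce Hodge classes outside the algebra of divisor and Weil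
classes.** -/
theorem neg_main (X : AV) (hdeg : ∀ A, IsCMFactor A X → finrank ℚ A.E ≤ 6)
    (h : ¬ NoExceptional fun A => IsCMFactor A X) :
    ∃ (κ : Type) (_ : Fintype κ) (f : (prodAV fun _ : κ => X).H [⋀^κ]→ₗ[ℚ] ℚ),
      IsHodge (prodAV fun _ : κ => X).per f ∧ ¬ AlgW (prodAV fun _ : κ => X) κ f := by
  classical
  by_contra hcon
  apply h
  constructor
  · intro A B C hA hB hC nAB nAC nBC dA dB dC cAB cAC
    by_contra h12
    apply hcon
    let F : Fin 3 → CMPair := ![A, B, C]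
    obtain ⟨L, _, _, _, _, j, hj⟩ := exists_cm ⟨Fin 3, F⟩
    refine three_neg j X F ?_ ?_ ?_ ?_ hj ?_ (not_lt.1 h12)
    · intro i
      fin_cases i
      · exact hA
      · exact hB
      · exact hC
    · intro i k hik hs
      fin_cases i <;> fin_cases k
      · exact hik rfl
      · exact nAB hs
      · exact nAC hs
      · exact nAB (sameType_symm hs)
      · exact hik rfl
      · exact nBC hs
      · exact nAC (sameType_symm hs)
      · exact nBC (sameType_symm hs)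
      · exact hik rfl
    · intro i
      fin_cases i
      · exact dA
      · exact dB
      · exact dC
    · intro i
      fin_cases i
      · exact hdeg _ hA
      · exact hdeg _ hB
      · exact hdeg _ hC
    · intro i
      fin_cases i
      · rfl
      · exact cAB.symm
      · exact cAC.symm
  · intro A hA hne hd he
    apply hcon
    obtain ⟨L, _, _, _, _, j, hj⟩ := exists_cm ⟨Fin 4, A⟩
    exact four_neg j X A hA hne hd hj he

end main

end

end Pool.Agent.K4H29.HC
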