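import Mathlib
import Pool.Agent.K4H29.HC.Neg
import Pool.Agent.K4H29.HC.Pos

/-!
# The exact criterion
-/

set_option linter.unusedSectionVars false
set_option linter.unusedVariables false

namespace Pool.Agent.K4H29.HC

open Module Pool.Agent.Y90 Pool.Agent.R915
open Pool.Agent.TH504.CB (isHodge_comp)
open Pool.Agent.H204R3.CM (IsHodge)

noncomputable section

/-- Renaming of the factors of a power. -/
theorem isHom_reindex {κ κ' : Type} [Fintype κ] [Fintype κ'] (X : AV) (e : κ → κ') :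
    IsHom (prodAV fun _ : κ' => X) (prodAV fun _ : κ => X)
      (LinearMap.pi fun k => LinearMap.proj (e k)) :=
  isHom_pi _ fun k => isHom_proj (e k)

theorem transport (X : AV) {κ : Type} [Fintype κ]
    (f : (prodAV fun _ : κ => X).H [⋀^κ]→ₗ[ℚ] ℚ) (hf : IsHodge (prodAV fun _ : κ => X).per f)
    (hn : ¬ AlgW (prodAV fun _ : κ => X) κ f) :
    ∃ (n : ℕ) (g : (pow X n).H [⋀^κ]→ₗ[ℚ] ℚ), IsHodge (pow X n).per g ∧ ¬ AlgW (pow X n) κ g := by
  classical
  let e := Fintype.equivFin κ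
  obtain ⟨Ψ, hΨ⟩ := isHom_reindex X e
  have h2 : IsHom (prodAV fun _ : κ => X) (pow X (Fintype.card κ))
      (LinearMap.pi fun k => LinearMap.proj (e.symm k)) := isHom_reindex X e.symm
  refine ⟨Fintype.card κ, f.compLinearMap (LinearMap.pi fun k => LinearMap.proj (e k)), ?_, ?_⟩
  · exact isHodge_comp (per := (pow X (Fintype.card κ)).per) _ Ψ hΨ hf
  · intro h
    apply hn
    have h3 := AlgW.pull _ h2 _ h
    have h4 : (f.compLinearMap (LinearMap.pi fun k => LinearMap.proj (e k))).compLinearMap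
        (LinearMap.pi fun k => LinearMap.proj (e.symm k) :
          (κ → X.H) →ₗ[ℚ] (Fin (Fintype.card κ) → X.H)) = f := by
      ext v
      rw [AlternatingMap.compLinearMap_apply, AlternatingMap.compLinearMap_apply]
      congr 1
      funext k
      funext l
      change v k (e.symm (e l)) = v k l
      rw [Equiv.symm_apply_apply]
    rwa [← h4]

/-- **The exact criterion.** -/
theorem criterion (X : AV)
    (hX : ∀ Y, IsFactor Y X → finrank ℚ Y.H ≤ 6 ∨ (¬ HasCMult Y ∧ (QuadMult Y ∨ RealMult Y ∨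
      FiveDim Y ∨ FullHodge Y))) :
    ((NoExceptional fun A => IsCMFactor A X) ↔
      ∀ (n : ℕ) (κ : Type) [Finite κ] (f : (pow X n).H [⋀^κ]→ₗ[ℚ] ℚ), IsHodge (pow X n).per f →
        Alg (pow X n) κ f) ∧
    ((NoExceptional fun A => IsCMFactor A X) ↔
      ∀ (n : ℕ) (κ : Type) [Finite κ] (f : (pow X n).H [⋀^κ]→ₗ[ℚ] ℚ), IsHodge (pow X n).per f →
        AlgW (pow X n) κ f) := by
  have h1 : (NoExceptional fun A => IsCMFactor A X) →
      ∀ (n : ℕ) (κ : Type) [Finite κ] (f : (pow X n).H [⋀^κ]→ₗ[ℚ] ℚ), IsHodge (pow X n).per f →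
        Alg (pow X n) κ f := fun h n κ _ f hf => pos_main algSys X hX h κ f hf
  have h2 : (∀ (n : ℕ) (κ : Type) [Finite κ] (f : (pow X n).H [⋀^κ]→ₗ[ℚ] ℚ),
      IsHodge (pow X n).per f → AlgW (pow X n) κ f) → NoExceptional fun A => IsCMFactor A X := by
    intro h
    by_contra hne
    obtain ⟨κ, _, f, hf, hn⟩ := neg_main X (fun A hA => deg_le hX hA) hne
    obtain ⟨n, g, hg, hgn⟩ := transport X f hf hn
    exact hgn (h n κ g hg)
  exact ⟨⟨h1, fun h => h2 fun n κ _ f hf => (h n κ f hf |> AlgW.of_alg)⟩,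
    ⟨fun h n κ _ f hf => AlgW.of_alg (h1 h n κ f hf), h2⟩⟩

end

end Pool.Agent.K4H29.HC
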