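import Mathlib
import Pool.Agent.K4H29.HC.Defs
import Pool.Agent.R915.H2

/-!
# Exceptional configurations of abelian varieties of CM type, in all dimensions: definitions
-/

set_option autoImplicit false

namespace Pool.Agent.K4H29.HC

open Module NumberField Pool.Agent.Y90 Pool.Agent.R915 Pool.Agent.W547.KB Pool.Agent.W547.LN
open Pool.Agent.H204R3.CM (IsHodge IsCMType)

/-- The CM field `K` of degree `2 g` is generic.

* `sign`: for each embedding `φ` of `K` in the field of complex numbers there is an automorphism of
  the field of complex numbers which maps `φ` to its complex conjugate and which fixes all other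
  embeddings of `K`. This means that the degree over `ℚ` of the Galois closure of `K` is `2 ^ g` times
  that of the Galois closure of the maximal totally real subfield `F` of `K`; this is the largest
  possible value.
* `quart`: there is no subfield over which `K` has degree four. This is automatic if `g` is odd. (The
  proper subfields of `K` lie in `F`, so the condition says that `F` has degree two over none of its
  subfields.)

For instance, if `g ≥ 3` then `K` is generic if the degree over `ℚ` of its Galois closure is
`2 ^ g * g!`, which is the largest possible degree. -/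
structure IsGeneric (K : Type) [Field K] [NumberField K] : Prop where
  sign : ∀ φ : K →+* ℂ, ∃ τ : ℂ ≃+* ℂ, (τ : ℂ →+* ℂ).comp φ = ComplexEmbedding.conjugate φ ∧
    ∀ ψ : K →+* ℂ, ψ ≠ φ → ψ ≠ ComplexEmbedding.conjugate φ → (τ : ℂ →+* ℂ).comp ψ = ψ
  quart : ∀ F₀ : IntermediateField ℚ K, 4 * finrank ℚ F₀ ≠ finrank ℚ K

/-- The simple abelian variety `Y` has complex multiplication by a generic CM field: it is of type
`(K, Φ)` for some generic CM field `K` and some CM type `Φ`. -/
def GenericCM (Y : AV) : Prop := ∃ P : CMPair, IsOfType Y P ∧ IsGeneric P.E

open Classical in
/-- The sign vector of the CM type `Φ` of `K`: the function on the set of the embeddings of `K` with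
the value `1` on `Φ` and the value `-1` outside of `Φ`. -/
noncomputable def sgn {K : Type} [Field K] (Φ : Set (K →+* ℂ)) : (K →+* ℂ) → ℚ :=
  fun φ => if φ ∈ Φ then 1 else -1

/-- There are no exceptional configurations in the class `T` of CM types.

* `three`: there are no three pairwise non-isomorphic types in `T`, of dimension two or three, whose
  CM fields have the same Galois closure over `ℚ` (in the field of complex numbers), of degree at
  most twelve;
* `indep`: the sign vectors of pairwise non-isomorphic types in `T` of the same CM field `K`, of degree
  at least six, are linearly independent.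

(The closures of degree at most twelve in `three` are the closures of the non-Galois quartic CM fields,
of degree eight with the dihedral group, and of the non-Galois sextic CM fields with an imaginary
quadratic subfield, of degree twelve. There are four primitive types with each of the former closures,
and six with each of the latter.) -/
structure NoExc (T : CMPair → Prop) : Prop where
  three : ∀ A B C : CMPair, T A → T B → T C → ¬ SameType A B → ¬ SameType A C → ¬ SameType B C →
    (finrank ℚ A.E = 4 ∨ finrank ℚ A.E = 6) → (finrank ℚ B.E = 4 ∨ finrank ℚ B.E = 6) →
    (finrank ℚ C.E = 4 ∨ finrank ℚ C.E = 6) →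
    IntermediateField.normalClosure ℚ A.E ℂ = IntermediateField.normalClosure ℚ B.E ℂ →
    IntermediateField.normalClosure ℚ A.E ℂ = IntermediateField.normalClosure ℚ C.E ℂ →
    12 < finrank ℚ (IntermediateField.normalClosure ℚ A.E ℂ)
  indep : ∀ (K : Type) [Field K] [NumberField K] [IsCMField K], 6 ≤ finrank ℚ K →
    ∀ (r : ℕ) (Φ : Fin r → Set (K →+* ℂ)) (hΦ : ∀ i, IsCMType (Φ i)),
    (∀ i, T ⟨K, Φ i, hΦ i⟩) →
    (∀ i k, i ≠ k → ¬ SameType ⟨K, Φ i, hΦ i⟩ ⟨K, Φ k, hΦ k⟩) →
    LinearIndependent ℚ fun i => sgn (Φ i)

end Pool.Agent.K4H29.HC
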