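import Mathlib
import Pool.Agent.K4H29.HC.Part

/-!
# Orbits with all sign changes
-/

set_option linter.unusedSectionVars false
set_option linter.unusedVariables false

namespace Pool.Agent.K4H29.HC

open Finset Module Pool.Agent.W547.LD.Comb

noncomputable section

variable {G : Type} [Group G] [Fintype G]

/-- Orbits with all sign changes, whose pairs are not divided into blocks of two pairs. -/
structure GenOrb (c : G) (Q : Set (Set G)) : Prop where
  stable : Stable Q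
  trans : Trans Q
  compl : ∀ S ∈ Q, Sᶜ ∈ Q
  half : ∀ S ∈ Q, Half c S
  large : 6 < Q.ncard
  sc : ∀ S ∈ Q, ∃ τ, tr τ S = Sᶜ ∧ ∀ T ∈ Q, T ≠ S → T ≠ Sᶜ → tr τ T = T
  np : ∀ S ∈ Q, ∀ B : Subgroup G, stb S ≤ B → (stb S).relIndex B ≠ 4

/-! ### Representatives -/

open Classical in
/-- The elements of `Q` which contain the unit element. -/
def rp (Q : Set (Set G)) : Finset (Set G) := Finset.univ.filter fun S => S ∈ Q ∧ (1 : G) ∈ S

theorem mem_rp {Q : Set (Set G)} {S : Set G} : S ∈ rp Q ↔ S ∈ Q ∧ (1 : G) ∈ S := by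
  classical
  unfold rp
  rw [Finset.mem_filter]
  exact ⟨fun h => h.2, fun h => ⟨Finset.mem_univ _, h⟩⟩

theorem rp_ne {Q : Set (Set G)} {S T : Set G} (hS : S ∈ rp Q) (hT : T ∈ rp Q) : S ≠ Tᶜ := by
  rintro rfl
  exact (mem_rp.1 hS).2 (mem_rp.1 hT).2

theorem rp_cover {Q : Set (Set G)} (hQ : ∀ S ∈ Q, Sᶜ ∈ Q) {S : Set G} (hS : S ∈ Q) :
    S ∈ rp Q ∨ Sᶜ ∈ rp Q := by
  by_cases h : (1 : G) ∈ S
  · exact Or.inl (mem_rp.2 ⟨hS, h⟩)
  · exact Or.inr (mem_rp.2 ⟨hQ S hS, h⟩)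

theorem rp_card {Q : Set (Set G)} (hQ : ∀ S ∈ Q, Sᶜ ∈ Q) : Q.ncard = 2 * (rp Q).card := by
  classical
  have h1 : Q = ↑(rp Q) ∪ compl '' (↑(rp Q) : Set (Set G)) := by
    ext S
    constructor
    · intro h
      rcases rp_cover hQ h with h1 | h1
      · exact Or.inl h1
      · exact Or.inr ⟨Sᶜ, h1, compl_compl S⟩
    · rintro (h | ⟨T, hT, rfl⟩)
      · exact (mem_rp.1 h).1
      · exact hQ T (mem_rp.1 hT).1
  have h2 : Disjoint (↑(rp Q) : Set (Set G)) (compl '' (↑(rp Q) : Set (Set G))) := by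
    rw [Set.disjoint_left]
    rintro S hS ⟨T, hT, rfl⟩
    exact rp_ne hS hT rfl
  calc Q.ncard = (↑(rp Q) ∪ compl '' (↑(rp Q) : Set (Set G))).ncard := by rw [← h1]
    _ = (↑(rp Q) : Set (Set G)).ncard + (compl '' (↑(rp Q) : Set (Set G))).ncard :=
      Set.ncard_union_eq h2 (Set.toFinite _) (Set.toFinite _)
    _ = 2 * (rp Q).card := by
      rw [Set.ncard_image_of_injective _ compl_injective, Set.ncard_coe_finset]
      ring

theorem VV_le {Q : Set (Set G)} (hQ : ∀ S ∈ Q, Sᶜ ∈ Q) :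
    VV Q ≤ Submodule.span ℚ (eps '' (↑(rp Q) : Set (Set G))) := by
  unfold VV
  rw [Submodule.span_le]
  rintro _ ⟨S, hS, rfl⟩
  rcases rp_cover hQ hS with h | h
  · exact Submodule.subset_span ⟨S, h, rfl⟩
  · have h1 : eps S = -eps Sᶜ := by rw [eps_compl', neg_neg]
    rw [h1]
    exact Submodule.neg_mem _ (Submodule.subset_span ⟨_, h, rfl⟩)

theorem finrank_VV {Q : Set (Set G)} (hQ : ∀ S ∈ Q, Sᶜ ∈ Q) :
    finrank ℚ (VV Q) ≤ (rp Q).card := by
  classical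
  have h1 := Submodule.finrank_mono (VV_le hQ)
  rw [← Finset.coe_image] at h1
  exact h1.trans ((finrank_span_finset_le_card _).trans Finset.card_image_le)

theorem exists_coef {Q : Set (Set G)} (hQ : ∀ S ∈ Q, Sᶜ ∈ Q) {w : G → ℚ} (hw : w ∈ VV Q) :
    ∃ b : rp Q → ℚ, w = ∑ S : rp Q, b S • eps S.1 := by
  have h1 := VV_le hQ hw
  obtain ⟨b, hb⟩ := (Submodule.mem_span_image_finset_iff_exists_fun ℚ).1 h1
  exact ⟨b, hb.symm⟩

/-! ### Equivariant families -/

/-- An equivariant odd family of functions. -/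
structure EqFam (Q : Set (Set G)) (f : Set G → G → ℚ) : Prop where
  map : ∀ τ, ∀ S ∈ Q, rtr τ (f S) = f (tr τ S)
  odd : ∀ S ∈ Q, f Sᶜ = -f S

theorem eps_eqFam (Q : Set (Set G)) : EqFam Q (fun S => eps S) where
  map τ S _ := rtr_eps τ S
  odd S _ := eps_compl' S

theorem rtr_inj {τ : G} {F : G → ℚ} (h : rtr τ F = 0) : F = 0 := by
  have h1 : rtr τ⁻¹ (rtr τ F) = 0 := by rw [h, map_zero]
  rwa [rtr_rtr, inv_mul_cancel, rtr_one] at h1

section eq

variable {c : G} {Q₀ : Set (Set G)} {f : Set G → G → ℚ}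

theorem EqFam.ne_zero (hf : EqFam Q₀ f) (hQ : Trans Q₀) {S₀ : Set G} (hS₀ : S₀ ∈ Q₀) (h0 : f S₀ ≠ 0)
    {S : Set G} (hS : S ∈ Q₀) : f S ≠ 0 := by
  obtain ⟨g, hg⟩ := hQ S₀ hS₀ S hS
  intro h
  apply h0
  have h1 := hf.map g S₀ hS₀
  rw [hg, h] at h1
  exact rtr_inj h1

/-- The sign change at `S`. -/
theorem EqFam.refl (hf : EqFam Q₀ f) {S : Set G} (hS : S ∈ Q₀) {τ : G} (h1 : tr τ S = Sᶜ)
    (h2 : ∀ T ∈ Q₀, T ≠ S → T ≠ Sᶜ → tr τ T = T) {T : Set G} (hT : T ∈ Q₀) :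
    f T - rtr τ (f T) = (2 * ((if T = S then 1 else 0) - if T = Sᶜ then 1 else 0) : ℚ) • f S := by
  classical
  rw [hf.map τ T hT]
  by_cases e1 : T = S
  · subst e1
    rw [h1, hf.odd T hT, if_pos rfl, if_neg (ne_compl T)]
    rw [sub_zero, mul_one, two_smul, sub_neg_eq_add]
  · by_cases e2 : T = Sᶜ
    · subst e2
      rw [tr_compl, h1, compl_compl, hf.odd S hS, if_neg e1, if_pos rfl, zero_sub, mul_neg, mul_one,
        neg_smul, two_smul]
      abel
    · rw [h2 T hT e1 e2, if_neg e1, if_neg e2, sub_self, sub_self, mul_zero, zero_smul]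

/-- Linear independence. -/
theorem EqFam.indep (hf : EqFam Q₀ f) (hQ : GenOrb c Q₀) {S₀ : Set G} (hS₀ : S₀ ∈ Q₀)
    (h0 : f S₀ ≠ 0) : LinearIndependent ℚ fun S : rp Q₀ => f S.1 := by
  classical
  rw [Fintype.linearIndependent_iff]
  intro g hg S
  have hS := (mem_rp.1 S.2).1
  obtain ⟨τ, h1, h2⟩ := hQ.sc S.1 hS
  have h3 : ∑ T : rp Q₀, g T • (f T.1 - rtr τ (f T.1)) = 0 := by
    have h4 : ∑ T : rp Q₀, g T • (f T.1 - rtr τ (f T.1)) =
        ∑ T : rp Q₀, g T • f T.1 - rtr τ (∑ T : rp Q₀, g T • f T.1) := by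
      rw [map_sum, ← Finset.sum_sub_distrib]
      refine Finset.sum_congr rfl fun T _ => ?_
      rw [smul_sub, map_smul]
    rw [h4, hg, map_zero, sub_zero]
  rw [Finset.sum_eq_single S] at h3
  · rw [hf.refl hS h1 h2 hS, if_pos rfl, if_neg (ne_compl S.1), sub_zero, mul_one, smul_smul] at h3
    have h4 := hf.ne_zero hQ.trans hS₀ h0 hS
    have h5 := (smul_eq_zero.1 h3).resolve_right h4
    linarith
  · intro T _ hT
    rw [hf.refl hS h1 h2 (mem_rp.1 T.2).1, if_neg (fun h => hT (Subtype.ext h)),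
      if_neg (rp_ne T.2 S.2), sub_zero, mul_zero, zero_smul, smul_zero]
  · intro h
    exact absurd (Finset.mem_univ _) h

/-- **Small orbits.** -/
theorem EqFam.small (hf : EqFam Q₀ f) (hQ₀ : GenOrb c Q₀) {S₀ : Set G} (hS₀ : S₀ ∈ Q₀)
    {Q : Set (Set G)} (hQ : IsOrbit c Q) (hw : f S₀ ∈ VV Q) : f S₀ = 0 := by
  classical
  by_contra h0
  have h1 := hf.indep hQ₀ hS₀ h0
  have hmem : ∀ S ∈ Q₀, f S ∈ VV Q := by
    intro S hS
    obtain ⟨g, rfl⟩ := hQ₀.trans S₀ hS₀ S hS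
    rw [← hf.map g S₀ hS₀]
    exact rtr_mem_VV hQ.stable g hw
  have h2 : LinearIndependent ℚ fun S : rp Q₀ =>
      (⟨f S.1, hmem S.1 (mem_rp.1 S.2).1⟩ : VV Q) := by
    apply LinearIndependent.of_comp (VV Q).subtype
    exact h1
  have h3 := h2.fintype_card_le_finrank
  rw [Fintype.card_coe] at h3
  have h4 := finrank_VV hQ.compl
  have h5 := rp_card hQ.compl
  have h6 := rp_card hQ₀.compl
  have h7 := hQ.card
  have h8 := hQ₀.large
  omega

theorem eps_inj {S T : Set G} (h : eps S = eps T) : S = T := by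
  ext σ
  exact mem_iff_of_eps (congrFun h σ)

/-- **Blocks of two pairs.** -/
theorem partner (hf : EqFam Q₀ f) (hQ₀ : GenOrb c Q₀) {Q : Set (Set G)} (hQ : GenOrb c Q)
    {S₀ : Set G} (hS₀ : S₀ ∈ Q₀) (h0 : f S₀ ≠ 0) {q : ℚ} (hq : q ≠ 0) {T T' : Set G} (hT : T ∈ Q)
    (hT' : T' ∈ Q) (h1 : T' ≠ T) (h2 : T' ≠ Tᶜ) (h3 : q • f S₀ = eps T - eps T') : False := by
  classical
  -- the relation
  let R : Set G → Set G → Prop := fun A B => ∃ S ∈ Q₀, q • f S = eps A - eps B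
  have hmap : ∀ {A B : Set G} (g : G), R A B → R (tr g A) (tr g B) := by
    rintro A B g ⟨S, hS, h⟩
    refine ⟨tr g S, hQ₀.stable g S hS, ?_⟩
    rw [← hf.map g S hS, ← map_smul, h, map_sub, rtr_eps, rtr_eps]
  have hsymm : ∀ {A B : Set G}, R A B → R B A := by
    rintro A B ⟨S, hS, h⟩
    refine ⟨Sᶜ, hQ₀.compl S hS, ?_⟩
    rw [hf.odd S hS, smul_neg, h, neg_sub]
  have hcompl : ∀ {A B : Set G}, A ∈ Q → B ∈ Q → A ≠ B → A ≠ Bᶜ → R A B → R A Bᶜ := by
    intro A B hA hB n1 n2 h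
    obtain ⟨g, g1, g2⟩ := hQ.sc B hB
    have h4 := hmap g h
    rwa [g1, g2 A hA n1 n2] at h4
  have hcompl' : ∀ {A B : Set G}, A ∈ Q → B ∈ Q → A ≠ B → A ≠ Bᶜ → R A B → R Aᶜ B := by
    intro A B hA hB n1 n2 h
    exact hsymm (hcompl hB hA n1.symm (fun h => n2 (by rw [h, compl_compl])) (hsymm h))
  -- signs
  have key : ∀ {A B C : Set G}, eps A - eps B = eps C - eps A → B = A := by
    intro A B C h
    apply eps_inj
    funext σ
    have h1 := congrFun h σ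
    rw [Pi.sub_apply, Pi.sub_apply] at h1
    rcases eps_cases A σ with a | a <;> rcases eps_cases B σ with b | b <;>
      rcases eps_cases C σ with d | d <;> rw [a, b, d] at h1 <;> rw [a, b] <;> norm_num at h1
  have hne0 : ∀ S ∈ Q₀, f S ≠ 0 := fun S hS => hf.ne_zero hQ₀.trans hS₀ h0 hS
  -- uniqueness
  have huniq : ∀ {A B B' : Set G}, A ∈ Q → B ∈ Q → B' ∈ Q → A ≠ B → A ≠ Bᶜ → A ≠ B' → A ≠ B'ᶜ →
      R A B → R A B' → B' = B ∨ B' = Bᶜ := by
    intro A B B' hA hB hB' n1 n2 n3 n4 r1 r2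
    by_contra hcon
    push Not at hcon
    obtain ⟨m1, m2⟩ := hcon
    obtain ⟨S₁, hS₁, e1⟩ := r1
    obtain ⟨S₂, hS₂, e2⟩ := hcompl hA hB n1 n2 ⟨S₁, hS₁, e1⟩
    obtain ⟨S₃, hS₃, e3⟩ := r2
    obtain ⟨S₄, hS₄, e4⟩ := hcompl hA hB' n3 n4 ⟨S₃, hS₃, e3⟩
    have hsum : f S₁ + f S₂ = f S₃ + f S₄ := by
      have h5 : q • (f S₁ + f S₂) = q • (f S₃ + f S₄) := by
        rw [smul_add, smul_add, e1, e2, e3, e4, eps_compl', eps_compl']
        abel
      have h6 : q⁻¹ • q • (f S₁ + f S₂) = q⁻¹ • q • (f S₃ + f S₄) := by rw [h5]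
      rwa [smul_smul, smul_smul, inv_mul_cancel₀ hq, one_smul, one_smul] at h6
    obtain ⟨τ, t1, t2⟩ := hQ₀.sc S₁ hS₁
    have hfix : ∀ S ∈ Q₀, q • f S ≠ q • f S₁ → q • f S ≠ -(q • f S₁) → rtr τ (f S) = f S := by
      intro S hS a1 a2
      rw [hf.map τ S hS, t2 S hS]
      · rintro rfl
        exact a1 rfl
      · rintro rfl
        apply a2
        rw [hf.odd S₁ hS₁, smul_neg]
    have hB2 : rtr τ (f S₂) = f S₂ := by
      refine hfix S₂ hS₂ ?_ ?_
      · rw [e1, e2]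
        intro h
        exact ne_compl B (eps_inj (sub_right_inj.1 h)).symm
      · rw [e1, e2, neg_sub]
        intro h
        exact n2 (key h).symm
    have hB3 : rtr τ (f S₃) = f S₃ := by
      refine hfix S₃ hS₃ ?_ ?_
      · rw [e1, e3]
        intro h
        exact m1 (eps_inj (sub_right_inj.1 h))
      · rw [e1, e3, neg_sub]
        intro h
        exact n3 (key h).symm
    have hB4 : rtr τ (f S₄) = f S₄ := by
      refine hfix S₄ hS₄ ?_ ?_
      · rw [e1, e4]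
        intro h
        exact m2 (by rw [← eps_inj (sub_right_inj.1 h), compl_compl])
      · rw [e1, e4, neg_sub]
        intro h
        exact n4 (key h).symm
    have h5 : rtr τ (f S₁) = f S₁ := by
      have h6 : f S₁ = f S₃ + f S₄ - f S₂ := by
        rw [← hsum]
        abel
      rw [h6, map_sub, map_add, hB2, hB3, hB4]
    rw [hf.map τ S₁ hS₁, t1, hf.odd S₁ hS₁] at h5
    apply hne0 S₁ hS₁
    have h6 : (2 : ℚ) • f S₁ = 0 := by
      rw [two_smul]
      nth_rewrite 2 [← h5]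
      rw [add_neg_cancel]
    exact (smul_eq_zero.1 h6).resolve_left two_ne_zero
  have h4 : T ≠ T'ᶜ := fun h => h2 (by rw [h, compl_compl])
  have hR : R T T' := ⟨S₀, hS₀, h3⟩
  have hTc := hQ.compl T hT
  have hT'c := hQ.compl T' hT'
  -- the block
  let blk : Set (Set G) := {T, Tᶜ, T', T'ᶜ}
  have hpart : ∀ g, tr g T ∈ blk → tr g T' ∈ blk := by
    intro g hg
    have a0 := hmap g hR
    have a1 : tr g T ≠ tr g T' := fun h => h1 (tr_injective g h).symm
    have a2 : tr g T ≠ (tr g T')ᶜ := by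
      rw [← tr_compl]
      exact fun h => h4 (tr_injective g h)
    have hgT' := hQ.stable g T' hT'
    rcases hg with h | h | h | h
    · rw [h] at a0 a1 a2
      rcases huniq hT hT' hgT' h1.symm h4 a1 a2 hR a0 with h5 | h5
      · exact Or.inr (Or.inr (Or.inl h5))
      · exact Or.inr (Or.inr (Or.inr h5))
    · rw [h] at a0 a1 a2
      have b1 : T ≠ tr g T' := fun h5 => a2 (by rw [← h5])
      have b2 : T ≠ (tr g T')ᶜ := fun h5 => a1 (by rw [h5, compl_compl])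
      have a3 := hcompl' hTc hgT' a1 a2 a0
      rw [compl_compl] at a3
      rcases huniq hT hT' hgT' h1.symm h4 b1 b2 hR a3 with h5 | h5
      · exact Or.inr (Or.inr (Or.inl h5))
      · exact Or.inr (Or.inr (Or.inr h5))
    · rw [h] at a0 a1 a2
      rcases huniq hT' hT hgT' h1 h2 a1 a2 (hsymm hR) a0 with h5 | h5
      · exact Or.inl h5
      · exact Or.inr (Or.inl h5)
    · rw [h] at a0 a1 a2
      have b1 : T' ≠ tr g T' := fun h5 => a2 (by rw [← h5])
      have b2 : T' ≠ (tr g T')ᶜ := fun h5 => a1 (by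
        nth_rewrite 1 [h5]
        rw [compl_compl])
      have a3 := hcompl' hT'c hgT' a1 a2 a0
      rw [compl_compl] at a3
      rcases huniq hT' hT hgT' h1 h2 b1 b2 (hsymm hR) a3 with h5 | h5
      · exact Or.inl h5
      · exact Or.inr (Or.inl h5)
  have hblkc : ∀ S ∈ blk, Sᶜ ∈ blk := by
    rintro S (rfl | rfl | rfl | rfl)
    · exact Or.inr (Or.inl rfl)
    · exact Or.inl (compl_compl _)
    · exact Or.inr (Or.inr (Or.inr rfl))
    · exact Or.inr (Or.inr (Or.inl (compl_compl _)))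
  have hpres : ∀ g, tr g T ∈ blk → ∀ S ∈ blk, tr g S ∈ blk := by
    rintro g hg S (rfl | rfl | rfl | rfl)
    · exact hg
    · rw [tr_compl]
      exact hblkc _ hg
    · exact hpart g hg
    · rw [tr_compl]
      exact hblkc _ (hpart g hg)
  have hTblk : T ∈ blk := Or.inl rfl
  -- the stabilizer of the block
  let B : Subgroup G :=
    { carrier := {g | tr g T ∈ blk}
      one_mem' := by
        change tr 1 T ∈ blk
        rw [tr_one]
        exact hTblk
      mul_mem' := fun {g h} hg hh => by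
        change tr (g * h) T ∈ blk
        rw [← tr_tr]
        exact hpres g hg _ hh
      inv_mem' := fun {g} hg => by
        change tr g⁻¹ T ∈ blk
        -- the map is injective on the finite block
        have himg : tr g '' blk = blk := by
          refine Set.eq_of_subset_of_ncard_le ?_ ?_ (Set.toFinite _)
          · rintro _ ⟨S, hS, rfl⟩
            exact hpres g hg S hS
          · rw [Set.ncard_image_of_injective _ (tr_injective g)]
        have hTi : T ∈ tr g '' blk := by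
          rw [himg]
          exact hTblk
        obtain ⟨S, hS, hS'⟩ := hTi
        rw [← hS', tr_inv_tr]
        exact hS }
  have hmemB : ∀ g, g ∈ B ↔ tr g T ∈ blk := fun g => Iff.rfl
  have hle : stb T ≤ B := by
    intro g hg
    rw [hmemB, (mem_stb g T).1 hg]
    exact hTblk
  refine hQ.np T hT B hle ?_
  let _ : MulAction G (Set G) := trAct
  have e1 : (MulAction.stabilizer B T) = (stb T).subgroupOf B := by
    ext g
    exact Iff.rfl
  have e2 : MulAction.orbit B T = blk := by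
    ext S
    constructor
    · rintro ⟨g, rfl⟩
      exact g.2
    · intro hS
      have hSQ : S ∈ Q := by
        rcases hS with rfl | rfl | rfl | rfl
        · exact hT
        · exact hTc
        · exact hT'
        · exact hT'c
      obtain ⟨g, hg⟩ := hQ.trans T hT S hSQ
      exact ⟨⟨g, by rw [hmemB, hg]; exact hS⟩, hg⟩
  have e3 := MulAction.index_stabilizer B T
  rw [e1, e2] at e3
  rw [Subgroup.relIndex, e3]
  change ({T, Tᶜ, T', T'ᶜ} : Set (Set G)).ncard = 4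
  rw [Set.ncard_insert_of_notMem, Set.ncard_insert_of_notMem, Set.ncard_pair]
  · exact ne_compl T'
  · rintro (h | h)
    · exact h2 h.symm
    · exact h1 (compl_injective h).symm
  · rintro (h | h | h)
    · exact ne_compl T h
    · exact h1 h.symm
    · exact h4 h

/-- **Generic orbits.** -/
theorem EqFam.gen (hf : EqFam Q₀ f) (hQ₀ : GenOrb c Q₀) {S₀ : Set G} (hS₀ : S₀ ∈ Q₀)
    {Q : Set (Set G)} (hQ : GenOrb c Q) (hw : f S₀ ∈ VV Q) (h0 : f S₀ ≠ 0) :
    ∃ T ∈ Q, stb T = stb S₀ := by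
  classical
  set w := f S₀ with hwdef
  have hww : w ≠ -w := by
    intro h
    apply h0
    have h1 : (2 : ℚ) • w = 0 := by
      rw [two_smul]
      nth_rewrite 2 [h]
      rw [add_neg_cancel]
    exact (smul_eq_zero.1 h1).resolve_left two_ne_zero
  obtain ⟨τ₀, ht1, ht2⟩ := hQ₀.sc S₀ hS₀
  have hτw : rtr τ₀ w = -w := by
    rw [hwdef, hf.map τ₀ S₀ hS₀, ht1, hf.odd S₀ hS₀]
  -- the span of the family
  let W : Submodule ℚ (G → ℚ) := Submodule.span ℚ (f '' Q₀)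
  have hwW : w ∈ W := Submodule.subset_span ⟨S₀, hS₀, rfl⟩
  have hWr : ∀ g, ∀ v ∈ W, rtr g v ∈ W := by
    intro g v hv
    refine Submodule.span_induction (p := fun v _ => rtr g v ∈ W) ?_ ?_ ?_ ?_ hv
    · rintro _ ⟨S, hS, rfl⟩
      rw [hf.map g S hS]
      exact Submodule.subset_span ⟨_, hQ₀.stable g S hS, rfl⟩
    · rw [map_zero]
      exact Submodule.zero_mem _
    · intro x y _ _ hx hy
      rw [map_add]
      exact Submodule.add_mem _ hx hy
    · intro a x _ hx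
      rw [map_smul]
      exact Submodule.smul_mem _ _ hx
  have hWτ : ∀ v ∈ W, ∃ q : ℚ, v - rtr τ₀ v = q • w := by
    intro v hv
    refine Submodule.span_induction (p := fun v _ => ∃ q : ℚ, v - rtr τ₀ v = q • w) ?_ ?_ ?_ ?_ hv
    · rintro _ ⟨S, hS, rfl⟩
      exact ⟨_, hf.refl hS₀ ht1 ht2 hS⟩
    · exact ⟨0, by rw [map_zero, zero_smul, sub_zero]⟩
    · rintro x y _ _ ⟨q, hq⟩ ⟨q', hq'⟩
      refine ⟨q + q', ?_⟩
      rw [add_smul, ← hq, ← hq', map_add]
      abel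
    · rintro a x _ ⟨q, hq⟩
      refine ⟨a * q, ?_⟩
      rw [mul_smul, ← hq, map_smul, smul_sub]
  -- it contains the signs of the elements of `Q`
  obtain ⟨b, hb⟩ := exists_coef hQ.compl hw
  obtain ⟨T₁, hT₁⟩ : ∃ T₁, b T₁ ≠ 0 := by
    by_contra hcon
    push Not at hcon
    apply h0
    rw [hb]
    exact Finset.sum_eq_zero fun S _ => by rw [hcon S, zero_smul]
  have hT₁Q := (mem_rp.1 T₁.2).1
  have he1 : eps T₁.1 ∈ W := by
    obtain ⟨τ, h1, h2⟩ := hQ.sc T₁.1 hT₁Q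
    have h3 : w - rtr τ w = (2 * b T₁) • eps T₁.1 := by
      rw [hb, map_sum, ← Finset.sum_sub_distrib, Finset.sum_eq_single T₁]
      · rw [map_smul, ← smul_sub, (eps_eqFam Q).refl hT₁Q h1 h2 hT₁Q, if_pos rfl,
          if_neg (ne_compl T₁.1), sub_zero, mul_one, smul_smul, mul_comm]
      · intro T _ hT
        rw [map_smul, ← smul_sub, (eps_eqFam Q).refl hT₁Q h1 h2 (mem_rp.1 T.2).1,
          if_neg (fun h => hT (Subtype.ext h)), if_neg (rp_ne T.2 T₁.2), sub_zero, mul_zero,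
          zero_smul, smul_zero]
      · intro h
        exact absurd (Finset.mem_univ _) h
    have h4 : (2 * b T₁) • eps T₁.1 ∈ W := by
      rw [← h3]
      exact Submodule.sub_mem _ hwW (hWr τ w hwW)
    exact (Submodule.smul_mem_iff _ (mul_ne_zero two_ne_zero hT₁)).1 h4
  have heW : ∀ T ∈ Q, eps T ∈ W := by
    intro T hT
    obtain ⟨g, rfl⟩ := hQ.trans T₁.1 hT₁Q T hT
    rw [← rtr_eps]
    exact hWr g _ he1
  have heτ : ∀ T ∈ Q, ∃ q : ℚ, eps T - eps (tr τ₀ T) = q • w := fun T hT => hWτ _ (heW T hT)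
  obtain ⟨T, hT, hTne⟩ : ∃ T ∈ Q, tr τ₀ T ≠ T := by
    by_contra hcon
    push Not at hcon
    have h1 : rtr τ₀ w = w := by
      rw [hb, map_sum]
      refine Finset.sum_congr rfl fun S _ => ?_
      rw [map_smul, rtr_eps, hcon _ (mem_rp.1 S.2).1]
    rw [hτw] at h1
    exact hww h1.symm
  obtain ⟨q, hq⟩ := heτ T hT
  have hq0 : q ≠ 0 := by
    rintro rfl
    rw [zero_smul, sub_eq_zero] at hq
    exact hTne (eps_inj hq).symm
  -- elements of the family which are different from `± w`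
  have hne : ∀ S ∈ Q₀, f S ≠ w → f S ≠ -w → rtr τ₀ (f S) = f S := by
    intro S hS h1 h2
    rw [hf.map τ₀ S hS, ht2 S hS]
    · rintro rfl
      exact h1 rfl
    · rintro rfl
      exact h2 (hf.odd S₀ hS₀)
  by_cases hTc : tr τ₀ T = Tᶜ
  · refine ⟨T, hT, ?_⟩
    have h1 : (2 : ℚ) • eps T = q • w := by
      rw [← hq, hTc, eps_compl', two_smul, sub_neg_eq_add]
    have h2 : eps T = (2⁻¹ * q) • w := by
      rw [mul_smul, ← h1, smul_smul, inv_mul_cancel₀ two_ne_zero, one_smul]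
    have h3 : w = (q⁻¹ * 2) • eps T := by
      rw [mul_smul, h1, smul_smul, inv_mul_cancel₀ hq0, one_smul]
    ext h
    rw [mem_stb, mem_stb]
    constructor
    · intro hh
      have h4 : rtr h w = w := by
        rw [h3, map_smul, rtr_eps, hh]
      rw [hwdef, hf.map h S₀ hS₀] at h4
      by_contra hcon
      have h5 : tr h S₀ ≠ S₀ᶜ := by
        intro h6
        rw [h6, hf.odd S₀ hS₀] at h4
        exact hww h4.symm
      have h6 := hf.map τ₀ _ (hQ₀.stable h S₀ hS₀)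
      rw [ht2 _ (hQ₀.stable h S₀ hS₀) hcon h5, h4] at h6
      rw [hτw] at h6
      exact hww h6.symm
    · intro hh
      apply eps_inj
      rw [← rtr_eps, h2, map_smul, hwdef, hf.map h S₀ hS₀, hh]
  · exfalso
    set T' := tr τ₀ T with hT'
    have hT'Q : T' ∈ Q := hQ.stable τ₀ T hT
    refine partner hf hQ₀ hQ hS₀ h0 hq0 hT hT'Q hTne hTc ?_
    rw [← hwdef, hq]

end eq

/-! ### Relations -/

/-- A family from an invariant function. -/
theorem exists_fam {c : G} (hc : ∀ g, c * g = g * c) {Q₀ : Set (Set G)} (hQ₀ : GenOrb c Q₀)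
    {S₀ : Set G} (hS₀ : S₀ ∈ Q₀) {w : G → ℚ} (h1 : ∀ h ∈ stb S₀, rtr h w = w)
    (h2 : rtr c w = -w) : ∃ f, EqFam Q₀ f ∧ f S₀ = w := by
  classical
  choose g hg using fun S : Q₀ => hQ₀.trans S₀ hS₀ S.1 S.2
  let f : Set G → G → ℚ := fun S => if h : S ∈ Q₀ then rtr (g ⟨S, h⟩) w else 0
  have hf : ∀ (S : Set G) (h : S ∈ Q₀), f S = rtr (g ⟨S, h⟩) w := fun S h => dif_pos h
  have key : ∀ (S : Set G) (h : S ∈ Q₀) (τ : G), tr τ S₀ = S → f S = rtr τ w := by
    intro S h τ hτ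
    rw [hf S h]
    have h3 : τ⁻¹ * g ⟨S, h⟩ ∈ stb S₀ := by
      rw [mem_stb, ← tr_tr, hg]
      change tr τ⁻¹ S = S₀
      rw [← hτ, tr_inv_tr]
    calc rtr (g ⟨S, h⟩) w = rtr (τ * (τ⁻¹ * g ⟨S, h⟩)) w := by rw [mul_inv_cancel_left]
      _ = rtr τ w := by rw [← rtr_rtr, h1 _ h3]
  refine ⟨f, ⟨fun τ S hS => ?_, fun S hS => ?_⟩, ?_⟩
  · rw [hf S hS, rtr_rtr]
    refine (key _ (hQ₀.stable τ S hS) _ ?_).symm
    rw [← tr_tr, hg]
  · rw [key _ (hQ₀.compl S hS) (c * g ⟨S, hS⟩) (by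
      rw [← tr_tr, hg]
      exact tr_c hc (hQ₀.half S hS)), hc, ← rtr_rtr, h2, map_neg, hf S hS]
  · rw [key S₀ hS₀ 1 (tr_one S₀), rtr_one]

theorem rtr_c_VV {c : G} (hc : ∀ g, c * g = g * c) {P : Set (Set G)} (hP : ∀ S ∈ P, Half c S)
    {w : G → ℚ} (hw : w ∈ VV P) : rtr c w = -w := by
  refine Submodule.span_induction (p := fun w _ => rtr c w = -w) ?_ ?_ ?_ ?_ hw
  · rintro _ ⟨S, hS, rfl⟩
    rw [rtr_eps, tr_c hc (hP S hS), eps_compl']
  · rw [map_zero, neg_zero]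
  · intro x y _ _ hx hy
    rw [map_add, hx, hy, neg_add]
  · intro a x _ hx
    rw [map_smul, hx, smul_neg]

/-- **Relations vanish on the generic orbits.** -/
theorem gen_vanish {c : G} (hc : ∀ g, c * g = g * c) (O : Finset (Set (Set G)))
    (hO : ∀ Q ∈ O, IsOrbit c Q ∨ GenOrb c Q)
    (hdisj : ∀ Q ∈ O, ∀ Q' ∈ O, Q ≠ Q' → Disjoint Q Q')
    (hind : ∀ (J : Finset (Set (Set G))) (T : J → Set G), (∀ Q ∈ J, Q ∈ O ∧ GenOrb c Q) →
      (∀ Q : J, T Q ∈ Q.1) → (∀ Q Q' : J, stb (T Q) = stb (T Q')) →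
      LinearIndependent ℚ fun Q : J => eps (T Q))
    {P : Set (Set G)} (hPO : ∀ S, S ∈ P ↔ ∃ Q ∈ O, S ∈ Q) {a : Set G → ℚ} (ha : IsRel P a)
    {Q₀ : Set (Set G)} (hQ₀O : Q₀ ∈ O) (hQ₀ : GenOrb c Q₀) {S₀ : Set G} (hS₀ : S₀ ∈ Q₀) :
    a S₀ = 0 := by
  classical
  have hst : ∀ Q ∈ O, Stable Q := fun Q hQ => (hO Q hQ).elim (fun h => h.stable) fun h => h.stable
  have hcm : ∀ Q ∈ O, ∀ S ∈ Q, Sᶜ ∈ Q := fun Q hQ =>
    (hO Q hQ).elim (fun h => h.compl) fun h => h.compl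
  have hhf : ∀ Q ∈ O, ∀ S ∈ Q, Half c S := fun Q hQ =>
    (hO Q hQ).elim (fun h => h.half) fun h => h.half
  have hP : Stable P := by
    intro τ S hS
    obtain ⟨Q, hQ, h⟩ := (hPO S).1 hS
    exact (hPO _).2 ⟨Q, hQ, hst Q hQ τ S h⟩
  -- the average over the stabilizer
  let b : Set G → ℚ := fun S => ∑ h : stb S₀, a (tr h.1 S)
  have hb : IsRel P b := by
    refine ⟨fun S hS => ?_, fun S => ?_, fun σ => ?_⟩
    · refine Finset.sum_eq_zero fun h _ => ?_
      exact (ha.tr hP h.1).supp S hS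
    · change ∑ h : stb S₀, a (tr h.1 Sᶜ) = -∑ h : stb S₀, a (tr h.1 S)
      rw [← Finset.sum_neg_distrib]
      exact Finset.sum_congr rfl fun h _ => (ha.tr hP h.1).odd S
    · change ∑ S : Set G, (∑ h : stb S₀, a (tr h.1 S)) * eps S σ = 0
      simp only [Finset.sum_mul]
      rw [Finset.sum_comm]
      exact Finset.sum_eq_zero fun h _ => (ha.tr hP h.1).rel σ
  have hbH : ∀ h ∈ stb S₀, ∀ S, b (tr h S) = b S := by
    intro h hh S
    change ∑ k : stb S₀, a (tr k.1 (tr h S)) = ∑ k : stb S₀, a (tr k.1 S)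
    refine Fintype.sum_equiv (Equiv.mulRight (⟨h, hh⟩ : stb S₀)) _ _ fun k => ?_
    rw [tr_tr]
    rfl
  have hb0 : b S₀ = Fintype.card (stb S₀) * a S₀ := by
    have h1 : ∀ h : stb S₀, a (tr h.1 S₀) = a S₀ := fun h => by rw [(mem_stb h.1 S₀).1 h.2]
    change ∑ h : stb S₀, a (tr h.1 S₀) = _
    rw [Finset.sum_congr rfl fun h _ => h1 h, Finset.sum_const, Finset.card_univ, nsmul_eq_mul]
  -- the parts
  have hsupp : ∀ Q, ∀ S, S ∉ Q → aQ b Q S = 0 := fun Q S hS => if_neg hS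
  have hFV : ∀ Q, FF (aQ b Q) ∈ VV Q := fun Q => FF_mem_VV (hsupp Q)
  have hFH : ∀ Q ∈ O, ∀ h ∈ stb S₀, rtr h (FF (aQ b Q)) = FF (aQ b Q) := by
    intro Q hQ h hh
    rw [rtr_FF]
    congr 1
    funext S
    unfold aQ
    by_cases hS : S ∈ Q
    · rw [if_pos (hst Q hQ _ S hS), if_pos hS, hbH _ ((stb S₀).inv_mem hh)]
    · rw [if_neg hS, if_neg]
      intro h1
      apply hS
      have h2 := hst Q hQ h _ h1
      rwa [tr_tr_inv] at h2
  have hfam : ∀ Q ∈ O, ∃ f, EqFam Q₀ f ∧ f S₀ = FF (aQ b Q) := fun Q hQ =>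
    exists_fam hc hQ₀ hS₀ (hFH Q hQ) (rtr_c_VV hc (hhf Q hQ) (hFV Q))
  let J : Finset (Set (Set G)) := O.filter fun Q => GenOrb c Q ∧ ∃ T ∈ Q, stb T = stb S₀
  have hJ : ∀ Q ∈ J, Q ∈ O ∧ GenOrb c Q ∧ ∃ T ∈ Q, stb T = stb S₀ := fun Q hQ =>
    Finset.mem_filter.1 hQ
  have hzero : ∀ Q ∈ O, Q ∉ J → FF (aQ b Q) = 0 := by
    intro Q hQ hQJ
    obtain ⟨f, hf, hfS⟩ := hfam Q hQ
    rcases hO Q hQ with h | h
    · rw [← hfS]
      refine hf.small hQ₀ hS₀ h ?_
      rw [hfS]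
      exact hFV Q
    · by_contra h0
      apply hQJ
      refine Finset.mem_filter.2 ⟨hQ, h, hf.gen hQ₀ hS₀ h ?_ ?_⟩
      · rw [hfS]
        exact hFV Q
      · rwa [hfS]
  choose T hTQ hTs using fun Q : J => (hJ Q.1 Q.2).2.2
  -- the coefficients in an orbit with the same stabilizer
  have hbT : ∀ Q : J, ∀ S ∈ Q.1, S ≠ T Q → S ≠ (T Q)ᶜ → b S = 0 := by
    intro Q S hS h1 h2
    have hG := (hJ Q.1 Q.2).2.1
    obtain ⟨τ, hτ2, hτ1⟩ := hG.sc S hS
    have h3 : T Q ≠ Sᶜ := by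
      rintro h
      exact h2 (by rw [h, compl_compl])
    have h5 : τ ∈ stb S₀ := by
      rw [← hTs Q]
      exact hτ1 (T Q) (hTQ Q) h1.symm h3
    have h6 := hbH τ h5 S
    rw [hτ2, hb.odd] at h6
    linarith
  have hval : ∀ Q : J, FF (aQ b Q.1) = (2 * b (T Q)) • eps (T Q) := by
    intro Q
    have hG := (hJ Q.1 Q.2).2.1
    rw [FF_eq]
    have h1 : ∀ S, aQ b Q.1 S • eps S =
        (if S = T Q then b (T Q) • eps (T Q) else 0) +
          if S = (T Q)ᶜ then b (T Q) • eps (T Q) else 0 := by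
      intro S
      by_cases e1 : S = T Q
      · rw [if_pos e1, if_neg (by rw [e1]; exact ne_compl _), add_zero, e1]
        unfold aQ
        rw [if_pos (hTQ Q)]
      · by_cases e2 : S = (T Q)ᶜ
        · rw [if_neg e1, if_pos e2, zero_add, e2]
          unfold aQ
          rw [if_pos (hG.compl _ (hTQ Q)), hb.odd, eps_compl', smul_neg, neg_smul, neg_neg]
        · rw [if_neg e1, if_neg e2, add_zero]
          unfold aQ
          by_cases e3 : S ∈ Q.1
          · rw [if_pos e3, hbT Q S e3 e1 e2, zero_smul]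
          · rw [if_neg e3, zero_smul]
    rw [Finset.sum_congr rfl fun S _ => h1 S, Finset.sum_add_distrib,
      Finset.sum_ite_eq' Finset.univ (T Q), Finset.sum_ite_eq' Finset.univ (T Q)ᶜ,
      if_pos (Finset.mem_univ _), if_pos (Finset.mem_univ _), ← add_smul]
    congr 1
    ring
  have hsum : ∑ Q : J, (2 * b (T Q)) • eps (T Q) = 0 := by
    have h1 := sum_FF O hdisj hPO hb
    rw [← Finset.sum_filter_add_sum_filter_not O
      (fun Q => GenOrb c Q ∧ ∃ T ∈ Q, stb T = stb S₀)] at h1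
    have h2 : ∑ Q ∈ O.filter (fun Q => ¬ (GenOrb c Q ∧ ∃ T ∈ Q, stb T = stb S₀)),
        FF (aQ b Q) = 0 := by
      refine Finset.sum_eq_zero fun Q hQ => ?_
      obtain ⟨h3, h4⟩ := Finset.mem_filter.1 hQ
      exact hzero Q h3 fun h5 => h4 (hJ Q h5).2
    rw [h2, add_zero] at h1
    change ∑ Q ∈ J, FF (aQ b Q) = 0 at h1
    rw [← Finset.sum_coe_sort J] at h1
    rw [← h1]
    exact Finset.sum_congr rfl fun Q _ => (hval Q).symm
  have hlin := hind J T (fun Q hQ => ⟨(hJ Q hQ).1, (hJ Q hQ).2.1⟩) hTQ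
    fun Q Q' => (hTs Q).trans (hTs Q').symm
  rw [Fintype.linearIndependent_iff] at hlin
  have hQ₀J : Q₀ ∈ J := Finset.mem_filter.2 ⟨hQ₀O, hQ₀, S₀, hS₀, rfl⟩
  have h1 := hlin _ hsum ⟨Q₀, hQ₀J⟩
  have h2 : b (T ⟨Q₀, hQ₀J⟩) = 0 := by linarith
  have h3 : b S₀ = 0 := by
    by_cases e1 : S₀ = T ⟨Q₀, hQ₀J⟩
    · rw [← e1] at h2
      exact h2
    · by_cases e2 : S₀ = (T ⟨Q₀, hQ₀J⟩)ᶜ
      · rw [e2, hb.odd, h2, neg_zero]
      · exact hbT ⟨Q₀, hQ₀J⟩ S₀ hS₀ e1 e2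
  rw [hb0] at h3
  exact (mul_eq_zero.1 h3).resolve_left (Nat.cast_ne_zero.2 Fintype.card_ne_zero)

end

end Pool.Agent.K4H29.HC
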