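import Mathlib
import Pool.Agent.K4H29.HC.Defs2
import Pool.Agent.K4H29.HC.Gen
import Pool.Agent.K4H29.HC.Neg

/-!
# Generic CM fields: Hodge classes on abelian varieties of CM type
-/

set_option linter.unusedSectionVars false
set_option linter.unusedVariables false

namespace Pool.Agent.K4H29.HC

open NumberField Pool.Agent.H204R3.CM Pool.Agent.W547.KB Pool.Agent.W547.LD Equiv Module
open Pool.Agent.W547.LN IntermediateField
open Pool.Agent.Y90 (AV)

noncomputable section

theorem sameType_trans {A B C : CMPair} (h : SameType A B) (h' : SameType B C) : SameType A C := by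
  obtain ⟨e, he⟩ := h
  obtain ⟨e', he'⟩ := h'
  refine ⟨e.trans e', fun ψ => ?_⟩
  rw [he', he]
  rfl

/-! ### The transport of a type along an isomorphism of fields -/

/-- The type on `K` which corresponds to the type `B`. -/
def pullT {K : Type} [Field K] (B : CMPair) (e : K ≃+* B.E) : Set (K →+* ℂ) :=
  {χ | χ.comp (e.symm : B.E →+* K) ∈ B.Φ}

theorem pullT_cm {K : Type} [Field K] (B : CMPair) (e : K ≃+* B.E) : IsCMType (pullT B e) := by
  intro χ
  exact B.isCMType (χ.comp (e.symm : B.E →+* K))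

theorem sameType_pullT {K : Type} [Field K] [NumberField K] [IsCMField K] (B : CMPair)
    (e : K ≃+* B.E) : SameType ⟨K, pullT B e, pullT_cm B e⟩ B := by
  refine ⟨e, fun ψ => ?_⟩
  change ψ ∈ B.Φ ↔ (ψ.comp (e : K →+* B.E)).comp (e.symm : B.E →+* K) ∈ B.Φ
  have h1 : (ψ.comp (e : K →+* B.E)).comp (e.symm : B.E →+* K) = ψ := by
    ext x
    simp
  rw [h1]

/-- Being a factor depends only on the isomorphism class of the type. -/
theorem isCMFactor_of_same {X : AV} {A B : CMPair} (h : SameType A B) (hA : IsCMFactor A X) :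
    IsCMFactor B X := by
  obtain ⟨e, he⟩ := h
  obtain ⟨hprim, i, Ψ, hi, hΨ⟩ := hA
  have key : ∀ χ : A.E →+* ℂ, (χ.comp (e.symm : B.E →+* A.E)).comp (e : A.E →+* B.E) = χ := by
    intro χ
    ext x
    simp
  refine ⟨?_, ?_⟩
  · intro φ ψ h
    have h1 : φ.comp (e : A.E →+* B.E) = ψ.comp (e : A.E →+* B.E) := by
      apply hprim
      intro τ
      have h2 := h τ
      rw [he, he] at h2
      exact h2
    ext x
    have h2 := RingHom.congr_fun h1 (e.symm x)
    simpa using h2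
  · let es : B.E →ₗ[ℚ] A.E := (e.symm : B.E →+* A.E).toRatAlgHom.toLinearMap
    let Θ : (B.Φ → ℂ) →ₗ[ℂ] (A.Φ → ℂ) := LinearMap.funLeft ℂ ℂ fun χ : A.Φ =>
      (⟨χ.1.comp (e.symm : B.E →+* A.E), (he _).2 (by rw [key]; exact χ.2)⟩ : B.Φ)
    refine ⟨i.comp es, Ψ.comp Θ, hi.comp e.symm.injective, fun a => ?_⟩
    exact hΨ (e.symm a)

section fields

variable {L : Type} [Field L] [NumberField L] [IsCMField L] [IsGalois ℚ L]

/-- The isomorphism of the fields which is given by equal stabilizers. -/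
theorem exists_equiv_of_stb (A B : CMPair) (j : L →+* ℂ) (hA : Function.Injective (hs A j))
    (hB : Function.Injective (hs B j)) (φ : A.E →+* L) (ψ : B.E →+* L)
    (h : Comb.stb (hs A j φ) = Comb.stb (hs B j ψ)) : ∃ e : A.E ≃+* B.E, ∀ x, ψ (e x) = φ x := by
  have key : ∀ (A : CMPair), Function.Injective (hs A j) → ∀ φ : A.E →+* L,
      Comb.stb (hs A j φ) = (RingHom.equivRatAlgHom A.E L φ).fieldRange.fixingSubgroup := by
    intro A hA φ
    ext τ
    rw [IntermediateField.mem_fixingSubgroup_iff, Comb.mem_stb, tr_hs]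
    constructor
    · rintro h _ ⟨a, rfl⟩
      exact RingHom.congr_fun (hA h) a
    · intro h
      congr 1
      ext a
      exact h _ ⟨a, rfl⟩
  rw [key A hA, key B hB] at h
  have h1 : (RingHom.equivRatAlgHom A.E L φ).fieldRange =
      (RingHom.equivRatAlgHom B.E L ψ).fieldRange := by
    rw [← IsGalois.fixedField_fixingSubgroup (RingHom.equivRatAlgHom A.E L φ).fieldRange, h,
      IsGalois.fixedField_fixingSubgroup]
  have h2 : ∀ x, ∃ y, ψ y = φ x := by
    intro x
    have h3 : φ x ∈ (RingHom.equivRatAlgHom A.E L φ).fieldRange := ⟨x, rfl⟩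
    rw [h1] at h3
    exact h3
  have h3 : ∀ y, ∃ x, φ x = ψ y := by
    intro y
    have h4 : ψ y ∈ (RingHom.equivRatAlgHom B.E L ψ).fieldRange := ⟨y, rfl⟩
    rw [← h1] at h4
    exact h4
  choose f hf using h2
  choose g hg using h3
  refine ⟨
    { toFun := f
      invFun := g
      left_inv := fun x => φ.injective (by rw [hg, hf])
      right_inv := fun y => ψ.injective (by rw [hf, hg])
      map_mul' := fun x y => ψ.injective (by rw [map_mul, hf, hf, hf, map_mul])
      map_add' := fun x y => ψ.injective (by rw [map_add, hf, hf, hf, map_add]) }, fun x => hf x⟩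

/-- **Linear independence of the signs of half systems.** -/
theorem lin_eps {T : CMPair → Prop} (hNE : NoExc T) (hTs : ∀ A B, SameType A B → T A → T B)
    (j : L →+* ℂ) {ι : Type} [Finite ι] (A : ι → CMPair) (hA : ∀ i, T (A i))
    (hne : ∀ i k, i ≠ k → ¬ SameType (A i) (A k))
    (hj : ∀ i, ∀ ψ : (A i).E →+* ℂ, ∃ φ : (A i).E →+* L, j.comp φ = ψ)
    (hinj : ∀ i, Function.Injective (hs (A i) j)) (φ : ∀ i, (A i).E →+* L)
    (hst : ∀ i k, Comb.stb (hs (A i) j (φ i)) = Comb.stb (hs (A k) j (φ k)))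
    (hdeg : ∀ i, 6 ≤ finrank ℚ (A i).E) :
    LinearIndependent ℚ fun i => Comb.eps (hs (A i) j (φ i)) := by
  classical
  have := Fintype.ofFinite ι
  rcases isEmpty_or_nonempty ι with hι | ⟨⟨i0⟩⟩
  · exact linearIndependent_empty_type
  choose e he using fun i => exists_equiv_of_stb (A i0) (A i) j (hinj i0) (hinj i) (φ i0) (φ i)
    (hst i0 i)
  let Φ : ι → Set ((A i0).E →+* ℂ) := fun i => pullT (A i) (e i)
  have hΦ : ∀ i, IsCMType (Φ i) := fun i => pullT_cm (A i) (e i)
  have hsame : ∀ i, SameType ⟨(A i0).E, Φ i, hΦ i⟩ (A i) := fun i => sameType_pullT (A i) (e i)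
  let ee := Fintype.equivFin ι
  have h1 := hNE.indep (A i0).E (hdeg i0) (Fintype.card ι) (fun n => Φ (ee.symm n))
    (fun n => hΦ _) (fun n => hTs _ _ (sameType_symm (hsame _)) (hA _)) (fun n m hnm hs' => by
      refine hne _ _ (fun h => hnm (ee.symm.injective h)) ?_
      exact sameType_trans (sameType_symm (hsame _)) (sameType_trans hs' (hsame _)))
  have h2 : LinearIndependent ℚ fun i => sgn (Φ i) := by
    have h3 := h1.comp ee ee.injective
    have h4 : ((fun n => sgn (Φ (ee.symm n))) ∘ ee) = fun i => sgn (Φ i) := by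
      funext i
      change sgn (Φ (ee.symm (ee i))) = _
      rw [Equiv.symm_apply_apply]
    rwa [h4] at h3
  rw [Fintype.linearIndependent_iff] at h2 ⊢
  intro g hg
  refine h2 g ?_
  funext χ
  obtain ⟨ψ, hψ⟩ := hj i0 χ
  obtain ⟨σ, hσ⟩ := exists_smul (A i0) (φ i0) ψ
  have h3 := congrFun hg σ
  rw [Finset.sum_apply, Pi.zero_apply] at h3 ⊢
  rw [← h3]
  refine Finset.sum_congr rfl fun i _ => ?_
  rw [Pi.smul_apply, Pi.smul_apply]
  congr 1
  have h4 : χ ∈ Φ i ↔ σ ∈ hs (A i) j (φ i) := by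
    change χ.comp ((e i).symm : (A i).E →+* (A i0).E) ∈ (A i).Φ ↔ j.comp (σ • φ i) ∈ (A i).Φ
    have h5 : χ.comp ((e i).symm : (A i).E →+* (A i0).E) = j.comp (σ • φ i) := by
      ext y
      rw [← hψ, ← hσ]
      change j (σ (φ i0 ((e i).symm y))) = j (σ (φ i y))
      rw [← he i ((e i).symm y), RingEquiv.apply_symm_apply]
    rw [h5]
  unfold sgn Comb.eps
  by_cases h5 : χ ∈ Φ i
  · rw [if_pos h5, if_pos (h4.1 h5)]
  · rw [if_neg h5, if_neg (fun h6 => h5 (h4.2 h6))]

/-- The Galois group and the automorphisms of the field of complex numbers. -/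
theorem exists_gal' (A : CMPair) (j : L →+* ℂ) (τ : ℂ ≃+* ℂ) : ∃ g : L ≃ₐ[ℚ] L,
    ∀ χ : A.E →+* L, (τ : ℂ →+* ℂ).comp (j.comp χ) = j.comp (g • χ) := by
  obtain ⟨g, hg⟩ := Pool.Agent.H977R3.CM.exists_gal j τ
  refine ⟨g, fun χ => ?_⟩
  ext x
  exact hg (χ x)

theorem comp_inj (A : CMPair) (j : L →+* ℂ) {φ ψ : A.E →+* L} (h : j.comp φ = j.comp ψ) : φ = ψ :=
  RingHom.ext fun x => j.injective (RingHom.congr_fun h x)

theorem gen_sign (A : CMPair) (j : L →+* ℂ) (hgen : IsGeneric A.E) (φ : A.E →+* L) :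
    ∃ g : L ≃ₐ[ℚ] L, g • φ = cj φ ∧ ∀ ψ : A.E →+* L, ψ ≠ φ → ψ ≠ cj φ → g • ψ = ψ := by
  obtain ⟨τ, h1, h2⟩ := hgen.sign (j.comp φ)
  obtain ⟨g, hg⟩ := exists_gal' A j τ
  refine ⟨g, ?_, fun ψ h3 h4 => ?_⟩
  · apply comp_inj A j
    rw [← hg, h1, comp_cj]
  · apply comp_inj A j
    rw [← hg, h2]
    · exact fun h => h3 (comp_inj A j h)
    · rw [← comp_cj]
      exact fun h => h4 (comp_inj A j h)

theorem hs_inj_gen (A : CMPair) (j : L →+* ℂ) (hgen : IsGeneric A.E) :
    Function.Injective (hs A j) := by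
  intro φ ψ h
  by_contra hne
  have h1 : ψ ≠ cj φ := by
    rintro rfl
    rw [hs_cj] at h
    exact Comb.ne_compl _ h
  obtain ⟨g, h2, h3⟩ := gen_sign A j hgen φ
  have h4 := congrArg (Comb.tr g) h
  rw [tr_hs, tr_hs, h2, h3 ψ (Ne.symm hne) h1, hs_cj, ← h] at h4
  exact Comb.ne_compl _ h4.symm

theorem genOrb_hs (A : CMPair) (j : L →+* ℂ)
    (hj : ∀ ψ : A.E →+* ℂ, ∃ φ : A.E →+* L, j.comp φ = ψ) (hgen : IsGeneric A.E)
    (h6 : 6 < finrank ℚ A.E) : GenOrb (cc L) (Set.range (hs A j)) := by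
  have hinj := hs_inj_gen A j hgen
  refine ⟨stable_hs A j, trans_hs A j, compl_hs A j, ?_, ?_, ?_, ?_⟩
  · rintro _ ⟨φ, rfl⟩
    exact isHalf_hs A j φ
  · rw [ncard_range A j hj hinj]
    exact h6
  · rintro _ ⟨φ, rfl⟩
    obtain ⟨g, h1, h2⟩ := gen_sign A j hgen φ
    refine ⟨g, by rw [tr_hs, h1, hs_cj], ?_⟩
    rintro _ ⟨ψ, rfl⟩ h3 h4
    rw [tr_hs, h2 ψ (fun h => h3 (by rw [h])) (fun h => h4 (by rw [h, hs_cj]))]
  · rintro _ ⟨φ, rfl⟩ B hB h4
    let φ' : A.E →ₐ[ℚ] L := RingHom.equivRatAlgHom A.E L φ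
    have hst : Comb.stb (hs A j φ) = φ'.fieldRange.fixingSubgroup := by
      ext τ
      rw [IntermediateField.mem_fixingSubgroup_iff, Comb.mem_stb, tr_hs]
      constructor
      · rintro h _ ⟨a, rfl⟩
        exact RingHom.congr_fun (hinj h) a
      · intro h
        congr 1
        ext a
        exact h _ ⟨a, rfl⟩
    have hle : IntermediateField.fixedField B ≤ φ'.fieldRange := by
      rw [← IsGalois.fixedField_fixingSubgroup φ'.fieldRange, ← hst]
      exact IntermediateField.fixedField_antitone hB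
    let F₀ : IntermediateField ℚ A.E := (IntermediateField.fixedField B).comap φ'
    have h1 : F₀.map φ' = IntermediateField.fixedField B := by
      rw [IntermediateField.map_comap_eq, inf_eq_left]
      exact hle
    have h2 : finrank ℚ F₀ = B.index := by
      rw [(IntermediateField.equivMap F₀ φ').toLinearEquiv.finrank_eq, h1,
        IntermediateField.finrank_eq_fixingSubgroup_index,
        IntermediateField.fixingSubgroup_fixedField]
    have hQ : (Set.range (hs A j)).ncard = (Comb.stb (hs A j φ)).index := by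
      let _ : MulAction (L ≃ₐ[ℚ] L) (Set (L ≃ₐ[ℚ] L)) := trAct
      have e1 : MulAction.stabilizer (L ≃ₐ[ℚ] L) (hs A j φ) = Comb.stb (hs A j φ) := by
        ext τ
        exact Iff.rfl
      have e2 : MulAction.orbit (L ≃ₐ[ℚ] L) (hs A j φ) = Set.range (hs A j) := by
        ext T
        constructor
        · rintro ⟨τ, rfl⟩
          exact stable_hs A j τ _ ⟨φ, rfl⟩
        · intro hT
          obtain ⟨g, hg⟩ := trans_hs A j _ ⟨φ, rfl⟩ T hT
          exact ⟨g, hg⟩
      rw [← e1, MulAction.index_stabilizer, e2]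
    apply hgen.quart F₀
    rw [h2, ← ncard_range A j hj hinj, hQ, ← Subgroup.relIndex_mul_index hB, h4]

/-- **Hodge classes on products without exceptional configurations.** -/
theorem ring_gen (X : CMAV)
    (hdeg : ∀ i, finrank ℚ (X.factor i).E ≤ 6 ∨ IsGeneric (X.factor i).E) (T : CMPair → Prop)
    (hTs : ∀ A B, SameType A B → T A → T B)
    (hT : ∀ i, 2 < finrank ℚ (X.factor i).E → Primitive (X.factor i) → T (X.factor i))
    (hNE : NoExc T) {κ : Type} [Finite κ] (f : X.H1 [⋀^κ]→ₗ[ℚ] ℚ)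
    (hf : IsHodge X.per f) : DWRing X κ f := by
  classical
  refine ring_of_mono X ?_ f hf
  intro L _ _ _ _ j hj _ _ I hb
  have hc : ∀ g, cc L * g = g * cc L := fun g => cc_comm j g
  let O : Finset (Set (Set (L ≃ₐ[ℚ] L))) :=
    Finset.univ.image fun i : X.I => Set.range (hs (X.factor i) j)
  let O₁ : Finset (Set (Set (L ≃ₐ[ℚ] L))) := O.filter fun Q => Q.ncard ≤ 6
  have hmem : ∀ Q ∈ O, ∃ i, Q = Set.range (hs (X.factor i) j) := by
    intro Q hQ
    obtain ⟨i, -, h⟩ := Finset.mem_image.1 hQ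
    exact ⟨i, h.symm⟩
  -- the factors of small degree
  have hsmall : ∀ i, (Set.range (hs (X.factor i) j)).ncard ≤ 6 → finrank ℚ (X.factor i).E ≤ 6 := by
    intro i h
    rcases hdeg i with h1 | h1
    · exact h1
    · rwa [ncard_range _ j (hj i) (hs_inj_gen _ j h1)] at h
  have hOs : ∀ i, (Set.range (hs (X.factor i) j)).ncard ≤ 6 →
      Comb.IsOrbit (cc L) (Set.range (hs (X.factor i) j)) := fun i h =>
    isOrbit_hs (X.factor i) j (hj i) (hsmall i h)
  have hO₁ : ∀ Q ∈ O₁, Comb.IsOrbit (cc L) Q := by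
    intro Q hQ
    obtain ⟨h1, h2⟩ := Finset.mem_filter.1 hQ
    obtain ⟨i, rfl⟩ := hmem Q h1
    exact hOs i h2
  have hbig : ∀ i, ¬ (Set.range (hs (X.factor i) j)).ncard ≤ 6 →
      IsGeneric (X.factor i).E ∧ 6 < finrank ℚ (X.factor i).E := by
    intro i h
    have h2 : 6 < finrank ℚ (X.factor i).E := by
      have h3 := ncard_hs (X.factor i) j (hj i)
      omega
    rcases hdeg i with h1 | h1
    · omega
    · exact ⟨h1, h2⟩
  have hOO : ∀ Q ∈ O, Comb.IsOrbit (cc L) Q ∨ GenOrb (cc L) Q := by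
    intro Q hQ
    obtain ⟨i, rfl⟩ := hmem Q hQ
    by_cases h : (Set.range (hs (X.factor i) j)).ncard ≤ 6
    · exact Or.inl (hOs i h)
    · exact Or.inr (genOrb_hs _ j (hj i) (hbig i h).1 (hbig i h).2)
  have hdisj : ∀ Q ∈ O, ∀ Q' ∈ O, Q ≠ Q' → Disjoint Q Q' := by
    intro Q hQ Q' hQ' hne
    rw [Set.disjoint_left]
    intro S hS hS'
    apply hne
    obtain ⟨i, rfl⟩ := hmem Q hQ
    obtain ⟨i', rfl⟩ := hmem Q' hQ'
    ext R
    constructor
    · intro hR
      obtain ⟨g, rfl⟩ := trans_hs (X.factor i) j S hS R hR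
      exact stable_hs (X.factor i') j g S hS'
    · intro hR
      obtain ⟨g, rfl⟩ := trans_hs (X.factor i') j S hS' R hR
      exact stable_hs (X.factor i) j g S hS
  -- injectivity
  have hinj : ∀ i, 2 < (Set.range (hs (X.factor i) j)).ncard →
      Function.Injective (hs (X.factor i) j) := by
    intro i h
    by_cases h6 : (Set.range (hs (X.factor i) j)).ncard ≤ 6
    · exact hs_injective _ j (hj i) (hsmall i h6) h
    · exact hs_inj_gen _ j (hbig i h6).1
  have hlt : ∀ i, 2 < (Set.range (hs (X.factor i) j)).ncard → 2 < finrank ℚ (X.factor i).E :=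
    fun i h => lt_of_lt_of_le h (ncard_hs (X.factor i) j (hj i))
  have hTi : ∀ i, 2 < (Set.range (hs (X.factor i) j)).ncard → T (X.factor i) := fun i h =>
    hT i (hlt i h) (primitive_of_inj _ j (hj i) (hinj i h))
  have h46 : ∀ i, 2 < (Set.range (hs (X.factor i) j)).ncard →
      (Set.range (hs (X.factor i) j)).ncard ≤ 6 →
      finrank ℚ (X.factor i).E = 4 ∨ finrank ℚ (X.factor i).E = 6 := by
    intro i h1 h2
    rw [← ncard_range _ j (hj i) (hinj i h1)]
    obtain ⟨m, hm⟩ := even_orbit (hOs i h2)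
    omega
  have hcl : ∀ i k, 2 < (Set.range (hs (X.factor i) j)).ncard →
      2 < (Set.range (hs (X.factor k) j)).ncard →
      Comb.kerP (Set.range (hs (X.factor i) j)) = Comb.kerP (Set.range (hs (X.factor k) j)) →
      normalClosure ℚ (X.factor i).E ℂ = normalClosure ℚ (X.factor k).E ℂ := by
    intro i k h2 h2' hker
    exact le_antisymm
      (normalClosure_le (X.factor i) (X.factor k) j (hj i) (hinj i h2) hker.ge)
      (normalClosure_le (X.factor k) (X.factor i) j (hj k) (hinj k h2') hker.le)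
  -- linear independence
  have hlin : ∀ {J : Type} [Finite J] (Q : J → Set (Set (L ≃ₐ[ℚ] L))),
      Function.Injective Q → (∀ a, Q a ∈ O) → (∀ a, 6 ≤ (Q a).ncard) →
      ∀ S : J → Set (L ≃ₐ[ℚ] L), (∀ a, S a ∈ Q a) → (∀ a b, Comb.stb (S a) = Comb.stb (S b)) →
      LinearIndependent ℚ fun a => Comb.eps (S a) := by
    intro J _ Q hQinj hQ h6 S hS hst
    have hi : ∀ a, ∃ i, Q a = Set.range (hs (X.factor i) j) := fun a => hmem _ (hQ a)
    choose i hi using hi
    have h2 : ∀ a, 2 < (Set.range (hs (X.factor (i a)) j)).ncard := fun a => by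
      rw [← hi a]
      exact lt_of_lt_of_le (by norm_num) (h6 a)
    have hS' : ∀ a, ∃ φ, hs (X.factor (i a)) j φ = S a := by
      intro a
      have h := hS a
      rw [hi a] at h
      exact h
    choose φ hφ using hS'
    have h3 := lin_eps hNE hTs j (fun a => X.factor (i a)) (fun a => hTi _ (h2 a))
      (fun a b hab h => hab (hQinj (by
        rw [hi a, hi b]
        exact range_eq_of_sameType _ _ j h))) (fun a => hj _) (fun a => hinj _ (h2 a)) φ
      (fun a b => by
        rw [hφ, hφ]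
        exact hst a b) (fun a => by
        have h4 := h6 a
        rw [hi a] at h4
        exact h4.trans (ncard_hs _ j (hj _)))
    have h4 : (fun a => Comb.eps (hs (X.factor (i a)) j (φ a))) = fun a => Comb.eps (S a) := by
      funext a
      rw [hφ]
    rwa [h4] at h3
  have hNEO : NEO {Q | Q ∈ O₁} := by
    refine ⟨?_, ?_⟩
    · intro Q₁ hQ₁ Q₂ hQ₂ Q₃ hQ₃ l1 l2 l3 k12 k13 n12 n13 n23
      obtain ⟨m1, s1⟩ := Finset.mem_filter.1 hQ₁
      obtain ⟨m2, s2⟩ := Finset.mem_filter.1 hQ₂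
      obtain ⟨m3, s3⟩ := Finset.mem_filter.1 hQ₃
      obtain ⟨i1, rfl⟩ := hmem Q₁ m1
      obtain ⟨i2, rfl⟩ := hmem Q₂ m2
      obtain ⟨i3, rfl⟩ := hmem Q₃ m3
      rw [index_kerP _ j (hj i1) (hinj i1 l1)]
      exact hNE.three _ _ _ (hTi i1 l1) (hTi i2 l2) (hTi i3 l3) (ne_of_not_same j n12)
        (ne_of_not_same j n13) (ne_of_not_same j n23) (h46 i1 l1 s1) (h46 i2 l2 s2) (h46 i3 l3 s3)
        (hcl i1 i2 l1 l2 k12) (hcl i1 i3 l1 l3 k13)
    · intro Q hQ hQinj h6 S hS hst
      have h1 := hlin Q hQinj (fun a => (Finset.mem_filter.1 (hQ a)).1) (fun a => (h6 a).ge) S hS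
        fun a b => (hst a).trans (hst b).symm
      have h2 : ∀ a, Comb.IsOrbit (cc L) (Q a) := fun a => hO₁ _ (hQ a)
      obtain ⟨a, ha, hrel⟩ := rel_stb (c := cc L) (S := S) (fun i => (h2 i).half _ (hS i)) hst (by
        rw [stb_index (h2 0) (hS 0), h6])
      rw [Fintype.linearIndependent_iff] at h1
      apply ha
      funext i
      refine h1 a ?_ i
      funext σ
      rw [Finset.sum_apply, Pi.zero_apply, ← hrel σ]
      rfl
  refine algX_of_blocks j X (fun S => ∃ Q ∈ O, S ∈ Q) (fun κ _ _ _ s hs' hbal hpair => ?_) _ _ rfl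
    (fun k => St j (I k)) ?_ hb I (fun k => rfl)
  · -- all elements lie in small orbits
    have hs₁ : ∀ k, ∃ Q ∈ O₁, s k ∈ Q := by
      intro k
      obtain ⟨Q, hQ, hk⟩ := hs' k
      refine ⟨Q, Finset.mem_filter.2 ⟨hQ, ?_⟩, hk⟩
      by_contra h6
      have hGen : GenOrb (cc L) Q := by
        obtain ⟨i, rfl⟩ := hmem Q hQ
        exact genOrb_hs _ j (hj i) (hbig i h6).1 (hbig i h6).2
      have hP : ∀ S ∈ {S | ∃ Q ∈ O, S ∈ Q}, Sᶜ ∈ {S | ∃ Q ∈ O, S ∈ Q} := by
        rintro S ⟨Q', hQ', hS⟩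
        refine ⟨Q', hQ', ?_⟩
        obtain ⟨i', rfl⟩ := hmem Q' hQ'
        exact compl_hs (X.factor i') j S hS
      have hrel := isRel_cnt hP s hs' hbal
      have h0 := gen_vanish hc O hOO hdisj (fun J T' hJ hT' hst => hlin (fun Q : J => Q.1)
        Subtype.val_injective (fun Q => (hJ Q.1 Q.2).1) (fun Q => (hJ Q.1 Q.2).2.large.le) T' hT'
        hst) (P := {S | ∃ Q ∈ O, S ∈ Q}) (fun S => Iff.rfl) hrel hQ hGen hk
      have h1 : cnt s (s k) - cnt s (s k)ᶜ = 0 := h0
      rw [cnt_eq_zero s _ (hpair k), sub_zero] at h1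
      have h2 : 0 < cnt s (s k) := (cnt_pos_iff s _).2 ⟨k, rfl⟩
      exact h2.ne' h1
    exact block_family_ne j O₁ hO₁ (fun Q hQ Q' hQ' => hdisj Q (Finset.mem_filter.1 hQ).1 Q'
      (Finset.mem_filter.1 hQ').1) hNEO X κ s hs₁ hbal hpair
  · intro k
    exact ⟨_, Finset.mem_image.2 ⟨(I k).1, Finset.mem_univ _, rfl⟩, (I k).2, rfl⟩

end fields

end

end Pool.Agent.K4H29.HC
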