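import Mathlib
import Pool.Agent.K4H29.HC.Pos
import Pool.Agent.K4H29.HC.GenF

/-!
# Products without exceptional configurations, all dimensions
-/

set_option linter.unusedSectionVars false
set_option linter.unusedVariables false

namespace Pool.Agent.K4H29.HC

open Matrix Module Pool.Agent.Y90 NumberField Pool.Agent.W437.HC Pool.Agent.R915
open Pool.Agent.TH504.CB (isHodge_comp)
open Pool.Agent.H204R3.CM (IsHodge IsCMType)
open Pool.Agent.W547.KB (CMPair CMAV)
open Pool.Agent.W547.LN (SameType)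

noncomputable section

theorem hasCMult_of_type {Y : AV} {P : CMPair} (h : IsOfType Y P) : HasCMult Y := by
  obtain ⟨e, Ψ, hΨ⟩ := h
  let F : P.E →ₐ[ℚ] Module.End ℚ Y.H :=
    (e.symm.conjAlgEquiv ℚ).toAlgHom.comp (Algebra.lmul ℚ P.E)
  have hF : ∀ a v, F a v = e.symm (a * e v) := fun a v => rfl
  have hinj : Function.Injective F := by
    intro a b h
    have h1 := LinearMap.congr_fun h (e.symm 1)
    rw [hF, hF, e.apply_symm_apply, mul_one, mul_one] at h1
    exact e.symm.injective h1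
  refine ⟨F.range, ?_, ?_, ?_⟩
  · rintro _ ⟨a, rfl⟩ _ ⟨b, rfl⟩
    change F a * F b = F b * F a
    rw [← map_mul, ← map_mul, mul_comm]
  · rw [← (AlgEquiv.ofInjective F hinj).toLinearEquiv.finrank_eq]
    exact e.finrank_eq.symm
  · rintro _ ⟨a, rfl⟩
    refine ⟨Ψ.symm.toLinearMap.comp ((LinearMap.pi fun φ : P.Φ => (φ.1 a) • LinearMap.proj φ :
      (P.Φ → ℂ) →ₗ[ℂ] (P.Φ → ℂ)).comp Ψ.toLinearMap), fun v => ?_⟩
    change Ψ.symm _ = Y.per (F a v)
    rw [LinearEquiv.symm_apply_eq]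
    funext φ
    rw [hΨ, hF, e.apply_symm_apply, map_mul]
    change φ.1 a * Ψ (Y.per v) φ = _
    rw [hΨ]

/-- Hodge classes on products without exceptional configurations. -/
theorem prod_gen (𝒜 : Sys) (T : CMPair → Prop) (hTs : ∀ A B, SameType A B → T A → T B)
    (hNE : NoExc T) {Q : Type} [Fintype Q] [DecidableEq Q]
    {a : Q → ℕ} {Z' : ∀ q, Matrix (Fin (a q)) (Fin (a q)) ℂ} (h' : ∀ q, PM (Z' q))
    (hty : ∀ q, ∃ P : CMPair, IsOfType (AVZ (h' q)) P ∧ (finrank ℚ P.E ≤ 6 ∨ IsGeneric P.E))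
    (hT : ∀ (q : Q) (P : CMPair), IsOfType (AVZ (h' q)) P → 2 < finrank ℚ P.E → Primitive P → T P) :
    𝒜.AllHodge (AVQ h') := by
  choose P hP hdeg using hty
  choose e Ψ hΨ using hP
  intro κ _ f hf
  let X : CMAV := ⟨Q, P⟩
  -- the isomorphism of the homology
  let ε : (BQ a → ℚ) ≃ₗ[ℚ] X.H1 :=
    { toFun := fun w q => e q (cQ q w)
      invFun := fun x y => (e y.1).symm (x y.1) y.2
      left_inv := fun w => by
        funext y
        change (e y.1).symm (e y.1 (cQ y.1 w)) y.2 = w y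
        rw [LinearEquiv.symm_apply_apply]
        rfl
      right_inv := fun x => by
        funext q
        change e q (fun i => (e q).symm (x q) i) = x q
        exact (e q).apply_symm_apply (x q)
      map_add' := fun v w => by
        funext q
        exact map_add (e q) (cQ q v) (cQ q w)
      map_smul' := fun c v => by
        funext q
        exact map_smul (e q) c (cQ q v) }
  let Θ : (AVQ h').T ≃ₗ[ℂ] X.Tan := LinearEquiv.piCongrRight Ψ
  have hΘ : ∀ v, Θ ((AVQ h').per v) = X.per (ε v) := by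
    intro v
    funext q φ
    exact hΨ q (cQ q v) φ
  have hΘs : ∀ x, Θ.symm (X.per x) = (AVQ h').per (ε.symm x) := by
    intro x
    rw [LinearEquiv.symm_apply_eq, hΘ, ε.apply_symm_apply]
  have h1 : IsHodge X.per (f.compLinearMap ε.symm.toLinearMap) :=
    isHodge_comp ε.symm.toLinearMap Θ.symm.toLinearMap hΘs hf
  have h2 := ring_gen X hdeg T hTs (fun q h3 h4 => hT q (P q) ⟨e q, Ψ q, hΨ q⟩ h3 h4) hNE _ h1
  have h3 := ring_alg 𝒜 h2 (AVQ h') ε.toLinearMap Θ.toLinearMap hΘ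
  have h4 : (f.compLinearMap ε.symm.toLinearMap).compLinearMap ε.toLinearMap = f := by
    ext v
    rw [AlternatingMap.compLinearMap_apply, AlternatingMap.compLinearMap_apply]
    congr 1
    funext k
    exact ε.symm_apply_apply (v k)
  rwa [h4] at h3

/-- The positive half. -/
theorem pos_gen (𝒜 : Sys) (X : AV)
    (hX : ∀ Y, IsFactor Y X → finrank ℚ Y.H ≤ 6 ∨ GenericCM Y ∨ (¬ HasCMult Y ∧ (QuadMult Y ∨
      RealMult Y ∨ FiveDim Y ∨ FullHodge Y)))
    (hNE : NoExc fun A => IsCMFactor A X) {ι : Type} [Fintype ι] :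
    𝒜.AllHodge (prodAV fun _ : ι => X) := by
  refine main_cm 𝒜 _ (fun a Z' h' i hi hinj hsim ha => ?_) fun Q _ _ a Z' h' hc => ?_
  · by_cases hcm : HasCMult (AVZ h')
    · exact Or.inr hcm
    refine Or.inl ⟨hcm, fun U hU => ?_⟩
    rcases hX (AVZ h') (isFactor_of_pow ⟨hsim, i, hi, hinj⟩) with k | ⟨P, hP, -⟩ | ⟨-, k | k | k | k⟩
    · exact SmallDim.lc h' hsim ha ⟨k, fun h1 => absurd h1 hcm⟩ hU
    · exact absurd (hasCMult_of_type hP) hcm
    · exact k.lc h' hU
    · exact k.lc h' hsim ha hU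
    · exact k.lc h' hsim ha hU
    · exact k.lc h' hsim ha hU
  · refine prod_gen 𝒜 _ (fun A B h hA => isCMFactor_of_same h hA) hNE h' (fun q => ?_)
      fun q P hP h2 hprim => ?_
    · have hsmall : finrank ℚ (AVZ (h' q)).H ≤ 6 →
          ∃ P : CMPair, IsOfType (AVZ (h' q)) P ∧ (finrank ℚ P.E ≤ 6 ∨ IsGeneric P.E) := by
        intro k
        obtain ⟨P, hP⟩ := exists_type (hc q).1 (hc q).2.1
        refine ⟨P, hP, Or.inl ?_⟩
        obtain ⟨e, -⟩ := hP
        rw [← e.finrank_eq]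
        exact k
      rcases (hc q).2.2 with h1 | ⟨h1, -⟩
      · rcases hX _ (isFactor_of_pow h1) with k | ⟨P, hP, hg⟩ | ⟨k, -⟩
        · exact hsmall k
        · exact ⟨P, hP, Or.inr hg⟩
        · exact absurd (hc q).2.1 k
      · refine hsmall ?_
        rw [h1]
        norm_num
    · obtain ⟨e, Ψ, hΨ⟩ := hP
      rcases (hc q).2.2 with h1 | ⟨h1, -⟩
      · obtain ⟨-, i, ⟨Φ, hΦ⟩, hinj⟩ := isFactor_of_pow h1
        refine ⟨hprim, i.comp e.symm.toLinearMap, Φ.comp Ψ.symm.toLinearMap,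
          hinj.comp e.symm.injective, fun a => ?_⟩
        have h3 : (fun φ : P.Φ => φ.1 a) = Ψ ((AVZ (h' q)).per (e.symm a)) := by
          funext φ
          rw [hΨ, LinearEquiv.apply_symm_apply]
        rw [h3]
        change Φ (Ψ.symm (Ψ _)) = _
        rw [LinearEquiv.symm_apply_apply, hΦ]
        rfl
      · rw [← e.finrank_eq] at h2
        omega

end

end Pool.Agent.K4H29.HC
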