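import Mathlib
import Pool.Agent.K4H29.HC.PosG
import Pool.Agent.K4H29.HC.End

/-!
# Exceptional configurations in all dimensions are obstructions
-/

set_option linter.unusedSectionVars false
set_option linter.unusedVariables false

namespace Pool.Agent.K4H29.HC

open Module NumberField Pool.Agent.Y90 Pool.Agent.R915 Equiv
open Pool.Agent.H204R3.CM (IsHodge IsCMType)
open Pool.Agent.W547.KB Pool.Agent.W547.LN
open Pool.Agent.W547.LD (hs tr_hs stable_hs compl_hs trans_hs isHalf_hs ncard_hs)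
open Pool.Agent.W547.LD

noncomputable section

/-- Types of generic fields are primitive. -/
theorem primitive_of_generic (P : CMPair) (h : IsGeneric P.E) : Primitive P := by
  intro φ ψ hφψ
  by_contra hne
  have h0 := hφψ (RingEquiv.refl ℂ)
  have e0 : ∀ χ : P.E →+* ℂ, ((RingEquiv.refl ℂ : ℂ ≃+* ℂ) : ℂ →+* ℂ).comp χ = χ := fun χ => rfl
  rw [e0, e0] at h0
  have h1 : ψ ≠ ComplexEmbedding.conjugate φ := by
    rintro rfl
    have h2 := P.isCMType φ
    tauto
  obtain ⟨τ, t1, t2⟩ := h.sign φ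
  have h2 := hφψ τ
  rw [t1, t2 ψ (Ne.symm hne) h1] at h2
  have h3 := P.isCMType φ
  tauto

theorem IsGeneric.of_equiv {K K' : Type} [Field K] [NumberField K] [Field K'] [NumberField K']
    (e : K ≃+* K') (h : IsGeneric K') : IsGeneric K := by
  have key : ∀ φ : K →+* ℂ, (φ.comp (e.symm : K' →+* K)).comp (e : K →+* K') = φ := by
    intro φ
    ext x
    simp
  have inj : ∀ {φ ψ : K' →+* ℂ}, φ.comp (e : K →+* K') = ψ.comp (e : K →+* K') → φ = ψ := by
    intro φ ψ h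
    ext x
    have h1 := RingHom.congr_fun h (e.symm x)
    simpa using h1
  have inj' : ∀ {φ ψ : K →+* ℂ}, φ.comp (e.symm : K' →+* K) = ψ.comp (e.symm : K' →+* K) →
      φ = ψ := by
    intro φ ψ h
    rw [← key φ, h, key]
  have cnj : ∀ φ : K →+* ℂ, ComplexEmbedding.conjugate (φ.comp (e.symm : K' →+* K)) =
      (ComplexEmbedding.conjugate φ).comp (e.symm : K' →+* K) := fun φ => rfl
  constructor
  · intro φ
    obtain ⟨τ, t1, t2⟩ := h.sign (φ.comp (e.symm : K' →+* K))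
    refine ⟨τ, ?_, fun ψ h1 h2 => ?_⟩
    · apply inj'
      exact t1
    · apply inj'
      refine t2 _ (fun h3 => h1 (inj' h3)) fun h3 => h2 (inj' ?_)
      rw [h3, cnj]
  · intro F₀ hF
    let e' : K ≃ₐ[ℚ] K' := AlgEquiv.ofRingEquiv (f := e) (fun q => by
      rw [eq_ratCast, eq_ratCast, map_ratCast])
    apply h.quart (F₀.map (e' : K →ₐ[ℚ] K'))
    rw [← (IntermediateField.equivMap F₀ (e' : K →ₐ[ℚ] K')).toLinearEquiv.finrank_eq, hF]
    exact e'.toLinearEquiv.finrank_eq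

/-- The CM field of a factor. -/
theorem field_of_factor {X : AV} {R : AV → Prop}
    (hX : ∀ Y, IsFactor Y X → finrank ℚ Y.H ≤ 6 ∨ GenericCM Y ∨ (¬ HasCMult Y ∧ R Y)) {A : CMPair}
    (hA : IsCMFactor A X) : finrank ℚ A.E ≤ 6 ∨ IsGeneric A.E := by
  obtain ⟨hp, hf⟩ := factor_of_cm hA
  rcases hX _ hf with h | ⟨P, ⟨e, Ψ, hΨ⟩, hg⟩ | ⟨h, -⟩
  · exact Or.inl h
  · right
    have hPs : ∀ b, Ψ.symm (perC P b) = (avP A hp).per (e.symm b) := by
      intro b
      rw [LinearEquiv.symm_apply_eq]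
      funext φ
      rw [hΨ, e.apply_symm_apply]
      rfl
    have hp' : ∃ E, IsPolarization (perC P) E :=
      pol_of_factor e.symm.toLinearMap Ψ.symm.toLinearMap e.symm.injective hPs
    have h1 : IsHom (avP A hp) (avP P hp') e.toLinearMap := ⟨Ψ.toLinearMap, fun v => by
      funext φ
      exact hΨ v φ⟩
    have h2 : SameType A P := by
      by_contra hne
      have h3 := hom_zero (hP := hp) (hQ := hp') hA.1 (primitive_of_generic P hg) hne
        (f := e.toLinearMap) h1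
      have h4 : e.toLinearMap (1 : A.E) = 0 := by
        rw [h3]
        rfl
      have h5 : (1 : A.E) = 0 := (LinearEquiv.map_eq_zero_iff e).1 h4
      exact one_ne_zero h5
    obtain ⟨e', -⟩ := h2
    exact hg.of_equiv e'
  · exact absurd (hasCMult_avP A hp) h

theorem sgn_cases {K : Type} [Field K] (Φ : Set (K →+* ℂ)) (φ : K →+* ℂ) :
    sgn Φ φ = 1 ∨ sgn Φ φ = -1 := by
  unfold sgn
  split_ifs
  · exact Or.inl rfl
  · exact Or.inr rfl

theorem sgn_iff {K : Type} [Field K] {Φ Φ' : Set (K →+* ℂ)} {φ : K →+* ℂ}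
    (h : sgn Φ φ = sgn Φ' φ) : φ ∈ Φ ↔ φ ∈ Φ' := by
  unfold sgn at h
  split_ifs at h with h1 h2 h2
  · exact iff_of_true h1 h2
  · norm_num at h
  · norm_num at h
  · exact iff_of_false h1 h2

theorem sgn_neg_iff {K : Type} [Field K] {Φ Φ' : Set (K →+* ℂ)} {φ : K →+* ℂ}
    (h : sgn Φ φ = -sgn Φ' φ) : φ ∈ Φ ↔ φ ∉ Φ' := by
  unfold sgn at h
  split_ifs at h with h1 h2 h2
  · norm_num at h
  · exact iff_of_true h1 h2
  · exact iff_of_false h1 (fun h3 => h3 h2)
  · norm_num at h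

/-- Types with proportional sign vectors are isomorphic. -/
theorem same_of_prop {K : Type} [Field K] [NumberField K] [IsCMField K] {Φ Φ' : Set (K →+* ℂ)}
    (hΦ : IsCMType Φ) (hΦ' : IsCMType Φ') {a b : ℚ} (ha : a ≠ 0)
    (h : ∀ φ, a * sgn Φ φ + b * sgn Φ' φ = 0) : SameType ⟨K, Φ, hΦ⟩ ⟨K, Φ', hΦ'⟩ := by
  obtain ⟨φ₀⟩ : Nonempty (K →+* ℂ) := inferInstance
  have h0 := h φ₀
  have hab : a = b ∨ a = -b := by
    rcases sgn_cases Φ φ₀ with h1 | h1 <;> rcases sgn_cases Φ' φ₀ with h2 | h2 <;>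
      rw [h1, h2] at h0
    · right
      linarith
    · left
      linarith
    · left
      linarith
    · right
      linarith
  rcases hab with rfl | rfl
  · -- opposite types
    refine ⟨(IsCMField.complexConj K).toRingEquiv, fun ψ => ?_⟩
    have h1 : ψ.comp ((IsCMField.complexConj K).toRingEquiv : K →+* K) =
        ComplexEmbedding.conjugate ψ := by
      ext x
      change ψ (IsCMField.complexConj K x) = _
      rw [IsCMField.complexEmbedding_complexConj]
      rfl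
    change ψ ∈ Φ' ↔ ψ.comp ((IsCMField.complexConj K).toRingEquiv : K →+* K) ∈ Φ
    rw [h1]
    have h2 : sgn Φ ψ = -sgn Φ' ψ := by
      have h3 := h ψ
      have h4 : a * (sgn Φ ψ + sgn Φ' ψ) = 0 := by linarith
      have h5 := (mul_eq_zero.1 h4).resolve_left ha
      linarith
    have h3 := sgn_neg_iff h2
    have h4 := hΦ ψ
    tauto
  · have h1 : Φ = Φ' := by
      ext ψ
      apply sgn_iff
      have h3 := h ψ
      have h4 : b * (sgn Φ' ψ - sgn Φ ψ) = 0 := by linarith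
      have h5 := (mul_eq_zero.1 h4).resolve_left (fun h6 => ha (by rw [h6, neg_zero]))
      linarith
    subst h1
    exact ⟨RingEquiv.refl K, fun ψ => Iff.rfl⟩

section field

variable {L : Type} [Field L] [NumberField L] [IsCMField L] [IsGalois ℚ L]

/-- Generic fields contain no imaginary quadratic field. -/
theorem no_sqrt_generic (A : CMPair) (j : L →+* ℂ)
    (hj : ∀ ψ : A.E →+* ℂ, ∃ φ : A.E →+* L, j.comp φ = ψ) (hgen : IsGeneric A.E)
    (h6 : 2 < finrank ℚ A.E) {δ : A.E} {d : ℚ} (hd : 0 < d) (h : δ * δ = -(d : A.E)) : False := by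
  obtain ⟨φ⟩ := exists_hom A j hj
  obtain ⟨g, h1, h2⟩ := gen_sign A j hgen φ
  have hinj := hs_inj_gen A j hgen
  obtain ⟨_, ⟨ψ, rfl⟩, h3, h4⟩ := exists_other (Q := Set.range (hs A j)) (by
    rw [ncard_range A j hj hinj]
    exact h6) (hs A j φ)
  have h5 := h2 ψ (fun h => h3 (by rw [h])) (fun h => h4 (by rw [h, hs_cj]))
  have e3 : g (φ δ) = -φ δ := (RingHom.congr_fun h1 δ).trans (cj_neg _ j _ hd h)
  have e4 : g (ψ δ) = ψ δ := RingHom.congr_fun h5 δ
  have e5 : g (φ δ) = φ δ := by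
    rcases sq_pm ψ φ h with h5 | h5
    · rw [h5, e4]
    · rw [h5, map_neg, e4]
  rw [e5] at e3
  exact val_ne φ hd h (self_eq_neg.1 e3)

/-- Sextic fields with a large closure contain no imaginary quadratic field. -/
theorem no_sqrt_six (A : CMPair) (j : L →+* ℂ)
    (hj : ∀ ψ : A.E →+* ℂ, ∃ φ : A.E →+* L, j.comp φ = ψ) (hprim : Primitive A)
    (h6 : finrank ℚ A.E = 6)
    (h12 : ¬ finrank ℚ (IntermediateField.normalClosure ℚ A.E ℂ) ≤ 12) {δ : A.E} {d : ℚ}
    (hd : 0 < d) (h : δ * δ = -(d : A.E)) : False := by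
  have hinj := inj_of_primitive A j hprim
  have hQ := isOrbit_hs A j hj h6.le
  have hnm : ¬ NotMixed (Set.range (hs A j)) := by
    intro hnm
    apply h12
    have h1 := index_notMixed hQ ((ncard_range A j hj hinj).trans h6) hnm
    rwa [index_kerP A j hj hinj] at h1
  unfold NotMixed at hnm
  push Not at hnm
  obtain ⟨τ, h1, ⟨_, ⟨φ1, rfl⟩, h2⟩, _, ⟨φ2, rfl⟩, h3⟩ := hnm
  have e1 : τ • φ1 = cj φ1 := by
    apply hinj
    rw [← tr_hs, hs_cj]
    exact (h1 _ ⟨φ1, rfl⟩).resolve_left h2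
  have e2 : τ • φ2 = φ2 := by
    apply hinj
    rw [← tr_hs]
    exact (h1 _ ⟨φ2, rfl⟩).resolve_right h3
  have e3 : τ (φ1 δ) = -φ1 δ := (RingHom.congr_fun e1 δ).trans (cj_neg _ j _ hd h)
  have e4 : τ (φ2 δ) = φ2 δ := RingHom.congr_fun e2 δ
  have e5 : τ (φ1 δ) = φ1 δ := by
    rcases sq_pm φ2 φ1 h with h5 | h5
    · rw [h5, e4]
    · rw [h5, map_neg, e4]
  rw [e5] at e3
  exact val_ne φ1 hd h (self_eq_neg.1 e3)

/-- **Linearly dependent types of one field.** -/
theorem dep_neg (j : L →+* ℂ) (X : AV) {K : Type} [Field K] [NumberField K] [IsCMField K] {r : ℕ}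
    (Φ : Fin r → Set (K →+* ℂ)) (hΦ : ∀ i, IsCMType (Φ i))
    (hfac : ∀ i, IsCMFactor ⟨K, Φ i, hΦ i⟩ X)
    (hne : ∀ i k, i ≠ k → ¬ SameType ⟨K, Φ i, hΦ i⟩ ⟨K, Φ k, hΦ k⟩)
    (hj : ∀ ψ : K →+* ℂ, ∃ φ : K →+* L, j.comp φ = ψ) {c : Fin r → ℚ}
    (hc : ∀ ψ : K →+* ℂ, ∑ i, c i * sgn (Φ i) ψ = 0) {i0 : Fin r} (h0 : c i0 ≠ 0)
    (hδ : ∀ (δ : K) (d : ℚ), 0 < d → δ * δ = -(d : K) → False) :
    ∃ (κ : Type) (_ : Fintype κ) (f : (prodAV fun _ : κ => X).H [⋀^κ]→ₗ[ℚ] ℚ),
      IsHodge (prodAV fun _ : κ => X).per f ∧ ¬ AlgW (prodAV fun _ : κ => X) κ f := by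
  classical
  let A : Fin r → CMPair := fun i => ⟨K, Φ i, hΦ i⟩
  let φ₀ : K →+* L := (exists_hom (A i0) j hj).some
  refine obstruct2 j X A hfac i0 (fun i hi => hne i0 i hi.symm) (M := Unit) (fun i _ => φ₀)
    (fun i _ => c i) (fun σ => ?_) hj ?_ ?_ ?_ ?_
  · rw [← hc (j.comp (σ • φ₀))]
    refine Finset.sum_congr rfl fun i _ => ?_
    rw [Fintype.sum_unique]
    rfl
  · intro x y _
    rfl
  · intro x y
    exact ne_cj (A i0) j (Comb.ne_compl _)
  · intro h
    exact h0 (congrFun h ())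
  · intro δ d hd h
    exact (hδ δ d hd h).elim

end field

/-- **Exceptional configurations produce Hodge classes outside the algebra of divisor and Weil
classes.** -/
theorem neg_gen (X : AV) {R : AV → Prop}
    (hX : ∀ Y, IsFactor Y X → finrank ℚ Y.H ≤ 6 ∨ GenericCM Y ∨ (¬ HasCMult Y ∧ R Y))
    (h : ¬ NoExc fun A => IsCMFactor A X) :
    ∃ (κ : Type) (_ : Fintype κ) (f : (prodAV fun _ : κ => X).H [⋀^κ]→ₗ[ℚ] ℚ),
      IsHodge (prodAV fun _ : κ => X).per f ∧ ¬ AlgW (prodAV fun _ : κ => X) κ f := by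
  classical
  by_contra hcon
  have hthree : ∀ A B C : CMPair, IsCMFactor A X → IsCMFactor B X → IsCMFactor C X →
      ¬ SameType A B → ¬ SameType A C → ¬ SameType B C →
      (finrank ℚ A.E = 4 ∨ finrank ℚ A.E = 6) → (finrank ℚ B.E = 4 ∨ finrank ℚ B.E = 6) →
      (finrank ℚ C.E = 4 ∨ finrank ℚ C.E = 6) →
      IntermediateField.normalClosure ℚ A.E ℂ = IntermediateField.normalClosure ℚ B.E ℂ →
      IntermediateField.normalClosure ℚ A.E ℂ = IntermediateField.normalClosure ℚ C.E ℂ →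
      12 < finrank ℚ (IntermediateField.normalClosure ℚ A.E ℂ) := by
    intro A B C hA hB hC nAB nAC nBC dA dB dC cAB cAC
    by_contra h12
    apply hcon
    let F : Fin 3 → CMPair := ![A, B, C]
    have hd : ∀ i, finrank ℚ (F i).E = 4 ∨ finrank ℚ (F i).E = 6 := by
      intro i
      fin_cases i
      · exact dA
      · exact dB
      · exact dC
    obtain ⟨L, _, _, _, _, j, hj⟩ := exists_cm ⟨Fin 3, F⟩
    refine three_neg j X F ?_ ?_ (fun i => ?_) (fun i => ?_) hj ?_ (not_lt.1 h12)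
    · intro i
      fin_cases i
      · exact hA
      · exact hB
      · exact hC
    · intro i k hik hs
      fin_cases i <;> fin_cases k
      · exact hik rfl
      · exact nAB hs
      · exact nAC hs
      · exact nAB (sameType_symm hs)
      · exact hik rfl
      · exact nBC hs
      · exact nAC (sameType_symm hs)
      · exact nBC (sameType_symm hs)
      · exact hik rfl
    · rcases hd i with h | h <;> rw [h] <;> norm_num
    · rcases hd i with h | h <;> rw [h]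
      norm_num
    · intro i
      fin_cases i
      · rfl
      · exact cAB.symm
      · exact cAC.symm
  apply h
  refine ⟨hthree, ?_⟩
  intro K _ _ _ h6 r Φ hΦ hfac hne
  by_contra hlin
  rw [Fintype.linearIndependent_iff] at hlin
  push Not at hlin
  obtain ⟨c, hc, i0, hi0⟩ := hlin
  have hc' : ∀ ψ : K →+* ℂ, ∑ i, c i * sgn (Φ i) ψ = 0 := by
    intro ψ
    have h1 := congrFun hc ψ
    rw [Finset.sum_apply, Pi.zero_apply] at h1
    exact h1
  let A : Fin r → CMPair := fun i => ⟨K, Φ i, hΦ i⟩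
  have hne' : Nonempty (Fin r) := ⟨i0⟩
  obtain ⟨L, _, _, _, _, j, hj⟩ := exists_cm ⟨Fin r, A⟩
  have hjK : ∀ ψ : K →+* ℂ, ∃ φ : K →+* L, j.comp φ = ψ := hj i0
  have hK : finrank ℚ K ≤ 6 ∨ IsGeneric K := field_of_factor hX (hfac i0)
  -- the cases without imaginary quadratic subfields
  have hB : (∀ (δ : K) (d : ℚ), 0 < d → δ * δ = -(d : K) → False) → False := fun hδ =>
    hcon (dep_neg j X Φ hΦ hfac hne hjK hc' hi0 hδ)
  rcases hK with hK | hK
  · have hK6 : finrank ℚ K = 6 := le_antisymm hK h6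
    by_cases h12 : finrank ℚ (IntermediateField.normalClosure ℚ K ℂ) ≤ 12
    · -- three types
      obtain ⟨i1, hi1, h1⟩ : ∃ i1, i1 ≠ i0 ∧ c i1 ≠ 0 := by
        by_contra hno
        push Not at hno
        obtain ⟨φ₀⟩ : Nonempty (K →+* ℂ) := inferInstance
        have h2 := hc' φ₀
        rw [Finset.sum_eq_single i0 (fun i _ hi => by rw [hno i hi, zero_mul])
          (fun h => absurd (Finset.mem_univ _) h)] at h2
        rcases sgn_cases (Φ i0) φ₀ with h3 | h3 <;> rw [h3] at h2 <;> apply hi0 <;> linarith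
      obtain ⟨i2, hi20, hi21⟩ : ∃ i2, i2 ≠ i0 ∧ i2 ≠ i1 := by
        by_contra hno
        push Not at hno
        refine hne i0 i1 hi1.symm (same_of_prop (hΦ i0) (hΦ i1) hi0 (b := c i1) fun φ => ?_)
        have h2 := hc' φ
        rwa [Finset.sum_eq_add i0 i1 hi1.symm (fun i _ hi => absurd (hno i hi.1) hi.2)
          (fun h => absurd (Finset.mem_univ _) h) (fun h => absurd (Finset.mem_univ _) h)] at h2
      have h13 := hthree (A i0) (A i1) (A i2) (hfac _) (hfac _) (hfac _) (hne _ _ hi1.symm)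
        (hne _ _ hi20.symm) (hne _ _ hi21.symm) (Or.inr hK6) (Or.inr hK6) (Or.inr hK6) rfl rfl
      exact absurd h12 (not_le.2 h13)
    · exact hB fun δ d hd h => no_sqrt_six (A i0) j hjK (hfac i0).1 hK6 h12 hd h
  · exact hB fun δ d hd h => no_sqrt_generic (A i0) j hjK hK (by
      change 2 < finrank ℚ K
      omega) hd h

/-- **The exact criterion in all dimensions.** -/
theorem criterion_gen (X : AV)
    (hX : ∀ Y, IsFactor Y X → finrank ℚ Y.H ≤ 6 ∨ GenericCM Y ∨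
      (¬ HasCMult Y ∧ (QuadMult Y ∨ RealMult Y ∨ FiveDim Y ∨ FullHodge Y))) :
    ((NoExc fun A => IsCMFactor A X) ↔
      ∀ (n : ℕ) (κ : Type) [Finite κ] (f : (pow X n).H [⋀^κ]→ₗ[ℚ] ℚ), IsHodge (pow X n).per f →
        Alg (pow X n) κ f) ∧
    ((NoExc fun A => IsCMFactor A X) ↔
      ∀ (n : ℕ) (κ : Type) [Finite κ] (f : (pow X n).H [⋀^κ]→ₗ[ℚ] ℚ), IsHodge (pow X n).per f →
        AlgW (pow X n) κ f) := by
  have h1 : (NoExc fun A => IsCMFactor A X) →
      ∀ (n : ℕ) (κ : Type) [Finite κ] (f : (pow X n).H [⋀^κ]→ₗ[ℚ] ℚ), IsHodge (pow X n).per f →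
        Alg (pow X n) κ f := fun h n κ _ f hf => pos_gen algSys X hX h κ f hf
  have h2 : (∀ (n : ℕ) (κ : Type) [Finite κ] (f : (pow X n).H [⋀^κ]→ₗ[ℚ] ℚ),
      IsHodge (pow X n).per f → AlgW (pow X n) κ f) → NoExc fun A => IsCMFactor A X := by
    intro h
    by_contra hne
    obtain ⟨κ, _, f, hf, hn⟩ := neg_gen X hX hne
    obtain ⟨n, g, hg, hgn⟩ := transport X f hf hn
    exact hgn (h n κ g hg)
  exact ⟨⟨h1, fun h => h2 fun n κ _ f hf => AlgW.of_alg (h n κ f hf)⟩,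
    ⟨fun h n κ _ f hf => AlgW.of_alg (h1 h n κ f hf), h2⟩⟩

end

end Pool.Agent.K4H29.HC
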