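import Pool.Agent.W547.LN.Family

/-!
# Orbits of half systems with four and six elements
-/

set_option linter.unusedSectionVars false
set_option linter.unusedVariables false

namespace Pool.Agent.K4H29.HC

open Finset Pool.Agent.W547.LD.Comb

noncomputable section

variable {G : Type} [Group G] [Fintype G]

/-- A family of representatives of the pairs of opposite elements. -/
structure IsRep (Q : Set (Set G)) {ι : Type} (r : ι → Set G) : Prop where
  mem : ∀ i, r i ∈ Q
  inj : Function.Injective r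
  ne : ∀ i k, r i ≠ (r k)ᶜ
  cover : ∀ U ∈ Q, ∃ i, U = r i ∨ U = (r i)ᶜ

theorem isRep_of_card {Q : Set (Set G)} (hcompl : ∀ S ∈ Q, Sᶜ ∈ Q) {ι : Type} [Fintype ι]
    (r : ι → Set G) (hmem : ∀ i, r i ∈ Q) (hinj : Function.Injective r)
    (hne : ∀ i k, r i ≠ (r k)ᶜ) (hcard : Q.ncard < 2 * (Fintype.card ι + 1)) : IsRep Q r where
  mem := hmem
  inj := hinj
  ne := hne
  cover U hU := by
    by_contra hcon
    push Not at hcon
    have h1 := two_mul_card_le' hcompl (fun o : Option ι => o.elim U r) ?_ ?_ ?_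
    · rw [Fintype.card_option] at h1
      omega
    · rintro (_ | i) (_ | k) h
      · rfl
      · exact absurd h (hcon k).1
      · exact absurd h.symm (hcon i).1
      · exact congrArg some (hinj h)
    · rintro (_ | i) (_ | k) h
      · exact ne_compl _ h
      · exact (hcon k).2 h
      · have h' : r i = Uᶜ := h
        exact (hcon i).2 (by rw [h', compl_compl])
      · exact hne i k h
    · rintro (_ | i)
      · exact hU
      · exact hmem i

theorem IsRep.exists_coef {Q : Set (Set G)} {ι : Type} [Fintype ι] {r : ι → Set G}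
    (hr : IsRep Q r) {F : G → ℚ} (hF : F ∈ VV Q) : ∃ a : ι → ℚ, F = ∑ i, a i • eps (r i) := by
  classical
  refine Submodule.span_induction (p := fun F _ => ∃ a : ι → ℚ, F = ∑ i, a i • eps (r i))
    ?_ ?_ ?_ ?_ hF
  · rintro _ ⟨S, hS, rfl⟩
    obtain ⟨i, rfl | rfl⟩ := hr.cover S hS
    · refine ⟨Pi.single i 1, ?_⟩
      rw [Finset.sum_eq_single i]
      · rw [Pi.single_eq_same, one_smul]
      · intro k _ hk
        rw [Pi.single_eq_of_ne hk, zero_smul]
      · intro h
        exact absurd (Finset.mem_univ _) h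
    · refine ⟨Pi.single i (-1), ?_⟩
      rw [Finset.sum_eq_single i]
      · rw [Pi.single_eq_same, eps_compl', neg_one_smul]
      · intro k _ hk
        rw [Pi.single_eq_of_ne hk, zero_smul]
      · intro h
        exact absurd (Finset.mem_univ _) h
  · exact ⟨0, by simp⟩
  · rintro x y _ _ ⟨a, rfl⟩ ⟨b, rfl⟩
    exact ⟨a + b, by simp only [Pi.add_apply, add_smul, Finset.sum_add_distrib]⟩
  · rintro q x _ ⟨a, rfl⟩
    exact ⟨q • a, by simp only [Pi.smul_apply, smul_eq_mul, mul_smul, Finset.smul_sum]⟩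

/-- Up to three signs which are pairwise not proportional are linearly independent. -/
theorem indep3 {ι : Type} [Fintype ι] (hι : Fintype.card ι ≤ 3) (r : ι → Set G)
    (hinj : Function.Injective r) (hne : ∀ i k, r i ≠ (r k)ᶜ) (a : ι → ℚ)
    (h : ∑ i, a i • eps (r i) = 0) : a = 0 := by
  classical
  let A : Set G → ℚ := fun S => ∑ i, a i * ((if S = r i then 1 else 0) - if S = (r i)ᶜ then 1 else 0)
  have hA : ∀ k, A (r k) = a k := by
    intro k
    change ∑ i, a i * ((if r k = r i then 1 else 0) - if r k = (r i)ᶜ then 1 else 0) = a k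
    rw [Finset.sum_eq_single k]
    · rw [if_pos rfl, if_neg (hne k k), sub_zero, mul_one]
    · intro i _ hi
      rw [if_neg (fun h1 => hi (hinj h1).symm), if_neg (hne k i), sub_zero, mul_zero]
    · intro h1
      exact absurd (Finset.mem_univ _) h1
  have hodd : ∀ S, A Sᶜ = -A S := by
    intro S
    change ∑ i, _ = -∑ i, _
    rw [← Finset.sum_neg_distrib]
    refine Finset.sum_congr rfl fun i _ => ?_
    have e1 : (Sᶜ = r i) ↔ (S = (r i)ᶜ) := by
      constructor
      · intro h1
        rw [← h1, compl_compl]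
      · intro h1
        rw [h1, compl_compl]
    have e2 : (Sᶜ = (r i)ᶜ) ↔ (S = r i) := compl_inj_iff
    simp only [e1, e2]
    ring
  have hrel : IsRel (Set.univ) A := by
    refine ⟨fun S hS => absurd (Set.mem_univ S) hS, hodd, fun σ => ?_⟩
    have h1 : ∀ S : Set G, A S * eps S σ =
        ∑ i, a i * (((if S = r i then 1 else 0) - if S = (r i)ᶜ then 1 else 0) * eps S σ) := by
      intro S
      change (∑ i, _) * _ = _
      rw [Finset.sum_mul]
      refine Finset.sum_congr rfl fun i _ => by ring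
    rw [Finset.sum_congr rfl fun S _ => h1 S, Finset.sum_comm]
    have h2 : ∀ i, ∑ S : Set G, a i *
        (((if S = r i then 1 else 0) - if S = (r i)ᶜ then 1 else 0) * eps S σ) =
        2 * (a i * eps (r i) σ) := by
      intro i
      rw [← Finset.mul_sum]
      simp only [sub_mul, ite_mul, one_mul, zero_mul, Finset.sum_sub_distrib]
      rw [Finset.sum_ite_eq' Finset.univ (r i), Finset.sum_ite_eq' Finset.univ (r i)ᶜ,
        if_pos (Finset.mem_univ _), if_pos (Finset.mem_univ _), eps_compl]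
      ring
    rw [Finset.sum_congr rfl fun i _ => h2 i, ← Finset.mul_sum]
    have h3 := congrFun h σ
    rw [Finset.sum_apply] at h3
    simp only [Pi.smul_apply, smul_eq_mul, Pi.zero_apply] at h3
    rw [h3, mul_zero]
  have hsupp : {S | A S ≠ 0}.ncard ≤ 6 := by
    have h1 : {S | A S ≠ 0} ⊆ Set.range (Sum.elim r fun i => (r i)ᶜ) := by
      intro S hS
      by_contra hcon
      apply hS
      refine Finset.sum_eq_zero fun i _ => ?_
      rw [if_neg (fun h1 => hcon ⟨Sum.inl i, h1.symm⟩), if_neg (fun h1 => hcon ⟨Sum.inr i, h1.symm⟩),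
        sub_zero, mul_zero]
    refine (Set.ncard_le_ncard h1 (Set.toFinite _)).trans ?_
    rw [← Set.image_univ]
    refine (Set.ncard_image_le (Set.toFinite _)).trans ?_
    rw [Set.ncard_univ, Nat.card_eq_fintype_card, Fintype.card_sum]
    omega
  have h0 := hrel.eq_zero_of_card hsupp
  funext k
  rw [← hA k, h0]
  rfl

theorem even_orbit {c : G} {Q : Set (Set G)} (hQ : IsOrbit c Q) : Even Q.ncard :=
  even_ncard hQ.compl

/-! ### The stabilizers -/

/-- The action by right translations. -/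
def trAct : MulAction G (Set G) where
  smul τ S := tr τ S
  one_smul S := tr_one S
  mul_smul a b S := (tr_tr a b S).symm

theorem stb_index {c : G} {Q : Set (Set G)} (hQ : IsOrbit c Q) {S : Set G} (hS : S ∈ Q) :
    (stb S).index = Q.ncard := by
  let _ : MulAction G (Set G) := trAct
  have h1 : MulAction.stabilizer G S = stb S := by
    ext τ
    exact Iff.rfl
  have h2 : MulAction.orbit G S = Q := by
    ext T
    constructor
    · rintro ⟨τ, rfl⟩
      exact hQ.stable τ S hS
    · intro hT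
      obtain ⟨g, hg⟩ := hQ.trans S hS T hT
      exact ⟨g, hg⟩
  rw [← h1, MulAction.index_stabilizer, h2]

theorem kerP_le_stb {Q : Set (Set G)} {S : Set G} (hS : S ∈ Q) : kerP Q ≤ stb S :=
  fun τ hτ => hτ S hS

theorem card_dvd_index {c : G} {Q : Set (Set G)} (hQ : IsOrbit c Q) {S : Set G} (hS : S ∈ Q) :
    Q.ncard ∣ (kerP Q).index := by
  rw [← stb_index hQ hS]
  exact Subgroup.index_dvd_of_le (kerP_le_stb hS)

/-- A permutation of order three of an orbit without fixed elements. -/
structure Cyc (Q : Set (Set G)) (z : G) : Prop where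
  cube : ∀ S ∈ Q, tr z (tr z (tr z S)) = S
  ne : ∀ S ∈ Q, tr z S ≠ S

section cyc

variable {c : G} {Q : Set (Set G)} {z : G}

theorem cube_ne_compl (hcube : ∀ S ∈ Q, tr z (tr z (tr z S)) = S) {S : Set G} (hS : S ∈ Q) :
    tr z S ≠ Sᶜ := by
  intro h
  have h1 := hcube S hS
  rw [h, tr_compl, h, compl_compl, h] at h1
  exact ne_compl S h1.symm

theorem Cyc.ne_compl' (h : Cyc Q z) {S : Set G} (hS : S ∈ Q) : tr z S ≠ Sᶜ :=
  cube_ne_compl h.cube hS

/-- The three elements of a cycle. -/
def cyc3 (z : G) (S : Set G) : Fin 3 → Set G := ![S, tr z S, tr z (tr z S)]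

theorem cyc3_mem (hQ : IsOrbit c Q) {S : Set G} (hS : S ∈ Q) (i : Fin 3) : cyc3 z S i ∈ Q := by
  fin_cases i
  · exact hS
  · exact hQ.stable z S hS
  · exact hQ.stable z _ (hQ.stable z S hS)

theorem cyc3_inj' (hcube : ∀ S ∈ Q, tr z (tr z (tr z S)) = S) {S : Set G} (hS : S ∈ Q)
    (hne : tr z S ≠ S) : Function.Injective (cyc3 z S) := by
  have h1 : tr z (tr z S) ≠ S := by
    intro h
    have h2 := hcube S hS
    rw [h] at h2
    exact hne h2
  have h3 : tr z (tr z S) ≠ tr z S := fun h => hne (tr_injective z h)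
  intro i k h
  fin_cases i <;> fin_cases k
  · rfl
  · exact absurd (show S = tr z S from h).symm hne
  · exact absurd (show S = tr z (tr z S) from h).symm h1
  · exact absurd (show tr z S = S from h) hne
  · rfl
  · exact absurd (show tr z S = tr z (tr z S) from h).symm h3
  · exact absurd (show tr z (tr z S) = S from h) h1
  · exact absurd (show tr z (tr z S) = tr z S from h) h3
  · rfl

theorem cyc3_ne' (hcube : ∀ S ∈ Q, tr z (tr z (tr z S)) = S) {S : Set G} (hS : S ∈ Q)
    (i k : Fin 3) : cyc3 z S i ≠ (cyc3 z S k)ᶜ := by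
  have h1 : tr z S ≠ Sᶜ := cube_ne_compl hcube hS
  have h2 : S ≠ (tr z S)ᶜ := fun h => h1 (by nth_rewrite 2 [h]; rw [compl_compl])
  have h3 : tr z (tr z S) ≠ Sᶜ := by
    intro h
    have h4 := hcube S hS
    rw [h, tr_compl] at h4
    apply h1
    rw [← compl_compl (tr z S), h4]
  have h4 : S ≠ (tr z (tr z S))ᶜ := fun h => h3 (by nth_rewrite 2 [h]; rw [compl_compl])
  have h5 : tr z (tr z S) ≠ (tr z S)ᶜ := fun h => h1 (tr_injective z h)
  have h6 : tr z S ≠ (tr z (tr z S))ᶜ := fun h => h2 (tr_injective z h)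
  fin_cases i <;> fin_cases k
  · exact ne_compl S
  · exact h2
  · exact h4
  · exact h1
  · exact ne_compl _
  · exact h6
  · exact h3
  · exact h5
  · exact ne_compl _

theorem Cyc.inj (h : Cyc Q z) {S : Set G} (hS : S ∈ Q) : Function.Injective (cyc3 z S) :=
  cyc3_inj' h.cube hS (h.ne S hS)

theorem Cyc.ne' (h : Cyc Q z) {S : Set G} (hS : S ∈ Q) (i k : Fin 3) :
    cyc3 z S i ≠ (cyc3 z S k)ᶜ :=
  cyc3_ne' h.cube hS i k

theorem Cyc.isRep (hQ : IsOrbit c Q) (h : Cyc Q z) {S : Set G} (hS : S ∈ Q) :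
    IsRep Q (cyc3 z S) := by
  refine isRep_of_card hQ.compl _ (fun i => cyc3_mem hQ hS i) (h.inj hS) (h.ne' hS) ?_
  have h1 := hQ.card
  rw [Fintype.card_fin]
  omega

/-- If one element is fixed then all are. -/
theorem fix_of_fix (hQ : IsOrbit c Q) (hcube : ∀ S ∈ Q, tr z (tr z (tr z S)) = S)
    {T : Set G} (hT : T ∈ Q) (hfix : tr z T = T) : z ∈ kerP Q := by
  intro U hU
  by_contra hne
  have h1 := cyc3_inj' hcube hU hne
  have h2 := cyc3_ne' hcube hU
  have key : ∀ i, T ≠ cyc3 z U i ∧ T ≠ (cyc3 z U i)ᶜ := by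
    have k0 : T ≠ U := by
      rintro rfl
      exact hne hfix
    have k1 : T ≠ Uᶜ := by
      rintro rfl
      rw [tr_compl] at hfix
      exact hne (compl_injective hfix)
    have k2 : T ≠ tr z U := by
      intro h
      rw [← hfix] at h
      exact k0 (tr_injective z h)
    have k3 : T ≠ (tr z U)ᶜ := by
      intro h
      rw [← hfix] at h
      exact k1 (tr_injective z h)
    have k4 : T ≠ tr z (tr z U) := by
      intro h
      rw [← hfix] at h
      exact k2 (tr_injective z h)
    have k5 : T ≠ (tr z (tr z U))ᶜ := by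
      intro h
      rw [← hfix] at h
      exact k3 (tr_injective z h)
    intro i
    fin_cases i
    · exact ⟨k0, k1⟩
    · exact ⟨k2, k3⟩
    · exact ⟨k4, k5⟩
  have hr := isRep_of_card hQ.compl (cyc3 z U) (fun i => cyc3_mem hQ hU i) h1 h2 (by
    have h3 := hQ.card
    rw [Fintype.card_fin]
    omega)
  obtain ⟨i, hi | hi⟩ := hr.cover T hT
  · exact (key i).1 hi
  · exact (key i).2 hi

theorem cyc_of_not_mem (hQ : IsOrbit c Q) (hcube : ∀ S ∈ Q, tr z (tr z (tr z S)) = S)
    (hz : z ∉ kerP Q) : Cyc Q z where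
  cube := hcube
  ne S hS h := hz (fix_of_fix hQ hcube hS h)

theorem exists_cyc (hQ : IsOrbit c Q) (h6 : Q.ncard = 6) : ∃ z, Cyc Q z := by
  obtain ⟨S, hS⟩ : Q.Nonempty := by
    rw [Set.nonempty_iff_ne_empty]
    intro h
    rw [h, Set.ncard_empty] at h6
    omega
  have := kerP_normal hQ.stable
  have h1 : 3 ∣ Nat.card (G ⧸ kerP Q) := by
    have h2 := card_dvd_index hQ hS
    rw [h6] at h2
    exact (show 3 ∣ 6 by norm_num).trans h2
  obtain ⟨x, hx⟩ := exists_prime_orderOf_dvd_card' (G := G ⧸ kerP Q) 3 h1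
  obtain ⟨z, rfl⟩ := QuotientGroup.mk_surjective x
  refine ⟨z, cyc_of_not_mem hQ ?_ ?_⟩
  · intro T hT
    have h2 : (z : G ⧸ kerP Q) ^ 3 = 1 := by
      rw [← hx]
      exact pow_orderOf_eq_one _
    rw [← QuotientGroup.mk_pow, QuotientGroup.eq_one_iff] at h2
    have h3 := h2 T hT
    rw [pow_succ, pow_two, ← tr_tr, ← tr_tr] at h3
    exact h3
  · intro hz
    rw [(QuotientGroup.eq_one_iff z).2 hz, orderOf_one] at hx
    omega

theorem Cyc.transfer {Q' : Set (Set G)} (h : Cyc Q z) (hQ : IsOrbit c Q) (hQ' : IsOrbit c Q')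
    (hne : Q.Nonempty) (hker : kerP Q = kerP Q') : Cyc Q' z := by
  have h1 : z * z * z ∈ kerP Q := by
    intro S hS
    rw [← tr_tr, ← tr_tr]
    exact h.cube S hS
  rw [hker] at h1
  refine cyc_of_not_mem hQ' (fun S hS => ?_) ?_
  · have h2 := h1 S hS
    rwa [← tr_tr, ← tr_tr] at h2
  · intro hz
    rw [← hker] at hz
    obtain ⟨S, hS⟩ := hne
    exact h.ne S hS (hz S hS)

/-- An orbit with such a permutation has six elements. -/
theorem Cyc.card (h : Cyc Q z) (hQ : IsOrbit c Q) (hne : Q.Nonempty) : Q.ncard = 6 := by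
  obtain ⟨S, hS⟩ := hne
  have h1 := two_mul_card_le' hQ.compl (cyc3 z S) (h.inj hS) (h.ne' hS) fun i => cyc3_mem hQ hS i
  rw [Fintype.card_fin] at h1
  have h2 := hQ.card
  omega

end cyc

end

end Pool.Agent.K4H29.HC
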