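import Pool.Agent.K4H29.HC.Tri

/-!
# Orbits of half systems with six elements: the mixed case
-/

set_option linter.unusedSectionVars false
set_option linter.unusedVariables false

namespace Pool.Agent.K4H29.HC

open Finset Pool.Agent.W547.LD.Comb

noncomputable section

variable {G : Type} [Group G] [Fintype G]

/-- The element `r` acts on the orbit as the reflection at `S`. -/
structure Refl (Q : Set (Set G)) (r : G) (S : Set G) : Prop where
  neg : tr r S = Sᶜ
  fix : ∀ T ∈ Q, ¬ pm T S → tr r T = T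

section

variable {c : G} {Q Q' : Set (Set G)} {z r : G}

theorem nonempty_of_six (h : Q.ncard = 6) : Q.Nonempty := by
  rw [Set.nonempty_iff_ne_empty]
  rintro rfl
  rw [Set.ncard_empty] at h
  omega

theorem exists_third (h6 : Q.ncard = 6) (S T : Set G) : ∃ U ∈ Q, ¬ pm U S ∧ ¬ pm U T := by
  by_contra hcon
  push Not at hcon
  have h1 : Q ⊆ {S, Sᶜ} ∪ {T, Tᶜ} := by
    intro U hU
    by_cases h : pm U S
    · exact Or.inl h
    · exact Or.inr (hcon U hU h)
  have h2 := Set.ncard_le_ncard h1 (Set.toFinite _)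
  have h3 := Set.ncard_union_le {S, Sᶜ} {T, Tᶜ}
  have h4 := Set.ncard_insert_le S {Sᶜ}
  have h5 := Set.ncard_insert_le T {Tᶜ}
  rw [Set.ncard_singleton] at h4 h5
  omega

/-- Three elements. -/
def thr (S T U : Set G) : Fin 3 → Set G := ![S, T, U]

theorem three_cover (hQ : IsOrbit c Q) (h6 : Q.ncard = 6) {S T U : Set G} (hS : S ∈ Q)
    (hT : T ∈ Q) (hU : U ∈ Q) (h1 : ¬ pm S T) (h2 : ¬ pm U S) (h3 : ¬ pm U T) {V : Set G}
    (hV : V ∈ Q) : pm V S ∨ pm V T ∨ pm V U := by
  have a1 : ∀ {A B : Set G}, ¬ pm A B → A ≠ B ∧ B ≠ A ∧ A ≠ Bᶜ ∧ B ≠ Aᶜ := by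
    intro A B h
    refine ⟨fun e => h (Or.inl e), fun e => h (Or.inl e.symm), fun e => h (Or.inr e), fun e => ?_⟩
    apply h
    right
    rw [e, compl_compl]
  obtain ⟨b1, b2, b3, b4⟩ := a1 h1
  obtain ⟨d1, d2, d3, d4⟩ := a1 h2
  obtain ⟨e1, e2, e3, e4⟩ := a1 h3
  have hrep : IsRep Q (thr S T U) := by
    refine isRep_of_card hQ.compl _ (fun i => ?_) ?_ ?_ ?_
    · fin_cases i
      · exact hS
      · exact hT
      · exact hU
    · intro i k h
      fin_cases i <;> fin_cases k
      · rfl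
      · exact absurd h b1
      · exact absurd h d2
      · exact absurd h b2
      · rfl
      · exact absurd h e2
      · exact absurd h d1
      · exact absurd h e1
      · rfl
    · intro i k
      fin_cases i <;> fin_cases k
      · exact ne_compl S
      · exact b3
      · exact d4
      · exact b4
      · exact ne_compl T
      · exact e4
      · exact d3
      · exact e3
      · exact ne_compl U
    · rw [Fintype.card_fin]
      omega
  obtain ⟨i, hi⟩ := hrep.cover V hV
  fin_cases i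
  · exact Or.inl hi
  · exact Or.inr (Or.inl hi)
  · exact Or.inr (Or.inr hi)

/-- The existence of reflections. -/
theorem exists_refl (hc : ∀ g, c * g = g * c) (hQ : IsOrbit c Q) (h6 : Q.ncard = 6)
    (hmix : ¬ NotMixed Q) : ∃ S ∈ Q, ∃ r, Refl Q r S := by
  unfold NotMixed at hmix
  push Not at hmix
  obtain ⟨τ, hτ, ⟨S₁, hS₁, n1⟩, S₂, hS₂, n2⟩ := hmix
  have t1 : tr τ S₁ = S₁ᶜ := (hτ S₁ hS₁).resolve_left n1
  have t2 : tr τ S₂ = S₂ := (hτ S₂ hS₂).resolve_right n2
  have h12 : ¬ pm S₁ S₂ := by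
    rintro (h | h)
    · rw [h, t2] at t1
      exact ne_compl _ t1
    · rw [h, tr_compl, t2] at t1
      exact ne_compl _ t1
  obtain ⟨S₃, hS₃, h31, h32⟩ := exists_third h6 S₁ S₂
  rcases hτ S₃ hS₃ with t3 | t3
  · refine ⟨S₁, hS₁, τ, t1, fun T hT hT1 => ?_⟩
    rcases three_cover hQ h6 hS₁ hS₂ hS₃ h12 h31 h32 hT with h | h | h
    · exact absurd h hT1
    · rcases h with rfl | rfl
      · exact t2
      · rw [tr_compl, t2]
    · rcases h with rfl | rfl
      · exact t3
      · rw [tr_compl, t3]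
  · have hcc : ∀ U ∈ Q, tr c U = Uᶜ := fun U hU => tr_c hc (hQ.half U hU)
    refine ⟨S₂, hS₂, c * τ, by rw [← tr_tr, t2, hcc _ hS₂], fun T hT hT1 => ?_⟩
    rcases three_cover hQ h6 hS₁ hS₂ hS₃ h12 h31 h32 hT with h | h | h
    · rcases h with rfl | rfl
      · rw [← tr_tr, t1, tr_compl, hcc _ hS₁, compl_compl]
      · rw [← tr_tr, tr_compl, t1, compl_compl, hcc _ hS₁]
    · exact absurd h hT1
    · rcases h with rfl | rfl
      · rw [← tr_tr, t3, tr_compl, hcc _ hS₃, compl_compl]
      · rw [← tr_tr, tr_compl, t3, compl_compl, hcc _ hS₃]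

theorem Refl.sq {S : Set G} (hr : Refl Q r S) (hQ : IsOrbit c Q) {T : Set G} (hT : T ∈ Q) :
    tr r (tr r T) = T := by
  by_cases h : pm T S
  · rcases h with rfl | rfl
    · rw [hr.neg, tr_compl, hr.neg, compl_compl]
    · rw [tr_compl, hr.neg, compl_compl, hr.neg]
  · rw [hr.fix T hT h, hr.fix T hT h]

theorem Refl.conj {S : Set G} (hr : Refl Q r S) (hQ : IsOrbit c Q) (τ : G) :
    Refl Q (τ * r * τ⁻¹) (tr τ S) where
  neg := by
    rw [← tr_tr, ← tr_tr, tr_inv_tr, hr.neg, tr_compl]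
  fix T hT h := by
    rw [← tr_tr, ← tr_tr, hr.fix _ (hQ.stable τ⁻¹ T hT), tr_tr_inv]
    intro h1
    apply h
    have h2 := h1.tr τ
    rwa [tr_tr_inv] at h2

theorem Refl.pm' {S : Set G} (hr : Refl Q r S) {T : Set G} (hT : T ∈ Q) : pm (tr r T) T := by
  by_cases h : pm T S
  · rcases h with rfl | rfl
    · exact Or.inr hr.neg
    · exact Or.inr (by rw [tr_compl, hr.neg])
  · exact Or.inl (hr.fix T hT h)

/-- A reflection preserves the pairs of each orbit with the same kernel. -/
theorem pairs_of_refl (hQ : IsOrbit c Q) (hQ' : IsOrbit c Q') (h6' : Q'.ncard = 6)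
    (hker : kerP Q = kerP Q') (hz : Cyc Q z) (hz' : Cyc Q' z) {S : Set G} (hS : S ∈ Q)
    (hr : Refl Q r S) {T : Set G} (hT : T ∈ Q') : pm (tr r T) T := by
  by_contra hcon
  -- two relations
  have k1 : r * r ∈ kerP Q' := by
    rw [← hker]
    intro U hU
    rw [← tr_tr]
    exact hr.sq hQ hU
  obtain ⟨r₁, hr₁⟩ : ∃ r₁, r₁ = z * r * z⁻¹ := ⟨_, rfl⟩
  have hr1 := hr.conj hQ z
  rw [← hr₁] at hr1
  have k2 : (r * r₁) * (r * r₁) ∈ kerP Q' := by
    rw [← hker]
    intro U hU
    have key : ∀ V ∈ Q, tr r V = V ∨ tr r V = Vᶜ := fun V hV => hr.pm' hV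
    have key1 : ∀ V ∈ Q, tr r₁ V = V ∨ tr r₁ V = Vᶜ := fun V hV => hr1.pm' hV
    rw [← tr_tr, ← tr_tr, ← tr_tr]
    rcases key U hU with a | a <;> rcases key1 U hU with b | b <;>
      simp only [a, b, tr_compl, compl_compl]
  have rr : ∀ V ∈ Q', tr r (tr r V) = V := fun V hV => by
    rw [tr_tr]
    exact k1 V hV
  have hzT := hQ'.stable z T hT
  have hzzT := hQ'.stable z _ hzT
  have hr1' : ∀ V, tr r₁ (tr z V) = tr z (tr r V) := by
    intro V
    rw [hr₁, ← tr_tr, ← tr_tr, tr_inv_tr]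
  -- the square of `r r₁` moves `T`
  have n21 : ¬ pm (tr z (tr z T)) (tr z T) := hz'.not_pm hzT
  have n20 : ¬ pm (tr z (tr z T)) T := by
    intro h
    have h4 := h.tr z
    rw [hz'.cube T hT] at h4
    exact hz'.not_pm hT h4.symm
  have hk2 := k2 T hT
  rw [← tr_tr, ← tr_tr, ← tr_tr] at hk2
  have hT3 : T = tr z (tr z (tr z T)) := (hz'.cube T hT).symm
  rcases hz'.cover hQ' hT (hQ'.stable r T hT) with h | h | h
  · exact hcon h
  · -- `r T = ± z T`
    have a1 : pm (tr r (tr z T)) T := by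
      have h1 := h.tr r
      rw [rr T hT] at h1
      exact h1.symm
    have a2 : pm (tr r (tr z (tr z T))) (tr z (tr z T)) := by
      rcases hz'.cover hQ' hT (hQ'.stable r _ hzzT) with h1 | h1 | h1
      · exfalso
        have h2 := h1.tr r
        rw [rr _ hzzT] at h2
        exact n21 (h2.trans h)
      · exfalso
        exact n20 ((h1.trans h.symm).of_tr)
      · exact h1
    have b0 : pm (tr r₁ T) T := by
      have h1 : tr r₁ T = tr z (tr r (tr z (tr z T))) := by
        nth_rewrite 1 [hT3]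
        exact hr1' _
      rw [h1]
      have h2 := a2.tr z
      rwa [hz'.cube T hT] at h2
    have b1 : pm (tr r₁ (tr z T)) (tr z (tr z T)) := by
      rw [hr1']
      exact h.tr z
    have c0 : pm (tr r (tr r₁ T)) (tr z T) := (b0.tr r).trans h
    have c1 : pm (tr r (tr r₁ (tr z T))) (tr z (tr z T)) := (b1.tr r).trans a2
    have c2 : pm (tr r (tr r₁ (tr r (tr r₁ T)))) (tr z (tr z T)) :=
      ((c0.tr r₁).tr r).trans c1
    rw [hk2] at c2
    exact n20 c2.symm
  · -- `r T = ± z² T`
    have a1 : pm (tr r (tr z (tr z T))) T := by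
      have h1 := h.tr r
      rw [rr T hT] at h1
      exact h1.symm
    have a2 : pm (tr r (tr z T)) (tr z T) := by
      rcases hz'.cover hQ' hT (hQ'.stable r _ hzT) with h1 | h1 | h1
      · exfalso
        have h2 := h1.tr r
        rw [rr _ hzT] at h2
        exact n21 (h2.trans h).symm
      · exact h1
      · exfalso
        exact hz'.not_pm hT ((h1.trans h.symm).of_tr)
    have b0 : pm (tr r₁ T) (tr z T) := by
      have h1 : tr r₁ T = tr z (tr r (tr z (tr z T))) := by
        nth_rewrite 1 [hT3]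
        exact hr1' _
      rw [h1]
      exact a1.tr z
    have b1 : pm (tr r₁ (tr z T)) T := by
      rw [hr1']
      have h2 := h.tr z
      rwa [hz'.cube T hT] at h2
    have c0 : pm (tr r (tr r₁ T)) (tr z T) := (b0.tr r).trans a2
    have c1 : pm (tr r (tr r₁ (tr z T))) (tr z (tr z T)) := (b1.tr r).trans h
    have c2 : pm (tr r (tr r₁ (tr r (tr r₁ T)))) (tr z (tr z T)) :=
      ((c0.tr r₁).tr r).trans c1
    rw [hk2] at c2
    exact n20 c2.symm

theorem Refl.of_three (hQ : IsOrbit c Q) (hz : Cyc Q z) {S : Set G} (hS : S ∈ Q)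
    {T U V : Set G} (hcov : ∀ W ∈ Q, pm W T ∨ pm W U ∨ pm W V) (h1 : tr r T = Tᶜ)
    (h2 : tr r U = U) (h3 : tr r V = V) : Refl Q r T where
  neg := h1
  fix W hW hne := by
    rcases hcov W hW with h | h | h
    · exact absurd h hne
    · rcases h with rfl | rfl
      · exact h2
      · rw [tr_compl, h2]
    · rcases h with rfl | rfl
      · exact h3
      · rw [tr_compl, h3]

/-- A reflection of one orbit is a reflection of each orbit with the same kernel. -/
theorem refl_transfer (hc : ∀ g, c * g = g * c) (hQ : IsOrbit c Q) (hQ' : IsOrbit c Q')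
    (h6' : Q'.ncard = 6) (hker : kerP Q = kerP Q') (hz : Cyc Q z) (hz' : Cyc Q' z) {S : Set G}
    (hS : S ∈ Q) (hr : Refl Q r S) : ∃ T ∈ Q', Refl Q' r T := by
  have hP : ∀ V ∈ Q', tr r V = V ∨ tr r V = Vᶜ := fun V hV =>
    pairs_of_refl hQ hQ' h6' hker hz hz' hS hr hV
  obtain ⟨r₁, hr₁⟩ : ∃ r₁, r₁ = z * r * z⁻¹ := ⟨_, rfl⟩
  obtain ⟨r₂, hr₂⟩ : ∃ r₂, r₂ = (z * z) * r * (z * z)⁻¹ := ⟨_, rfl⟩
  have hR1 := hr.conj hQ z
  have hR2 := hr.conj hQ (z * z)
  rw [← hr₁] at hR1
  rw [← hr₂, ← tr_tr] at hR2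
  have hzS := hQ.stable z S hS
  have hzzS := hQ.stable z _ hzS
  have n10 : ¬ pm (tr z S) S := hz.not_pm hS
  have n21 : ¬ pm (tr z (tr z S)) (tr z S) := hz.not_pm hzS
  have n20 : ¬ pm (tr z (tr z S)) S := by
    intro h
    have h4 := h.tr z
    rw [hz.cube S hS] at h4
    exact hz.not_pm hS h4.symm
  have hm : r * (r₁ * (r₂ * c)) ∈ kerP Q := by
    have k0 : tr r (tr r₁ (tr r₂ (tr c S))) = S := by
      rw [tr_c hc (hQ.half S hS), tr_compl, hR2.fix S hS (fun h => n20 h.symm), tr_compl,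
        hR1.fix S hS (fun h => n10 h.symm), tr_compl, hr.neg, compl_compl]
    have k1 : tr r (tr r₁ (tr r₂ (tr c (tr z S)))) = tr z S := by
      rw [tr_c hc (hQ.half _ hzS), tr_compl, hR2.fix _ hzS (fun h => n21 h.symm), tr_compl,
        hR1.neg, compl_compl, hr.fix _ hzS n10]
    have k2 : tr r (tr r₁ (tr r₂ (tr c (tr z (tr z S))))) = tr z (tr z S) := by
      rw [tr_c hc (hQ.half _ hzzS), tr_compl, hR2.neg, compl_compl, hR1.fix _ hzzS n21,
        hr.fix _ hzzS n20]
    intro U hU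
    rw [← tr_tr, ← tr_tr, ← tr_tr]
    rcases hz.cover hQ hS hU with (h | h) | (h | h) | (h | h)
    · rw [h, k0]
    · rw [h, tr_compl, tr_compl, tr_compl, tr_compl, k0]
    · rw [h, k1]
    · rw [h, tr_compl, tr_compl, tr_compl, tr_compl, k1]
    · rw [h, k2]
    · rw [h, tr_compl, tr_compl, tr_compl, tr_compl, k2]
  have hrc : r * c ∉ kerP Q := by
    intro h
    have h1 := h _ hzS
    rw [← tr_tr, tr_c hc (hQ.half _ hzS), tr_compl, hr.fix _ hzS n10] at h1
    exact ne_compl _ h1.symm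
  rw [hker] at hm hrc
  obtain ⟨T, hT⟩ := nonempty_of_six h6'
  have hzT := hQ'.stable z T hT
  have hzzT := hQ'.stable z _ hzT
  have hmT := hm T hT
  rw [← tr_tr, ← tr_tr, ← tr_tr, tr_c hc (hQ'.half T hT)] at hmT
  have i1 : ∀ V, tr r₁ (tr z V) = tr z (tr r V) := by
    intro V
    rw [hr₁, ← tr_tr, ← tr_tr, tr_inv_tr]
  have i2 : ∀ V, tr r₂ (tr z (tr z V)) = tr z (tr z (tr r V)) := by
    intro V
    rw [hr₂, ← tr_tr, ← tr_tr, tr_tr z z V, tr_inv_tr, ← tr_tr]
  have hT3 : tr z (tr z (tr z T)) = T := hz'.cube T hT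
  -- the signs
  have j1 : (tr r (tr z (tr z T)) = tr z (tr z T) → tr r₁ T = T) ∧
      (tr r (tr z (tr z T)) = (tr z (tr z T))ᶜ → tr r₁ T = Tᶜ) := by
    have h1 := i1 (tr z (tr z T))
    rw [hT3] at h1
    constructor
    · intro h
      rw [h1, h, hT3]
    · intro h
      rw [h1, h, tr_compl, hT3]
  have j2 : (tr r (tr z T) = tr z T → tr r₂ T = T) ∧
      (tr r (tr z T) = (tr z T)ᶜ → tr r₂ T = Tᶜ) := by
    have h1 := i2 (tr z T)
    rw [hT3] at h1
    constructor
    · intro h
      rw [h1, h, hT3]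
    · intro h
      rw [h1, h, tr_compl, tr_compl, hT3]
  have hcov := fun W hW => hz'.cover (U := W) hQ' hT hW
  have hcov1 : ∀ W ∈ Q', pm W (tr z T) ∨ pm W T ∨ pm W (tr z (tr z T)) := by
    intro W hW
    rcases hcov W hW with h | h | h
    · exact Or.inr (Or.inl h)
    · exact Or.inl h
    · exact Or.inr (Or.inr h)
  have hcov2 : ∀ W ∈ Q', pm W (tr z (tr z T)) ∨ pm W T ∨ pm W (tr z T) := by
    intro W hW
    rcases hcov W hW with h | h | h
    · exact Or.inr (Or.inl h)
    · exact Or.inr (Or.inr h)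
    · exact Or.inl h
  rcases hP T hT with a | a <;> rcases hP _ hzT with b | b <;> rcases hP _ hzzT with d | d
  · exfalso
    rw [tr_compl, j2.1 b, tr_compl, j1.1 d, tr_compl, a] at hmT
    exact ne_compl T hmT.symm
  · exact ⟨_, hzzT, Refl.of_three hQ' hz' hT hcov2 d a b⟩
  · exact ⟨_, hzT, Refl.of_three hQ' hz' hT hcov1 b a d⟩
  · exfalso
    rw [tr_compl, j2.2 b, compl_compl, j1.2 d, tr_compl, a] at hmT
    exact ne_compl T hmT.symm
  · exact ⟨_, hT, Refl.of_three hQ' hz' hT hcov a b d⟩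
  · exfalso
    rw [tr_compl, j2.1 b, tr_compl, j1.2 d, compl_compl, a] at hmT
    exact ne_compl T hmT.symm
  · exfalso
    rw [tr_compl, j2.2 b, compl_compl, j1.1 d, a] at hmT
    exact ne_compl T hmT.symm
  · exfalso
    apply hrc
    intro U hU
    rw [← tr_tr, tr_c hc (hQ'.half U hU), tr_compl]
    rcases hcov U hU with (h | h) | (h | h) | (h | h) <;> rw [h]
    · rw [a, compl_compl]
    · rw [tr_compl, a, compl_compl]
    · rw [b, compl_compl]
    · rw [tr_compl, b, compl_compl]
    · rw [d, compl_compl]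
    · rw [tr_compl, d, compl_compl]

/-- The part of a function in the direction of the reflected element. -/
theorem refl_proj (hQ : IsOrbit c Q) (hz : Cyc Q z) {T : Set G} (hT : T ∈ Q) (hr : Refl Q r T)
    (b : Fin 3 → ℚ) :
    (∑ x, b x • eps (cyc3 z T x) - rtr r (∑ x, b x • eps (cyc3 z T x))) =
      (2 * b 0) • eps T := by
  have hzT := hQ.stable z T hT
  have n20 : ¬ pm (tr z (tr z T)) T := by
    intro h
    have h4 := h.tr z
    rw [hz.cube T hT] at h4
    exact hz.not_pm hT h4.symm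
  rw [map_sum, Fin.sum_univ_three, Fin.sum_univ_three]
  simp only [map_smul, rtr_eps]
  have e0 : tr r (cyc3 z T 0) = Tᶜ := hr.neg
  have e1 : tr r (cyc3 z T 1) = tr z T := hr.fix _ hzT (hz.not_pm hT)
  have e2 : tr r (cyc3 z T 2) = tr z (tr z T) := hr.fix _ (hQ.stable z _ hzT) n20
  rw [e0, e1, e2, eps_compl']
  change b 0 • eps T + b 1 • eps (tr z T) + b 2 • eps (tr z (tr z T)) - _ = _
  module

theorem refl_fix (hQ : IsOrbit c Q) (hz : Cyc Q z) {T : Set G} (hT : T ∈ Q) (hr : Refl Q r T) :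
    rtr (z * r * z⁻¹) (eps T) = eps T := by
  rw [rtr_eps]
  congr 1
  have h1 : tr (z * r * z⁻¹) (tr z (tr z (tr z T))) = tr z (tr r (tr z (tr z T))) := by
    rw [← tr_tr, ← tr_tr, tr_inv_tr]
  have n20 : ¬ pm (tr z (tr z T)) T := by
    intro h
    have h4 := h.tr z
    rw [hz.cube T hT] at h4
    exact hz.not_pm hT h4.symm
  rw [hz.cube T hT, hr.fix _ (hQ.stable z _ (hQ.stable z T hT)) n20, hz.cube T hT] at h1
  exact h1

theorem refl_QQ (hc : ∀ g, c * g = g * c) (z r : G) {q : G → ℚ} (hq : q ∈ QQ c) :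
    (q - rtr r q) + rtr (z * r * z⁻¹) (q - rtr r q) = 0 := by
  refine Submodule.span_induction
    (p := fun q _ => (q - rtr r q) + rtr (z * r * z⁻¹) (q - rtr r q) = 0) ?_ ?_ ?_ ?_ hq
  · rintro _ ⟨N, hN, rfl⟩
    by_cases h : r ∈ N
    · rw [rtr_eps r, Imag.tr_mem (c := c) h, sub_self, map_zero, add_zero]
    · have h1 : z * r * z⁻¹ ∉ N := by
        intro h2
        rw [hN.mul_mem_iff hc, hN.mul_mem_iff hc, inv_mem_iff] at h2
        tauto
      rw [rtr_eps r, hN.tr_not_mem hc h, eps_compl', sub_neg_eq_add, map_add, rtr_eps,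
        hN.tr_not_mem hc h1, eps_compl']
      abel
  · simp
  · intro x y _ _ hx hy
    rw [map_add, show x + y - (rtr r x + rtr r y) = (x - rtr r x) + (y - rtr r y) by abel, map_add]
    calc _ = ((x - rtr r x) + rtr (z * r * z⁻¹) (x - rtr r x)) +
          ((y - rtr r y) + rtr (z * r * z⁻¹) (y - rtr r y)) := by abel
      _ = 0 := by rw [hx, hy, add_zero]
  · intro a x _ hx
    rw [map_smul, ← smul_sub, map_smul, ← smul_add, hx, smul_zero]

end

section family

variable {c : G} {J : Type} [Fintype J] {Q : J → Set (Set G)} {z r : G}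

/-- Relations between the reflected elements. -/
theorem refl_rel (hc : ∀ g, c * g = g * c) (hQ : ∀ j, IsOrbit c (Q j))
    (hker : ∀ j k, kerP (Q j) = kerP (Q k)) (T : J → Set G) (hT : ∀ j, T j ∈ Q j)
    (hr : ∀ j, Refl (Q j) r (T j)) (hinj : Function.Injective T)
    (hne : ∀ j k, T j ≠ (T k)ᶜ)
    (h4 : ∀ f : Fin 4 → J, Function.Injective f → ¬ ∀ i, stb (T (f i)) = stb (T (f 0))) (n : ℕ) :
    ∀ b : J → ℚ, (by classical exact (Finset.univ.filter fun j => b j ≠ 0).card = n) →
      ∑ j, b j • eps (T j) = 0 → b = 0 := by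
  classical
  induction n using Nat.strong_induction_on with
  | _ n ih =>
    intro b hn hb
    by_contra hb0
    obtain ⟨j0, hj0⟩ := Function.ne_iff.1 hb0
    have hj0' : b j0 ≠ 0 := hj0
    by_cases hall : ∀ k, b k ≠ 0 → stb (T k) = stb (T j0)
    · -- at most three terms
      let s := Finset.univ.filter fun j => b j ≠ 0
      have hs : s.card ≤ 3 := by
        by_contra hcon
        push Not at hcon
        obtain ⟨e⟩ : Nonempty (Fin 4 ↪ s) := Function.Embedding.nonempty_of_card_le (by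
          rw [Fintype.card_fin, Fintype.card_coe]
          exact hcon)
        refine h4 (fun i => (e i).1) (fun i k h => e.injective (Subtype.ext h)) fun i => ?_
        have h1 : ∀ i, b (e i).1 ≠ 0 := fun i => (Finset.mem_filter.1 (e i).2).2
        rw [hall _ (h1 i), hall _ (h1 0)]
      have h1 := indep3 (ι := s) (by rw [Fintype.card_coe]; exact hs) (fun j => T j.1)
        (fun i k h => Subtype.ext (hinj h)) (fun i k => hne i.1 k.1) (fun j => b j.1) (by
          rw [← hb, Finset.sum_coe_sort s (fun j => b j • eps (T j)), Finset.sum_filter]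
          refine Finset.sum_congr rfl fun j _ => ?_
          by_cases h : b j = 0
          · rw [if_neg (by simpa using h), h, zero_smul]
          · rw [if_pos h])
      exact hj0' (congrFun h1 ⟨j0, Finset.mem_filter.2 ⟨Finset.mem_univ _, hj0'⟩⟩)
    · push Not at hall
      obtain ⟨k0, hk0, hst⟩ := hall
      -- elements of one of the two stabilizers preserve the pairs
      have pres : ∀ (j : J) (τ : G), tr τ (T j) = T j → ∀ l, tr τ (T l) = T l ∨
          tr τ (T l) = (T l)ᶜ := by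
        intro j τ hτ l
        have h1 := (hr j).conj (hQ j) τ
        rw [hτ] at h1
        have h2 : (τ * r * τ⁻¹)⁻¹ * r ∈ kerP (Q l) := by
          rw [hker l j]
          intro U hU
          have h3 : tr r U = tr (τ * r * τ⁻¹) U := by
            by_cases h : pm U (T j)
            · rcases h with rfl | rfl
              · rw [(hr j).neg, h1.neg]
              · rw [tr_compl, tr_compl, (hr j).neg, h1.neg]
            · rw [(hr j).fix U hU h, h1.fix U hU h]
          rw [← tr_tr, h3, tr_inv_tr]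
        have h3 := (hr l).conj (hQ l) τ
        have h4 := h2 _ (hT l)
        rw [← tr_tr, (hr l).neg] at h4
        have h5 : tr (τ * r * τ⁻¹) (T l) = (T l)ᶜ := by
          have h6 := congrArg (tr (τ * r * τ⁻¹)) h4
          rw [tr_tr_inv] at h6
          exact h6.symm
        by_contra hcon
        have h6 : ¬ pm (T l) (tr τ (T l)) := by
          rintro (h | h)
          · exact hcon (Or.inl h.symm)
          · exact hcon (Or.inr (by nth_rewrite 2 [h]; rw [compl_compl]))
        rw [h3.fix _ (hT l) h6] at h5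
        exact ne_compl _ h5
      obtain ⟨τ, hτ⟩ : ∃ τ : G, ¬ (τ ∈ stb (T k0) ↔ τ ∈ stb (T j0)) := by
        by_contra hcon
        push Not at hcon
        exact hst (Subgroup.ext hcon)
      -- signs
      have hsign : ∀ l, ∃ s : ℚ, (s = 1 ∨ s = -1) ∧ rtr τ (eps (T l)) = s • eps (T l) ∧
          (s = 1 ↔ τ ∈ stb (T l)) := by
        have hor : τ ∈ stb (T k0) ∨ τ ∈ stb (T j0) := by tauto
        have hp : ∀ l, tr τ (T l) = T l ∨ tr τ (T l) = (T l)ᶜ := by
          rcases hor with h | h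
          · exact pres _ τ h
          · exact pres _ τ h
        intro l
        rcases hp l with h | h
        · exact ⟨1, Or.inl rfl, by rw [rtr_eps, h, one_smul], iff_of_true rfl h⟩
        · refine ⟨-1, Or.inr rfl, by rw [rtr_eps, h, eps_compl', neg_one_smul], ?_⟩
          refine iff_of_false (by norm_num) fun h1 => ?_
          have h2 : tr τ (T l) = T l := h1
          rw [h] at h2
          exact ne_compl _ h2.symm
      choose s hs1 hs2 hs3 using hsign
      have hs0 : s j0 * s k0 = -1 := by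
        rcases hs1 j0 with a | a <;> rcases hs1 k0 with d | d
        · exact absurd (iff_of_true ((hs3 k0).1 d) ((hs3 j0).1 a)) hτ
        · rw [a, d]
          norm_num
        · rw [a, d]
          norm_num
        · exfalso
          apply hτ
          refine iff_of_false (fun h => ?_) fun h => ?_
          · rw [(hs3 k0).2 h] at d
            norm_num at d
          · rw [(hs3 j0).2 h] at a
            norm_num at a
      let b' : J → ℚ := fun l => b l * (1 + s j0 * s l)
      have hb' : ∑ l, b' l • eps (T l) = 0 := by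
        have h1 : ∑ l, b' l • eps (T l) =
            ∑ l, b l • eps (T l) + s j0 • rtr τ (∑ l, b l • eps (T l)) := by
          rw [map_sum, Finset.smul_sum, ← Finset.sum_add_distrib]
          refine Finset.sum_congr rfl fun l _ => ?_
          rw [map_smul, hs2 l]
          change (b l * (1 + s j0 * s l)) • _ = _
          module
        rw [h1, hb, map_zero, smul_zero, add_zero]
      have hsub : (Finset.univ.filter fun j => b' j ≠ 0).card < n := by
        rw [← hn]
        refine Finset.card_lt_card (Finset.ssubset_iff_subset_ne.2 ⟨fun l hl => ?_, fun h => ?_⟩)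
        · have h1 := (Finset.mem_filter.1 hl).2
          exact Finset.mem_filter.2 ⟨Finset.mem_univ _, left_ne_zero_of_mul h1⟩
        · have h1 : k0 ∈ Finset.univ.filter fun j => b j ≠ 0 :=
            Finset.mem_filter.2 ⟨Finset.mem_univ _, hk0⟩
          rw [← h] at h1
          apply (Finset.mem_filter.1 h1).2
          change b k0 * (1 + s j0 * s k0) = 0
          rw [hs0]
          ring
      have h1 := ih _ hsub b' rfl hb'
      have h2 : b j0 * (1 + s j0 * s j0) = 0 := congrFun h1 j0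
      rw [sign_sq (hs1 j0)] at h2
      apply hj0'
      linarith

/-- **The mixed case.** -/
theorem mixed_indep (hc : ∀ g, c * g = g * c) (hQ : ∀ j, IsOrbit c (Q j))
    (h6 : ∀ j, (Q j).ncard = 6) (hker : ∀ j k, kerP (Q j) = kerP (Q k))
    (hinj : Function.Injective Q) (j1 : J) (hmix : ¬ NotMixed (Q j1))
    (h4 : ∀ f : Fin 4 → J, Function.Injective f → ∀ S : Fin 4 → Set G, (∀ i, S i ∈ Q (f i)) →
      ¬ ∀ i, stb (S i) = stb (S 0)) (F : J → G → ℚ) (hF : ∀ j, F j ∈ VV (Q j))
    (hq : ∑ j, F j ∈ QQ c) : ∀ j, F j = 0 := by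
  classical
  obtain ⟨z, hz1⟩ := exists_cyc (hQ j1) (h6 j1)
  have hz : ∀ j, Cyc (Q j) z := fun j =>
    hz1.transfer (hQ j1) (hQ j) (nonempty_of_six (h6 j1)) (hker _ _)
  obtain ⟨S, hS, r, hr1⟩ := exists_refl hc (hQ j1) (h6 j1) hmix
  have hT : ∀ j, ∃ T ∈ Q j, Refl (Q j) r T := fun j =>
    refl_transfer hc (hQ j1) (hQ j) (h6 j) (hker _ _) (hz j1) (hz j) hS hr1
  choose T hTQ hTr using hT
  have hTinj : Function.Injective T := by
    intro j k h
    apply hinj
    refine orbit_eq (hQ j) (hQ k) (hTQ j) ?_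
    rw [h]
    exact hTQ k
  have hTne : ∀ j k, T j ≠ (T k)ᶜ := by
    intro j k h
    have h1 : Q j = Q k := by
      refine orbit_eq (hQ j) (hQ k) (hTQ j) ?_
      rw [h]
      exact (hQ k).compl _ (hTQ k)
    have h2 := hinj h1
    subst h2
    exact ne_compl _ h
  -- the first coefficient
  have first : ∀ b : J → Fin 3 → ℚ, ∑ j, ∑ x, b j x • eps (cyc3 z (T j) x) ∈ QQ c →
      ∀ j, b j 0 = 0 := by
    intro b hb
    have h1 := refl_QQ hc z r hb
    have h2 : (∑ j, ∑ x, b j x • eps (cyc3 z (T j) x)) -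
        rtr r (∑ j, ∑ x, b j x • eps (cyc3 z (T j) x)) = ∑ j, (2 * b j 0) • eps (T j) := by
      rw [map_sum, ← Finset.sum_sub_distrib]
      exact Finset.sum_congr rfl fun j _ => refl_proj (hQ j) (hz j) (hTQ j) (hTr j) (b j)
    rw [h2, map_sum] at h1
    have h3 : ∀ j, rtr (z * r * z⁻¹) ((2 * b j 0) • eps (T j)) = (2 * b j 0) • eps (T j) :=
      fun j => by rw [map_smul, refl_fix (hQ j) (hz j) (hTQ j) (hTr j)]
    rw [Finset.sum_congr rfl fun j _ => h3 j, ← Finset.sum_add_distrib] at h1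
    have h5 := refl_rel hc hQ hker T hTQ hTr hTinj hTne (fun f hf => h4 f hf _ fun i => hTQ (f i))
      _ (fun j => 2 * b j 0 + 2 * b j 0) rfl (by
        rw [← h1]
        exact Finset.sum_congr rfl fun j _ => add_smul _ _ _)
    intro j
    have h6 : 2 * b j 0 + 2 * b j 0 = 0 := congrFun h5 j
    linarith
  have hcoef : ∀ j, ∃ b : Fin 3 → ℚ, F j = ∑ x, b x • eps (cyc3 z (T j) x) := fun j =>
    ((hz j).isRep (hQ j) (hTQ j)).exists_coef (hF j)
  choose b hb using hcoef
  have shift : ∀ b : J → Fin 3 → ℚ, ∑ j, ∑ x, b j x • eps (cyc3 z (T j) x) ∈ QQ c →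
      ∑ j, ∑ x, b j (x - 1) • eps (cyc3 z (T j) x) ∈ QQ c := by
    intro b hb
    have h1 := rtr_mem_QQ hc z hb
    convert h1 using 1
    rw [map_sum]
    refine Finset.sum_congr rfl fun j _ => ?_
    rw [map_sum]
    refine (Fintype.sum_equiv (Equiv.addRight (1 : Fin 3)) _ _ fun x => ?_).symm
    rw [map_smul, rtr_eps, cyc3_succ (c := c) (hz j) (hTQ j)]
    change _ = b j (x + 1 - 1) • _
    rw [add_sub_cancel_right]
    rfl
  have q0 : ∑ j, ∑ x, b j x • eps (cyc3 z (T j) x) ∈ QQ c := by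
    rw [← Finset.sum_congr rfl fun j _ => hb j]
    exact hq
  have q1 := shift _ q0
  have q2 := shift _ q1
  have f0 := first _ q0
  have f1 := first _ q1
  have f2 := first _ q2
  intro j
  rw [hb j, Fin.sum_univ_three, f0 j]
  have g1 : b j 2 = 0 := f1 j
  have g2 : b j 1 = 0 := f2 j
  rw [g1, g2]
  simp

end family

end

end Pool.Agent.K4H29.HC
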