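import Pool.Agent.K4H29.HC.Two

/-!
# Two orbits of half systems with six elements whose stabilizers are not mixed
-/

set_option linter.unusedSectionVars false
set_option linter.unusedVariables false

namespace Pool.Agent.K4H29.HC

open Finset Pool.Agent.W547.LD.Comb

noncomputable section

variable {G : Type} [Group G] [Fintype G]

theorem sum_three (β : Fin 3 → ℚ) (x δ : Fin 3) (hδ : δ ≠ 0) :
    ∑ i, β i = β x + β (x + δ) + β (x + δ + δ) := by
  rw [Fin.sum_univ_three]
  fin_cases x <;> fin_cases δ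
  all_goals first
    | exact absurd rfl hδ
    | skip
  · change _ = β 0 + β 1 + β 2
    ring
  · change _ = β 0 + β 2 + β 1
    ring
  · change _ = β 1 + β 2 + β 0
    ring
  · change _ = β 1 + β 0 + β 2
    ring
  · change _ = β 2 + β 0 + β 1
    ring
  · change _ = β 2 + β 1 + β 0
    ring

theorem three_add (x δ : Fin 3) : x + δ + δ + δ = x := by
  fin_cases x <;> fin_cases δ <;> rfl

theorem sign_sq {s : ℚ} (h : s = 1 ∨ s = -1) : s * s = 1 := by
  rcases h with rfl | rfl <;> norm_num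

/-- The combinatorial lemma for two triples of signs. -/
theorem tri (z : G) (X Y : Fin 3 → G → ℚ) (hX : ∀ x σ, X x (σ * z) = X (x + 1) σ)
    (hY : ∀ x σ, Y x (σ * z) = Y (x + 1) σ)
    (mX : ∀ σ, ∃ (i : Fin 3) (s : ℚ), (s = 1 ∨ s = -1) ∧
      ∀ x, X x σ = s * (if x = i then -1 else 1))
    (mY : ∀ σ, ∃ (i : Fin 3) (s : ℚ), (s = 1 ∨ s = -1) ∧
      ∀ x, Y x σ = s * (if x = i then -1 else 1))
    (α β : Fin 3 → ℚ) (hα : ∑ x, α x = 0) (hβ : ∑ x, β x = 0)
    (rel : ∀ σ, ∑ x, α x * X x σ + ∑ x, β x * Y x σ = 0) (h0 : α ≠ 0) :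
    ∃ (m : Fin 3) (ε : ℚ), (ε = 1 ∨ ε = -1) ∧ ∀ σ x, Y (x + m) σ = ε * X x σ := by
  classical
  have ev : ∀ (α : Fin 3 → ℚ), ∑ x, α x = 0 → ∀ (i : Fin 3) (s : ℚ),
      ∑ x, α x * (s * (if x = i then -1 else 1)) = -2 * s * α i := by
    intro α hα i s
    have h1 : ∀ x, α x * (s * (if x = i then (-1 : ℚ) else 1)) =
        s * α x - 2 * s * (if x = i then α x else 0) := by
      intro x
      split_ifs <;> ring
    rw [Finset.sum_congr rfl fun x _ => h1 x, Finset.sum_sub_distrib, ← Finset.mul_sum,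
      ← Finset.mul_sum, Finset.sum_ite_eq' Finset.univ i, if_pos (Finset.mem_univ _), hα]
    ring
  -- the relation at one place
  have loc : ∀ σ, ∃ (m : Fin 3) (ε : ℚ), (ε = 1 ∨ ε = -1) ∧ (∀ x, α x = -ε * β (x + m)) ∧
      ∀ x, Y (x + m) σ = ε * X x σ := by
    intro σ
    obtain ⟨i, s, hs, hi⟩ := mX σ
    obtain ⟨k, t, ht, hk⟩ := mY σ
    have hX2 : ∀ x, X x (σ * z) = s * (if x + 1 = i then -1 else 1) := fun x => by rw [hX, hi]
    have hY2 : ∀ x, Y x (σ * z) = t * (if x + 1 = k then -1 else 1) := fun x => by rw [hY, hk]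
    have hX3 : ∀ x, X x (σ * z * z) = s * (if x + 1 + 1 = i then -1 else 1) := fun x => by
      rw [hX, hX, hi]
    have hY3 : ∀ x, Y x (σ * z * z) = t * (if x + 1 + 1 = k then -1 else 1) := fun x => by
      rw [hY, hY, hk]
    have i1 : ∀ x y : Fin 3, x + 1 = y ↔ x = y - 1 := fun x y => eq_sub_iff_add_eq.symm
    have r1 : s * α i + t * β k = 0 := by
      have h1 := rel σ
      simp only [hi, hk] at h1
      rw [ev α hα, ev β hβ] at h1
      linarith
    have r2 : s * α (i - 1) + t * β (k - 1) = 0 := by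
      have h1 := rel (σ * z)
      simp only [hX2, hY2, i1] at h1
      rw [ev α hα, ev β hβ] at h1
      linarith
    have r3 : s * α (i - 1 - 1) + t * β (k - 1 - 1) = 0 := by
      have h1 := rel (σ * z * z)
      simp only [hX3, hY3, i1] at h1
      rw [ev α hα, ev β hβ] at h1
      linarith
    have hss := sign_sq hs
    have htt := sign_sq ht
    refine ⟨k - i, s * t, ?_, ?_, ?_⟩
    · rcases hs with rfl | rfl <;> rcases ht with rfl | rfl <;> norm_num
    · intro x
      have h1 : x = i ∨ x = i - 1 ∨ x = i - 1 - 1 := by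
        clear * -
        revert x i
        decide
      rcases h1 with rfl | rfl | rfl
      · rw [add_sub_cancel]
        linear_combination s * r1 - α x * hss
      · rw [show i - 1 + (k - i) = k - 1 by abel]
        linear_combination s * r2 - α (i - 1) * hss
      · rw [show i - 1 - 1 + (k - i) = k - 1 - 1 by abel]
        linear_combination s * r3 - α (i - 1 - 1) * hss
    · intro x
      rw [hi, hk]
      have h1 : x + (k - i) = k ↔ x = i := by
        clear * -
        revert x k i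
        decide
      simp only [h1]
      split_ifs
      · linear_combination (-t) * (1 - hss) + t - t
      · linear_combination t * (1 - hss) - t + t
  obtain ⟨m, ε, hε, hm1, hm2⟩ := loc 1
  have hβ0 : β ≠ 0 := by
    intro h
    apply h0
    funext x
    rw [hm1 x, h]
    simp
  refine ⟨m, ε, hε, fun σ x => ?_⟩
  obtain ⟨m', ε', hε', hm1', hm2'⟩ := loc σ
  have key : ∀ x, β x = (ε * ε') * β (x + (m' - m)) := by
    intro x
    have h1 := hm1 (x - m)
    have h2 := hm1' (x - m)
    rw [sub_add_cancel] at h1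
    rw [show x - m + m' = x + (m' - m) by abel] at h2
    have h3 : ε * β x = ε' * β (x + (m' - m)) := by linarith
    have h4 := sign_sq hε
    linear_combination ε * h3 - β x * h4
  have hE : ε * ε' = 1 ∨ ε * ε' = -1 := by
    rcases hε with rfl | rfl <;> rcases hε' with rfl | rfl <;> norm_num
  have hmm : m' = m := by
    by_contra hne
    have hδ : m' - m ≠ 0 := sub_ne_zero.2 hne
    set δ := m' - m
    apply hβ0
    funext x
    have k1 := key x
    have k2 := key (x + δ)
    have k3 := key (x + δ + δ)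
    rw [three_add] at k3
    have k4 := sum_three β x δ hδ
    rw [hβ] at k4
    change β x = 0
    rcases hE with h | h <;> rw [h] at k1 k2 k3 <;> linarith
  subst hmm
  have hee : ε' = ε := by
    rcases hE with h | h
    · rcases hε with rfl | rfl <;> rcases hε' with rfl | rfl
      all_goals first
        | rfl
        | (exfalso; norm_num at h)
    · exfalso
      apply hβ0
      funext x
      have k1 := key x
      rw [sub_self, add_zero, h] at k1
      change β x = 0
      linarith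
  rw [hm2' x, hee]

/-- Equal up to complements. -/
def pm (S T : Set G) : Prop := S = T ∨ S = Tᶜ

theorem pm.symm {S T : Set G} (h : pm S T) : pm T S := by
  rcases h with rfl | rfl
  · exact Or.inl rfl
  · exact Or.inr (compl_compl T).symm

theorem pm.trans {S T U : Set G} (h : pm S T) (h' : pm T U) : pm S U := by
  rcases h with rfl | rfl
  · exact h'
  · rcases h' with rfl | rfl
    · exact Or.inr rfl
    · exact Or.inl (compl_compl U)

theorem pm.tr {S T : Set G} (h : pm S T) (τ : G) : pm (tr τ S) (tr τ T) := by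
  rcases h with rfl | rfl
  · exact Or.inl rfl
  · exact Or.inr rfl

theorem pm.of_tr {S T : Set G} {τ : G} (h : pm (Pool.Agent.W547.LD.Comb.tr τ S)
    (Pool.Agent.W547.LD.Comb.tr τ T)) : pm S T := by
  rcases h with h | h
  · exact Or.inl (tr_injective τ h)
  · exact Or.inr (tr_injective τ h)

section six

variable {c : G} {Q : Set (Set G)} {z w : G}

theorem Cyc.not_pm (h : Cyc Q z) {S : Set G} (hS : S ∈ Q) : ¬ pm (tr z S) S := by
  rintro (h1 | h1)
  · exact h.ne S hS h1
  · exact h.ne_compl' hS h1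

theorem Cyc.cover (hQ : IsOrbit c Q) (h : Cyc Q z) {S : Set G} (hS : S ∈ Q) {U : Set G}
    (hU : U ∈ Q) : pm U S ∨ pm U (tr z S) ∨ pm U (tr z (tr z S)) := by
  obtain ⟨i, hi⟩ := (h.isRep hQ hS).cover U hU
  fin_cases i
  · exact Or.inl hi
  · exact Or.inr (Or.inl hi)
  · exact Or.inr (Or.inr hi)

theorem Cyc.sq (hQ : IsOrbit c Q) (h : Cyc Q z) : Cyc Q (z * z) where
  cube S hS := by
    rw [← tr_tr, ← tr_tr, ← tr_tr, h.cube _ (hQ.stable z S hS), h.cube S hS]
  ne S hS h1 := by
    rw [← tr_tr] at h1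
    have h2 := h.cube S hS
    rw [h1] at h2
    exact h.ne S hS h2

theorem cyc_step (hQ : IsOrbit c Q) (hz : Cyc Q z) (hw : Cyc Q w) {S : Set G} (hS : S ∈ Q)
    (h : pm (tr w S) (tr z S)) : pm (tr w (tr z S)) (tr z (tr z S)) ∧
      pm (tr w (tr z (tr z S))) S := by
  have hzS := hQ.stable z S hS
  have hzzS := hQ.stable z _ hzS
  have h1 : pm (tr w (tr z S)) (tr z (tr z S)) := by
    rcases hz.cover hQ hS (hQ.stable w _ hzS) with h1 | h1 | h1
    · exfalso
      have h2 : pm (tr w (tr w S)) S := (h.tr w).trans h1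
      have h3 := h2.tr w
      rw [hw.cube S hS] at h3
      exact hw.not_pm hS h3.symm
    · exact absurd h1 (hw.not_pm hzS)
    · exact h1
  refine ⟨h1, ?_⟩
  rcases hz.cover hQ hS (hQ.stable w _ hzzS) with h2 | h2 | h2
  · exact h2
  · exfalso
    have h3 : pm (tr z (tr z S)) S := (h2.trans h.symm).of_tr
    have h4 := h3.tr z
    rw [hz.cube S hS] at h4
    exact hz.not_pm hS h4.symm
  · exact absurd h2 (hw.not_pm hzzS)

/-- The non-mixed case. -/
def NotMixed (Q : Set (Set G)) : Prop :=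
  ∀ τ : G, (∀ S ∈ Q, pm (tr τ S) S) → (∀ S ∈ Q, tr τ S = S) ∨ ∀ S ∈ Q, tr τ S = Sᶜ

theorem cyc_eq (hQ : IsOrbit c Q) (hnm : NotMixed Q) (hz : Cyc Q z) (hw : Cyc Q w) {S : Set G}
    (hS : S ∈ Q) (h : pm (tr w S) (tr z S)) {U : Set G} (hU : U ∈ Q) : tr w U = tr z U := by
  obtain ⟨h1, h2⟩ := cyc_step hQ hz hw hS h
  have hmem : ∀ U ∈ Q, tr z U ∈ Q := fun U hU => hQ.stable z U hU
  have h3 : ∀ U ∈ Q, pm (tr (w * (z * z)) U) U := by
    have k0 : pm (tr (w * (z * z)) S) S := by
      rw [← tr_tr, ← tr_tr]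
      exact h2
    have k1 : pm (tr (w * (z * z)) (tr z S)) (tr z S) := by
      rw [← tr_tr, ← tr_tr, hz.cube S hS]
      exact h
    have k2 : pm (tr (w * (z * z)) (tr z (tr z S))) (tr z (tr z S)) := by
      rw [← tr_tr, ← tr_tr, hz.cube _ (hmem S hS)]
      exact h1
    intro U hU
    rcases hz.cover hQ hS hU with h4 | h4 | h4
    · exact ((h4.tr _).trans k0).trans h4.symm
    · exact ((h4.tr _).trans k1).trans h4.symm
    · exact ((h4.tr _).trans k2).trans h4.symm
  have hz3 : ∀ U ∈ Q, tr (z * z) (tr z U) = U := fun U hU => by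
    rw [← tr_tr]
    exact hz.cube U hU
  rcases hnm _ h3 with h4 | h4
  · have h5 := h4 _ (hmem U hU)
    rw [← tr_tr, hz3 U hU] at h5
    exact h5
  · exfalso
    have h5 : ∀ U ∈ Q, tr w U = (tr z U)ᶜ := by
      intro U hU
      have h6 := h4 _ (hmem U hU)
      rw [← tr_tr, hz3 U hU] at h6
      exact h6
    have h6 := hw.cube U hU
    rw [h5 U hU, tr_compl, h5 _ (hmem U hU), compl_compl, h5 _ (hmem _ (hmem U hU)),
      hz.cube U hU] at h6
    exact ne_compl U h6.symm

theorem Cyc.conj (hQ : IsOrbit c Q) (hz : Cyc Q z) (τ : G) : Cyc Q (τ * z * τ⁻¹) where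
  cube S hS := by
    have h1 := hz.cube _ (hQ.stable τ⁻¹ S hS)
    have h2 : tr (τ * z * τ⁻¹) (tr (τ * z * τ⁻¹) (tr (τ * z * τ⁻¹) S)) =
        tr τ (tr z (tr z (tr z (tr τ⁻¹ S)))) := by
      simp only [tr_tr]
      congr 1
      group
    rw [h2, h1, tr_tr_inv]
  ne S hS h := by
    apply hz.ne _ (hQ.stable τ⁻¹ S hS)
    rw [← tr_tr, ← tr_tr] at h
    apply tr_injective τ
    rw [h, tr_tr_inv]

/-- The commutation of an element with the cycle. -/
def Comm (Q : Set (Set G)) (z τ : G) : Prop :=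
  (∀ U ∈ Q, tr τ (tr z U) = tr z (tr τ U)) ∨ ∀ U ∈ Q, tr τ (tr z U) = tr z (tr z (tr τ U))

theorem comm_all (hQ : IsOrbit c Q) (hnm : NotMixed Q) (hz : Cyc Q z) (hne : Q.Nonempty) (τ : G) :
    Comm Q z τ := by
  obtain ⟨S, hS⟩ := hne
  have hw := hz.conj hQ τ
  have hc : ∀ V, tr (τ * z * τ⁻¹) (tr τ V) = tr τ (tr z V) := by
    intro V
    simp only [tr_tr]
    congr 1
    group
  rcases hz.cover hQ hS (hQ.stable (τ * z * τ⁻¹) S hS) with h | h | h
  · exact absurd h (hw.not_pm hS)
  · left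
    intro U hU
    rw [← hc, cyc_eq hQ hnm hz hw hS h (hQ.stable τ U hU)]
  · right
    intro U hU
    rw [tr_tr] at h
    rw [← hc, cyc_eq hQ hnm (hz.sq hQ) hw hS h (hQ.stable τ U hU), ← tr_tr]

theorem comm_transfer {Q' : Set (Set G)} (hQ : IsOrbit c Q) (hQ' : IsOrbit c Q')
    (hker : kerP Q = kerP Q') {τ : G} (h : Comm Q z τ) : Comm Q' z τ := by
  rcases h with h | h
  · left
    have h1 : (z * τ)⁻¹ * (τ * z) ∈ kerP Q := by
      intro S hS
      rw [← tr_tr, ← tr_tr, h S hS, tr_tr z τ, tr_inv_tr]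
    rw [hker] at h1
    intro U hU
    have h2 := h1 U hU
    rw [← tr_tr] at h2
    have h3 := congrArg (tr (z * τ)) h2
    rw [tr_tr_inv] at h3
    rw [tr_tr, tr_tr]
    exact h3
  · right
    have h1 : (z * (z * τ))⁻¹ * (τ * z) ∈ kerP Q := by
      intro S hS
      rw [← tr_tr, ← tr_tr, h S hS, tr_tr z τ, tr_tr z (z * τ), tr_inv_tr]
    rw [hker] at h1
    intro U hU
    have h2 := h1 U hU
    rw [← tr_tr] at h2
    have h3 := congrArg (tr (z * (z * τ))) h2
    rw [tr_tr_inv] at h3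
    rw [tr_tr τ z, tr_tr z τ, tr_tr z (z * τ)]
    exact h3

/-- The three signs are not all equal. -/
theorem not_const (hQ : IsOrbit c Q) (hz : Cyc Q z) (hcomm : ∀ τ, Comm Q z τ) {S : Set G}
    (hS : S ∈ Q) (σ₀ : G) : ¬ (eps (tr z S) σ₀ = eps S σ₀ ∧ eps (tr z (tr z S)) σ₀ = eps S σ₀) := by
  rintro ⟨h1, h2⟩
  apply hz.ne S hS
  -- the values of the elements of the orbit
  have hval : ∀ T ∈ Q, eps (tr z T) σ₀ = eps T σ₀ ∧ eps (tr z (tr z T)) σ₀ = eps T σ₀ := by
    intro T hT
    have hk : ∀ T, (T = S ∨ T = tr z S ∨ T = tr z (tr z S)) →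
        eps (tr z T) σ₀ = eps T σ₀ ∧ eps (tr z (tr z T)) σ₀ = eps T σ₀ := by
      rintro T (rfl | rfl | rfl)
      · exact ⟨h1, h2⟩
      · rw [hz.cube S hS, h1, h2]
        exact ⟨rfl, rfl⟩
      · rw [hz.cube S hS, h1, h2]
        exact ⟨rfl, rfl⟩
    rcases hz.cover hQ hS hT with (h | h) | (h | h) | (h | h)
    · exact hk T (Or.inl h)
    · rw [h, tr_compl, tr_compl, eps_compl, eps_compl, eps_compl, h1, h2]
      exact ⟨rfl, rfl⟩
    · exact hk T (Or.inr (Or.inl h))
    · have h3 := hk _ (Or.inr (Or.inl rfl))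
      rw [h, tr_compl, tr_compl, eps_compl, eps_compl, eps_compl, h3.1, h3.2]
      exact ⟨rfl, rfl⟩
    · exact hk T (Or.inr (Or.inr h))
    · have h3 := hk _ (Or.inr (Or.inr rfl))
      rw [h, tr_compl, tr_compl, eps_compl, eps_compl, eps_compl, h3.1, h3.2]
      exact ⟨rfl, rfl⟩
  ext σ
  apply mem_iff_of_eps
  set τ := σ₀⁻¹ * σ with hτ
  have e1 : ∀ T, eps (tr τ T) σ₀ = eps T σ := fun T => by rw [eps_tr, hτ, mul_inv_cancel_left]
  rw [← e1, ← e1]
  have h3 := hval _ (hQ.stable τ S hS)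
  rcases hcomm τ with h | h
  · rw [h S hS, h3.1]
  · rw [h S hS, h3.2]

end six

theorem cyc3_succ {c : G} {Q : Set (Set G)} {z : G} (hz : Cyc Q z) {S : Set G} (hS : S ∈ Q)
    (x : Fin 3) : tr z (cyc3 z S x) = cyc3 z S (x + 1) := by
  fin_cases x
  · rfl
  · rfl
  · exact hz.cube S hS

section six2

variable {c : G} {Q : Set (Set G)} {z : G}

/-- The three signs: one of them is different from the two others. -/
theorem minority (hQ : IsOrbit c Q) (hz : Cyc Q z) (hcomm : ∀ τ, Comm Q z τ) {S : Set G}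
    (hS : S ∈ Q) (σ : G) : ∃ (i : Fin 3) (s : ℚ), (s = 1 ∨ s = -1) ∧
      ∀ x, eps (cyc3 z S x) σ = s * (if x = i then -1 else 1) := by
  have h0 := not_const hQ hz hcomm hS σ
  have e0 : eps (cyc3 z S 0) σ = eps S σ := rfl
  have e1 : eps (cyc3 z S 1) σ = eps (tr z S) σ := rfl
  have e2 : eps (cyc3 z S 2) σ = eps (tr z (tr z S)) σ := rfl
  rcases eps_cases S σ with a | a <;> rcases eps_cases (tr z S) σ with b | b <;>
    rcases eps_cases (tr z (tr z S)) σ with d | d
  · exact absurd ⟨b.trans a.symm, d.trans a.symm⟩ h0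
  · refine ⟨2, 1, Or.inl rfl, fun x => ?_⟩
    fin_cases x
    · exact a.trans (by simp)
    · exact b.trans (by simp)
    · exact d.trans (by simp)
  · refine ⟨1, 1, Or.inl rfl, fun x => ?_⟩
    fin_cases x
    · exact a.trans (by simp)
    · exact b.trans (by simp)
    · exact d.trans (by simp)
  · refine ⟨0, -1, Or.inr rfl, fun x => ?_⟩
    fin_cases x
    · exact a.trans (by simp)
    · exact b.trans (by simp)
    · exact d.trans (by simp)
  · refine ⟨0, 1, Or.inl rfl, fun x => ?_⟩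
    fin_cases x
    · exact a.trans (by simp)
    · exact b.trans (by simp)
    · exact d.trans (by simp)
  · refine ⟨1, -1, Or.inr rfl, fun x => ?_⟩
    fin_cases x
    · exact a.trans (by simp)
    · exact b.trans (by simp)
    · exact d.trans (by simp)
  · refine ⟨2, -1, Or.inr rfl, fun x => ?_⟩
    fin_cases x
    · exact a.trans (by simp)
    · exact b.trans (by simp)
    · exact d.trans (by simp)
  · exact absurd ⟨b.trans a.symm, d.trans a.symm⟩ h0

/-- The sum over a cycle. -/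
def usum (z : G) (T : Set G) : G → ℚ := eps T + eps (tr z T) + eps (tr z (tr z T))

theorem usum_compl (z : G) (T : Set G) : usum z Tᶜ = -usum z T := by
  unfold usum
  rw [tr_compl, tr_compl, eps_compl', eps_compl', eps_compl']
  abel

theorem usum_tr (hz : Cyc Q z) {T : Set G} (hT : T ∈ Q) : usum z (tr z T) = usum z T := by
  unfold usum
  rw [hz.cube T hT]
  abel

theorem usum_mem (hQ : IsOrbit c Q) (hz : Cyc Q z) {S T : Set G} (hS : S ∈ Q) (hT : T ∈ Q) :
    usum z T = usum z S ∨ usum z T = -usum z S := by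
  have h1 := usum_tr hz hS
  have h2 : usum z (tr z (tr z S)) = usum z S := by rw [usum_tr hz (hQ.stable z S hS), h1]
  rcases hz.cover hQ hS hT with (h | h) | (h | h) | (h | h)
  · exact Or.inl (by rw [h])
  · exact Or.inr (by rw [h, usum_compl])
  · exact Or.inl (by rw [h, h1])
  · exact Or.inr (by rw [h, usum_compl, h1])
  · exact Or.inl (by rw [h, h2])
  · exact Or.inr (by rw [h, usum_compl, h2])

theorem rtr_usum (hQ : IsOrbit c Q) (hz : Cyc Q z) {τ : G} (hcomm : Comm Q z τ) {S : Set G}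
    (hS : S ∈ Q) : rtr τ (usum z S) = usum z (tr τ S) := by
  unfold usum
  rw [map_add, map_add, rtr_eps, rtr_eps, rtr_eps]
  have hzS := hQ.stable z S hS
  have hτS := hQ.stable τ S hS
  rcases hcomm with h | h
  · rw [h _ hzS, h S hS]
  · rw [h _ hzS, h S hS, hz.cube _ (hQ.stable z _ hτS)]
    abel

theorem usum_QQ (hc : ∀ g, c * g = g * c) (hQ : IsOrbit c Q) (hz : Cyc Q z)
    (hcomm : ∀ τ, Comm Q z τ) {S : Set G} (hS : S ∈ Q) : usum z S ∈ QQ c := by
  have hpm : ∀ τ, rtr τ (usum z S) = usum z S ∨ rtr τ (usum z S) = -usum z S := fun τ => by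
    rw [rtr_usum hQ hz (hcomm τ) hS]
    exact usum_mem hQ hz hS (hQ.stable τ S hS)
  have hcu : rtr c (usum z S) = -usum z S := by
    rw [rtr_usum hQ hz (hcomm c) hS, tr_c hc (hQ.half S hS), usum_compl]
  have hne : usum z S ≠ -usum z S := by
    intro h
    obtain ⟨i, s, hs, hi⟩ := minority hQ hz hcomm hS 1
    have h1 := congrFun h 1
    have h2 : usum z S 1 = eps (cyc3 z S 0) 1 + eps (cyc3 z S 1) 1 + eps (cyc3 z S 2) 1 := rfl
    rw [Pi.neg_apply, h2, hi, hi, hi] at h1
    fin_cases i <;> rcases hs with rfl | rfl <;> simp at h1 <;> norm_num at h1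
  let N : Subgroup G :=
    { carrier := {τ | rtr τ (usum z S) = usum z S}
      one_mem' := rtr_one _
      mul_mem' := fun {a b} ha hb => by
        change rtr (a * b) _ = _
        rw [← rtr_rtr, show rtr b (usum z S) = usum z S from hb]
        exact ha
      inv_mem' := fun {a} ha => by
        change rtr a⁻¹ _ = _
        have h1 : rtr a (usum z S) = usum z S := ha
        calc rtr a⁻¹ (usum z S) = rtr a⁻¹ (rtr a (usum z S)) := by rw [h1]
          _ = usum z S := by rw [rtr_rtr, inv_mul_cancel, rtr_one] }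
  have hN : Imag c N := by
    constructor
    · intro h
      have h1 : rtr c (usum z S) = usum z S := h
      rw [hcu] at h1
      exact hne h1.symm
    · intro τ hτ
      have h1 : rtr τ (usum z S) = -usum z S := (hpm τ).resolve_left hτ
      change rtr (c * τ) (usum z S) = usum z S
      rw [← rtr_rtr, h1, map_neg, hcu, neg_neg]
  rw [eq_smul_eps hN (fun τ hτ => hτ) (fun σ => by
    have h1 := congrFun hcu σ
    rw [rtr_apply, ← hc σ] at h1
    exact h1)]
  exact Submodule.smul_mem _ _ (eps_mem_QQ hN)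

end six2

/-- **Two orbits with six elements and the same kernel are independent in the non-mixed case.** -/
theorem pair6 {c : G} (hc : ∀ g, c * g = g * c) {Q Q' : Set (Set G)} (hQ : IsOrbit c Q)
    (hQ' : IsOrbit c Q') (h6 : Q.ncard = 6) (h6' : Q'.ncard = 6) (hker : kerP Q = kerP Q')
    (hnm : NotMixed Q) (hne : Q ≠ Q') {F F' : G → ℚ} (hF : F ∈ VV Q) (hF' : F' ∈ VV Q')
    (hq : F + F' ∈ QQ c) : F ∈ QQ c := by
  classical
  have nonempty : ∀ {Q : Set (Set G)}, Q.ncard = 6 → Q.Nonempty := by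
    intro Q h
    rw [Set.nonempty_iff_ne_empty]
    rintro rfl
    rw [Set.ncard_empty] at h
    omega
  obtain ⟨z, hz⟩ := exists_cyc hQ h6
  have hz' : Cyc Q' z := hz.transfer hQ hQ' (nonempty h6) hker
  have hcomm : ∀ τ, Comm Q z τ := comm_all hQ hnm hz (nonempty h6)
  have hcomm' : ∀ τ, Comm Q' z τ := fun τ => comm_transfer hQ hQ' hker (hcomm τ)
  obtain ⟨S, hS⟩ := nonempty h6
  obtain ⟨T, hT⟩ := nonempty h6'
  obtain ⟨a, rfl⟩ := (hz.isRep hQ hS).exists_coef hF
  obtain ⟨b, rfl⟩ := (hz'.isRep hQ' hT).exists_coef hF'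
  have shift : ∀ {Q : Set (Set G)}, Cyc Q z → ∀ {S : Set G}, S ∈ Q → ∀ a : Fin 3 → ℚ,
      rtr z (∑ x, a x • eps (cyc3 z S x)) = ∑ x, a x • eps (cyc3 z S (x + 1)) := by
    intro Q hz S hS a
    rw [map_sum]
    refine Finset.sum_congr rfl fun x _ => ?_
    rw [map_smul, rtr_eps, cyc3_succ (c := c) hz hS]
  have shift3 : ∀ {Q : Set (Set G)}, Cyc Q z → ∀ {S : Set G}, S ∈ Q → ∀ a : Fin 3 → ℚ,
      rtr z (rtr z (rtr z (∑ x, a x • eps (cyc3 z S x)))) = ∑ x, a x • eps (cyc3 z S x) := by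
    intro Q hz S hS a
    rw [map_sum, map_sum, map_sum]
    refine Finset.sum_congr rfl fun x _ => ?_
    rw [map_smul, map_smul, map_smul, rtr_eps, rtr_eps, rtr_eps, cyc3_succ (c := c) hz hS,
      cyc3_succ (c := c) hz hS, cyc3_succ (c := c) hz hS, three_add]
  -- the sum is invariant under `z`
  have hinv : rtr z (∑ x, a x • eps (cyc3 z S x) + ∑ x, b x • eps (cyc3 z T x)) =
      ∑ x, a x • eps (cyc3 z S x) + ∑ x, b x • eps (cyc3 z T x) := by
    have h1 := rtr_sq_QQ hc z hq
    have h2 : rtr z (rtr z (rtr z (∑ x, a x • eps (cyc3 z S x) + ∑ x, b x • eps (cyc3 z T x)))) =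
        ∑ x, a x • eps (cyc3 z S x) + ∑ x, b x • eps (cyc3 z T x) := by
      rw [map_add, map_add, map_add, shift3 hz hS, shift3 hz' hT]
    rw [h1] at h2
    exact h2
  rw [map_add, shift hz hS, shift hz' hT] at hinv
  let α : Fin 3 → ℚ := fun x => a x - a (x - 1)
  let β : Fin 3 → ℚ := fun x => b x - b (x - 1)
  have hsum : ∀ a : Fin 3 → ℚ, ∑ x, (a x - a (x - 1)) = 0 := by
    intro a
    rw [Finset.sum_sub_distrib, sub_eq_zero]
    exact (Fintype.sum_equiv (Equiv.subRight (1 : Fin 3)) _ _ fun x => rfl).symm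
  have hrel : ∀ σ, ∑ x, α x * eps (cyc3 z S x) σ + ∑ x, β x * eps (cyc3 z T x) σ = 0 := by
    intro σ
    have h1 := congrFun hinv σ
    simp only [Pi.add_apply, Finset.sum_apply, Pi.smul_apply, smul_eq_mul] at h1
    have h2 : ∀ (a : Fin 3 → ℚ) (S : Set G), ∑ x, a (x - 1) * eps (cyc3 z S x) σ =
        ∑ x, a x * eps (cyc3 z S (x + 1)) σ := by
      intro a S
      refine (Fintype.sum_equiv (Equiv.addRight (1 : Fin 3)) _ _ fun x => ?_).symm
      change _ = a (x + 1 - 1) * _
      rw [add_sub_cancel_right]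
      rfl
    change ∑ x, (a x - a (x - 1)) * _ + ∑ x, (b x - b (x - 1)) * _ = 0
    simp only [sub_mul, Finset.sum_sub_distrib]
    rw [h2, h2]
    linarith
  have hα : α = 0 := by
    by_contra h0
    obtain ⟨m, ε, hε, hm⟩ := tri z (fun x σ => eps (cyc3 z S x) σ) (fun x σ => eps (cyc3 z T x) σ)
      (fun x σ => by rw [← eps_tr, cyc3_succ (c := c) hz hS])
      (fun x σ => by rw [← eps_tr, cyc3_succ (c := c) hz' hT])
      (minority hQ hz hcomm hS) (minority hQ' hz' hcomm' hT) α β (hsum a) (hsum b) hrel h0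
    apply hne
    have h1 : ∀ σ, eps (cyc3 z T m) σ = ε * eps S σ := by
      intro σ
      have h2 := hm σ 0
      rw [zero_add] at h2
      exact h2
    have hTm := cyc3_mem (z := z) hQ' hT m
    rcases hε with rfl | rfl
    · have h3 : cyc3 z T m = S := by
        ext σ
        exact mem_iff_of_eps (by rw [h1 σ, one_mul])
      rw [h3] at hTm
      exact orbit_eq hQ hQ' hS hTm
    · have h3 : cyc3 z T m = Sᶜ := by
        ext σ
        exact mem_iff_of_eps (by rw [h1 σ, eps_compl]; ring)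
      rw [h3] at hTm
      exact orbit_eq hQ hQ' (hQ.compl S hS) hTm
  have ha : ∀ x, a x = a 0 := by
    have k1 : a 1 - a 0 = 0 := congrFun hα 1
    have k2 : a 2 - a 1 = 0 := congrFun hα 2
    intro x
    fin_cases x
    · rfl
    · change a 1 = a 0
      linarith
    · change a 2 = a 0
      linarith
  have h1 : ∑ x, a x • eps (cyc3 z S x) = a 0 • usum z S := by
    rw [Fin.sum_univ_three, ha 1, ha 2]
    unfold usum
    rw [smul_add, smul_add]
    rfl
  rw [h1]
  exact Submodule.smul_mem _ _ (usum_QQ hc hQ hz hcomm hS)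

end

end Pool.Agent.K4H29.HC
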