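import Pool.Agent.K4H29.HC.Act

/-!
# Two orbits of half systems with four elements and the same kernel
-/

set_option linter.unusedSectionVars false
set_option linter.unusedVariables false

namespace Pool.Agent.K4H29.HC

open Finset Pool.Agent.W547.LD.Comb

noncomputable section

variable {G : Type} [Group G] [Fintype G]

/-- Two functions. -/
def two (S T : Set G) : Fin 2 → Set G := ![S, T]

theorem two_inj {S T : Set G} (h1 : T ≠ S) : Function.Injective (two S T) := by
  intro i k h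
  fin_cases i <;> fin_cases k
  · rfl
  · exact absurd (show S = T from h).symm h1
  · exact absurd (show T = S from h) h1
  · rfl

theorem two_ne {S T : Set G} (h2 : T ≠ Sᶜ) (i k : Fin 2) : two S T i ≠ (two S T k)ᶜ := by
  have h3 : S ≠ Tᶜ := fun h => h2 (by rw [h, compl_compl])
  fin_cases i <;> fin_cases k
  · exact ne_compl S
  · exact h3
  · exact h2
  · exact ne_compl T

theorem two_rep {c : G} {Q : Set (Set G)} (hQ : IsOrbit c Q) (h4 : Q.ncard = 4) {S T : Set G}
    (hS : S ∈ Q) (hT : T ∈ Q) (h1 : T ≠ S) (h2 : T ≠ Sᶜ) : IsRep Q (two S T) := by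
  refine isRep_of_card hQ.compl _ (fun i => ?_) (two_inj h1) (two_ne h2) ?_
  · fin_cases i
    · exact hS
    · exact hT
  · rw [Fintype.card_fin]
    omega

theorem two_cover {c : G} {Q : Set (Set G)} (hQ : IsOrbit c Q) (h4 : Q.ncard = 4) {S T : Set G}
    (hS : S ∈ Q) (hT : T ∈ Q) (h1 : T ≠ S) (h2 : T ≠ Sᶜ) {U : Set G} (hU : U ∈ Q) :
    U = S ∨ U = Sᶜ ∨ U = T ∨ U = Tᶜ := by
  obtain ⟨i, hi⟩ := (two_rep hQ h4 hS hT h1 h2).cover U hU
  fin_cases i
  · rcases hi with hi | hi
    · exact Or.inl hi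
    · exact Or.inr (Or.inl hi)
  · rcases hi with hi | hi
    · exact Or.inr (Or.inr (Or.inl hi))
    · exact Or.inr (Or.inr (Or.inr hi))

theorem exists_other {Q : Set (Set G)} (h2 : 2 < Q.ncard) (S : Set G) :
    ∃ T ∈ Q, T ≠ S ∧ T ≠ Sᶜ := by
  by_contra hcon
  push Not at hcon
  have h1 : Q ⊆ {S, Sᶜ} := by
    intro T hT
    by_cases h : T = S
    · exact Or.inl h
    · exact Or.inr (hcon T hT h)
  have h3 := Set.ncard_le_ncard h1 (Set.toFinite _)
  have h4 := Set.ncard_insert_le S {Sᶜ}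
  rw [Set.ncard_singleton] at h4
  omega

theorem mem_iff_of_eps {S T : Set G} {σ τ : G} (h : eps S σ = eps T τ) : σ ∈ S ↔ τ ∈ T := by
  unfold eps at h
  split_ifs at h with h1 h2 h2
  · exact iff_of_true h1 h2
  · norm_num at h
  · norm_num at h
  · exact iff_of_false h1 h2

/-- An element whose square is the complex conjugation. -/
theorem exists_sq {c : G} {Q : Set (Set G)} (hQ : IsOrbit c Q) (h4 : Q.ncard = 4) :
    ∃ g : G, ∀ S ∈ Q, tr g (tr g S) = Sᶜ := by
  obtain ⟨S, hS⟩ : Q.Nonempty := by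
    rw [Set.nonempty_iff_ne_empty]
    intro h
    rw [h, Set.ncard_empty] at h4
    omega
  obtain ⟨T, hT, h1, h2⟩ := exists_other (Q := Q) (by omega) S
  have hcov : ∀ U ∈ Q, U = S ∨ U = Sᶜ ∨ U = T ∨ U = Tᶜ := fun U hU =>
    two_cover hQ h4 hS hT h1 h2 hU
  -- it is enough to look at two elements
  have suff : ∀ g : G, tr g (tr g S) = Sᶜ → tr g (tr g T) = Tᶜ → ∃ g : G, ∀ S ∈ Q,
      tr g (tr g S) = Sᶜ := by
    intro g e1 e2
    refine ⟨g, fun U hU => ?_⟩
    rcases hcov U hU with rfl | rfl | rfl | rfl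
    · exact e1
    · rw [tr_compl, tr_compl, e1]
    · exact e2
    · rw [tr_compl, tr_compl, e2]
  obtain ⟨g₁, hg₁⟩ := hQ.trans S hS T hT
  have hg₁T := hQ.stable g₁ T hT
  have n1 : tr g₁ T ≠ T := by
    intro h
    rw [← h] at hg₁
    exact h1 (tr_injective g₁ hg₁).symm
  have n2 : tr g₁ T ≠ Tᶜ := by
    intro h
    rw [← hg₁, ← tr_compl] at h
    have := tr_injective g₁ h
    rw [hg₁] at this
    exact h2 this
  have h3 : tr g₁ T = S ∨ tr g₁ T = Sᶜ := by
    rcases hcov _ hg₁T with h | h | h | h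
    · exact Or.inl h
    · exact Or.inr h
    · exact absurd h n1
    · exact absurd h n2
  rcases h3 with h3 | h3
  swap
  · exact suff g₁ (by rw [hg₁, h3]) (by rw [h3, tr_compl, hg₁])
  -- the transposition: use points with different signs
  obtain ⟨σ₁, hσ₁⟩ := exists_eq (S := S) (T := T) (fun h => h2 (by rw [h, compl_compl]))
  obtain ⟨σ₂, hσ₂⟩ := exists_ne h1.symm
  set τ := σ₁⁻¹ * σ₂ with hτ
  have e1 : eps (tr τ S) σ₁ = eps S σ₂ := by rw [eps_tr, hτ, mul_inv_cancel_left]
  have e2 : eps (tr τ T) σ₁ = eps T σ₂ := by rw [eps_tr, hτ, mul_inv_cancel_left]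
  have e3 : eps (tr τ S) σ₁ = -eps (tr τ T) σ₁ := by rw [e1, e2, hσ₂]
  have e0 : eps S σ₁ ≠ -eps T σ₁ := by
    rw [hσ₁]
    rcases eps_cases T σ₁ with h | h <;> rw [h] <;> norm_num
  have e0' : eps T σ₁ ≠ -eps S σ₁ := by
    rw [hσ₁]
    rcases eps_cases T σ₁ with h | h <;> rw [h] <;> norm_num
  have m1 := hcov _ (hQ.stable τ S hS)
  have m2 := hcov _ (hQ.stable τ T hT)
  have k1 : tr τ S ≠ tr τ T := fun h => h1 (tr_injective τ h).symm
  have k2 : tr τ S ≠ (tr τ T)ᶜ := by
    intro h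
    rw [← tr_compl] at h
    apply h2
    rw [tr_injective τ h, compl_compl]
  have c1 : (Sᶜ)ᶜ = S := compl_compl S
  have c2 : (Tᶜ)ᶜ = T := compl_compl T
  rcases m1 with a | a | a | a <;> rcases m2 with b | b | b | b
  all_goals first
    | exact absurd (a.trans b.symm) k1
    | exact absurd (a.trans (congrArg compl b).symm) k2
    | exact absurd (a.trans (c1.symm.trans (congrArg compl b).symm)) k2
    | exact absurd (a.trans (c2.symm.trans (congrArg compl b).symm)) k2
    | skip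
  all_goals rw [a, b] at e3
  all_goals try simp only [eps_compl, neg_neg] at e3
  all_goals first
    | exact absurd e3 e0
    | exact absurd e3.symm e0
    | exact absurd e3.symm e0'
    | exact absurd e3 e0'
    | exact absurd (neg_injective e3.symm).symm e0'
    | skip
  · exact suff (g₁ * τ) (by simp only [← tr_tr, a, b, tr_compl, hg₁, h3])
      (by simp only [← tr_tr, a, b, tr_compl, hg₁, h3])
  · exact suff (g₁ * τ) (by simp only [← tr_tr, a, b, tr_compl, hg₁, h3, c1, c2])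
      (by simp only [← tr_tr, a, b, tr_compl, hg₁, h3, c1, c2])
  · exact suff τ (by simp only [a, b, tr_compl, c1, c2]) (by simp only [a, b, tr_compl, c1, c2])
  · exact suff τ (by simp only [a, b, tr_compl, c1, c2]) (by simp only [a, b, tr_compl, c1, c2])

theorem rtr_sq_QQ {c : G} (hc : ∀ g, c * g = g * c) (g : G) {q : G → ℚ} (hq : q ∈ QQ c) :
    rtr g (rtr g q) = q := by
  refine Submodule.span_induction (p := fun q _ => rtr g (rtr g q) = q) ?_ ?_ ?_ ?_ hq
  · rintro _ ⟨N, hN, rfl⟩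
    have h1 : g * g ∈ N := (hN.mul_mem_iff hc).2 Iff.rfl
    rw [rtr_rtr, rtr_eps, Imag.tr_mem (c := c) h1]
  · rw [map_zero, map_zero]
  · intro x y _ _ hx hy
    rw [map_add, map_add, hx, hy]
  · intro a x _ hx
    rw [map_smul, map_smul, hx]

theorem rtr_sq_VV {Q : Set (Set G)} {g : G} (hg : ∀ S ∈ Q, tr g (tr g S) = Sᶜ) {F : G → ℚ}
    (hF : F ∈ VV Q) : rtr g (rtr g F) = -F := by
  refine Submodule.span_induction (p := fun F _ => rtr g (rtr g F) = -F) ?_ ?_ ?_ ?_ hF
  · rintro _ ⟨S, hS, rfl⟩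
    rw [rtr_eps, rtr_eps, hg S hS, eps_compl']
  · rw [map_zero, map_zero, neg_zero]
  · intro x y _ _ hx hy
    rw [map_add, map_add, hx, hy]
    abel
  · intro a x _ hx
    rw [map_smul, map_smul, hx, smul_neg]

/-- Orbits which have a common element are equal. -/
theorem orbit_eq {c : G} {Q Q' : Set (Set G)} (hQ : IsOrbit c Q) (hQ' : IsOrbit c Q') {S : Set G}
    (h : S ∈ Q) (h' : S ∈ Q') : Q = Q' := by
  ext T
  constructor
  · intro hT
    obtain ⟨g, rfl⟩ := hQ.trans S h T hT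
    exact hQ'.stable g S h'
  · intro hT
    obtain ⟨g, rfl⟩ := hQ'.trans S h' T hT
    exact hQ.stable g S h

/-- **Two orbits with four elements and the same kernel are independent.** -/
theorem pair4 {c : G} (hc : ∀ g, c * g = g * c) {Q Q' : Set (Set G)} (hQ : IsOrbit c Q)
    (hQ' : IsOrbit c Q') (h4 : Q.ncard = 4) (h4' : Q'.ncard = 4) (hker : kerP Q = kerP Q')
    (hne : Q ≠ Q') {F F' : G → ℚ} (hF : F ∈ VV Q) (hF' : F' ∈ VV Q') (hq : F + F' ∈ QQ c) :
    F = 0 := by
  classical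
  obtain ⟨g, hg⟩ := exists_sq hQ h4
  have hcent : ∀ S ∈ Q, tr c S = Sᶜ := fun S hS => tr_c hc (hQ.half S hS)
  have hg' : ∀ S ∈ Q', tr g (tr g S) = Sᶜ := by
    have h1 : c * (g * g) ∈ kerP Q := by
      intro S hS
      rw [← tr_tr, ← tr_tr, hg S hS, tr_compl, hcent S hS, compl_compl]
    rw [hker] at h1
    intro S hS
    have h2 := h1 S hS
    rw [← tr_tr, ← tr_tr, tr_c hc (((hQ'.half S hS).tr g).tr g)] at h2
    rw [← h2, compl_compl, h2]
  -- the sum is zero
  have h0 : F + F' = 0 := by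
    have h1 := rtr_sq_QQ hc g hq
    rw [map_add, map_add, rtr_sq_VV hg hF, rtr_sq_VV hg' hF'] at h1
    have h2 : (2 : ℚ) • (F + F') = 0 := by
      rw [two_smul]
      nth_rewrite 1 [← h1]
      abel
    exact (smul_eq_zero.1 h2).resolve_left two_ne_zero
  have basis : ∀ {Q : Set (Set G)}, IsOrbit c Q → Q.ncard = 4 → (∀ S ∈ Q, tr g (tr g S) = Sᶜ) →
      ∃ S ∈ Q, IsRep Q (two S (tr g S)) := by
    intro Q hQ h4 hg
    obtain ⟨S, hS⟩ : Q.Nonempty := by
      rw [Set.nonempty_iff_ne_empty]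
      intro h
      rw [h, Set.ncard_empty] at h4
      omega
    refine ⟨S, hS, two_rep hQ h4 hS (hQ.stable g S hS) ?_ ?_⟩
    · intro h
      have h1 := hg S hS
      rw [h, h] at h1
      exact ne_compl S h1
    · intro h
      have h1 := hg S hS
      rw [h, tr_compl, h, compl_compl] at h1
      exact ne_compl S h1
  obtain ⟨S, hS, hr⟩ := basis hQ h4 hg
  obtain ⟨T, hT, hr'⟩ := basis hQ' h4' hg'
  obtain ⟨a, rfl⟩ := hr.exists_coef hF
  obtain ⟨b, rfl⟩ := hr'.exists_coef hF'
  have e1 : ∀ σ, a 0 * eps S σ + a 1 * eps (tr g S) σ + (b 0 * eps T σ + b 1 * eps (tr g T) σ) = 0 := by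
    intro σ
    have h1 := congrFun h0 σ
    simpa [Fin.sum_univ_two, two] using h1
  have e2 : ∀ σ, a 0 * eps (tr g S) σ - a 1 * eps S σ +
      (b 0 * eps (tr g T) σ - b 1 * eps T σ) = 0 := by
    intro σ
    have h1 := e1 (σ * g)
    rw [← eps_tr g S, ← eps_tr g T, ← eps_tr g (tr g S), ← eps_tr g (tr g T), hg S hS,
      hg' T hT, eps_compl, eps_compl] at h1
    linarith
  -- signs
  have sS : ∀ σ, eps S σ * eps S σ = 1 := fun σ => by
    rcases eps_cases S σ with h | h <;> rw [h] <;> norm_num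
  by_cases hb : b 0 ^ 2 + b 1 ^ 2 = 0
  · have hb0 : b 0 = 0 := by nlinarith [sq_nonneg (b 0), sq_nonneg (b 1)]
    have hb1 : b 1 = 0 := by nlinarith [sq_nonneg (b 0), sq_nonneg (b 1)]
    have h1 := e1 1
    have h2 := e2 1
    rw [hb0, hb1] at h1 h2
    have h3 : (a 0 ^ 2 + a 1 ^ 2) * eps S 1 = 0 := by linear_combination a 0 * h1 - a 1 * h2
    have h4 : a 0 ^ 2 + a 1 ^ 2 = 0 := by
      rcases mul_eq_zero.1 h3 with h | h
      · exact h
      · rcases eps_cases S 1 with h5 | h5 <;> rw [h5] at h <;> norm_num at h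
    have ha0 : a 0 = 0 := by nlinarith [sq_nonneg (a 0), sq_nonneg (a 1)]
    have ha1 : a 1 = 0 := by nlinarith [sq_nonneg (a 0), sq_nonneg (a 1)]
    simp [Fin.sum_univ_two, ha0, ha1]
  · exfalso
    set N := b 0 ^ 2 + b 1 ^ 2 with hN
    set u := -(a 0 * b 0 + a 1 * b 1) / N with hu
    set v := -(a 1 * b 0 - a 0 * b 1) / N with hv
    have key : ∀ σ, eps T σ = u * eps S σ + v * eps (tr g S) σ := by
      intro σ
      have h1 := e1 σ
      have h2 := e2 σ
      have h3 : N * eps T σ = -(a 0 * b 0 + a 1 * b 1) * eps S σ +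
          -(a 1 * b 0 - a 0 * b 1) * eps (tr g S) σ := by
        rw [hN]
        linear_combination b 0 * h1 - b 1 * h2
      rw [hu, hv]
      field_simp
      linear_combination h3
    have n1 : S ≠ tr g S := fun h => by
      have := hr.inj (a₁ := 0) (a₂ := 1) h
      exact absurd this (by decide)
    have n2 : S ≠ (tr g S)ᶜ := hr.ne 0 1
    obtain ⟨σ₁, h1⟩ := exists_eq n2
    obtain ⟨σ₂, h2⟩ := exists_ne n1
    have k1 := key σ₁
    have k2 := key σ₂
    rw [← h1] at k1
    have h2' : eps (tr g S) σ₂ = -eps S σ₂ := by rw [h2, neg_neg]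
    rw [h2'] at k2
    have f1 : (u + v) ^ 2 = 1 := by
      have h3 : eps T σ₁ = (u + v) * eps S σ₁ := by rw [k1]; ring
      have h4 : eps T σ₁ * eps T σ₁ = 1 := by
        rcases eps_cases T σ₁ with h | h <;> rw [h] <;> norm_num
      rw [h3] at h4
      linear_combination h4 - (u + v) ^ 2 * sS σ₁
    have f2 : (u - v) ^ 2 = 1 := by
      have h3 : eps T σ₂ = (u - v) * eps S σ₂ := by rw [k2]; ring
      have h4 : eps T σ₂ * eps T σ₂ = 1 := by
        rcases eps_cases T σ₂ with h | h <;> rw [h] <;> norm_num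
      rw [h3] at h4
      linear_combination h4 - (u - v) ^ 2 * sS σ₂
    have f3 : u * v = 0 := by linear_combination (f1 - f2) / 4
    have ext : ∀ (U : Set G) (e : ℚ), (∀ σ, eps T σ = e * eps U σ) → U ∈ Q → (e = 1 ∨ e = -1) →
        False := by
      intro U e he hU hee
      apply hne
      rcases hee with rfl | rfl
      · have h3 : T = U := by
          ext σ
          exact mem_iff_of_eps (by rw [he σ, one_mul])
        exact orbit_eq hQ hQ' (h3 ▸ hU) hT
      · have h3 : T = Uᶜ := by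
          ext σ
          exact mem_iff_of_eps (by rw [he σ, eps_compl]; ring)
        exact orbit_eq hQ hQ' (h3 ▸ hQ.compl U hU) hT
    rcases mul_eq_zero.1 f3 with h | h
    · refine ext (tr g S) v (fun σ => by rw [key σ, h]; ring) (hQ.stable g S hS) ?_
      rw [h, zero_add] at f1
      exact sq_eq_sq_iff_eq_or_eq_neg.1 (by rw [f1]; norm_num)
    · refine ext S u (fun σ => by rw [key σ, h]; ring) hS ?_
      rw [h, add_zero] at f1
      exact sq_eq_sq_iff_eq_or_eq_neg.1 (by rw [f1]; norm_num)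

end

end Pool.Agent.K4H29.HC
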